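import Mathlib

set_option autoImplicit false

namespace Pool.Agent.W5h8.Flat

open Finset
open scoped Classical

variable {V : Type*} [Fintype V]

/-- the edges of the relation `R`, as 2-element sets -/
noncomputable def edg (R : V → V → Prop) : Finset (Finset V) :=
  (univ.powersetCard 2).filter (fun e => ∃ x ∈ e, ∃ y ∈ e, R x y)

/-- the independent triples of the relation `R` -/
noncomputable def ind3 (R : V → V → Prop) : Finset (Finset V) :=
  (univ.powersetCard 3).filter (fun T => ∀ x ∈ T, ∀ y ∈ T, ¬ R x y)

/-- number of edges plus number of independent triples -/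
noncomputable def val (R : V → V → Prop) : ℤ := ((edg R).card : ℤ) + ((ind3 R).card : ℤ)

theorem val_bot {R : V → V → Prop} (hR : ∀ u v, ¬ R u v) :
    val R = ((Fintype.card V).choose 3 : ℤ) := by
  have h1 : edg R = ∅ := by
    unfold edg
    rw [Finset.filter_eq_empty_iff]
    rintro e - ⟨x, -, y, -, h⟩
    exact hR _ _ h
  have h2 : ind3 R = univ.powersetCard 3 := by
    unfold ind3
    rw [Finset.filter_eq_self]
    intro T _ x _ y _ h
    exact hR _ _ h
  unfold val
  rw [h1, h2, card_powersetCard]
  simp

theorem add_edge {R R' : V → V → Prop} (hs : ∀ u v, R u v → R v u) (hi : ∀ u, ¬ R u u)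
    {x y : V} (hxy : x ≠ y) (hn : ¬ R x y)
    (hR : ∀ u v, R' u v ↔ R u v ∨ (u = x ∧ v = y) ∨ (u = y ∧ v = x)) :
    val R' = val R + 1 - ((univ.filter (fun z => z ≠ x ∧ z ≠ y ∧ ¬ R x z ∧ ¬ R y z)).card : ℤ) := by
  have hn' : ¬ R y x := fun h => hn (hs _ _ h)
  have h1 : edg R' = insert {x, y} (edg R) := by
    ext e
    simp only [edg, mem_insert, mem_filter, mem_powersetCard_univ]
    constructor
    · rintro ⟨hc, u, hu, v, hv, h⟩
      rcases (hR u v).1 h with h | ⟨rfl, rfl⟩ | ⟨rfl, rfl⟩
      · exact Or.inr ⟨hc, u, hu, v, hv, h⟩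
      · left
        symm
        apply Finset.eq_of_subset_of_card_le
        · intro z hz
          rcases Finset.mem_insert.1 hz with rfl | hz
          · exact hu
          · rw [Finset.mem_singleton.1 hz]; exact hv
        · rw [hc, card_pair hxy]
      · left
        symm
        apply Finset.eq_of_subset_of_card_le
        · intro z hz
          rcases Finset.mem_insert.1 hz with rfl | hz
          · exact hv
          · rw [Finset.mem_singleton.1 hz]; exact hu
        · rw [hc, card_pair hxy]
    · rintro (rfl | ⟨hc, u, hu, v, hv, h⟩)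
      · refine ⟨card_pair hxy, x, by simp, y, by simp, (hR _ _).2 (Or.inr (Or.inl ⟨rfl, rfl⟩))⟩
      · exact ⟨hc, u, hu, v, hv, (hR _ _).2 (Or.inl h)⟩
  have h2 : ({x, y} : Finset V) ∉ edg R := by
    simp only [edg, mem_filter, not_and]
    rintro - ⟨u, hu, v, hv, h⟩
    simp only [mem_insert, mem_singleton] at hu hv
    rcases hu with rfl | rfl <;> rcases hv with rfl | rfl
    · exact hi _ h
    · exact hn h
    · exact hn' h
    · exact hi _ h
  set Z := univ.filter (fun z => z ≠ x ∧ z ≠ y ∧ ¬ R x z ∧ ¬ R y z) with hZ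
  have h3 : ind3 R = ind3 R' ∪ Z.image (fun z => ({x, y, z} : Finset V)) := by
    ext T
    simp only [ind3, mem_union, mem_filter, mem_powersetCard_univ, mem_image]
    constructor
    · rintro ⟨hc, h⟩
      by_cases hT : x ∈ T ∧ y ∈ T
      · right
        have hsub : ({x, y} : Finset V) ⊆ T := by
          intro z hz
          rcases Finset.mem_insert.1 hz with rfl | hz
          · exact hT.1
          · rw [Finset.mem_singleton.1 hz]; exact hT.2
        have hcard : (T \ {x, y}).card = 1 := by
          rw [card_sdiff_of_subset hsub, hc, card_pair hxy]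
        obtain ⟨z, hz⟩ := Finset.card_eq_one.1 hcard
        have hzT : z ∈ T \ {x, y} := by rw [hz]; simp
        rw [mem_sdiff] at hzT
        have hz2 : z ≠ x ∧ z ≠ y := by
          constructor
          · rintro rfl; exact hzT.2 (by simp)
          · rintro rfl; exact hzT.2 (by simp)
        refine ⟨z, ?_, ?_⟩
        · rw [hZ, mem_filter]
          exact ⟨mem_univ _, hz2.1, hz2.2, h x hT.1 z hzT.1, h y hT.2 z hzT.1⟩
        · have : T = {x, y} ∪ (T \ {x, y}) := by
            rw [Finset.union_sdiff_of_subset hsub]
          rw [this, hz]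
          ext w
          simp only [mem_insert, mem_singleton, mem_union]
          tauto
      · left
        refine ⟨hc, fun u hu v hv huv => ?_⟩
        rcases (hR u v).1 huv with h' | ⟨rfl, rfl⟩ | ⟨rfl, rfl⟩
        · exact h u hu v hv h'
        · exact hT ⟨hu, hv⟩
        · exact hT ⟨hv, hu⟩
    · rintro (⟨hc, h⟩ | ⟨z, hz, rfl⟩)
      · exact ⟨hc, fun u hu v hv huv => h u hu v hv ((hR _ _).2 (Or.inl huv))⟩
      · rw [hZ, mem_filter] at hz
        obtain ⟨-, hzx, hzy, h1, h2⟩ := hz
        refine ⟨?_, ?_⟩
        · rw [card_eq_three]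
          exact ⟨x, y, z, hxy, hzx.symm, hzy.symm, rfl⟩
        · intro u hu v hv huv
          simp only [mem_insert, mem_singleton] at hu hv
          rcases hu with rfl | rfl | rfl <;> rcases hv with rfl | rfl | rfl
          · exact hi _ huv
          · exact hn huv
          · exact h1 huv
          · exact hn' huv
          · exact hi _ huv
          · exact h2 huv
          · exact h1 (hs _ _ huv)
          · exact h2 (hs _ _ huv)
          · exact hi _ huv
  have h4 : Disjoint (ind3 R') (Z.image (fun z => ({x, y, z} : Finset V))) := by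
    rw [Finset.disjoint_left]
    intro T hT hT2
    obtain ⟨z, -, rfl⟩ := mem_image.1 hT2
    simp only [ind3, mem_filter] at hT
    exact hT.2 x (by simp) y (by simp) ((hR _ _).2 (Or.inr (Or.inl ⟨rfl, rfl⟩)))
  have h5 : (Z.image (fun z => ({x, y, z} : Finset V))).card = Z.card := by
    apply Finset.card_image_of_injOn
    intro z hz w hw hzw
    rw [hZ] at hz hw
    simp only [coe_filter, Set.mem_ofPred_eq] at hz hw
    have hzw' : ({x, y, z} : Finset V) = {x, y, w} := hzw
    have : z ∈ ({x, y, w} : Finset V) := by
      rw [← hzw']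
      simp
    simp only [mem_insert, mem_singleton] at this
    rcases this with h | h | h
    · exact absurd h hz.2.1
    · exact absurd h hz.2.2.1
    · exact h
  unfold val
  rw [h1, card_insert_of_notMem h2, h3, card_union_of_disjoint h4, h5]
  push_cast
  ring

/-- counting form -/
theorem add_edge' {R R' : V → V → Prop} (hs : ∀ u v, R u v → R v u) (hi : ∀ u, ¬ R u u)
    {x y : V} (hxy : x ≠ y) (hn : ¬ R x y)
    (hR : ∀ u v, R' u v ↔ R u v ∨ (u = x ∧ v = y) ∨ (u = y ∧ v = x)) {k : ℕ}
    (hk : (univ.filter (fun z => R x z ∨ R y z)).card = k) :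
    val R' = val R - ((Fintype.card V : ℤ) - 3) + k := by
  have hn' : ¬ R y x := fun h => hn (hs _ _ h)
  have h1 : (univ.filter (fun z => z ≠ x ∧ z ≠ y ∧ ¬ R x z ∧ ¬ R y z)) =
      univ \ (univ.filter (fun z => R x z ∨ R y z) ∪ {x, y}) := by
    ext z
    simp only [mem_filter, mem_univ, true_and, mem_sdiff, mem_union, mem_insert, mem_singleton]
    tauto
  have h2 : Disjoint (univ.filter (fun z => R x z ∨ R y z)) ({x, y} : Finset V) := by
    rw [Finset.disjoint_left]
    intro z hz hz2
    simp only [mem_filter, mem_univ, true_and, mem_insert, mem_singleton] at hz hz2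
    rcases hz2 with rfl | rfl
    · rcases hz with h | h
      · exact hi _ h
      · exact hn' h
    · rcases hz with h | h
      · exact hn h
      · exact hi _ h
  have h3 : (univ.filter (fun z => z ≠ x ∧ z ≠ y ∧ ¬ R x z ∧ ¬ R y z)).card + (k + 2) =
      Fintype.card V := by
    rw [h1, card_sdiff_of_subset (subset_univ _), card_union_of_disjoint h2, hk, card_pair hxy,
      card_univ]
    have : k + 2 ≤ Fintype.card V := by
      rw [← hk, ← card_pair hxy, ← card_union_of_disjoint h2]
      exact card_le_univ _
    omega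
  rw [add_edge hs hi hxy hn hR]
  have h4 : ((univ.filter (fun z => z ≠ x ∧ z ≠ y ∧ ¬ R x z ∧ ¬ R y z)).card : ℤ) + (k + 2) =
      (Fintype.card V : ℤ) := by exact_mod_cast h3
  linarith

end Pool.Agent.W5h8.Flat
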