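import Mathlib
import Pool.Agent.W5h8.FlatA

set_option autoImplicit false

namespace Pool.Agent.W5h8.Flat

open Finset
open scoped Classical

theorem cardU {N : ℕ} {P : Fin N → Prop} [DecidablePred P] (S : Finset ℕ) (hS : ∀ z ∈ S, z < N)
    (h : ∀ z : Fin N, P z ↔ z.val ∈ S) : (univ.filter P).card = S.card := by
  have : (univ.filter P).map Fin.valEmbedding = S := by
    ext z
    simp only [mem_map, mem_filter, mem_univ, true_and, Fin.valEmbedding_apply]
    constructor
    · rintro ⟨w, hw, rfl⟩
      exact (h w).1 hw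
    · intro hz
      exact ⟨⟨z, hS z hz⟩, (h _).2 hz, rfl⟩
  rw [← this, card_map]

/-- the oriented edges of the construction: a star at `0`, a star at `1`, a matching -/
def B (N a c d k : ℕ) (u v : ℕ) : Prop :=
  (u = 0 ∧ N ≤ v + a ∧ 1 ≤ v) ∨ (u = 1 ∧ N ≤ v + c) ∨ (u = 1 ∧ 2 ≤ v ∧ v < 2 + d) ∨
    (2 + d ≤ u ∧ v = u + 1 ∧ (u - d) % 2 = 0 ∧ u < 2 + d + 2 * k)

/-- the graph of the construction -/
def R (N a c d k : ℕ) (u v : Fin N) : Prop := B N a c d k u.val v.val ∨ B N a c d k v.val u.val

theorem R_symm {N a c d k : ℕ} (u v : Fin N) (h : R N a c d k u v) : R N a c d k v u := Or.symm h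


theorem B_a {N a : ℕ} {u v : ℕ} (hu : u < N) (hv : v < N) (ha : a + 2 ≤ N) :
    B N (a + 1) 0 0 0 u v ↔ B N a 0 0 0 u v ∨ (u = 0 ∧ v = N - 1 - a) := by
  unfold B
  constructor
  · rintro (⟨h1, h2, h3⟩ | ⟨h1, h2⟩ | ⟨h1, h2, h3⟩ | ⟨h1, h2, h3, h4⟩) <;> omega
  · rintro ((⟨h1, h2, h3⟩ | ⟨h1, h2⟩ | ⟨h1, h2, h3⟩ | ⟨h1, h2, h3, h4⟩) | ⟨h1, h2⟩) <;> omega

theorem B_c {N a c : ℕ} {u v : ℕ} (hu : u < N) (hv : v < N) (hc : c + 2 ≤ N) :
    B N a (c + 1) 0 0 u v ↔ B N a c 0 0 u v ∨ (u = 1 ∧ v = N - 1 - c) := by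
  unfold B
  constructor
  · rintro (⟨h1, h2, h3⟩ | ⟨h1, h2⟩ | ⟨h1, h2, h3⟩ | ⟨h1, h2, h3, h4⟩) <;> omega
  · rintro ((⟨h1, h2, h3⟩ | ⟨h1, h2⟩ | ⟨h1, h2, h3⟩ | ⟨h1, h2, h3, h4⟩) | ⟨h1, h2⟩) <;> omega

theorem B_d {N a c d : ℕ} {u v : ℕ} :
    B N a c (d + 1) 0 u v ↔ B N a c d 0 u v ∨ (u = 1 ∧ v = 2 + d) := by
  unfold B
  constructor
  · rintro (⟨h1, h2, h3⟩ | ⟨h1, h2⟩ | ⟨h1, h2, h3⟩ | ⟨h1, h2, h3, h4⟩) <;> omega
  · rintro ((⟨h1, h2, h3⟩ | ⟨h1, h2⟩ | ⟨h1, h2, h3⟩ | ⟨h1, h2, h3, h4⟩) | ⟨h1, h2⟩) <;> omega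

theorem B_k {N a c d k : ℕ} {u v : ℕ} :
    B N a c d (k + 1) u v ↔ B N a c d k u v ∨ (u = 2 + d + 2 * k ∧ v = 2 + d + 2 * k + 1) := by
  unfold B
  constructor
  · rintro (⟨h1, h2, h3⟩ | ⟨h1, h2⟩ | ⟨h1, h2, h3⟩ | ⟨h1, h2, h3, h4⟩) <;> omega
  · rintro ((⟨h1, h2, h3⟩ | ⟨h1, h2⟩ | ⟨h1, h2, h3⟩ | ⟨h1, h2, h3, h4⟩) | ⟨h1, h2⟩) <;> omega

theorem R_of_B {N a c d k a' c' d' k' : ℕ} {x y : Fin N}
    (h : ∀ u v : ℕ, u < N → v < N → (B N a' c' d' k' u v ↔ B N a c d k u v ∨
      (u = x.val ∧ v = y.val))) (u v : Fin N) :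
    R N a' c' d' k' u v ↔ R N a c d k u v ∨ (u = x ∧ v = y) ∨ (u = y ∧ v = x) := by
  unfold R
  rw [h _ _ u.2 v.2, h _ _ v.2 u.2]
  simp only [Fin.ext_iff]
  tauto

theorem choose_two_succ (a : ℕ) : ((a + 1).choose 2 : ℤ) = a.choose 2 + a := by
  have := Nat.choose_succ_succ' a 1
  rw [Nat.choose_one_right] at this
  have h : (a + 1).choose (1 + 1) = (a + 1).choose 2 := rfl
  rw [h] at this
  rw [this]
  push_cast
  ring


theorem val_star (N a : ℕ) (ha : a + 1 ≤ N) :
    val (R N a 0 0 0) = (N.choose 3 : ℤ) - ((N : ℤ) - 3) * a + a.choose 2 := by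
  induction a with
  | zero =>
    rw [val_bot]
    · simp
    · intro u v
      have hu := u.2
      have hv := v.2
      simp only [R, B]
      omega
  | succ a ih =>
    have h1 := ih (by omega)
    have h2 := @add_edge' (Fin N) _ (R N a 0 0 0) (R N (a + 1) 0 0 0) (fun u v h => R_symm u v h)
      (by intro u; have := u.2; simp only [R, B]; omega)
      ⟨0, by omega⟩ ⟨N - 1 - a, by omega⟩ (by rw [Ne, Fin.ext_iff]; simp only; omega)
      (by simp only [R, B]; omega)
      (R_of_B fun u v hu hv => B_a hu hv (by omega)) (k := a)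
      (by
        rw [cardU (Ico (N - a) N) (fun z hz => (mem_Ico.1 hz).2)]
        · rw [Nat.card_Ico]; omega
        · intro z
          have hz := z.2
          simp only [R, mem_Ico]
          constructor
          · rintro ((h | h) | (h | h)) <;> unfold B at h <;> rcases h with h | h | h | h <;> omega
          · intro h
            left; left; left
            omega)
    rw [h2, h1, choose_two_succ, Fintype.card_fin]
    push_cast
    ring

theorem val_shared (N a c : ℕ) (ha : a + 2 ≤ N) (hc : c ≤ a) :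
    val (R N a c 0 0) = (N.choose 3 : ℤ) - ((N : ℤ) - 3) * (a + c) + a.choose 2 +
      (c.choose 2 + c) := by
  induction c with
  | zero =>
    rw [val_star N a (by omega)]
    simp
  | succ c ih =>
    have h1 := ih (by omega)
    have h2 := @add_edge' (Fin N) _ (R N a c 0 0) (R N a (c + 1) 0 0) (fun u v h => R_symm u v h)
      (by intro u; have := u.2; simp only [R, B]; omega)
      ⟨1, by omega⟩ ⟨N - 1 - c, by omega⟩ (by rw [Ne, Fin.ext_iff]; simp only; omega)
      (by simp only [R, B]; omega)
      (R_of_B fun u v hu hv => B_c hu hv (by omega)) (k := c + 1)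
      (by
        rw [cardU (insert 0 (Ico (N - c) N)) (by
          intro z hz; simp only [mem_insert, mem_Ico] at hz; omega)]
        · rw [card_insert_of_notMem (by simp only [mem_Ico]; omega), Nat.card_Ico]
          omega
        · intro z
          have hz := z.2
          simp only [R, mem_insert, mem_Ico]
          constructor
          · rintro ((h | h) | (h | h)) <;> unfold B at h <;> rcases h with h | h | h | h <;> omega
          · rintro (h | h)
            · right; right; left
              omega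
            · left; left; right; left
              omega)
    rw [h2, h1, choose_two_succ, Fintype.card_fin]
    push_cast
    ring

theorem val_second (N a c d : ℕ) (ha : a + 2 + d ≤ N) (hc : c ≤ a) :
    val (R N a c d 0) = (N.choose 3 : ℤ) - ((N : ℤ) - 3) * (a + c + d) + a.choose 2 +
      (c + (c + d).choose 2) := by
  induction d with
  | zero =>
    rw [val_shared N a c (by omega) hc]
    simp
    ring
  | succ d ih =>
    have h1 := ih (by omega)
    have h2 := @add_edge' (Fin N) _ (R N a c d 0) (R N a c (d + 1) 0) (fun u v h => R_symm u v h)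
      (by
        intro u
        have := u.2
        simp only [R]
        rintro (h | h) <;> unfold B at h <;> rcases h with h | h | h | h <;> omega)
      ⟨1, by omega⟩ ⟨2 + d, by omega⟩ (by rw [Ne, Fin.ext_iff]; simp only; omega)
      (by
        simp only [R]
        rintro (h | h) <;> unfold B at h <;> rcases h with h | h | h | h <;> omega)
      (R_of_B fun u v _ _ => B_d) (k := c + d)
      (by
        rw [cardU (Ico 2 (2 + d) ∪ Ico (N - c) N) (by
          intro z hz; simp only [mem_union, mem_Ico] at hz; omega)]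
        · have h4 : Disjoint (Ico 2 (2 + d)) (Ico (N - c) N) := by
            rw [Finset.disjoint_left]
            intro z
            simp only [mem_Ico]
            omega
          rw [card_union_of_disjoint h4, Nat.card_Ico, Nat.card_Ico]
          omega
        · intro z
          have hz := z.2
          simp only [R, mem_union, mem_Ico]
          constructor
          · rintro ((h | h) | (h | h)) <;> unfold B at h <;> rcases h with h | h | h | h <;> omega
          · rintro (h | h)
            · left; left; right; right; left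
              omega
            · left; left; right; left
              omega)
    have h5 : (((c + (d + 1)).choose 2 : ℕ) : ℤ) = (c + d).choose 2 + (c + d : ℕ) := by
      rw [← add_assoc, choose_two_succ]
    rw [h2, h1, h5, Fintype.card_fin]
    push_cast
    ring

theorem val_R (N a c d k : ℕ) (ha : a + 2 + d + 2 * k ≤ N) (hc : c ≤ a) :
    val (R N a c d k) = (N.choose 3 : ℤ) - ((N : ℤ) - 3) * (a + c + d + k) + a.choose 2 +
      (c + (c + d).choose 2) := by
  induction k with
  | zero =>
    rw [val_second N a c d (by omega) hc]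
    simp
  | succ k ih =>
    have h1 := ih (by omega)
    have h2 := @add_edge' (Fin N) _ (R N a c d k) (R N a c d (k + 1)) (fun u v h => R_symm u v h)
      (by
        intro u
        have := u.2
        simp only [R]
        rintro (h | h) <;> unfold B at h <;> rcases h with h | h | h | h <;> omega)
      ⟨2 + d + 2 * k, by omega⟩ ⟨2 + d + 2 * k + 1, by omega⟩
      (by rw [Ne, Fin.ext_iff]; simp only; omega)
      (by
        simp only [R]
        rintro (h | h) <;> unfold B at h <;> rcases h with h | h | h | h <;> omega)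
      (R_of_B fun u v _ _ => B_k) (k := 0)
      (by
        rw [Finset.card_eq_zero, Finset.filter_eq_empty_iff]
        intro z _
        have hz := z.2
        simp only [R]
        rintro ((h | h) | (h | h)) <;> unfold B at h <;> rcases h with h | h | h | h <;> omega)
    rw [h2, h1, Fintype.card_fin]
    push_cast
    ring

/-- every non-edge is contained in an independent triple -/
def Max {N : ℕ} (R : Fin N → Fin N → Prop) : Prop :=
  ∀ x y : Fin N, x ≠ y → ¬ R x y → ∃ z, z ≠ x ∧ z ≠ y ∧ ¬ R x z ∧ ¬ R y z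

end Pool.Agent.W5h8.Flat
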