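import Mathlib
import Pool.Agent.W5h8.FlatB

set_option autoImplicit false

namespace Pool.Agent.W5h8.Flat

open Finset
open scoped Classical

theorem exists_avoid {N : ℕ} (s : Finset (Fin N)) (h : s.card < N) : ∃ z, z ∉ s := by
  by_contra hcon
  push Not at hcon
  have : s = univ := by
    ext z; simp [hcon z]
  rw [this, card_univ, Fintype.card_fin] at h
  exact lt_irrefl _ h

theorem max_aux (N a c d k : ℕ) (h1 : a + 2 + d + 2 * k ≤ N) (hc : c ≤ a)
    (h2 : 1 ≤ k ∨ a + 3 + d ≤ N) (h3 : 6 ≤ N ∨ (5 ≤ N ∧ (c = 0 ∨ k = 0)))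
    (x y : Fin N) (hxy : x.val < y.val) (hn : ¬ R N a c d k x y) :
    ∃ z, z ≠ x ∧ z ≠ y ∧ ¬ R N a c d k x z ∧ ¬ R N a c d k y z := by
  have hx := x.2
  have hy := y.2
  have hn0 : x.val = 0 → ¬ N ≤ y.val + a := by
    intro h h'
    apply hn
    left; left
    omega
  have hn1 : x.val = 1 → ¬ N ≤ y.val + c ∧ ¬ (2 ≤ y.val ∧ y.val < 2 + d) := by
    intro h
    constructor
    · intro h'
      apply hn
      left; right; left
      omega
    · intro h'
      apply hn
      left; right; right; left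
      omega
  by_cases hS : 2 ≤ x.val ∧ N ≤ y.val + c
  · -- `y` is a shared leaf
    by_cases hI : 2 + d ≤ x.val ∧ x.val < 2 + d + 2 * k
    · have hN : 6 ≤ N := by omega
      obtain ⟨z, hz⟩ := exists_avoid ({⟨0, by omega⟩, ⟨1, by omega⟩, x, y,
        (if h : (x.val - d) % 2 = 0 ∧ x.val + 1 < N then ⟨x.val + 1, h.2⟩ else ⟨x.val - 1, by omega⟩)} :
        Finset (Fin N)) (lt_of_le_of_lt Finset.card_le_five (by omega))
      simp only [mem_insert, mem_singleton, not_or] at hz
      obtain ⟨hz0, hz1, hzx, hzy, hzp⟩ := hz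
      rw [Fin.ext_iff] at hz0 hz1 hzp
      have hzx' : z.val ≠ x.val := fun h => hzx (Fin.ext h)
      have hzy' : z.val ≠ y.val := fun h => hzy (Fin.ext h)
      simp only at hz0 hz1
      have hz := z.2
      refine ⟨z, hzx, hzy, ?_, ?_⟩
      · rintro (h | h) <;> unfold B at h <;> rcases h with h | h | h | h <;>
          first
            | omega
            | (split_ifs at hzp with hh <;> simp only at hzp <;> omega)
      · rintro (h | h) <;> unfold B at h <;> rcases h with h | h | h | h <;> omega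
    · have hN : 5 ≤ N := by omega
      obtain ⟨z, hz⟩ := exists_avoid ({⟨0, by omega⟩, ⟨1, by omega⟩, x, y} :
        Finset (Fin N)) (lt_of_le_of_lt Finset.card_le_four (by omega))
      simp only [mem_insert, mem_singleton, not_or] at hz
      obtain ⟨hz0, hz1, hzx, hzy⟩ := hz
      rw [Fin.ext_iff] at hz0 hz1
      have hzx' : z.val ≠ x.val := fun h => hzx (Fin.ext h)
      have hzy' : z.val ≠ y.val := fun h => hzy (Fin.ext h)
      simp only at hz0 hz1
      have hz := z.2
      refine ⟨z, hzx, hzy, ?_, ?_⟩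
      · rintro (h | h) <;> unfold B at h <;> rcases h with h | h | h | h <;> omega
      · rintro (h | h) <;> unfold B at h <;> rcases h with h | h | h | h <;> omega
  · -- the other cases: `z` is `0`, `1` or `2 + d`
    by_cases c1 : (x.val = 0 ∧ y.val < 2 + d) ∨ (x.val = 1 ∧ N ≤ y.val + a) ∨
        (2 ≤ x.val ∧ x.val < 2 + d ∧ N ≤ y.val + a)
    · refine ⟨⟨2 + d, by omega⟩, ?_, ?_, ?_, ?_⟩
      · rw [Ne, Fin.ext_iff]; simp only; omega
      · rw [Ne, Fin.ext_iff]; simp only; omega
      · rintro (h | h) <;> unfold B at h <;> simp only at h <;> rcases h with h | h | h | h <;> omega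
      · rintro (h | h) <;> unfold B at h <;> simp only at h <;> rcases h with h | h | h | h <;> omega
    · by_cases c2 : x.val = 0 ∨ (2 + d ≤ x.val ∧ N ≤ y.val + a)
      · refine ⟨⟨1, by omega⟩, ?_, ?_, ?_, ?_⟩
        · rw [Ne, Fin.ext_iff]; simp only; omega
        · rw [Ne, Fin.ext_iff]; simp only; omega
        · rintro (h | h) <;> unfold B at h <;> simp only at h <;> rcases h with h | h | h | h <;> omega
        · rintro (h | h) <;> unfold B at h <;> simp only at h <;> rcases h with h | h | h | h <;> omega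
      · refine ⟨⟨0, by omega⟩, ?_, ?_, ?_, ?_⟩
        · rw [Ne, Fin.ext_iff]; simp only; omega
        · rw [Ne, Fin.ext_iff]; simp only; omega
        · rintro (h | h) <;> unfold B at h <;> simp only at h <;> rcases h with h | h | h | h <;> omega
        · rintro (h | h) <;> unfold B at h <;> simp only at h <;> rcases h with h | h | h | h <;> omega

theorem max_R (N a c d k : ℕ) (h1 : a + 2 + d + 2 * k ≤ N) (hc : c ≤ a)
    (h2 : 1 ≤ k ∨ a + 3 + d ≤ N) (h3 : 6 ≤ N ∨ (5 ≤ N ∧ (c = 0 ∨ k = 0))) : Max (R N a c d k) := by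
  intro x y hxy hn
  rcases Nat.lt_or_ge x.val y.val with h | h
  · exact max_aux N a c d k h1 hc h2 h3 x y h hn
  · have h' : y.val < x.val := lt_of_le_of_ne h (fun e => hxy (Fin.ext e.symm))
    obtain ⟨z, z1, z2, z3, z4⟩ := max_aux N a c d k h1 hc h2 h3 y x h' (fun e => hn (R_symm _ _ e))
    exact ⟨z, z2, z1, z4, z3⟩

/-- the full star -/
theorem max_full (N : ℕ) (hN : 4 ≤ N) : Max (R N (N - 1) 0 0 0) := by
  intro x y hxy hn
  have hx := x.2
  have hy := y.2
  have hxy' : x.val ≠ y.val := fun h => hxy (Fin.ext h)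
  obtain ⟨z, hz⟩ := exists_avoid ({⟨0, by omega⟩, x, y} :
    Finset (Fin N)) (lt_of_le_of_lt Finset.card_le_three (by omega))
  simp only [mem_insert, mem_singleton, not_or] at hz
  obtain ⟨hz0, hzx, hzy⟩ := hz
  rw [Fin.ext_iff] at hz0
  simp only at hz0
  have hz := z.2
  have h0 : x.val ≠ 0 := by
    intro h; apply hn; left; left; omega
  have h0' : y.val ≠ 0 := by
    intro h; apply hn; right; left; omega
  refine ⟨z, hzx, hzy, ?_, ?_⟩
  · rintro (h | h) <;> unfold B at h <;> rcases h with h | h | h | h <;> omega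
  · rintro (h | h) <;> unfold B at h <;> rcases h with h | h | h | h <;> omega

/-! ### The path -/

/-- the path `0, 1, ..., t` -/
def P (N t : ℕ) (u v : Fin N) : Prop :=
  (v.val = u.val + 1 ∧ u.val < t) ∨ (u.val = v.val + 1 ∧ v.val < t)

theorem val_P (N t : ℕ) (ht : t + 1 ≤ N) :
    val (P N t) = (N.choose 3 : ℤ) - ((N : ℤ) - 3) * t + (t - 1 : ℕ) := by
  induction t with
  | zero =>
    rw [val_bot]
    · simp
    · intro u v
      simp only [P]
      omega
  | succ t ih =>
    have h1 := ih (by omega)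
    have h2 := @add_edge' (Fin N) _ (P N t) (P N (t + 1)) (fun u v h => Or.symm h)
      (by intro u; simp only [P]; omega)
      ⟨t, by omega⟩ ⟨t + 1, by omega⟩ (by rw [Ne, Fin.ext_iff]; simp only; omega)
      (by simp only [P]; omega)
      (by
        intro u v
        simp only [P, Fin.ext_iff]
        omega) (k := (t + 1 - 1) - (t - 1))
      (by
        rw [cardU (Ico (t - 1) (t + 1 - 1)) (by
          intro z hz; simp only [mem_Ico] at hz; omega)]
        · rw [Nat.card_Ico]
        · intro z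
          have hz := z.2
          simp only [P, mem_Ico]
          omega)
    rw [h2, h1, Fintype.card_fin]
    push_cast
    have : ((t + 1 - 1 - (t - 1) : ℕ) : ℤ) + ((t - 1 : ℕ) : ℤ) = ((t + 1 - 1 : ℕ) : ℤ) := by omega
    push_cast at this
    linarith

theorem max_P (t : ℕ) (ht : 2 ≤ t) : Max (P (2 * t + 1) t) := by
  intro x y hxy hn
  have hx := x.2
  have hy := y.2
  have hxy' : x.val ≠ y.val := fun h => hxy (Fin.ext h)
  simp only [P] at hn
  -- candidates: 2 t, 2 t - 1, 2 t - 2 or something in the path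
  by_cases h1 : x.val ≠ 2 * t ∧ y.val ≠ 2 * t
  · refine ⟨⟨2 * t, by omega⟩, ?_, ?_, ?_, ?_⟩
    · rw [Ne, Fin.ext_iff]; simp only; omega
    · rw [Ne, Fin.ext_iff]; simp only; omega
    · simp only [P]; omega
    · simp only [P]; omega
  · by_cases h2 : x.val ≠ 2 * t - 1 ∧ y.val ≠ 2 * t - 1
    · refine ⟨⟨2 * t - 1, by omega⟩, ?_, ?_, ?_, ?_⟩
      · rw [Ne, Fin.ext_iff]; simp only; omega
      · rw [Ne, Fin.ext_iff]; simp only; omega
      · simp only [P]; omega
      · simp only [P]; omega
    · refine ⟨⟨0, by omega⟩, ?_, ?_, ?_, ?_⟩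
      · rw [Ne, Fin.ext_iff]; simp only; omega
      · rw [Ne, Fin.ext_iff]; simp only; omega
      · simp only [P]; omega
      · simp only [P]; omega

end Pool.Agent.W5h8.Flat
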