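import Mathlib
import Pool.Agent.W5h8.FlatC

set_option autoImplicit false

namespace Pool.Agent.W5h8.Flat

open Finset
open scoped Classical

section lift

variable {N n : ℕ} (h : N ≤ n)

/-- the common part -/
noncomputable def K (N n : ℕ) : Finset (Fin n) := univ.filter (fun i : Fin n => N ≤ i.val)

/-- add the common part -/
noncomputable def J (h : N ≤ n) (e : Finset (Fin N)) : Finset (Fin n) :=
  K N n ∪ e.map (Fin.castLEEmb h)

/-- the part outside of the common part -/
noncomputable def pull (h : N ≤ n) (X : Finset (Fin n)) : Finset (Fin N) :=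
  univ.filter (fun i => Fin.castLE h i ∈ X)

theorem mem_J (e : Finset (Fin N)) (i : Fin n) :
    i ∈ J h e ↔ N ≤ i.val ∨ ∃ j ∈ e, j.val = i.val := by
  simp only [J, K, mem_union, mem_filter, mem_univ, true_and, mem_map, Fin.castLEEmb_apply]
  constructor
  · rintro (h1 | ⟨j, hj, rfl⟩)
    · exact Or.inl h1
    · exact Or.inr ⟨j, hj, rfl⟩
  · rintro (h1 | ⟨j, hj, h2⟩)
    · exact Or.inl h1
    · exact Or.inr ⟨j, hj, Fin.ext h2⟩

theorem J_subset {e e' : Finset (Fin N)} : J h e ⊆ J h e' ↔ e ⊆ e' := by
  constructor
  · intro hs j hj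
    have h1 : Fin.castLE h j ∈ J h e' := hs ((mem_J h e _).2 (Or.inr ⟨j, hj, rfl⟩))
    rcases (mem_J h e' _).1 h1 with h2 | ⟨j', hj', h2⟩
    · have := j.2
      simp only [Fin.val_castLE] at h2
      omega
    · simp only [Fin.val_castLE] at h2
      rw [← Fin.ext h2]
      exact hj'
  · intro hs i hi
    rcases (mem_J h e _).1 hi with h2 | ⟨j, hj, h2⟩
    · exact (mem_J h e' _).2 (Or.inl h2)
    · exact (mem_J h e' _).2 (Or.inr ⟨j, hs hj, h2⟩)

theorem J_inj : Function.Injective (J h) := by
  intro e e' he
  exact Finset.Subset.antisymm ((J_subset h).1 he.subset) ((J_subset h).1 he.symm.subset)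

theorem card_K : (K N n).card = n - N := by
  unfold K
  rw [cardU (Ico N n) (fun z hz => (mem_Ico.1 hz).2)]
  · rw [Nat.card_Ico]
  · intro z
    simp [z.2]

theorem card_J (e : Finset (Fin N)) : (J h e).card = (n - N) + e.card := by
  unfold J
  rw [card_union_of_disjoint, card_K, card_map]
  rw [Finset.disjoint_left]
  intro i hi hi2
  simp only [K, mem_filter, mem_univ, true_and] at hi
  obtain ⟨j, -, rfl⟩ := mem_map.1 hi2
  have := j.2
  simp only [Fin.castLEEmb_apply, Fin.val_castLE] at hi
  omega

theorem J_pull {X : Finset (Fin n)} (hX : K N n ⊆ X) : J h (pull h X) = X := by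
  ext i
  rw [mem_J]
  constructor
  · rintro (h1 | ⟨j, hj, h2⟩)
    · exact hX (by simp only [K, mem_filter, mem_univ, true_and]; exact h1)
    · simp only [pull, mem_filter, mem_univ, true_and] at hj
      have : Fin.castLE h j = i := Fin.ext h2
      rw [← this]; exact hj
  · intro hi
    by_cases hN : N ≤ i.val
    · exact Or.inl hN
    · right
      refine ⟨⟨i.val, by omega⟩, ?_, rfl⟩
      simp only [pull, mem_filter, mem_univ, true_and]
      exact hi

theorem K_subset_J (e : Finset (Fin N)) : K N n ⊆ J h e := subset_union_left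

end lift

theorem lift {N l n : ℕ} (hl : 2 ≤ l) (hn : n = N + (l - 2)) (hN : 4 ≤ N)
    (R : Fin N → Fin N → Prop) (hs : ∀ u v, R u v → R v u) (hi : ∀ u, ¬ R u u) (hM : Max R) :
    ∃ A : Finset (Finset (Fin n)), IsAntichain (· ⊆ ·) (A : Set (Finset (Fin n))) ∧
      (∀ s, s ∉ A → ∃ t ∈ A, s ⊆ t ∨ t ⊆ s) ∧ (∀ s ∈ A, s.card = l ∨ s.card = l + 1) ∧
      (A.card : ℤ) = (n.choose (l + 1) : ℤ) - (N.choose 3 : ℤ) + val R := by
  have h : N ≤ n := by omega
  set F := (edg R).image (J h) with hF
  set G := ((univ : Finset (Fin n)).powersetCard (l + 1)).filter (fun X => ∀ f ∈ F, ¬ f ⊆ X) with hG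
  have hFc : ∀ f ∈ F, f.card = l := by
    intro f hf
    obtain ⟨e, he, rfl⟩ := mem_image.1 hf
    rw [card_J]
    simp only [edg, mem_filter, mem_powersetCard_univ] at he
    rw [he.1]
    omega
  have hFK : ∀ f ∈ F, K N n ⊆ f := by
    intro f hf
    obtain ⟨e, he, rfl⟩ := mem_image.1 hf
    exact K_subset_J h e
  have hGm : ∀ X, X ∈ G ↔ X.card = l + 1 ∧ ∀ f ∈ F, ¬ f ⊆ X := by
    intro X
    rw [hG, mem_filter, mem_powersetCard_univ]
  have key : ∀ Y : Finset (Fin n), Y.card = l → Y ∉ F → ∃ X ∈ G, Y ⊆ X := by
    intro Y hY hYF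
    by_cases hK : K N n ⊆ Y
    · have hJ := J_pull h hK
      set e := pull h Y with he
      have hec : e.card = 2 := by
        have := card_J h e
        rw [hJ, hY] at this
        omega
      obtain ⟨x, y, hxy, hexy⟩ := card_eq_two.1 hec
      have hnR : ¬ R x y := by
        intro hR
        apply hYF
        rw [hF, mem_image]
        refine ⟨e, ?_, hJ⟩
        simp only [edg, mem_filter, mem_powersetCard_univ]
        exact ⟨hec, x, by rw [hexy]; simp, y, by rw [hexy]; simp, hR⟩
      obtain ⟨z, hzx, hzy, hxz, hyz⟩ := hM x y hxy hnR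
      refine ⟨J h {x, y, z}, ?_, ?_⟩
      · rw [hGm]
        refine ⟨?_, ?_⟩
        · rw [card_J, card_eq_three.2 ⟨x, y, z, hxy, hzx.symm, hzy.symm, rfl⟩]
          omega
        · intro f hf hfX
          obtain ⟨e', he', rfl⟩ := mem_image.1 hf
          rw [J_subset] at hfX
          simp only [edg, mem_filter, mem_powersetCard_univ] at he'
          obtain ⟨-, u, hu, v, hv, huv⟩ := he'
          have hu' := hfX hu
          have hv' := hfX hv
          simp only [mem_insert, mem_singleton] at hu' hv'
          rcases hu' with rfl | rfl | rfl <;> rcases hv' with rfl | rfl | rfl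
          · exact hi _ huv
          · exact hnR huv
          · exact hxz huv
          · exact hnR (hs _ _ huv)
          · exact hi _ huv
          · exact hyz huv
          · exact hxz (hs _ _ huv)
          · exact hyz (hs _ _ huv)
          · exact hi _ huv
      · rw [← hJ, J_subset, hexy]
        intro w hw
        simp only [mem_insert, mem_singleton] at hw ⊢
        tauto
    · obtain ⟨k0, hk0, hk1⟩ := Finset.not_subset.1 hK
      obtain ⟨x, hx⟩ := exists_avoid (insert k0 Y) (by
        have := card_insert_le k0 Y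
        omega)
      rw [mem_insert, not_or] at hx
      refine ⟨insert x Y, ?_, subset_insert _ _⟩
      rw [hGm]
      refine ⟨?_, ?_⟩
      · rw [card_insert_of_notMem hx.2, hY]
      · intro f hf hfX
        have := hfX (hFK f hf hk0)
        rw [mem_insert] at this
        rcases this with h1 | h1
        · exact hx.1 h1.symm
        · exact hk1 h1
  have hGc : ∀ X ∈ G, X.card = l + 1 := fun X hX => ((hGm X).1 hX).1
  have hdis : Disjoint F G := by
    rw [Finset.disjoint_left]
    intro X h1 h2
    have := hFc X h1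
    have := hGc X h2
    omega
  refine ⟨F ∪ G, ?_, ?_, ?_, ?_⟩
  · intro s hs1 t ht1 hst hsub
    rw [mem_coe, mem_union] at hs1 ht1
    have hsub' : s ⊆ t := hsub
    rcases hs1 with h1 | h1 <;> rcases ht1 with h2 | h2
    · exact hst (Finset.eq_of_subset_of_card_le hsub' (by rw [hFc s h1, hFc t h2]))
    · exact ((hGm t).1 h2).2 s h1 hsub'
    · have := card_le_card hsub'
      rw [hGc s h1, hFc t h2] at this
      omega
    · exact hst (Finset.eq_of_subset_of_card_le hsub' (by rw [hGc s h1, hGc t h2]))
  · intro s hsA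
    rcases Nat.lt_or_ge l s.card with hcs | hcs
    · obtain ⟨X, hXs, hXc⟩ := Finset.exists_subset_card_eq (show l + 1 ≤ s.card from hcs)
      by_cases hXG : X ∈ G
      · exact ⟨X, mem_union_right _ hXG, Or.inr hXs⟩
      · rw [hGm] at hXG
        push Not at hXG
        obtain ⟨f, hf, hfX⟩ := hXG hXc
        exact ⟨f, mem_union_left _ hf, Or.inr (hfX.trans hXs)⟩
    · obtain ⟨Y, hsY, hYc⟩ : ∃ Y, s ⊆ Y ∧ Y.card = l := by
        obtain ⟨Y, h1, h2⟩ := Finset.exists_superset_card_eq hcs (by
          rw [Fintype.card_fin]; omega)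
        exact ⟨Y, h1, h2⟩
      by_cases hYF : Y ∈ F
      · exact ⟨Y, mem_union_left _ hYF, Or.inl hsY⟩
      · obtain ⟨X, hX, hYX⟩ := key Y hYc hYF
        exact ⟨X, mem_union_right _ hX, Or.inl (hsY.trans hYX)⟩
  · intro s hs1
    rcases mem_union.1 hs1 with h1 | h1
    · exact Or.inl (hFc s h1)
    · exact Or.inr (hGc s h1)
  · have h1 : F.card = (edg R).card := card_image_of_injective _ (J_inj h)
    have h2 : (((univ : Finset (Fin N)).powersetCard 3) \ ind3 R).image (J h) =
        ((univ : Finset (Fin n)).powersetCard (l + 1)) \ G := by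
      ext X
      simp only [mem_image, mem_sdiff, mem_powersetCard_univ, hGm, ind3, mem_filter]
      constructor
      · rintro ⟨T, ⟨hT, hT2⟩, rfl⟩
        have hTc : (J h T).card = l + 1 := by
          rw [card_J, hT]; omega
        refine ⟨hTc, ?_⟩
        push Not at hT2 ⊢
        intro _
        obtain ⟨u, hu, v, hv, huv⟩ := hT2 hT
        have hne : u ≠ v := by rintro rfl; exact hi _ huv
        refine ⟨J h {u, v}, ?_, ?_⟩
        · rw [hF, mem_image]
          refine ⟨{u, v}, ?_, rfl⟩
          simp only [edg, mem_filter, mem_powersetCard_univ]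
          exact ⟨card_pair hne, u, by simp, v, by simp, huv⟩
        · rw [J_subset]
          intro w hw
          simp only [mem_insert, mem_singleton] at hw
          rcases hw with rfl | rfl
          · exact hu
          · exact hv
      · rintro ⟨hXc, hX⟩
        push Not at hX
        obtain ⟨f, hf, hfX⟩ := hX hXc
        have hJ := J_pull h ((hFK f hf).trans hfX)
        have hc : (pull h X).card = 3 := by
          have := card_J h (pull h X)
          rw [hJ, hXc] at this
          omega
        refine ⟨pull h X, ⟨hc, ?_⟩, hJ⟩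
        push Not
        intro _
        obtain ⟨e, he, rfl⟩ := mem_image.1 hf
        rw [← hJ, J_subset] at hfX
        simp only [edg, mem_filter, mem_powersetCard_univ] at he
        obtain ⟨-, u, hu, v, hv, huv⟩ := he
        exact ⟨u, hfX hu, v, hfX hv, huv⟩
    have h3 := congrArg Finset.card h2
    rw [card_image_of_injective _ (J_inj h)] at h3
    have h4 : ind3 R ⊆ (univ : Finset (Fin N)).powersetCard 3 := by
      intro T hT
      simp only [ind3, mem_filter] at hT
      exact hT.1
    have h5 : G ⊆ (univ : Finset (Fin n)).powersetCard (l + 1) := filter_subset _ _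
    rw [card_sdiff_of_subset h4, card_sdiff_of_subset h5] at h3
    have h6 := card_le_card h4
    have h7 := card_le_card h5
    have e1 : ((univ : Finset (Fin N)).powersetCard 3).card = N.choose 3 := by
      rw [card_powersetCard, card_univ, Fintype.card_fin]
    have e2 : ((univ : Finset (Fin n)).powersetCard (l + 1)).card = n.choose (l + 1) := by
      rw [card_powersetCard, card_univ, Fintype.card_fin]
    rw [e1, e2] at h3
    rw [e1] at h6
    rw [e2] at h7
    rw [card_union_of_disjoint hdis, h1]
    unfold val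
    push_cast
    omega

end Pool.Agent.W5h8.Flat
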