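import Mathlib
import Pool.Agent.W5h8.FlatD

set_option autoImplicit false

namespace Pool.Agent.W5h8.Flat

open Finset
open scoped Classical

theorem two_choose (a : ℕ) : 2 * (a.choose 2 : ℤ) = a * (a - 1) := by
  induction a with
  | zero => simp
  | succ a ih =>
    rw [choose_two_succ, mul_add, ih]
    push_cast
    ring

set_option maxHeartbeats 2000000 in
/-- The graphs: existence for all parameters in the range. -/
theorem graphs (N t a b c : ℕ) (hN : 5 ≤ N) (ht : t + 1 ≤ N) (hba : b ≤ a) (hcb : c ≤ b)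
    (hab1 : 1 ≤ a + b) (hab2 : a + b ≤ t)
    (hr : ((N : ℤ) - 3) * ((t : ℤ) - ((N - 1) / 2 : ℕ)) < a.choose 2 + b.choose 2 + c) :
    ∃ R : Fin N → Fin N → Prop, (∀ u v, R u v → R v u) ∧ (∀ u, ¬ R u u) ∧ Max R ∧
      val R = (N.choose 3 : ℤ) - ((N : ℤ) - 3) * t + (a.choose 2 + b.choose 2 + c) := by
  -- the general case
  have gen : ∀ b c : ℕ, 1 ≤ b → b ≤ a → c ≤ b → a + b ≤ t →
      ((N : ℤ) - 3) * ((t : ℤ) - ((N - 1) / 2 : ℕ)) < a.choose 2 + b.choose 2 + c →
      ∃ R : Fin N → Fin N → Prop, (∀ u v, R u v → R v u) ∧ (∀ u, ¬ R u u) ∧ Max R ∧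
      val R = (N.choose 3 : ℤ) - ((N : ℤ) - 3) * t + (a.choose 2 + b.choose 2 + c) := by
    intro b c hb hba hcb hab2 hr
    have hN' : (5 : ℤ) ≤ N := by exact_mod_cast hN
    have ht' : (t : ℤ) + 1 ≤ N := by exact_mod_cast ht
    have ha1 : (1 : ℤ) ≤ a := by exact_mod_cast (hb.trans hba)
    have hb1 : (1 : ℤ) ≤ b := by exact_mod_cast hb
    have hc0 : (0 : ℤ) ≤ c := by positivity
    have hhalf : 2 * (((N - 1) / 2 : ℕ) : ℤ) ≤ (N : ℤ) - 1 := by omega
    have hr2 : ((N : ℤ) - 3) * (2 * t + 1 - N) < a * (a - 1) + b * (b - 1) + 2 * c := by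
      have e1 := two_choose a
      have e2 := two_choose b
      have : ((N : ℤ) - 3) * (2 * t + 1 - N) ≤ 2 * (((N : ℤ) - 3) * ((t : ℤ) - ((N - 1) / 2 : ℕ))) := by
        have h1 : (2 * t + 1 - N : ℤ) ≤ 2 * ((t : ℤ) - ((N - 1) / 2 : ℕ)) := by linarith
        have h2 := mul_le_mul_of_nonneg_left h1 (show (0 : ℤ) ≤ (N : ℤ) - 3 by linarith)
        linarith
      linarith
    have hfit : a + 2 + (b - c) + 2 * (t - a - b) ≤ N := by
      by_contra hcon
      have h1 : (a : ℤ) + b + c ≤ 2 * t + 1 - N := by omega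
      set s : ℤ := 2 * t + 1 - N with hs
      have h2 : (a : ℤ) * (a - 1) + b * (b - 1) + 2 * c ≤ (a + b + c - 1) * (a + b + c - 2) := by
        rcases Nat.eq_zero_or_pos c with hc | hc
        · subst hc
          have : (0 : ℤ) ≤ (a - 1) * (b - 1) := mul_nonneg (by linarith) (by linarith)
          push_cast
          linarith
        · have hc1 : (1 : ℤ) ≤ c := by exact_mod_cast hc
          have e1 : (0 : ℤ) ≤ (a - 1) * (b - 1) := mul_nonneg (by linarith) (by linarith)
          have e2 : (0 : ℤ) ≤ c * (c + 2 * (a + b) - 5) := mul_nonneg hc0 (by linarith)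
          linarith
      have h3 : ((a : ℤ) + b + c - 1) * (a + b + c - 2) ≤ (s - 1) * (s - 2) := by
        apply mul_le_mul <;> linarith
      have h4 : s ≤ N - 1 := by rw [hs]; linarith
      have h5 : (s - 1) * (s - 2) ≤ (s - 1) * (N - 3) :=
        mul_le_mul_of_nonneg_left (by linarith) (by linarith)
      have h6 : ((N : ℤ) - 3) * s < (s - 1) * (N - 3) := by linarith
      have h7 : (s - 1) * ((N : ℤ) - 3) = (N - 3) * s - (N - 3) := by ring
      linarith
    have h2 : 1 ≤ t - a - b ∨ a + 3 + (b - c) ≤ N := by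
      by_contra hcon
      push Not at hcon
      obtain ⟨k1, k2⟩ := hcon
      have htab : t = a + b := by omega
      have hNab : N + c = a + b + 2 := by omega
      have e1 : (0 : ℤ) ≤ (a - 1) * (b - 1) := mul_nonneg (by linarith) (by linarith)
      have hc2 : c ≤ 1 := by omega
      rcases Nat.le_one_iff_eq_zero_or_eq_one.1 hc2 with hc | hc
      · subst hc
        have f1 : (N : ℤ) = a + b + 2 := by exact_mod_cast hNab
        have f2 : (t : ℤ) = a + b := by exact_mod_cast htab
        rw [f1, f2] at hr2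
        push_cast at hr2
        nlinarith
      · subst hc
        have f1 : (N : ℤ) = a + b + 1 := by
          have : (N : ℤ) + 1 = a + b + 2 := by exact_mod_cast hNab
          linarith
        have f2 : (t : ℤ) = a + b := by exact_mod_cast htab
        rw [f1, f2] at hr2
        rw [f1] at hN'
        push_cast at hr2
        nlinarith
    have h3 : 6 ≤ N ∨ (5 ≤ N ∧ (c = 0 ∨ t - a - b = 0)) := by
      by_contra hcon
      push Not at hcon
      obtain ⟨k1, k2⟩ := hcon
      have hN5 : N = 5 := by omega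
      obtain ⟨k3, k4⟩ := k2 hN
      have f1 : a = 1 := by omega
      have f2 : b = 1 := by omega
      have f3 : c = 1 := by omega
      have f4 : t = 3 := by omega
      subst hN5 f1 f2 f3 f4
      norm_num at hr2
    refine ⟨R N a c (b - c) (t - a - b), R_symm, ?_, max_R _ _ _ _ _ hfit (hcb.trans hba) h2 h3, ?_⟩
    · intro u
      have := u.2
      simp only [R]
      rintro (h | h) <;> unfold B at h <;> rcases h with h | h | h | h <;> omega
    · rw [val_R N a c (b - c) (t - a - b) hfit (hcb.trans hba)]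
      have e1 : c + (b - c) = b := by omega
      rw [e1]
      have e2 : ((a : ℤ) + c + ((b - c : ℕ) : ℤ) + ((t - a - b : ℕ) : ℤ)) = t := by omega
      rw [e2]
      ring
  rcases Nat.eq_zero_or_pos b with hb | hb
  · subst hb
    have hc : c = 0 := by omega
    subst hc
    have ha : 1 ≤ a := by omega
    rcases Nat.lt_or_ge a t with hat | hat
    · obtain ⟨R, h1, h2, h3, h4⟩ := gen 1 0 le_rfl ha (by omega) (by omega) (by simpa using hr)
      refine ⟨R, h1, h2, h3, ?_⟩
      rw [h4]
      simp
    · have hta : t = a := by omega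
      subst hta
      have hirr : ∀ u, ¬ R N t 0 0 0 u u := by
        intro u
        have := u.2
        simp only [R]
        rintro (h | h) <;> unfold B at h <;> rcases h with h | h | h | h <;> omega
      have hval : val (R N t 0 0 0) = (N.choose 3 : ℤ) - ((N : ℤ) - 3) * t +
          (t.choose 2 + (0 : ℕ).choose 2 + (0 : ℕ)) := by
        rw [val_star N t ht]
        simp
      rcases Nat.lt_or_ge (t + 2) N with h1 | h1
      · exact ⟨R N t 0 0 0, R_symm, hirr, max_R _ _ _ _ _ (by omega) (by omega) (by omega)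
          (by omega), hval⟩
      · by_cases h2 : t + 1 = N
        · refine ⟨R N t 0 0 0, R_symm, hirr, ?_, hval⟩
          have : t = N - 1 := by omega
          rw [this]
          exact max_full N (by omega)
        · have h3 : t + 2 = N := by omega
          -- the number of vertices is odd; use a path
          have hr' := two_choose t
          have hpar : 2 * ((N - 1) / 2) = N - 1 := by
            by_contra hcon
            have hlt : 2 * ((N - 1) / 2) ≤ N - 2 := by omega
            have hlt' : 2 * (((N - 1) / 2 : ℕ) : ℤ) ≤ t := by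
              have : 2 * ((N - 1) / 2) ≤ t := by omega
              exact_mod_cast this
            have hN3 : (N : ℤ) = t + 2 := by exact_mod_cast h3.symm
            simp only [Nat.choose_zero_succ, Nat.cast_zero, add_zero] at hr
            rw [hN3] at hr
            have h5 : ((t : ℤ) + 2 - 3) * (2 * ((t : ℤ) - ((N - 1) / 2 : ℕ))) < t * (t - 1) := by
              linarith
            have h6 : ((t : ℤ) + 2 - 3) * t ≤ ((t : ℤ) + 2 - 3) * (2 * ((t : ℤ) - ((N - 1) / 2 : ℕ))) :=
              mul_le_mul_of_nonneg_left (by linarith) (by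
                have : (3 : ℤ) ≤ t := by
                  have : 3 ≤ t := by omega
                  exact_mod_cast this
                linarith)
            linarith
          set q := (N - 1) / 2 with hq
          have hNq : N = 2 * q + 1 := by omega
          have hq2 : 2 ≤ q := by omega
          refine ⟨P N q, fun u v h => Or.symm h, ?_, ?_, ?_⟩
          · intro u
            simp only [P]
            omega
          · rw [hNq]
            exact max_P q hq2
          · rw [val_P N q (by omega)]
            have e1 : ((q - 1 : ℕ) : ℤ) = q - 1 := by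
              rw [Nat.cast_sub (by omega)]
              simp
            have e2 : (t : ℤ) = 2 * q - 1 := by
              have : t + 1 = 2 * q := by omega
              have h5 : (t : ℤ) + 1 = 2 * q := by exact_mod_cast this
              linarith
            have e3 : (N : ℤ) = 2 * q + 1 := by exact_mod_cast hNq
            simp only [Nat.choose_zero_succ, Nat.cast_zero, add_zero]
            have e4 : (t.choose 2 : ℤ) = (2 * q - 1) * (q - 1) := by
              have : 2 * (t.choose 2 : ℤ) = 2 * ((2 * q - 1) * (q - 1)) := by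
                rw [hr', e2]; ring
              linarith
            rw [e1, e4, e2, e3]
            ring
  · exact gen b c hb hba hcb hab2 hr

theorem main (n l : ℕ) (hl : 2 ≤ l) (hln : l ≤ (n + 1) / 2) (t a b c : ℕ) (ht2 : t ≤ n - l + 1)
    (hba : b ≤ a) (hcb : c ≤ b) (hab1 : 1 ≤ a + b) (hab2 : a + b ≤ t) (m : ℤ)
    (hm : m = (n.choose (l + 1) : ℤ) - ((n : ℤ) - l - 1) * t + a.choose 2 + b.choose 2 + c)
    (hT : (n.choose (l + 1) : ℤ) - ((n : ℤ) - l - 1) * (((n - l + 1) / 2 : ℕ) : ℤ) < m)
    (hC : m < (n.choose (l + 1) : ℤ)) :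
    ∃ A : Finset (Finset (Fin n)), IsAntichain (· ⊆ ·) (A : Set (Finset (Fin n))) ∧
      (∀ s, s ∉ A → ∃ t ∈ A, s ⊆ t ∨ t ⊆ s) ∧ (∀ s ∈ A, s.card = l ∨ s.card = l + 1) ∧
      (A.card : ℤ) = m := by
  obtain ⟨N, hNn⟩ : ∃ N, n = N + (l - 2) := ⟨n - (l - 2), by omega⟩
  have hN3 : 3 ≤ N := by omega
  have hcast : (n : ℤ) - l - 1 = N - 3 := by omega
  have hdiv : (n - l + 1) / 2 = (N - 1) / 2 := by
    congr 1
    omega
  rw [hcast] at hm hT
  rw [hdiv] at hT
  have hN5 : 5 ≤ N := by
    by_contra hcon
    have : N = 3 ∨ N = 4 := by omega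
    rcases this with h | h
    · rw [h] at hT
      norm_num at hT
      linarith
    · rw [h] at hT
      norm_num at hT
      omega
  obtain ⟨R, h1, h2, h3, h4⟩ := graphs N t a b c hN5 (by omega) hba hcb hab1 hab2 (by
    have : ((N : ℤ) - 3) * ((t : ℤ) - ((N - 1) / 2 : ℕ)) =
      ((N : ℤ) - 3) * t - ((N : ℤ) - 3) * ((N - 1) / 2 : ℕ) := by ring
    rw [this]
    linarith)
  obtain ⟨A, g1, g2, g3, g4⟩ := lift hl hNn (by omega) R h1 h2 h3
  refine ⟨A, g1, g2, g3, ?_⟩
  rw [g4, h4, hm]
  ring

end Pool.Agent.W5h8.Flat
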