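import Mathlib
import Pool.Agent.H931R3.Bal15

/-! Crossing probabilities of two chains: symmetry, monotonicity, rank distribution. -/

open Finset

namespace Pool.Agent.W5h8.SP

open Pool.Agent.H13R3.WB (prob balance)
open Pool.Agent.H931R3.Bal

lemma FF_pr {n m i j : ℕ} (hi : i < n) (hj : j < m) :
    FF n m i j = pr (Fin n ⊕ Fin m) (n + m) (Sum.inl ⟨i, hi⟩) (Sum.inr ⟨j, hj⟩) := by
  unfold FF pr
  congr 1
  apply Finset.sum_congr rfl
  intro s _
  by_cases h : s.1 (Sum.inl ⟨i, hi⟩) < s.1 (Sum.inr ⟨j, hj⟩)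
  · rw [if_pos h, if_pos (fun _ _ => h)]
  · rw [if_neg h, if_neg (fun h' => h (h' hi hj))]

lemma FF_symm {n m i j : ℕ} (hi : i < n) (hj : j < m) : FF n m i j = 1 - FF m n j i := by
  have h1 := pr_add (P := Fin n ⊕ Fin m) (n := n + m) (by simp)
    (x := Sum.inl ⟨i, hi⟩) (y := Sum.inr ⟨j, hj⟩) (by simp)
  rw [FF_pr hi hj, FF_pr hj hi]
  have h2 := pr_iso (OrderIso.sumComm (Fin m) (Fin n)) (m + n) (Sum.inl ⟨j, hj⟩) (Sum.inr ⟨i, hi⟩)
  rw [← h2]
  have e1 : (OrderIso.sumComm (Fin m) (Fin n)) (Sum.inl ⟨j, hj⟩) = Sum.inr ⟨j, hj⟩ := rfl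
  have e2 : (OrderIso.sumComm (Fin m) (Fin n)) (Sum.inr ⟨i, hi⟩) = Sum.inl ⟨i, hi⟩ := rfl
  rw [e1, e2, Nat.add_comm m n]
  linarith

/-- prefix sums -/
def TT (n m i j : ℕ) : ℕ := ∑ k ∈ range (j + 1), D m n i k

lemma TT_full {n m i : ℕ} (hi : i < n) : TT n m i m = (n + m).choose m := by
  unfold TT
  have h1 := Kf_zero (n := m) (m := n) (j := i) hi
  rw [Kf_eq_sum hi (m + 1) 0 (by omega)] at h1
  rw [Finset.range_eq_Ico, h1, Nat.add_comm m n, Nat.choose_symm_add]

lemma FF_TT {n m i j : ℕ} (hi : i < n) (hj : j < m) :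
    FF n m i j = (TT n m i j : ℝ) / (n + m).choose m := by
  rw [FF_symm hi hj, FF_eq_Kf hj hi]
  have hc : (m + n).choose n = (n + m).choose m := by
    rw [Nat.add_comm m n, Nat.choose_symm_add]
  rw [hc]
  have hT : (0 : ℝ) < (n + m).choose m := by
    exact_mod_cast Nat.choose_pos (show m ≤ n + m by omega)
  have h1 := TT_full (m := m) hi
  have h2 : TT n m i m = TT n m i j + Kf m n i (j + 1) := by
    unfold TT
    rw [Kf_eq_sum hi (m - j) (j + 1) (by omega), Finset.range_eq_Ico, Finset.range_eq_Ico,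
      Finset.sum_Ico_consecutive _ (by omega) (by omega)]
  have h3 : ((n + m).choose m : ℝ) = TT n m i j + Kf m n i (j + 1) := by
    rw [← h1, h2]; push_cast; ring
  rw [eq_div_iff hT.ne', sub_mul, div_mul_cancel₀ _ hT.ne']
  linarith

lemma FF_nonneg (n m i j : ℕ) : 0 ≤ FF n m i j := by
  unfold FF
  apply div_nonneg
  · apply Finset.sum_nonneg
    intro s _
    split_ifs <;> norm_num
  · positivity

/-- the recursion for the counts -/
lemma D_key (n b j i : ℕ) (hi : i ≤ n) : (n + 1) * D (n + 1) (j + 1 + b) j (i + 1) =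
    (if i + 1 ≤ n then D n (j + 1 + b) j (i + 1) * (n - (i + 1) + b + 1) else 0) +
      D n (j + 1 + b) j i * (i + 1 + j) := by
  unfold D
  rw [show j + 1 + b - 1 - j = b by omega]
  have A : i + 1 ≤ n → (n + 1 - (i + 1) + b).choose b * (n + 1 - (i + 1)) =
      (n - (i + 1) + b).choose b * (n - (i + 1) + b + 1) := by
    intro h1
    have := Nat.choose_mul_succ_eq (n - (i + 1) + b) b
    rw [show n - (i + 1) + b + 1 - b = n + 1 - (i + 1) by omega] at this
    rw [show n + 1 - (i + 1) + b = n - (i + 1) + b + 1 by omega]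
    exact this.symm
  have B : (i + 1 + j).choose j * (i + 1) = (i + j).choose j * (i + 1 + j) := by
    have := Nat.choose_mul_succ_eq (i + j) j
    rw [show i + j + 1 - j = i + 1 by omega, show i + j + 1 = i + 1 + j by omega] at this
    exact this.symm
  have e3 : (n + 1) = (n + 1 - (i + 1)) + (i + 1) := by omega
  have lhs : (n + 1) * ((i + 1 + j).choose j * (n + 1 - (i + 1) + b).choose b) =
      (i + 1 + j).choose j * ((n + 1 - (i + 1) + b).choose b * (n + 1 - (i + 1))) +
      ((i + 1 + j).choose j * (i + 1)) * (n + 1 - (i + 1) + b).choose b := by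
    nth_rw 1 [e3]
    ring
  rw [lhs, B, show n + 1 - (i + 1) + b = n - i + b by omega]
  congr 1
  · split_ifs with h1
    · have := A h1
      rw [show n + 1 - (i + 1) + b = n - i + b by omega] at this
      rw [this]
      ring
    · have : n + 1 - (i + 1) = 0 := by omega
      rw [this]
      simp
  · ring

lemma Kf_succ {n m j : ℕ} (hj : j < m) : ∀ c i, i + c = n →
    (n + 1) * Kf (n + 1) m j (i + 1) = (n + m + 1) * Kf n m j (i + 1) +
      (i + 1 + j) * D n m j i := by
  obtain ⟨b, rfl⟩ : ∃ b, m = j + 1 + b := ⟨m - (j + 1), by omega⟩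
  intro c
  induction c with
  | zero =>
    intro i hi
    have hi' : i = n := by omega
    subst hi'
    rw [Kf_step hj (show i + 1 ≤ i + 1 by omega), Kf_end hj, Kf_end hj, add_zero, mul_zero,
      zero_add, D_key i b j i le_rfl, if_neg (by omega)]
    ring
  | succ c ih =>
    intro i hi
    rw [Kf_step hj (show i + 1 ≤ n + 1 by omega), mul_add, ih (i + 1) (by omega),
      D_key n b j i (by omega), if_pos (by omega), Kf_step hj (show i + 1 ≤ n by omega)]
    obtain ⟨d, rfl⟩ : ∃ d, n = i + 1 + d := ⟨n - (i + 1), by omega⟩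
    rw [show i + 1 + d - (i + 1) = d by omega]
    ring

lemma choose_succ_left (n m : ℕ) : (n + 1 + m).choose m * (n + 1) =
    (n + m).choose m * (n + 1 + m) := by
  have := Nat.choose_mul_succ_eq (n + m) m
  rw [show n + m + 1 = n + 1 + m by omega, show n + 1 + m - m = n + 1 by omega] at this
  exact this.symm

lemma FF_succ_left {n m i j : ℕ} (hi : i < n) (hj : j < m) :
    FF n m i j ≤ FF (n + 1) m i j := by
  rw [FF_eq_Kf hi hj, FF_eq_Kf (show i < n + 1 by omega) hj]
  have h1 := Kf_succ (n := n) hj (n - i) i (by omega)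
  have h2 := choose_succ_left n m
  have hT : (0 : ℝ) < (n + m).choose m := by
    exact_mod_cast Nat.choose_pos (show m ≤ n + m by omega)
  have hT' : (0 : ℝ) < (n + 1 + m).choose m := by
    exact_mod_cast Nat.choose_pos (show m ≤ n + 1 + m by omega)
  rw [div_le_div_iff₀ hT hT']
  have h3 : Kf n m j (i + 1) * (n + 1 + m).choose m ≤ Kf (n + 1) m j (i + 1) *
      (n + m).choose m := by
    have h4 : (n + 1) * (Kf n m j (i + 1) * (n + 1 + m).choose m) ≤ (n + 1) *
        (Kf (n + 1) m j (i + 1) * (n + m).choose m) := by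
      calc (n + 1) * (Kf n m j (i + 1) * (n + 1 + m).choose m) =
          Kf n m j (i + 1) * ((n + 1 + m).choose m * (n + 1)) := by ring
        _ = (n + m + 1) * Kf n m j (i + 1) * (n + m).choose m := by rw [h2]; ring
        _ ≤ ((n + m + 1) * Kf n m j (i + 1) + (i + 1 + j) * D n m j i) * (n + m).choose m :=
            Nat.mul_le_mul_right _ (Nat.le_add_right _ _)
        _ = _ := by rw [← h1]; ring
    exact Nat.le_of_mul_le_mul_left h4 (by omega)
  exact_mod_cast h3

lemma FF_mono_left {n n' m i j : ℕ} (hi : i < n) (hj : j < m) (h : n ≤ n') :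
    FF n m i j ≤ FF n' m i j := by
  induction n', h using Nat.le_induction with
  | base => exact le_rfl
  | succ k hk ih => exact ih.trans (FF_succ_left (by omega) hj)

lemma FF_anti_right {n m m' i j : ℕ} (hi : i < n) (hj : j < m) (h : m ≤ m') :
    FF n m' i j ≤ FF n m i j := by
  rw [FF_symm hi hj, FF_symm hi (show j < m' by omega)]
  have := FF_mono_left hj hi h
  linarith

/-! ### the rank of an element of the first chain -/

variable {n m : ℕ}

/-- number of elements of the second chain before an element of the first one -/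
noncomputable def KK (s : LEn (Fin n ⊕ Fin m) (n + m)) (i : Fin n) : ℕ :=
  #{k : Fin m | s.1 (Sum.inr k) < s.1 (Sum.inl i)}

lemma rank_inl (s : LEn (Fin n ⊕ Fin m) (n + m)) (i : Fin n) :
    (s.1 (Sum.inl i) : ℕ) = i + KK s i := by
  have h1 : #(Finset.Iio (s.1 (Sum.inl i))) = (s.1 (Sum.inl i) : ℕ) := Fin.card_Iio _
  have h2 : #(Finset.Iio (s.1 (Sum.inl i))) = #{k : Fin n | s.1 (Sum.inl k) < s.1 (Sum.inl i)} +
      KK s i := by
    unfold KK
    have : Finset.Iio (s.1 (Sum.inl i)) = ({p | p < s.1 (Sum.inl i)} : Finset (Fin (n + m))) := by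
      ext p; simp
    rw [this, card_filter, card_filter, card_filter,
      ← Equiv.sum_comp s.1 (fun p : Fin (n + m) => if p < s.1 (Sum.inl i) then 1 else 0),
      Fintype.sum_sum_type]
  have h3 : ({k : Fin n | s.1 (Sum.inl k) < s.1 (Sum.inl i)} : Finset (Fin n)) =
      Finset.Iio i := by
    ext k
    rw [mem_filter, mem_Iio, s_inl_lt]
    simp
  rw [h1, h3, Fin.card_Iio] at h2
  omega

lemma KK_le (s : LEn (Fin n ⊕ Fin m) (n + m)) (i : Fin n) : KK s i ≤ m := by
  unfold KK
  calc _ ≤ #(univ : Finset (Fin m)) := card_le_card (filter_subset _ _)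
    _ = m := by simp

lemma lt_iff_KK (s : LEn (Fin n ⊕ Fin m) (n + m)) (i : Fin n) (j : Fin m) :
    s.1 (Sum.inl i) < s.1 (Sum.inr j) ↔ KK s i ≤ j := by
  unfold KK
  constructor
  · intro h
    have : #{k : Fin m | s.1 (Sum.inr k) < s.1 (Sum.inl i)} ≤ #(Finset.Iio j) := by
      apply card_le_card
      intro k hk
      rw [mem_filter] at hk
      rw [mem_Iio, ← s_inr_lt s]
      exact hk.2.trans h
    rwa [Fin.card_Iio] at this
  · intro h
    by_contra hc
    have h1 : s.1 (Sum.inr j) < s.1 (Sum.inl i) := by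
      apply lt_of_le_of_ne (not_lt.1 hc)
      intro he
      exact absurd (s.1.injective he) (by simp)
    have : #(Finset.Iic j) ≤ #{k : Fin m | s.1 (Sum.inr k) < s.1 (Sum.inl i)} := by
      apply card_le_card
      intro k hk
      rw [mem_filter]
      refine ⟨mem_univ _, lt_of_le_of_lt ?_ h1⟩
      exact s.2 (Sum.inr_le_inr_iff.2 (mem_Iic.1 hk))
    rw [Fin.card_Iic] at this
    omega

lemma tele (φ : ℕ → ℝ) (i K : ℕ) : ∀ m, K ≤ m → φ (i + K) = φ (i + m) +
    ∑ j ∈ range m, (if K ≤ j then (1 : ℝ) else 0) * (φ (i + j) - φ (i + j + 1)) := by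
  intro m
  induction m with
  | zero =>
    intro h
    have : K = 0 := by omega
    subst this
    simp
  | succ m ih =>
    intro h
    rcases Nat.lt_or_ge m K with h1 | h1
    · have h2 : K = m + 1 := by omega
      rw [Finset.sum_eq_zero, h2, add_zero]
      intro j hj
      rw [mem_range] at hj
      rw [if_neg (by omega), zero_mul]
    · rw [sum_range_succ, ih h1, if_pos h1]
      rw [show i + (m + 1) = i + m + 1 by ring]
      ring

lemma sum_rank (i : Fin n) (φ : ℕ → ℝ) :
    (∑ s : LEn (Fin n ⊕ Fin m) (n + m), φ (s.1 (Sum.inl i))) /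
      Fintype.card (LEn (Fin n ⊕ Fin m) (n + m)) =
    φ (i + m) + ∑ j ∈ range m, FF n m i j * (φ (i + j) - φ (i + j + 1)) := by
  have hc : (Fintype.card (LEn (Fin n ⊕ Fin m) (n + m)) : ℝ) ≠ 0 := card_ne (by simp)
  rw [div_eq_iff hc, add_mul]
  have h1 : ∀ s : LEn (Fin n ⊕ Fin m) (n + m), φ (s.1 (Sum.inl i)) = φ (i + m) +
      ∑ j ∈ range m, (if KK s i ≤ j then (1 : ℝ) else 0) * (φ (i + j) - φ (i + j + 1)) := by
    intro s
    rw [rank_inl]
    exact tele φ i (KK s i) m (KK_le s i)
  rw [Finset.sum_congr rfl (fun s _ => h1 s), Finset.sum_add_distrib, Finset.sum_const,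
    Finset.card_univ, nsmul_eq_mul, Finset.sum_comm]
  congr 1
  · ring
  · rw [Finset.sum_mul]
    apply Finset.sum_congr rfl
    intro j hj
    rw [mem_range] at hj
    rw [← Finset.sum_mul]
    unfold FF
    have h2 : ∀ s : LEn (Fin n ⊕ Fin m) (n + m), (if KK s i ≤ j then (1 : ℝ) else 0) =
        if (∀ (hi : (i : ℕ) < n) (hj : j < m), s.1 (Sum.inl ⟨i, hi⟩) < s.1 (Sum.inr ⟨j, hj⟩))
          then (1 : ℝ) else 0 := by
      intro s
      have h3 := lt_iff_KK s i ⟨j, hj⟩
      by_cases h : KK s i ≤ j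
      · rw [if_pos h, if_pos (fun _ _ => h3.2 h)]
      · rw [if_neg h, if_neg (fun h' => h (h3.1 (h' i.2 hj)))]
    rw [Finset.sum_congr rfl (fun s _ => h2 s)]
    field_simp

/-- number of interleavings in which the `i`-th element of the first chain has rank `r` -/
def RK (n m i r : ℕ) : ℕ := r.choose i * (n + m - 1 - r).choose (n - 1 - i)

lemma abel (d φ : ℕ → ℝ) (i : ℕ) : ∀ m, ∑ k ∈ range (m + 1), d k * φ (i + k) =
    (∑ k ∈ range (m + 1), d k) * φ (i + m) +
      ∑ j ∈ range m, (∑ k ∈ range (j + 1), d k) * (φ (i + j) - φ (i + j + 1)) := by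
  intro m
  induction m with
  | zero => simp
  | succ m ih =>
    rw [sum_range_succ, ih, sum_range_succ (fun k => d k) (m + 1),
      sum_range_succ (fun j => (∑ k ∈ range (j + 1), d k) * (φ (i + j) - φ (i + j + 1))) m]
    rw [show i + (m + 1) = i + m + 1 by ring]
    ring

lemma sum_RK {i : ℕ} (hi : i < n) (φ : ℕ → ℝ) :
    φ (i + m) + ∑ j ∈ range m, FF n m i j * (φ (i + j) - φ (i + j + 1)) =
    (∑ r ∈ range (n + m), (RK n m i r : ℝ) * φ r) / (n + m).choose m := by
  have hT : (0 : ℝ) < (n + m).choose m := by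
    exact_mod_cast Nat.choose_pos (show m ≤ n + m by omega)
  rw [eq_div_iff hT.ne']
  have h1 := abel (fun k => (D m n i k : ℝ)) φ i m
  have h2 : ∑ r ∈ range (n + m), (RK n m i r : ℝ) * φ r =
      ∑ k ∈ range (m + 1), (D m n i k : ℝ) * φ (i + k) := by
    have h3 : ∑ r ∈ range (n + m), (RK n m i r : ℝ) * φ r =
        ∑ r ∈ Ico i (i + (m + 1)), (RK n m i r : ℝ) * φ r := by
      symm
      apply Finset.sum_subset
      · intro r hr
        rw [mem_Ico] at hr
        rw [mem_range]
        omega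
      · intro r hr hr'
        rw [mem_range] at hr
        rw [mem_Ico] at hr'
        have : RK n m i r = 0 := by
          unfold RK
          rcases Nat.lt_or_ge r i with h4 | h4
          · rw [Nat.choose_eq_zero_of_lt h4, zero_mul]
          · rw [Nat.choose_eq_zero_of_lt (show n + m - 1 - r < n - 1 - i by omega), mul_zero]
        rw [this]
        simp
    rw [h3, Finset.sum_Ico_eq_sum_range]
    rw [show i + (m + 1) - i = m + 1 by omega]
    apply Finset.sum_congr rfl
    intro k hk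
    rw [mem_range] at hk
    congr 2
    unfold RK D
    rw [show n + m - 1 - (i + k) = m - k + (n - 1 - i) by omega, Nat.add_comm i k]
  rw [h2, h1]
  have h4 : (∑ k ∈ range (m + 1), (D m n i k : ℝ)) = (n + m).choose m := by
    rw [← TT_full (m := m) hi]
    unfold TT
    push_cast
    rfl
  rw [h4, add_mul, mul_comm (φ (i + m))]
  congr 1
  rw [Finset.sum_mul]
  apply Finset.sum_congr rfl
  intro j hj
  rw [mem_range] at hj
  rw [FF_TT hi hj]
  unfold TT
  push_cast
  field_simp

variable {P Q : Type} [Fintype P] [Fintype Q] [PartialOrder P] [PartialOrder Q]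

/-- the rank distribution in a disjoint sum -/
lemma avg_disj_inl (hn : Fintype.card P = n) (hm : Fintype.card Q = m) (x : P) (φ : ℕ → ℝ) :
    avg (P ⊕ Q) (n + m) (Sum.inl x) φ =
      avg P n x (fun i => (∑ r ∈ range (n + m), (RK n m i r : ℝ) * φ r) / (n + m).choose m) := by
  have h0 : avg P n x (fun i => (∑ r ∈ range (n + m), (RK n m i r : ℝ) * φ r) /
      (n + m).choose m) = avg P n x (fun i => φ (i + m) +
        ∑ j ∈ range m, FF n m i j * (φ (i + j) - φ (i + j + 1))) := by
    apply avg_congr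
    intro i hi
    rw [sum_RK hi]
  rw [h0]
  unfold avg
  rw [sum_disj hn hm, card_disj hn hm]
  have h1 := card_ne hn
  have h2 := card_ne hm
  have h4 : (Fintype.card (LEn (Fin n ⊕ Fin m) (n + m)) : ℝ) ≠ 0 := card_ne (by simp)
  simp_rw [sumF_inl]
  have h5 : ∀ σ : LEn P n, (∑ τ : LEn Q m, ∑ s : LEn (Fin n ⊕ Fin m) (n + m),
      φ (s.1 (Sum.inl (σ.1 x)))) = Fintype.card (LEn Q m) *
        (Fintype.card (LEn (Fin n ⊕ Fin m) (n + m)) * (φ (σ.1 x + m) +
          ∑ j ∈ range m, FF n m (σ.1 x) j * (φ (σ.1 x + j) - φ (σ.1 x + j + 1)))) := by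
    intro σ
    rw [← sum_rank (σ.1 x) φ, Finset.sum_const, Finset.card_univ, nsmul_eq_mul]
    congr 1
    field_simp
  rw [Finset.sum_congr rfl (fun σ _ => h5 σ), ← Finset.mul_sum, ← Finset.mul_sum]
  push_cast
  field_simp

end Pool.Agent.W5h8.SP
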