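import Mathlib
import Pool.Agent.W5h8.SPA

/-! Digits of packed numbers. -/

open Finset

namespace Pool.Agent.W5h8.SP

open Pool.Agent.H931R3.Bal

lemma low_lt {B : ℕ} (c : ℕ → ℕ) : ∀ t, (∀ i < t, c i < B) →
    ∑ i ∈ range t, c i * B ^ i < B ^ t := by
  intro t
  induction t with
  | zero => intro _; simp
  | succ t ih =>
    intro h
    have h1 := ih (fun i hi => h i (by omega))
    have h2 := h t (by omega)
    rw [sum_range_succ, pow_succ]
    have h3 : (c t + 1) * B ^ t ≤ B * B ^ t := Nat.mul_le_mul_right _ (by omega)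
    nlinarith

lemma dig_sum {B : ℕ} (hB : 0 < B) (c : ℕ → ℕ) (L t : ℕ) (ht : t < L) (hc : ∀ i ≤ t, c i < B) :
    (∑ i ∈ range L, c i * B ^ i) / B ^ t % B = c t := by
  obtain ⟨d, rfl⟩ : ∃ d, L = t + (d + 1) := ⟨L - t - 1, by omega⟩
  rw [Finset.sum_range_add, Finset.sum_range_succ' (fun x => c (t + x) * B ^ (t + x))]
  have h1 : ∑ k ∈ range d, c (t + (k + 1)) * B ^ (t + (k + 1)) =
      B ^ t * (B * ∑ k ∈ range d, c (t + (k + 1)) * B ^ k) := by
    rw [Finset.mul_sum, Finset.mul_sum]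
    apply Finset.sum_congr rfl
    intro k _
    rw [pow_add, pow_succ]
    ring
  rw [h1, add_zero]
  have h2 := low_lt c t (fun i hi => hc i (by omega))
  have hBt : 0 < B ^ t := Nat.pow_pos hB
  rw [show ∑ x ∈ range t, c x * B ^ x + (B ^ t * (B * ∑ k ∈ range d, c (t + (k + 1)) * B ^ k) +
      c t * B ^ t) = ∑ x ∈ range t, c x * B ^ x +
        B ^ t * (c t + B * ∑ k ∈ range d, c (t + (k + 1)) * B ^ k) by ring]
  rw [Nat.add_mul_div_left _ _ hBt, Nat.div_eq_of_lt h2, zero_add, Nat.add_mul_mod_self_left,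
    Nat.mod_eq_of_lt (hc t le_rfl)]

/-- digit extraction -/
def dig (K N t : ℕ) : ℕ := Nat.mod (Nat.shiftRight N (Nat.mul K t)) (Nat.pow 2 K)

lemma dig_eq (K N t : ℕ) : dig K N t = N / (2 ^ K) ^ t % 2 ^ K := by
  unfold dig
  show (N >>> (K * t)) % 2 ^ K = _
  rw [Nat.shiftRight_eq_div_pow, pow_mul]

/-- binomial coefficients as digits of a power -/
def bin (K n k : ℕ) : ℕ := dig K (Nat.pow (Nat.succ (Nat.pow 2 K)) n) k

lemma choose_lt {n k K : ℕ} (h : n < K) : n.choose k < 2 ^ K :=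
  lt_of_le_of_lt (Nat.choose_le_two_pow n k) (Nat.pow_lt_pow_right (by norm_num) h)

lemma bin_eq {K n k : ℕ} (h : n < K) : bin K n k = n.choose k := by
  unfold bin
  rw [dig_eq]
  have h1 : Nat.pow (Nat.succ (Nat.pow 2 K)) n =
      ∑ i ∈ range (n + k + 1), n.choose i * (2 ^ K) ^ i := by
    show (2 ^ K + 1) ^ n = _
    rw [add_pow]
    have h2 : range (n + 1) ⊆ range (n + k + 1) := by
      intro x hx
      rw [mem_range] at hx ⊢
      omega
    rw [← Finset.sum_subset h2]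
    · apply Finset.sum_congr rfl
      intro i _
      simp [mul_comm]
    · intro x _ hx
      rw [mem_range, not_lt] at hx
      rw [Nat.choose_eq_zero_of_lt (by omega), zero_mul]
  rw [h1]
  exact dig_sum (Nat.two_pow_pos K) (fun i => n.choose i) _ k (by omega)
    (fun i _ => choose_lt h)

/-- entries -/
def dd (K n m i j : ℕ) : ℕ :=
  Nat.mul (bin K (Nat.add j i) i)
    (bin K (Nat.add (Nat.sub m j) (Nat.sub (Nat.sub n 1) i)) (Nat.sub (Nat.sub n 1) i))

lemma dd_eq {K n m i j : ℕ} (hK : n + m < K) (hi : i < n) (hj : j ≤ m) :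
    dd K n m i j = D m n i j := by
  unfold dd
  show bin K (j + i) i * bin K (m - j + (n - 1 - i)) (n - 1 - i) = _
  rw [bin_eq (by omega), bin_eq (by omega)]
  rfl

/-- packing of a list of numbers -/
noncomputable def hor (K : ℕ) (f : ℕ → ℕ) (l : List ℕ) : ℕ :=
  @List.rec ℕ (fun _ => ℕ) 0 (fun j _ ih => Nat.add (f j) (Nat.mul (Nat.pow 2 K) ih)) l

lemma hor_cons (K : ℕ) (f : ℕ → ℕ) (j : ℕ) (l : List ℕ) :
    hor K f (j :: l) = f j + 2 ^ K * hor K f l := rfl

lemma hor_range (K : ℕ) (f : ℕ → ℕ) : ∀ J s, hor K f (List.range' s J) =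
    ∑ j ∈ range J, f (s + j) * (2 ^ K) ^ j := by
  intro J
  induction J with
  | zero => intro s; simp [hor]
  | succ J ih =>
    intro s
    rw [List.range'_succ, hor_cons, ih (s + 1), Finset.sum_range_succ', Finset.mul_sum]
    rw [add_comm]
    congr 1
    · apply Finset.sum_congr rfl
      intro k _
      rw [show s + 1 + k = s + (k + 1) by ring, pow_succ]
      ring
    · simp

/-- packed prefix sums of the entries -/
noncomputable def row (K : ℕ) (jl : List ℕ) (n m i : ℕ) : ℕ :=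
  Nat.div (Nat.sub (Nat.mul (Nat.mod (hor K (dd K n m i) jl) (Nat.sub (Nat.pow 2 K) 1))
    (Nat.pow (Nat.pow 2 K) (@List.rec ℕ (fun _ => ℕ) 0 (fun _ _ ih => Nat.succ ih) jl)))
      (hor K (dd K n m i) jl)) (Nat.sub (Nat.pow 2 K) 1)

lemma len_rec (l : List ℕ) : @List.rec ℕ (fun _ => ℕ) 0 (fun _ _ ih => Nat.succ ih) l =
    l.length := by
  induction l with
  | nil => rfl
  | cons a l ih => simp only [List.length_cons, ih]

lemma geo {B : ℕ} (hB : 1 ≤ B) (d : ℕ → ℕ) : ∀ J, (B - 1) * ∑ j ∈ range (J + 1),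
    (∑ k ∈ range (j + 1), d k) * B ^ j + ∑ j ∈ range (J + 1), d j * B ^ j =
    (∑ k ∈ range (J + 1), d k) * B ^ (J + 1) := by
  obtain ⟨b, rfl⟩ : ∃ b, B = b + 1 := ⟨B - 1, by omega⟩
  rw [show b + 1 - 1 = b by omega]
  intro J
  induction J with
  | zero => simp; ring
  | succ J ih =>
    rw [sum_range_succ _ (J + 1), sum_range_succ (fun j => d j * (b + 1) ^ j) (J + 1), mul_add,
      sum_range_succ d (J + 1)]
    rw [show b * ∑ x ∈ range (J + 1), (∑ k ∈ range (x + 1), d k) * (b + 1) ^ x +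
        b * ((∑ x ∈ range (J + 1), d x + d (J + 1)) * (b + 1) ^ (J + 1)) +
        (∑ x ∈ range (J + 1), d x * (b + 1) ^ x + d (J + 1) * (b + 1) ^ (J + 1)) =
      (b * ∑ x ∈ range (J + 1), (∑ k ∈ range (x + 1), d k) * (b + 1) ^ x +
        ∑ x ∈ range (J + 1), d x * (b + 1) ^ x) +
        (b * ((∑ x ∈ range (J + 1), d x + d (J + 1)) * (b + 1) ^ (J + 1)) +
          d (J + 1) * (b + 1) ^ (J + 1)) by ring]
    rw [ih, pow_succ (b + 1) (J + 1)]
    ring

lemma mod_pack {B : ℕ} (hB : 1 ≤ B) (d : ℕ → ℕ) (J : ℕ) (hs : ∑ j ∈ range J, d j < B - 1) :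
    (∑ j ∈ range J, d j * B ^ j) % (B - 1) = ∑ j ∈ range J, d j := by
  have h1 : (∑ j ∈ range J, d j * B ^ j) ≡ ∑ j ∈ range J, d j [MOD (B - 1)] := by
    clear hs
    induction J with
    | zero => exact Nat.ModEq.refl _
    | succ J ih =>
      rw [sum_range_succ, sum_range_succ]
      apply Nat.ModEq.add ih
      have h2 : B ^ J ≡ 1 [MOD (B - 1)] := by
        have h3 : B ≡ 1 [MOD (B - 1)] := ((Nat.modEq_iff_dvd' hB).2 dvd_rfl).symm
        simpa using h3.pow J
      simpa using (Nat.ModEq.refl (d J)).mul h2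
  have h4 := h1
  unfold Nat.ModEq at h4
  rw [h4, Nat.mod_eq_of_lt hs]

lemma TT_le {n m i j : ℕ} (hi : i < n) (hj : j ≤ m) : TT n m i j ≤ (n + m).choose m := by
  rw [← TT_full (m := m) hi]
  unfold TT
  apply Finset.sum_le_sum_of_subset
  intro x hx
  rw [mem_range] at hx ⊢
  omega

lemma row_eq {K n m i J : ℕ} (hK : n + m + 32 ≤ K) (hi : i < n) (hJ : 1 ≤ J) (hJm : J ≤ m) :
    row K (List.range' 0 J) n m i = ∑ j ∈ range J, TT n m i j * (2 ^ K) ^ j := by
  obtain ⟨J, rfl⟩ : ∃ J', J = J' + 1 := ⟨J - 1, by omega⟩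
  have h1 : hor K (dd K n m i) (List.range' 0 (J + 1)) =
      ∑ j ∈ range (J + 1), D m n i j * (2 ^ K) ^ j := by
    rw [hor_range]
    apply Finset.sum_congr rfl
    intro j hj
    rw [mem_range] at hj
    rw [zero_add, dd_eq (by omega) hi (by omega)]
  have h2 : (n + m).choose m < 2 ^ K - 1 := by
    have h3 : (n + m).choose m ≤ 2 ^ (n + m) := Nat.choose_le_two_pow _ _
    have h4 : 2 ^ (n + m) * 2 ^ 32 ≤ 2 ^ K := by
      rw [← pow_add]
      exact Nat.pow_le_pow_right (by norm_num) hK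
    have h5 : 0 < 2 ^ (n + m) := Nat.two_pow_pos _
    have h6 : (2 : ℕ) ^ 32 = 4294967296 := by norm_num
    rw [h6] at h4
    omega
  have h3 : ∑ j ∈ range (J + 1), D m n i j < 2 ^ K - 1 := by
    have := TT_le (n := n) (m := m) hi (show J ≤ m by omega)
    unfold TT at this
    omega
  unfold row
  rw [len_rec, List.length_range', h1]
  show (((∑ j ∈ range (J + 1), D m n i j * (2 ^ K) ^ j) % (2 ^ K - 1)) * (2 ^ K) ^ (J + 1) -
    (∑ j ∈ range (J + 1), D m n i j * (2 ^ K) ^ j)) / (2 ^ K - 1) = _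
  rw [mod_pack (Nat.one_le_two_pow) (fun j => D m n i j) (J + 1) h3]
  have h4 := geo (Nat.one_le_two_pow (n := K)) (fun j => D m n i j) J
  rw [← h4, Nat.add_sub_cancel, Nat.mul_div_cancel_left _ (by omega)]
  rfl

/-- convolution -/
lemma conv {B : ℕ} (r y : ℕ → ℕ) (J L : ℕ) :
    (∑ u ∈ range J, r u * B ^ u) * (∑ v ∈ range L, y v * B ^ v) =
    ∑ t ∈ range (J + L), (∑ v ∈ range L, if v ≤ t ∧ t < v + J then r (t - v) * y v else 0) *
      B ^ t := by
  have h1 : ∀ t ∈ range (J + L), (∑ v ∈ range L, if v ≤ t ∧ t < v + J then r (t - v) * y v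
      else 0) * B ^ t = ∑ v ∈ range L, (if v ≤ t ∧ t < v + J then r (t - v) * y v * B ^ t
      else 0) := by
    intro t _
    rw [Finset.sum_mul]
    apply Finset.sum_congr rfl
    intro v _
    split_ifs <;> simp
  rw [Finset.sum_congr rfl h1, Finset.sum_comm, Finset.mul_sum]
  apply Finset.sum_congr rfl
  intro v hv
  rw [mem_range] at hv
  rw [← Finset.sum_filter]
  have h2 : (range (J + L)).filter (fun t => v ≤ t ∧ t < v + J) = Ico v (v + J) := by
    ext t
    rw [mem_filter, mem_range, mem_Ico]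
    omega
  rw [h2, Finset.sum_Ico_eq_sum_range, show v + J - v = J by omega, Finset.sum_mul]
  apply Finset.sum_congr rfl
  intro u _
  rw [show v + u - v = u by omega, pow_add]
  ring

lemma conv_dig {K : ℕ} (r y : ℕ → ℕ) (J L b M W : ℕ) (hb : b + L ≤ J) (hL : 1 ≤ L)
    (hr : ∀ u < J, r u ≤ M) (hy : ∑ v ∈ range L, y v ≤ W) (hMW : M * W < 2 ^ K) :
    dig K ((∑ u ∈ range J, r u * (2 ^ K) ^ u) * (∑ v ∈ range L, y (L - 1 - v) * (2 ^ K) ^ v))
      (b + L - 1) = ∑ k ∈ range L, y k * r (b + k) := by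
  rw [dig_eq, conv, dig_sum (Nat.two_pow_pos K) _ _ _ (by omega)]
  · rw [← Finset.sum_range_reflect]
    apply Finset.sum_congr rfl
    intro k hk
    rw [mem_range] at hk
    rw [if_pos (by omega), show b + L - 1 - (L - 1 - k) = b + k by omega,
      show L - 1 - (L - 1 - k) = k by omega, mul_comm]
  · intro t _
    calc (∑ v ∈ range L, if v ≤ t ∧ t < v + J then r (t - v) * y (L - 1 - v) else 0) ≤
        ∑ v ∈ range L, M * y (L - 1 - v) := by
          apply Finset.sum_le_sum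
          intro v _
          split_ifs with h
          · exact Nat.mul_le_mul_right _ (hr _ (by omega))
          · exact Nat.zero_le _
      _ = M * ∑ v ∈ range L, y v := by
          rw [← Finset.mul_sum, Finset.sum_range_reflect]
      _ ≤ M * W := Nat.mul_le_mul_left _ hy
      _ < _ := hMW

end Pool.Agent.W5h8.SP
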