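import Mathlib
import Pool.Agent.W5h8.SPB

/-! Weighted values and the table of blocks. -/

open Finset

namespace Pool.Agent.W5h8.SP

open Pool.Agent.H931R3.Bal

/-- weighted value of a function -/
noncomputable def lev : List ℕ → ℕ → (ℕ → ℝ) → ℝ
  | [], _, _ => 0
  | a :: w, s, φ => a * φ s + lev w (s + 1) φ

/-- weighted value of a function, natural numbers -/
def levN : List ℕ → ℕ → (ℕ → ℕ) → ℕ
  | [], _, _ => 0
  | a :: w, s, φ => a * φ s + levN w (s + 1) φ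

lemma lev_congr {φ ψ : ℕ → ℝ} : ∀ (w : List ℕ) (s : ℕ),
    (∀ i, s ≤ i → i < s + w.length → φ i = ψ i) → lev w s φ = lev w s ψ := by
  intro w
  induction w with
  | nil => intro s _; rfl
  | cons a w ih =>
    intro s h
    rw [List.length_cons] at h
    rw [lev, lev, h s le_rfl (by omega), ih (s + 1) (fun i h1 h2 => h i (by omega) (by omega))]

lemma lev_mono {φ ψ : ℕ → ℝ} : ∀ (w : List ℕ) (s : ℕ),
    (∀ i, s ≤ i → i < s + w.length → φ i ≤ ψ i) → lev w s φ ≤ lev w s ψ := by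
  intro w
  induction w with
  | nil => intro s _; exact le_rfl
  | cons a w ih =>
    intro s h
    rw [List.length_cons] at h
    rw [lev, lev]
    apply add_le_add
    · exact mul_le_mul_of_nonneg_left (h s le_rfl (by omega)) (Nat.cast_nonneg a)
    · exact ih (s + 1) (fun i h1 h2 => h i (by omega) (by omega))

lemma lev_const (c : ℝ) : ∀ (w : List ℕ) (s : ℕ), lev w s (fun _ => c) = (w.sum : ℕ) * c := by
  intro w
  induction w with
  | nil => intro s; simp [lev]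
  | cons a w ih =>
    intro s
    rw [lev, ih, List.sum_cons]
    push_cast
    ring

lemma lev_mul (c : ℝ) (φ : ℕ → ℝ) : ∀ (w : List ℕ) (s : ℕ),
    lev w s (fun i => c * φ i) = c * lev w s φ := by
  intro w
  induction w with
  | nil => intro s; simp [lev]
  | cons a w ih =>
    intro s
    rw [lev, ih, lev]
    ring

lemma lev_div (c : ℝ) (φ : ℕ → ℝ) (w : List ℕ) (s : ℕ) :
    lev w s (fun i => φ i / c) = lev w s φ / c := by
  have := lev_mul c⁻¹ φ w s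
  rw [div_eq_inv_mul, ← this]
  congr 1
  funext i
  rw [div_eq_inv_mul]

lemma lev_add (φ ψ : ℕ → ℝ) : ∀ (w : List ℕ) (s : ℕ),
    lev w s (fun i => φ i + ψ i) = lev w s φ + lev w s ψ := by
  intro w
  induction w with
  | nil => intro s; simp [lev]
  | cons a w ih =>
    intro s
    rw [lev, ih, lev, lev]
    ring

lemma lev_sub (φ ψ : ℕ → ℝ) : ∀ (w : List ℕ) (s : ℕ),
    lev w s (fun i => φ i - ψ i) = lev w s φ - lev w s ψ := by
  intro w
  induction w with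
  | nil => intro s; simp [lev]
  | cons a w ih =>
    intro s
    rw [lev, ih, lev, lev]
    ring

lemma lev_shift (φ : ℕ → ℝ) (a : ℕ) : ∀ (w : List ℕ) (s : ℕ),
    lev w s (fun i => φ (a + i)) = lev w (a + s) φ := by
  intro w
  induction w with
  | nil => intro s; rfl
  | cons b w ih =>
    intro s
    rw [lev, ih, lev]
    rfl

lemma lev_sum {ι : Type} (S : Finset ι) (f : ℕ → ι → ℝ) : ∀ (w : List ℕ) (s : ℕ),
    lev w s (fun i => ∑ r ∈ S, f i r) = ∑ r ∈ S, lev w s (fun i => f i r) := by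
  intro w
  induction w with
  | nil => intro s; simp [lev]
  | cons b w ih =>
    intro s
    simp only [lev]
    rw [ih, Finset.mul_sum, Finset.sum_add_distrib]

lemma lev_cast (f : ℕ → ℕ) : ∀ (w : List ℕ) (s : ℕ),
    lev w s (fun i => (f i : ℝ)) = (levN w s f : ℝ) := by
  intro w
  induction w with
  | nil => intro s; simp [lev, levN]
  | cons b w ih =>
    intro s
    simp only [lev, levN]
    rw [ih]
    push_cast
    ring

lemma lev_comm (f : ℕ → ℕ → ℝ) (v : List ℕ) (t : ℕ) : ∀ (w : List ℕ) (s : ℕ),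
    lev w s (fun i => lev v t (fun j => f i j)) = lev v t (fun j => lev w s (fun i => f i j)) := by
  intro w
  induction w with
  | nil =>
    intro s
    simp only [lev]
    rw [lev_const]
    simp
  | cons b w ih =>
    intro s
    simp only [lev]
    rw [ih, lev_add, lev_mul]

lemma levN_range (φ : ℕ → ℕ) : ∀ (w : List ℕ) (s : ℕ),
    levN w s φ = ∑ k ∈ range w.length, w.getD k 0 * φ (s + k) := by
  intro w
  induction w with
  | nil => intro s; simp [levN]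
  | cons b w ih =>
    intro s
    rw [levN, ih, List.length_cons, Finset.sum_range_succ']
    rw [add_comm]
    congr 1
    apply Finset.sum_congr rfl
    intro k _
    rw [List.getD_cons_succ, show s + 1 + k = s + (k + 1) by ring]

lemma lev_range (φ : ℕ → ℝ) : ∀ (w : List ℕ) (s : ℕ),
    lev w s φ = ∑ k ∈ range w.length, (w.getD k 0 : ℝ) * φ (s + k) := by
  intro w
  induction w with
  | nil => intro s; simp [lev]
  | cons b w ih =>
    intro s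
    rw [lev, ih, List.length_cons, Finset.sum_range_succ']
    rw [add_comm]
    congr 1
    apply Finset.sum_congr rfl
    intro k _
    rw [List.getD_cons_succ, show s + 1 + k = s + (k + 1) by ring]

/-- list lookup -/
noncomputable def nth {α : Type} (d : α) (l : List α) (k : ℕ) : α :=
  @List.rec α (fun _ => ℕ → α) (fun _ => d)
    (fun a _ ih k => @Nat.rec (fun _ => α) a (fun k' _ => ih k') k) l k

lemma nth_eq {α : Type} (d : α) : ∀ (l : List α) (k : ℕ), nth d l k = l.getD k d := by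
  intro l
  induction l with
  | nil => intro k; simp [nth]
  | cons a l ih =>
    intro k
    cases k with
    | zero => simp [nth]
    | succ k =>
      rw [List.getD_cons_succ, ← ih]
      rfl

/-- sizes of the blocks -/
def szT : List ℕ := [nat_lit 1, nat_lit 3, nat_lit 5, nat_lit 5, nat_lit 6, nat_lit 7, nat_lit 7, nat_lit 7, nat_lit 8, nat_lit 9, nat_lit 9, nat_lit 9, nat_lit 9, nat_lit 11, nat_lit 13, nat_lit 15, nat_lit 17, nat_lit 10, nat_lit 21]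

/-- denominators of the blocks -/
def denT : List ℕ := [nat_lit 1, nat_lit 3, nat_lit 10, nat_lit 5, nat_lit 15, nat_lit 21, nat_lit 63, nat_lit 105, nat_lit 210, nat_lit 84, nat_lit 108, nat_lit 36, nat_lit 27, nat_lit 110, nat_lit 2340, nat_lit 45045, nat_lit 2040, nat_lit 630, nat_lit 13230]

/-- widths of the blocks -/
def wdT : List ℕ := [nat_lit 1, nat_lit 2, nat_lit 2, nat_lit 2, nat_lit 2, nat_lit 3, nat_lit 3, nat_lit 3, nat_lit 4, nat_lit 2, nat_lit 3, nat_lit 2, nat_lit 3, nat_lit 3, nat_lit 3, nat_lit 4, nat_lit 3, nat_lit 5, nat_lit 6]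

/-- balance constants of the blocks, numerators -/
def uNT : List ℕ := [nat_lit 0, nat_lit 1, nat_lit 2, nat_lit 2, nat_lit 2, nat_lit 8, nat_lit 26, nat_lit 2, nat_lit 263, nat_lit 5, nat_lit 5, nat_lit 5, nat_lit 11, nat_lit 9, nat_lit 107, nat_lit 178, nat_lit 287, nat_lit 19, nat_lit 19]

/-- balance constants of the blocks, denominators -/
def uDT : List ℕ := [nat_lit 1, nat_lit 3, nat_lit 5, nat_lit 5, nat_lit 5, nat_lit 21, nat_lit 63, nat_lit 5, nat_lit 630, nat_lit 12, nat_lit 12, nat_lit 12, nat_lit 27, nat_lit 22, nat_lit 260, nat_lit 429, nat_lit 680, nat_lit 45, nat_lit 45]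

/-- rank distributions of the elements of the blocks -/
def elT : List (List (List ℕ)) := [
  [[nat_lit 1]],
  [[nat_lit 2, nat_lit 1, nat_lit 0], [nat_lit 1, nat_lit 1, nat_lit 1], [nat_lit 0, nat_lit 1, nat_lit 2]],
  [[nat_lit 6, nat_lit 3, nat_lit 1, nat_lit 0, nat_lit 0], [nat_lit 4, nat_lit 3, nat_lit 2, nat_lit 1, nat_lit 0], [nat_lit 0, nat_lit 3, nat_lit 4, nat_lit 3, nat_lit 0], [nat_lit 0, nat_lit 1, nat_lit 2, nat_lit 3, nat_lit 4], [nat_lit 0, nat_lit 0, nat_lit 1, nat_lit 3, nat_lit 6]],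
  [[nat_lit 4, nat_lit 1, nat_lit 0, nat_lit 0, nat_lit 0], [nat_lit 0, nat_lit 3, nat_lit 2, nat_lit 0, nat_lit 0], [nat_lit 1, nat_lit 1, nat_lit 1, nat_lit 1, nat_lit 1], [nat_lit 0, nat_lit 0, nat_lit 2, nat_lit 3, nat_lit 0], [nat_lit 0, nat_lit 0, nat_lit 0, nat_lit 1, nat_lit 4]],
  [[nat_lit 10, nat_lit 4, nat_lit 1, nat_lit 0, nat_lit 0, nat_lit 0], [nat_lit 5, nat_lit 4, nat_lit 3, nat_lit 2, nat_lit 1, nat_lit 0], [nat_lit 0, nat_lit 6, nat_lit 6, nat_lit 3, nat_lit 0, nat_lit 0], [nat_lit 0, nat_lit 0, nat_lit 3, nat_lit 6, nat_lit 6, nat_lit 0], [nat_lit 0, nat_lit 1, nat_lit 2, nat_lit 3, nat_lit 4, nat_lit 5], [nat_lit 0, nat_lit 0, nat_lit 0, nat_lit 1, nat_lit 4, nat_lit 10]],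
  [[nat_lit 12, nat_lit 7, nat_lit 2, nat_lit 0, nat_lit 0, nat_lit 0, nat_lit 0], [nat_lit 6, nat_lit 6, nat_lit 6, nat_lit 3, nat_lit 0, nat_lit 0, nat_lit 0], [nat_lit 0, nat_lit 5, nat_lit 10, nat_lit 6, nat_lit 0, nat_lit 0, nat_lit 0], [nat_lit 3, nat_lit 3, nat_lit 3, nat_lit 3, nat_lit 3, nat_lit 3, nat_lit 3], [nat_lit 0, nat_lit 0, nat_lit 0, nat_lit 6, nat_lit 10, nat_lit 5, nat_lit 0], [nat_lit 0, nat_lit 0, nat_lit 0, nat_lit 3, nat_lit 6, nat_lit 6, nat_lit 6], [nat_lit 0, nat_lit 0, nat_lit 0, nat_lit 0, nat_lit 2, nat_lit 7, nat_lit 12]],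
  [[nat_lit 45, nat_lit 15, nat_lit 3, nat_lit 0, nat_lit 0, nat_lit 0, nat_lit 0], [nat_lit 18, nat_lit 15, nat_lit 12, nat_lit 9, nat_lit 6, nat_lit 3, nat_lit 0], [nat_lit 0, nat_lit 20, nat_lit 22, nat_lit 15, nat_lit 6, nat_lit 0, nat_lit 0], [nat_lit 0, nat_lit 10, nat_lit 14, nat_lit 15, nat_lit 14, nat_lit 10, nat_lit 0], [nat_lit 0, nat_lit 0, nat_lit 6, nat_lit 15, nat_lit 22, nat_lit 20, nat_lit 0], [nat_lit 0, nat_lit 3, nat_lit 6, nat_lit 9, nat_lit 12, nat_lit 15, nat_lit 18], [nat_lit 0, nat_lit 0, nat_lit 0, nat_lit 0, nat_lit 3, nat_lit 15, nat_lit 45]],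
  [[nat_lit 60, nat_lit 30, nat_lit 12, nat_lit 3, nat_lit 0, nat_lit 0, nat_lit 0], [nat_lit 30, nat_lit 25, nat_lit 20, nat_lit 15, nat_lit 10, nat_lit 5, nat_lit 0], [nat_lit 0, nat_lit 30, nat_lit 36, nat_lit 27, nat_lit 12, nat_lit 0, nat_lit 0], [nat_lit 15, nat_lit 15, nat_lit 15, nat_lit 15, nat_lit 15, nat_lit 15, nat_lit 15], [nat_lit 0, nat_lit 0, nat_lit 12, nat_lit 27, nat_lit 36, nat_lit 30, nat_lit 0], [nat_lit 0, nat_lit 5, nat_lit 10, nat_lit 15, nat_lit 20, nat_lit 25, nat_lit 30], [nat_lit 0, nat_lit 0, nat_lit 0, nat_lit 3, nat_lit 12, nat_lit 30, nat_lit 60]],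
  [[nat_lit 105, nat_lit 60, nat_lit 30, nat_lit 12, nat_lit 3, nat_lit 0, nat_lit 0, nat_lit 0], [nat_lit 70, nat_lit 55, nat_lit 40, nat_lit 26, nat_lit 14, nat_lit 5, nat_lit 0, nat_lit 0], [nat_lit 35, nat_lit 35, nat_lit 35, nat_lit 34, nat_lit 31, nat_lit 25, nat_lit 15, nat_lit 0], [nat_lit 0, nat_lit 30, nat_lit 45, nat_lit 48, nat_lit 42, nat_lit 30, nat_lit 15, nat_lit 0], [nat_lit 0, nat_lit 15, nat_lit 30, nat_lit 42, nat_lit 48, nat_lit 45, nat_lit 30, nat_lit 0], [nat_lit 0, nat_lit 15, nat_lit 25, nat_lit 31, nat_lit 34, nat_lit 35, nat_lit 35, nat_lit 35], [nat_lit 0, nat_lit 0, nat_lit 5, nat_lit 14, nat_lit 26, nat_lit 40, nat_lit 55, nat_lit 70], [nat_lit 0, nat_lit 0, nat_lit 0, nat_lit 3, nat_lit 12, nat_lit 30, nat_lit 60, nat_lit 105]],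
  [[nat_lit 56, nat_lit 21, nat_lit 6, nat_lit 1, nat_lit 0, nat_lit 0, nat_lit 0, nat_lit 0, nat_lit 0], [nat_lit 28, nat_lit 21, nat_lit 15, nat_lit 10, nat_lit 6, nat_lit 3, nat_lit 1, nat_lit 0, nat_lit 0], [nat_lit 0, nat_lit 35, nat_lit 30, nat_lit 15, nat_lit 4, nat_lit 0, nat_lit 0, nat_lit 0, nat_lit 0], [nat_lit 0, nat_lit 0, nat_lit 20, nat_lit 30, nat_lit 24, nat_lit 10, nat_lit 0, nat_lit 0, nat_lit 0], [nat_lit 0, nat_lit 7, nat_lit 12, nat_lit 15, nat_lit 16, nat_lit 15, nat_lit 12, nat_lit 7, nat_lit 0], [nat_lit 0, nat_lit 0, nat_lit 0, nat_lit 10, nat_lit 24, nat_lit 30, nat_lit 20, nat_lit 0, nat_lit 0], [nat_lit 0, nat_lit 0, nat_lit 0, nat_lit 0, nat_lit 4, nat_lit 15, nat_lit 30, nat_lit 35, nat_lit 0], [nat_lit 0, nat_lit 0, nat_lit 1, nat_lit 3, nat_lit 6, nat_lit 10, nat_lit 15, nat_lit 21, nat_lit 28], [nat_lit 0, nat_lit 0, nat_lit 0, nat_lit 0, nat_lit 0,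 nat_lit 1, nat_lit 6, nat_lit 21, nat_lit 56]],
  [[nat_lit 84, nat_lit 21, nat_lit 3, nat_lit 0, nat_lit 0, nat_lit 0, nat_lit 0, nat_lit 0, nat_lit 0], [nat_lit 0, nat_lit 63, nat_lit 36, nat_lit 9, nat_lit 0, nat_lit 0, nat_lit 0, nat_lit 0, nat_lit 0], [nat_lit 24, nat_lit 21, nat_lit 18, nat_lit 15, nat_lit 12, nat_lit 9, nat_lit 6, nat_lit 3, nat_lit 0], [nat_lit 0, nat_lit 0, nat_lit 30, nat_lit 40, nat_lit 28, nat_lit 10, nat_lit 0, nat_lit 0, nat_lit 0], [nat_lit 0, nat_lit 0, nat_lit 15, nat_lit 25, nat_lit 28, nat_lit 25, nat_lit 15, nat_lit 0, nat_lit 0], [nat_lit 0, nat_lit 0, nat_lit 0, nat_lit 10, nat_lit 28, nat_lit 40, nat_lit 30, nat_lit 0, nat_lit 0], [nat_lit 0, nat_lit 3, nat_lit 6, nat_lit 9, nat_lit 12, nat_lit 15, nat_lit 18, nat_lit 21, nat_lit 24], [nat_lit 0, nat_lit 0, nat_lit 0, nat_lit 0, nat_lit 0, nat_lit 9, nat_lit 36, nat_lit 63, nat_lit 0], [nat_lit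 0, nat_lit 0, nat_lit 0, nat_lit 0, nat_lit 0, nat_lit 0, nat_lit 3, nat_lit 21, nat_lit 84]],
  [[nat_lit 28, nat_lit 7, nat_lit 1, nat_lit 0, nat_lit 0, nat_lit 0, nat_lit 0, nat_lit 0, nat_lit 0], [nat_lit 0, nat_lit 21, nat_lit 12, nat_lit 3, nat_lit 0, nat_lit 0, nat_lit 0, nat_lit 0, nat_lit 0], [nat_lit 8, nat_lit 7, nat_lit 6, nat_lit 5, nat_lit 4, nat_lit 3, nat_lit 2, nat_lit 1, nat_lit 0], [nat_lit 0, nat_lit 0, nat_lit 15, nat_lit 15, nat_lit 6, nat_lit 0, nat_lit 0, nat_lit 0, nat_lit 0], [nat_lit 0, nat_lit 0, nat_lit 0, nat_lit 10, nat_lit 16, nat_lit 10, nat_lit 0, nat_lit 0, nat_lit 0], [nat_lit 0, nat_lit 0, nat_lit 0, nat_lit 0, nat_lit 6, nat_lit 15, nat_lit 15, nat_lit 0, nat_lit 0], [nat_lit 0, nat_lit 1, nat_lit 2, nat_lit 3, nat_lit 4, nat_lit 5, nat_lit 6, nat_lit 7, nat_lit 8], [nat_lit 0, nat_lit 0, nat_lit 0, nat_lit 0, nat_lit 0, nat_lit 3, nat_lit 12,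 nat_lit 21, nat_lit 0], [nat_lit 0, nat_lit 0, nat_lit 0, nat_lit 0, nat_lit 0, nat_lit 0, nat_lit 1, nat_lit 7, nat_lit 28]],
  [[nat_lit 24, nat_lit 3, nat_lit 0, nat_lit 0, nat_lit 0, nat_lit 0, nat_lit 0, nat_lit 0, nat_lit 0], [nat_lit 0, nat_lit 14, nat_lit 10, nat_lit 3, nat_lit 0, nat_lit 0, nat_lit 0, nat_lit 0, nat_lit 0], [nat_lit 0, nat_lit 7, nat_lit 8, nat_lit 8, nat_lit 4, nat_lit 0, nat_lit 0, nat_lit 0, nat_lit 0], [nat_lit 0, nat_lit 0, nat_lit 6, nat_lit 13, nat_lit 8, nat_lit 0, nat_lit 0, nat_lit 0, nat_lit 0], [nat_lit 3, nat_lit 3, nat_lit 3, nat_lit 3, nat_lit 3, nat_lit 3, nat_lit 3, nat_lit 3, nat_lit 3], [nat_lit 0, nat_lit 0, nat_lit 0, nat_lit 0, nat_lit 8, nat_lit 13, nat_lit 6, nat_lit 0, nat_lit 0], [nat_lit 0, nat_lit 0, nat_lit 0, nat_lit 0, nat_lit 4, nat_lit 8, nat_lit 8, nat_lit 7, nat_lit 0], [nat_lit 0, nat_lit 0, nat_lit 0, nat_lit 0, nat_lit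 0, nat_lit 3, nat_lit 10, nat_lit 14, nat_lit 0], [nat_lit 0, nat_lit 0, nat_lit 0, nat_lit 0, nat_lit 0, nat_lit 0, nat_lit 0, nat_lit 3, nat_lit 24]],
  [[nat_lit 60, nat_lit 33, nat_lit 14, nat_lit 3, nat_lit 0, nat_lit 0, nat_lit 0, nat_lit 0, nat_lit 0, nat_lit 0, nat_lit 0], [nat_lit 40, nat_lit 31, nat_lit 22, nat_lit 13, nat_lit 4, nat_lit 0, nat_lit 0, nat_lit 0, nat_lit 0, nat_lit 0, nat_lit 0], [nat_lit 0, nat_lit 27, nat_lit 38, nat_lit 33, nat_lit 12, nat_lit 0, nat_lit 0, nat_lit 0, nat_lit 0, nat_lit 0, nat_lit 0], [nat_lit 0, nat_lit 9, nat_lit 18, nat_lit 27, nat_lit 36, nat_lit 20, nat_lit 0, nat_lit 0, nat_lit 0, nat_lit 0, nat_lit 0], [nat_lit 0, nat_lit 0, nat_lit 8, nat_lit 24, nat_lit 48, nat_lit 30, nat_lit 0, nat_lit 0, nat_lit 0, nat_lit 0, nat_lit 0], [nat_lit 10, nat_lit 10, nat_lit 10, nat_lit 10, nat_lit 10, nat_lit 10, nat_lit 10, nat_lit 10, nat_lit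 10, nat_lit 10, nat_lit 10], [nat_lit 0, nat_lit 0, nat_lit 0, nat_lit 0, nat_lit 0, nat_lit 30, nat_lit 48, nat_lit 24, nat_lit 8, nat_lit 0, nat_lit 0], [nat_lit 0, nat_lit 0, nat_lit 0, nat_lit 0, nat_lit 0, nat_lit 20, nat_lit 36, nat_lit 27, nat_lit 18, nat_lit 9, nat_lit 0], [nat_lit 0, nat_lit 0, nat_lit 0, nat_lit 0, nat_lit 0, nat_lit 0, nat_lit 12, nat_lit 33, nat_lit 38, nat_lit 27, nat_lit 0], [nat_lit 0, nat_lit 0, nat_lit 0, nat_lit 0, nat_lit 0, nat_lit 0, nat_lit 4, nat_lit 13, nat_lit 22, nat_lit 31, nat_lit 40], [nat_lit 0, nat_lit 0, nat_lit 0, nat_lit 0, nat_lit 0, nat_lit 0, nat_lit 0, nat_lit 3, nat_lit 14, nat_lit 33, nat_lit 60]],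
  [[nat_lit 1320, nat_lit 770, nat_lit 220, nat_lit 30, nat_lit 0, nat_lit 0, nat_lit 0, nat_lit 0, nat_lit 0, nat_lit 0, nat_lit 0, nat_lit 0, nat_lit 0], [nat_lit 660, nat_lit 660, nat_lit 660, nat_lit 300, nat_lit 60, nat_lit 0, nat_lit 0, nat_lit 0, nat_lit 0, nat_lit 0, nat_lit 0, nat_lit 0, nat_lit 0], [nat_lit 0, nat_lit 550, nat_lit 1100, nat_lit 570, nat_lit 120, nat_lit 0, nat_lit 0, nat_lit 0, nat_lit 0, nat_lit 0, nat_lit 0, nat_lit 0, nat_lit 0], [nat_lit 360, nat_lit 330, nat_lit 300, nat_lit 270, nat_lit 240, nat_lit 210, nat_lit 180, nat_lit 150, nat_lit 120, nat_lit 90, nat_lit 60, nat_lit 30, nat_lit 0], [nat_lit 0, nat_lit 0, nat_lit 0, nat_lit 648, nat_lit 828, nat_lit 558, nat_lit 243, nat_lit 63, nat_lit 0, nat_lit 0, nat_lit 0, nat_lit 0, nat_lit 0], [nat_lit 0, nat_lit 0, nat_lit 0, nat_lit 432, nat_lit 636, nat_lit 561, nat_lit 396, nat_lit 231, nat_lit 84,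 nat_lit 0, nat_lit 0, nat_lit 0, nat_lit 0], [nat_lit 0, nat_lit 0, nat_lit 0, nat_lit 0, nat_lit 252, nat_lit 567, nat_lit 702, nat_lit 567, nat_lit 252, nat_lit 0, nat_lit 0, nat_lit 0, nat_lit 0], [nat_lit 0, nat_lit 0, nat_lit 0, nat_lit 0, nat_lit 84, nat_lit 231, nat_lit 396, nat_lit 561, nat_lit 636, nat_lit 432, nat_lit 0, nat_lit 0, nat_lit 0], [nat_lit 0, nat_lit 0, nat_lit 0, nat_lit 0, nat_lit 0, nat_lit 63, nat_lit 243, nat_lit 558, nat_lit 828, nat_lit 648, nat_lit 0, nat_lit 0, nat_lit 0], [nat_lit 0, nat_lit 30, nat_lit 60, nat_lit 90, nat_lit 120, nat_lit 150, nat_lit 180, nat_lit 210, nat_lit 240, nat_lit 270, nat_lit 300, nat_lit 330, nat_lit 360], [nat_lit 0, nat_lit 0, nat_lit 0, nat_lit 0, nat_lit 0, nat_lit 0, nat_lit 0, nat_lit 0, nat_lit 120, nat_lit 570, nat_lit 1100, nat_lit 550, nat_lit 0], [nat_lit 0, nat_lit 0, nat_lit 0, nat_lit 0, nat_lit 0, nat_lit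 0, nat_lit 0, nat_lit 0, nat_lit 60, nat_lit 300, nat_lit 660, nat_lit 660, nat_lit 660], [nat_lit 0, nat_lit 0, nat_lit 0, nat_lit 0, nat_lit 0, nat_lit 0, nat_lit 0, nat_lit 0, nat_lit 0, nat_lit 30, nat_lit 220, nat_lit 770, nat_lit 1320]],
  [[nat_lit 24024, nat_lit 12441, nat_lit 5610, nat_lit 2145, nat_lit 660, nat_lit 147, nat_lit 18, nat_lit 0, nat_lit 0, nat_lit 0, nat_lit 0, nat_lit 0, nat_lit 0, nat_lit 0, nat_lit 0], [nat_lit 15015, nat_lit 10725, nat_lit 7425, nat_lit 4950, nat_lit 3150, nat_lit 1890, nat_lit 1050, nat_lit 525, nat_lit 225, nat_lit 75, nat_lit 15, nat_lit 0, nat_lit 0, nat_lit 0, nat_lit 0], [nat_lit 0, nat_lit 11583, nat_lit 13662, nat_lit 10395, nat_lit 5940, nat_lit 2565, nat_lit 774, nat_lit 126, nat_lit 0, nat_lit 0, nat_lit 0, nat_lit 0, nat_lit 0, nat_lit 0, nat_lit 0], [nat_lit 6006, nat_lit 6006, nat_lit 6006, nat_lit 6006, nat_lit 6006, nat_lit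 5628, nat_lit 4578, nat_lit 3003, nat_lit 1428, nat_lit 378, nat_lit 0, nat_lit 0, nat_lit 0, nat_lit 0, nat_lit 0], [nat_lit 0, nat_lit 0, nat_lit 4752, nat_lit 10098, nat_lit 11880, nat_lit 9720, nat_lit 5760, nat_lit 2331, nat_lit 504, nat_lit 0, nat_lit 0, nat_lit 0, nat_lit 0, nat_lit 0, nat_lit 0], [nat_lit 0, nat_lit 2860, nat_lit 4730, nat_lit 5775, nat_lit 6150, nat_lit 6000, nat_lit 5460, nat_lit 4655, nat_lit 3700, nat_lit 2700, nat_lit 1750, nat_lit 935, nat_lit 330, nat_lit 0, nat_lit 0], [nat_lit 0, nat_lit 0, nat_lit 0, nat_lit 1386, nat_lit 5544, nat_lit 10080, nat_lit 11760, nat_lit 9555, nat_lit 5208, nat_lit 1512, nat_lit 0, nat_lit 0, nat_lit 0, nat_lit 0, nat_lit 0], [nat_lit 0, nat_lit 1430, nat_lit 2530, nat_lit 3355, nat_lit 3950, nat_lit 4350, nat_lit 4580, nat_lit 4655, nat_lit 4580, nat_lit 4350, nat_lit 3950, nat_lit 3355, nat_lit 2530, nat_lit 1430, nat_lit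 0], [nat_lit 0, nat_lit 0, nat_lit 0, nat_lit 0, nat_lit 0, nat_lit 1512, nat_lit 5208, nat_lit 9555, nat_lit 11760, nat_lit 10080, nat_lit 5544, nat_lit 1386, nat_lit 0, nat_lit 0, nat_lit 0], [nat_lit 0, nat_lit 0, nat_lit 330, nat_lit 935, nat_lit 1750, nat_lit 2700, nat_lit 3700, nat_lit 4655, nat_lit 5460, nat_lit 6000, nat_lit 6150, nat_lit 5775, nat_lit 4730, nat_lit 2860, nat_lit 0], [nat_lit 0, nat_lit 0, nat_lit 0, nat_lit 0, nat_lit 0, nat_lit 0, nat_lit 504, nat_lit 2331, nat_lit 5760, nat_lit 9720, nat_lit 11880, nat_lit 10098, nat_lit 4752, nat_lit 0, nat_lit 0], [nat_lit 0, nat_lit 0, nat_lit 0, nat_lit 0, nat_lit 0, nat_lit 378, nat_lit 1428, nat_lit 3003, nat_lit 4578, nat_lit 5628, nat_lit 6006, nat_lit 6006, nat_lit 6006, nat_lit 6006, nat_lit 6006], [nat_lit 0, nat_lit 0, nat_lit 0, nat_lit 0, nat_lit 0, nat_lit 0, nat_lit 0, nat_lit 126, nat_lit 774, nat_lit 2565,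 nat_lit 5940, nat_lit 10395, nat_lit 13662, nat_lit 11583, nat_lit 0], [nat_lit 0, nat_lit 0, nat_lit 0, nat_lit 0, nat_lit 15, nat_lit 75, nat_lit 225, nat_lit 525, nat_lit 1050, nat_lit 1890, nat_lit 3150, nat_lit 4950, nat_lit 7425, nat_lit 10725, nat_lit 15015], [nat_lit 0, nat_lit 0, nat_lit 0, nat_lit 0, nat_lit 0, nat_lit 0, nat_lit 0, nat_lit 0, nat_lit 18, nat_lit 147, nat_lit 660, nat_lit 2145, nat_lit 5610, nat_lit 12441, nat_lit 24024]],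
  [[nat_lit 1120, nat_lit 665, nat_lit 210, nat_lit 41, nat_lit 4, nat_lit 0, nat_lit 0, nat_lit 0, nat_lit 0, nat_lit 0, nat_lit 0, nat_lit 0, nat_lit 0, nat_lit 0, nat_lit 0, nat_lit 0, nat_lit 0], [nat_lit 560, nat_lit 560, nat_lit 560, nat_lit 274, nat_lit 76, nat_lit 10, nat_lit 0, nat_lit 0, nat_lit 0, nat_lit 0, nat_lit 0, nat_lit 0, nat_lit 0, nat_lit 0, nat_lit 0, nat_lit 0, nat_lit 0], [nat_lit 0, nat_lit 455, nat_lit 910, nat_lit 507, nat_lit 148, nat_lit 20, nat_lit 0, nat_lit 0, nat_lit 0, nat_lit 0, nat_lit 0, nat_lit 0, nat_lit 0, nat_lit 0, nat_lit 0, nat_lit 0, nat_lit 0], [nat_lit 360, nat_lit 315, nat_lit 273, nat_lit 234, nat_lit 198, nat_lit 165, nat_lit 135, nat_lit 108, nat_lit 84, nat_lit 63, nat_lit 45, nat_lit 30, nat_lit 18, nat_lit 9, nat_lit 3, nat_lit 0, nat_lit 0], [nat_lit 0, nat_lit 0, nat_lit 0, nat_lit 858, nat_lit 792, nat_lit 330, nat_lit 60, nat_lit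 0, nat_lit 0, nat_lit 0, nat_lit 0, nat_lit 0, nat_lit 0, nat_lit 0, nat_lit 0, nat_lit 0, nat_lit 0], [nat_lit 0, nat_lit 0, nat_lit 0, nat_lit 0, nat_lit 440, nat_lit 715, nat_lit 570, nat_lit 259, nat_lit 56, nat_lit 0, nat_lit 0, nat_lit 0, nat_lit 0, nat_lit 0, nat_lit 0, nat_lit 0, nat_lit 0], [nat_lit 0, nat_lit 0, nat_lit 0, nat_lit 0, nat_lit 220, nat_lit 440, nat_lit 540, nat_lit 476, nat_lit 280, nat_lit 84, nat_lit 0, nat_lit 0, nat_lit 0, nat_lit 0, nat_lit 0, nat_lit 0, nat_lit 0], [nat_lit 0, nat_lit 0, nat_lit 0, nat_lit 0, nat_lit 0, nat_lit 165, nat_lit 510, nat_lit 693, nat_lit 504, nat_lit 168, nat_lit 0, nat_lit 0, nat_lit 0, nat_lit 0, nat_lit 0, nat_lit 0, nat_lit 0], [nat_lit 0, nat_lit 45, nat_lit 84, nat_lit 117, nat_lit 144, nat_lit 165, nat_lit 180, nat_lit 189, nat_lit 192, nat_lit 189, nat_lit 180, nat_lit 165, nat_lit 144, nat_lit 117, nat_lit 84, nat_lit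 45, nat_lit 0], [nat_lit 0, nat_lit 0, nat_lit 0, nat_lit 0, nat_lit 0, nat_lit 0, nat_lit 0, nat_lit 168, nat_lit 504, nat_lit 693, nat_lit 510, nat_lit 165, nat_lit 0, nat_lit 0, nat_lit 0, nat_lit 0, nat_lit 0], [nat_lit 0, nat_lit 0, nat_lit 0, nat_lit 0, nat_lit 0, nat_lit 0, nat_lit 0, nat_lit 84, nat_lit 280, nat_lit 476, nat_lit 540, nat_lit 440, nat_lit 220, nat_lit 0, nat_lit 0, nat_lit 0, nat_lit 0], [nat_lit 0, nat_lit 0, nat_lit 0, nat_lit 0, nat_lit 0, nat_lit 0, nat_lit 0, nat_lit 0, nat_lit 56, nat_lit 259, nat_lit 570, nat_lit 715, nat_lit 440, nat_lit 0, nat_lit 0, nat_lit 0, nat_lit 0], [nat_lit 0, nat_lit 0, nat_lit 0, nat_lit 0, nat_lit 0, nat_lit 0, nat_lit 0, nat_lit 0, nat_lit 0, nat_lit 0, nat_lit 60, nat_lit 330, nat_lit 792, nat_lit 858, nat_lit 0, nat_lit 0, nat_lit 0], [nat_lit 0, nat_lit 0, nat_lit 3, nat_lit 9, nat_lit 18, nat_lit 30, nat_lit 45, nat_lit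 63, nat_lit 84, nat_lit 108, nat_lit 135, nat_lit 165, nat_lit 198, nat_lit 234, nat_lit 273, nat_lit 315, nat_lit 360], [nat_lit 0, nat_lit 0, nat_lit 0, nat_lit 0, nat_lit 0, nat_lit 0, nat_lit 0, nat_lit 0, nat_lit 0, nat_lit 0, nat_lit 0, nat_lit 20, nat_lit 148, nat_lit 507, nat_lit 910, nat_lit 455, nat_lit 0], [nat_lit 0, nat_lit 0, nat_lit 0, nat_lit 0, nat_lit 0, nat_lit 0, nat_lit 0, nat_lit 0, nat_lit 0, nat_lit 0, nat_lit 0, nat_lit 10, nat_lit 76, nat_lit 274, nat_lit 560, nat_lit 560, nat_lit 560], [nat_lit 0, nat_lit 0, nat_lit 0, nat_lit 0, nat_lit 0, nat_lit 0, nat_lit 0, nat_lit 0, nat_lit 0, nat_lit 0, nat_lit 0, nat_lit 0, nat_lit 4, nat_lit 41, nat_lit 210, nat_lit 665, nat_lit 1120]],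
  [[nat_lit 252, nat_lit 168, nat_lit 105, nat_lit 60, nat_lit 30, nat_lit 12, nat_lit 3, nat_lit 0, nat_lit 0, nat_lit 0], [nat_lit 168, nat_lit 140, nat_lit 112, nat_lit 85, nat_lit 60, nat_lit 38, nat_lit 20, nat_lit 7, nat_lit 0, nat_lit 0], [nat_lit 126, nat_lit 112, nat_lit 98, nat_lit 84, nat_lit 70, nat_lit 56, nat_lit 42, nat_lit 28, nat_lit 14, nat_lit 0], [nat_lit 84, nat_lit 84, nat_lit 84, nat_lit 83, nat_lit 80, nat_lit 74, nat_lit 64, nat_lit 49, nat_lit 28, nat_lit 0], [nat_lit 0, nat_lit 56, nat_lit 91, nat_lit 108, nat_lit 110, nat_lit 100, nat_lit 81, nat_lit 56, nat_lit 28, nat_lit 0], [nat_lit 0, nat_lit 28, nat_lit 56, nat_lit 81, nat_lit 100, nat_lit 110, nat_lit 108, nat_lit 91, nat_lit 56, nat_lit 0], [nat_lit 0, nat_lit 28, nat_lit 49, nat_lit 64, nat_lit 74, nat_lit 80, nat_lit 83, nat_lit 84, nat_lit 84, nat_lit 84], [nat_lit 0, nat_lit 14, nat_lit 28, nat_lit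 42, nat_lit 56, nat_lit 70, nat_lit 84, nat_lit 98, nat_lit 112, nat_lit 126], [nat_lit 0, nat_lit 0, nat_lit 7, nat_lit 20, nat_lit 38, nat_lit 60, nat_lit 85, nat_lit 112, nat_lit 140, nat_lit 168], [nat_lit 0, nat_lit 0, nat_lit 0, nat_lit 3, nat_lit 12, nat_lit 30, nat_lit 60, nat_lit 105, nat_lit 168, nat_lit 252]],
  [[nat_lit 5040, nat_lit 3444, nat_lit 2226, nat_lit 1335, nat_lit 720, nat_lit 330, nat_lit 114, nat_lit 21, nat_lit 0, nat_lit 0, nat_lit 0, nat_lit 0, nat_lit 0, nat_lit 0, nat_lit 0, nat_lit 0, nat_lit 0, nat_lit 0, nat_lit 0, nat_lit 0, nat_lit 0], [nat_lit 3360, nat_lit 2828, nat_lit 2296, nat_lit 1781, nat_lit 1300, nat_lit 870, nat_lit 508, nat_lit 231, nat_lit 56, nat_lit 0, nat_lit 0, nat_lit 0, nat_lit 0, nat_lit 0, nat_lit 0, nat_lit 0, nat_lit 0, nat_lit 0, nat_lit 0, nat_lit 0, nat_lit 0], [nat_lit 2520, nat_lit 2254, nat_lit 1988, nat_lit 1722, nat_lit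 1456, nat_lit 1190, nat_lit 924, nat_lit 658, nat_lit 392, nat_lit 126, nat_lit 0, nat_lit 0, nat_lit 0, nat_lit 0, nat_lit 0, nat_lit 0, nat_lit 0, nat_lit 0, nat_lit 0, nat_lit 0, nat_lit 0], [nat_lit 1680, nat_lit 1680, nat_lit 1680, nat_lit 1663, nat_lit 1612, nat_lit 1510, nat_lit 1340, nat_lit 1085, nat_lit 728, nat_lit 252, nat_lit 0, nat_lit 0, nat_lit 0, nat_lit 0, nat_lit 0, nat_lit 0, nat_lit 0, nat_lit 0, nat_lit 0, nat_lit 0, nat_lit 0], [nat_lit 0, nat_lit 1064, nat_lit 1750, nat_lit 2109, nat_lit 2192, nat_lit 2050, nat_lit 1734, nat_lit 1295, nat_lit 784, nat_lit 252, nat_lit 0, nat_lit 0, nat_lit 0, nat_lit 0, nat_lit 0, nat_lit 0, nat_lit 0, nat_lit 0, nat_lit 0, nat_lit 0, nat_lit 0], [nat_lit 0, nat_lit 532, nat_lit 1064, nat_lit 1545, nat_lit 1924, nat_lit 2150, nat_lit 2172, nat_lit 1939, nat_lit 1400, nat_lit 504, nat_lit 0, nat_lit 0, nat_lit 0, nat_lit 0, nat_lit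 0, nat_lit 0, nat_lit 0, nat_lit 0, nat_lit 0, nat_lit 0, nat_lit 0], [nat_lit 0, nat_lit 532, nat_lit 938, nat_lit 1235, nat_lit 1440, nat_lit 1570, nat_lit 1642, nat_lit 1673, nat_lit 1680, nat_lit 1680, nat_lit 840, nat_lit 0, nat_lit 0, nat_lit 0, nat_lit 0, nat_lit 0, nat_lit 0, nat_lit 0, nat_lit 0, nat_lit 0, nat_lit 0], [nat_lit 0, nat_lit 266, nat_lit 532, nat_lit 798, nat_lit 1064, nat_lit 1330, nat_lit 1596, nat_lit 1862, nat_lit 2128, nat_lit 2394, nat_lit 1260, nat_lit 0, nat_lit 0, nat_lit 0, nat_lit 0, nat_lit 0, nat_lit 0, nat_lit 0, nat_lit 0, nat_lit 0, nat_lit 0], [nat_lit 0, nat_lit 0, nat_lit 126, nat_lit 361, nat_lit 688, nat_lit 1090, nat_lit 1550, nat_lit 2051, nat_lit 2576, nat_lit 3108, nat_lit 1680, nat_lit 0, nat_lit 0, nat_lit 0, nat_lit 0, nat_lit 0, nat_lit 0, nat_lit 0, nat_lit 0, nat_lit 0, nat_lit 0], [nat_lit 0, nat_lit 0, nat_lit 0, nat_lit 51, nat_lit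 204, nat_lit 510, nat_lit 1020, nat_lit 1785, nat_lit 2856, nat_lit 4284, nat_lit 2520, nat_lit 0, nat_lit 0, nat_lit 0, nat_lit 0, nat_lit 0, nat_lit 0, nat_lit 0, nat_lit 0, nat_lit 0, nat_lit 0], [nat_lit 630, nat_lit 630, nat_lit 630, nat_lit 630, nat_lit 630, nat_lit 630, nat_lit 630, nat_lit 630, nat_lit 630, nat_lit 630, nat_lit 630, nat_lit 630, nat_lit 630, nat_lit 630, nat_lit 630, nat_lit 630, nat_lit 630, nat_lit 630, nat_lit 630, nat_lit 630, nat_lit 630], [nat_lit 0, nat_lit 0, nat_lit 0, nat_lit 0, nat_lit 0, nat_lit 0, nat_lit 0, nat_lit 0, nat_lit 0, nat_lit 0, nat_lit 2520, nat_lit 4284, nat_lit 2856, nat_lit 1785, nat_lit 1020, nat_lit 510, nat_lit 204, nat_lit 51, nat_lit 0, nat_lit 0, nat_lit 0], [nat_lit 0, nat_lit 0, nat_lit 0, nat_lit 0, nat_lit 0, nat_lit 0, nat_lit 0, nat_lit 0, nat_lit 0, nat_lit 0, nat_lit 1680, nat_lit 3108, nat_lit 2576, nat_lit 2051,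 nat_lit 1550, nat_lit 1090, nat_lit 688, nat_lit 361, nat_lit 126, nat_lit 0, nat_lit 0], [nat_lit 0, nat_lit 0, nat_lit 0, nat_lit 0, nat_lit 0, nat_lit 0, nat_lit 0, nat_lit 0, nat_lit 0, nat_lit 0, nat_lit 1260, nat_lit 2394, nat_lit 2128, nat_lit 1862, nat_lit 1596, nat_lit 1330, nat_lit 1064, nat_lit 798, nat_lit 532, nat_lit 266, nat_lit 0], [nat_lit 0, nat_lit 0, nat_lit 0, nat_lit 0, nat_lit 0, nat_lit 0, nat_lit 0, nat_lit 0, nat_lit 0, nat_lit 0, nat_lit 840, nat_lit 1680, nat_lit 1680, nat_lit 1673, nat_lit 1642, nat_lit 1570, nat_lit 1440, nat_lit 1235, nat_lit 938, nat_lit 532, nat_lit 0], [nat_lit 0, nat_lit 0, nat_lit 0, nat_lit 0, nat_lit 0, nat_lit 0, nat_lit 0, nat_lit 0, nat_lit 0, nat_lit 0, nat_lit 0, nat_lit 504, nat_lit 1400, nat_lit 1939, nat_lit 2172, nat_lit 2150, nat_lit 1924, nat_lit 1545, nat_lit 1064, nat_lit 532, nat_lit 0], [nat_lit 0, nat_lit 0, nat_lit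 0, nat_lit 0, nat_lit 0, nat_lit 0, nat_lit 0, nat_lit 0, nat_lit 0, nat_lit 0, nat_lit 0, nat_lit 252, nat_lit 784, nat_lit 1295, nat_lit 1734, nat_lit 2050, nat_lit 2192, nat_lit 2109, nat_lit 1750, nat_lit 1064, nat_lit 0], [nat_lit 0, nat_lit 0, nat_lit 0, nat_lit 0, nat_lit 0, nat_lit 0, nat_lit 0, nat_lit 0, nat_lit 0, nat_lit 0, nat_lit 0, nat_lit 252, nat_lit 728, nat_lit 1085, nat_lit 1340, nat_lit 1510, nat_lit 1612, nat_lit 1663, nat_lit 1680, nat_lit 1680, nat_lit 1680], [nat_lit 0, nat_lit 0, nat_lit 0, nat_lit 0, nat_lit 0, nat_lit 0, nat_lit 0, nat_lit 0, nat_lit 0, nat_lit 0, nat_lit 0, nat_lit 126, nat_lit 392, nat_lit 658, nat_lit 924, nat_lit 1190, nat_lit 1456, nat_lit 1722, nat_lit 1988, nat_lit 2254, nat_lit 2520], [nat_lit 0, nat_lit 0, nat_lit 0, nat_lit 0, nat_lit 0, nat_lit 0, nat_lit 0, nat_lit 0, nat_lit 0, nat_lit 0, nat_lit 0, nat_lit 0, nat_lit 56, nat_lit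 231, nat_lit 508, nat_lit 870, nat_lit 1300, nat_lit 1781, nat_lit 2296, nat_lit 2828, nat_lit 3360], [nat_lit 0, nat_lit 0, nat_lit 0, nat_lit 0, nat_lit 0, nat_lit 0, nat_lit 0, nat_lit 0, nat_lit 0, nat_lit 0, nat_lit 0, nat_lit 0, nat_lit 0, nat_lit 21, nat_lit 114, nat_lit 330, nat_lit 720, nat_lit 1335, nat_lit 2226, nat_lit 3444, nat_lit 5040]]]

/-- blocks with their data -/
def blT : List (ℕ × ℕ × ℕ × List (List ℕ)) := [
  (nat_lit 0, nat_lit 1, nat_lit 1, [[nat_lit 1]]),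
  (nat_lit 1, nat_lit 3, nat_lit 3, [[nat_lit 2, nat_lit 1, nat_lit 0], [nat_lit 1, nat_lit 1, nat_lit 1], [nat_lit 0, nat_lit 1, nat_lit 2]]),
  (nat_lit 2, nat_lit 5, nat_lit 10, [[nat_lit 6, nat_lit 3, nat_lit 1, nat_lit 0, nat_lit 0], [nat_lit 4, nat_lit 3, nat_lit 2, nat_lit 1, nat_lit 0], [nat_lit 0, nat_lit 3, nat_lit 4, nat_lit 3, nat_lit 0], [nat_lit 0, nat_lit 1, nat_lit 2, nat_lit 3, nat_lit 4], [nat_lit 0, nat_lit 0, nat_lit 1, nat_lit 3, nat_lit 6]]),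
  (nat_lit 3, nat_lit 5, nat_lit 5, [[nat_lit 4, nat_lit 1, nat_lit 0, nat_lit 0, nat_lit 0], [nat_lit 0, nat_lit 3, nat_lit 2, nat_lit 0, nat_lit 0], [nat_lit 1, nat_lit 1, nat_lit 1, nat_lit 1, nat_lit 1], [nat_lit 0, nat_lit 0, nat_lit 2, nat_lit 3, nat_lit 0], [nat_lit 0, nat_lit 0, nat_lit 0, nat_lit 1, nat_lit 4]]),
  (nat_lit 4, nat_lit 6, nat_lit 15, [[nat_lit 10, nat_lit 4, nat_lit 1, nat_lit 0, nat_lit 0, nat_lit 0], [nat_lit 5, nat_lit 4, nat_lit 3, nat_lit 2, nat_lit 1, nat_lit 0], [nat_lit 0, nat_lit 6, nat_lit 6, nat_lit 3, nat_lit 0, nat_lit 0], [nat_lit 0, nat_lit 0, nat_lit 3, nat_lit 6, nat_lit 6, nat_lit 0], [nat_lit 0, nat_lit 1, nat_lit 2, nat_lit 3, nat_lit 4, nat_lit 5], [nat_lit 0, nat_lit 0, nat_lit 0, nat_lit 1, nat_lit 4, nat_lit 10]]),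
  (nat_lit 5, nat_lit 7, nat_lit 21, [[nat_lit 12, nat_lit 7, nat_lit 2, nat_lit 0, nat_lit 0, nat_lit 0, nat_lit 0], [nat_lit 6, nat_lit 6, nat_lit 6, nat_lit 3, nat_lit 0, nat_lit 0, nat_lit 0], [nat_lit 0, nat_lit 5, nat_lit 10, nat_lit 6, nat_lit 0, nat_lit 0, nat_lit 0], [nat_lit 3, nat_lit 3, nat_lit 3, nat_lit 3, nat_lit 3, nat_lit 3, nat_lit 3], [nat_lit 0, nat_lit 0, nat_lit 0, nat_lit 6, nat_lit 10, nat_lit 5, nat_lit 0], [nat_lit 0, nat_lit 0, nat_lit 0, nat_lit 3, nat_lit 6, nat_lit 6, nat_lit 6], [nat_lit 0, nat_lit 0, nat_lit 0, nat_lit 0, nat_lit 2, nat_lit 7, nat_lit 12]]),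
  (nat_lit 6, nat_lit 7, nat_lit 63, [[nat_lit 45, nat_lit 15, nat_lit 3, nat_lit 0, nat_lit 0, nat_lit 0, nat_lit 0], [nat_lit 18, nat_lit 15, nat_lit 12, nat_lit 9, nat_lit 6, nat_lit 3, nat_lit 0], [nat_lit 0, nat_lit 20, nat_lit 22, nat_lit 15, nat_lit 6, nat_lit 0, nat_lit 0], [nat_lit 0, nat_lit 10, nat_lit 14, nat_lit 15, nat_lit 14, nat_lit 10, nat_lit 0], [nat_lit 0, nat_lit 0, nat_lit 6, nat_lit 15, nat_lit 22, nat_lit 20, nat_lit 0], [nat_lit 0, nat_lit 3, nat_lit 6, nat_lit 9, nat_lit 12, nat_lit 15, nat_lit 18], [nat_lit 0, nat_lit 0, nat_lit 0, nat_lit 0, nat_lit 3, nat_lit 15, nat_lit 45]]),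
  (nat_lit 7, nat_lit 7, nat_lit 105, [[nat_lit 60, nat_lit 30, nat_lit 12, nat_lit 3, nat_lit 0, nat_lit 0, nat_lit 0], [nat_lit 30, nat_lit 25, nat_lit 20, nat_lit 15, nat_lit 10, nat_lit 5, nat_lit 0], [nat_lit 0, nat_lit 30, nat_lit 36, nat_lit 27, nat_lit 12, nat_lit 0, nat_lit 0], [nat_lit 15, nat_lit 15, nat_lit 15, nat_lit 15, nat_lit 15, nat_lit 15, nat_lit 15], [nat_lit 0, nat_lit 0, nat_lit 12, nat_lit 27, nat_lit 36, nat_lit 30, nat_lit 0], [nat_lit 0, nat_lit 5, nat_lit 10, nat_lit 15, nat_lit 20, nat_lit 25, nat_lit 30], [nat_lit 0, nat_lit 0, nat_lit 0, nat_lit 3, nat_lit 12, nat_lit 30, nat_lit 60]]),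
  (nat_lit 8, nat_lit 8, nat_lit 210, [[nat_lit 105, nat_lit 60, nat_lit 30, nat_lit 12, nat_lit 3, nat_lit 0, nat_lit 0, nat_lit 0], [nat_lit 70, nat_lit 55, nat_lit 40, nat_lit 26, nat_lit 14, nat_lit 5, nat_lit 0, nat_lit 0], [nat_lit 35, nat_lit 35, nat_lit 35, nat_lit 34, nat_lit 31, nat_lit 25, nat_lit 15, nat_lit 0], [nat_lit 0, nat_lit 30, nat_lit 45, nat_lit 48, nat_lit 42, nat_lit 30, nat_lit 15, nat_lit 0], [nat_lit 0, nat_lit 15, nat_lit 30, nat_lit 42, nat_lit 48, nat_lit 45, nat_lit 30, nat_lit 0], [nat_lit 0, nat_lit 15, nat_lit 25, nat_lit 31, nat_lit 34, nat_lit 35, nat_lit 35, nat_lit 35], [nat_lit 0, nat_lit 0, nat_lit 5, nat_lit 14, nat_lit 26, nat_lit 40, nat_lit 55, nat_lit 70], [nat_lit 0, nat_lit 0, nat_lit 0, nat_lit 3, nat_lit 12, nat_lit 30, nat_lit 60, nat_lit 105]]),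
  (nat_lit 9, nat_lit 9, nat_lit 84, [[nat_lit 56, nat_lit 21, nat_lit 6, nat_lit 1, nat_lit 0, nat_lit 0, nat_lit 0, nat_lit 0, nat_lit 0], [nat_lit 28, nat_lit 21, nat_lit 15, nat_lit 10, nat_lit 6, nat_lit 3, nat_lit 1, nat_lit 0, nat_lit 0], [nat_lit 0, nat_lit 35, nat_lit 30, nat_lit 15, nat_lit 4, nat_lit 0, nat_lit 0, nat_lit 0, nat_lit 0], [nat_lit 0, nat_lit 0, nat_lit 20, nat_lit 30, nat_lit 24, nat_lit 10, nat_lit 0, nat_lit 0, nat_lit 0], [nat_lit 0, nat_lit 7, nat_lit 12, nat_lit 15, nat_lit 16, nat_lit 15, nat_lit 12, nat_lit 7, nat_lit 0], [nat_lit 0, nat_lit 0, nat_lit 0, nat_lit 10, nat_lit 24, nat_lit 30, nat_lit 20, nat_lit 0, nat_lit 0], [nat_lit 0, nat_lit 0, nat_lit 0, nat_lit 0, nat_lit 4, nat_lit 15, nat_lit 30, nat_lit 35, nat_lit 0], [nat_lit 0, nat_lit 0, nat_lit 1, nat_lit 3, nat_lit 6, nat_lit 10, nat_lit 15, nat_lit 21, nat_lit 28], [nat_lit 0, nat_lit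 0, nat_lit 0, nat_lit 0, nat_lit 0, nat_lit 1, nat_lit 6, nat_lit 21, nat_lit 56]]),
  (nat_lit 10, nat_lit 9, nat_lit 108, [[nat_lit 84, nat_lit 21, nat_lit 3, nat_lit 0, nat_lit 0, nat_lit 0, nat_lit 0, nat_lit 0, nat_lit 0], [nat_lit 0, nat_lit 63, nat_lit 36, nat_lit 9, nat_lit 0, nat_lit 0, nat_lit 0, nat_lit 0, nat_lit 0], [nat_lit 24, nat_lit 21, nat_lit 18, nat_lit 15, nat_lit 12, nat_lit 9, nat_lit 6, nat_lit 3, nat_lit 0], [nat_lit 0, nat_lit 0, nat_lit 30, nat_lit 40, nat_lit 28, nat_lit 10, nat_lit 0, nat_lit 0, nat_lit 0], [nat_lit 0, nat_lit 0, nat_lit 15, nat_lit 25, nat_lit 28, nat_lit 25, nat_lit 15, nat_lit 0, nat_lit 0], [nat_lit 0, nat_lit 0, nat_lit 0, nat_lit 10, nat_lit 28, nat_lit 40, nat_lit 30, nat_lit 0, nat_lit 0], [nat_lit 0, nat_lit 3, nat_lit 6, nat_lit 9, nat_lit 12, nat_lit 15, nat_lit 18, nat_lit 21, nat_lit 24], [nat_lit 0, nat_lit 0, nat_lit 0, nat_lit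 0, nat_lit 0, nat_lit 9, nat_lit 36, nat_lit 63, nat_lit 0], [nat_lit 0, nat_lit 0, nat_lit 0, nat_lit 0, nat_lit 0, nat_lit 0, nat_lit 3, nat_lit 21, nat_lit 84]]),
  (nat_lit 11, nat_lit 9, nat_lit 36, [[nat_lit 28, nat_lit 7, nat_lit 1, nat_lit 0, nat_lit 0, nat_lit 0, nat_lit 0, nat_lit 0, nat_lit 0], [nat_lit 0, nat_lit 21, nat_lit 12, nat_lit 3, nat_lit 0, nat_lit 0, nat_lit 0, nat_lit 0, nat_lit 0], [nat_lit 8, nat_lit 7, nat_lit 6, nat_lit 5, nat_lit 4, nat_lit 3, nat_lit 2, nat_lit 1, nat_lit 0], [nat_lit 0, nat_lit 0, nat_lit 15, nat_lit 15, nat_lit 6, nat_lit 0, nat_lit 0, nat_lit 0, nat_lit 0], [nat_lit 0, nat_lit 0, nat_lit 0, nat_lit 10, nat_lit 16, nat_lit 10, nat_lit 0, nat_lit 0, nat_lit 0], [nat_lit 0, nat_lit 0, nat_lit 0, nat_lit 0, nat_lit 6, nat_lit 15, nat_lit 15, nat_lit 0, nat_lit 0], [nat_lit 0, nat_lit 1, nat_lit 2, nat_lit 3, nat_lit 4, nat_lit 5, nat_lit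 6, nat_lit 7, nat_lit 8], [nat_lit 0, nat_lit 0, nat_lit 0, nat_lit 0, nat_lit 0, nat_lit 3, nat_lit 12, nat_lit 21, nat_lit 0], [nat_lit 0, nat_lit 0, nat_lit 0, nat_lit 0, nat_lit 0, nat_lit 0, nat_lit 1, nat_lit 7, nat_lit 28]]),
  (nat_lit 12, nat_lit 9, nat_lit 27, [[nat_lit 24, nat_lit 3, nat_lit 0, nat_lit 0, nat_lit 0, nat_lit 0, nat_lit 0, nat_lit 0, nat_lit 0], [nat_lit 0, nat_lit 14, nat_lit 10, nat_lit 3, nat_lit 0, nat_lit 0, nat_lit 0, nat_lit 0, nat_lit 0], [nat_lit 0, nat_lit 7, nat_lit 8, nat_lit 8, nat_lit 4, nat_lit 0, nat_lit 0, nat_lit 0, nat_lit 0], [nat_lit 0, nat_lit 0, nat_lit 6, nat_lit 13, nat_lit 8, nat_lit 0, nat_lit 0, nat_lit 0, nat_lit 0], [nat_lit 3, nat_lit 3, nat_lit 3, nat_lit 3, nat_lit 3, nat_lit 3, nat_lit 3, nat_lit 3, nat_lit 3], [nat_lit 0, nat_lit 0, nat_lit 0, nat_lit 0, nat_lit 8, nat_lit 13, nat_lit 6, nat_lit 0, nat_lit 0], [nat_lit 0,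 nat_lit 0, nat_lit 0, nat_lit 0, nat_lit 4, nat_lit 8, nat_lit 8, nat_lit 7, nat_lit 0], [nat_lit 0, nat_lit 0, nat_lit 0, nat_lit 0, nat_lit 0, nat_lit 3, nat_lit 10, nat_lit 14, nat_lit 0], [nat_lit 0, nat_lit 0, nat_lit 0, nat_lit 0, nat_lit 0, nat_lit 0, nat_lit 0, nat_lit 3, nat_lit 24]]),
  (nat_lit 13, nat_lit 11, nat_lit 110, [[nat_lit 60, nat_lit 33, nat_lit 14, nat_lit 3, nat_lit 0, nat_lit 0, nat_lit 0, nat_lit 0, nat_lit 0, nat_lit 0, nat_lit 0], [nat_lit 40, nat_lit 31, nat_lit 22, nat_lit 13, nat_lit 4, nat_lit 0, nat_lit 0, nat_lit 0, nat_lit 0, nat_lit 0, nat_lit 0], [nat_lit 0, nat_lit 27, nat_lit 38, nat_lit 33, nat_lit 12, nat_lit 0, nat_lit 0, nat_lit 0, nat_lit 0, nat_lit 0, nat_lit 0], [nat_lit 0, nat_lit 9, nat_lit 18, nat_lit 27, nat_lit 36, nat_lit 20, nat_lit 0, nat_lit 0, nat_lit 0, nat_lit 0, nat_lit 0], [nat_lit 0, nat_lit 0, nat_lit 8, nat_lit 24, nat_lit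 48, nat_lit 30, nat_lit 0, nat_lit 0, nat_lit 0, nat_lit 0, nat_lit 0], [nat_lit 10, nat_lit 10, nat_lit 10, nat_lit 10, nat_lit 10, nat_lit 10, nat_lit 10, nat_lit 10, nat_lit 10, nat_lit 10, nat_lit 10], [nat_lit 0, nat_lit 0, nat_lit 0, nat_lit 0, nat_lit 0, nat_lit 30, nat_lit 48, nat_lit 24, nat_lit 8, nat_lit 0, nat_lit 0], [nat_lit 0, nat_lit 0, nat_lit 0, nat_lit 0, nat_lit 0, nat_lit 20, nat_lit 36, nat_lit 27, nat_lit 18, nat_lit 9, nat_lit 0], [nat_lit 0, nat_lit 0, nat_lit 0, nat_lit 0, nat_lit 0, nat_lit 0, nat_lit 12, nat_lit 33, nat_lit 38, nat_lit 27, nat_lit 0], [nat_lit 0, nat_lit 0, nat_lit 0, nat_lit 0, nat_lit 0, nat_lit 0, nat_lit 4, nat_lit 13, nat_lit 22, nat_lit 31, nat_lit 40], [nat_lit 0, nat_lit 0, nat_lit 0, nat_lit 0, nat_lit 0, nat_lit 0, nat_lit 0, nat_lit 3, nat_lit 14, nat_lit 33, nat_lit 60]]),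
  (nat_lit 14, nat_lit 13, nat_lit 2340, [[nat_lit 1320, nat_lit 770, nat_lit 220, nat_lit 30, nat_lit 0, nat_lit 0, nat_lit 0, nat_lit 0, nat_lit 0, nat_lit 0, nat_lit 0, nat_lit 0, nat_lit 0], [nat_lit 660, nat_lit 660, nat_lit 660, nat_lit 300, nat_lit 60, nat_lit 0, nat_lit 0, nat_lit 0, nat_lit 0, nat_lit 0, nat_lit 0, nat_lit 0, nat_lit 0], [nat_lit 0, nat_lit 550, nat_lit 1100, nat_lit 570, nat_lit 120, nat_lit 0, nat_lit 0, nat_lit 0, nat_lit 0, nat_lit 0, nat_lit 0, nat_lit 0, nat_lit 0], [nat_lit 360, nat_lit 330, nat_lit 300, nat_lit 270, nat_lit 240, nat_lit 210, nat_lit 180, nat_lit 150, nat_lit 120, nat_lit 90, nat_lit 60, nat_lit 30, nat_lit 0], [nat_lit 0, nat_lit 0, nat_lit 0, nat_lit 648, nat_lit 828, nat_lit 558, nat_lit 243, nat_lit 63, nat_lit 0, nat_lit 0, nat_lit 0, nat_lit 0, nat_lit 0], [nat_lit 0, nat_lit 0, nat_lit 0, nat_lit 432, nat_lit 636, nat_lit 561,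 nat_lit 396, nat_lit 231, nat_lit 84, nat_lit 0, nat_lit 0, nat_lit 0, nat_lit 0], [nat_lit 0, nat_lit 0, nat_lit 0, nat_lit 0, nat_lit 252, nat_lit 567, nat_lit 702, nat_lit 567, nat_lit 252, nat_lit 0, nat_lit 0, nat_lit 0, nat_lit 0], [nat_lit 0, nat_lit 0, nat_lit 0, nat_lit 0, nat_lit 84, nat_lit 231, nat_lit 396, nat_lit 561, nat_lit 636, nat_lit 432, nat_lit 0, nat_lit 0, nat_lit 0], [nat_lit 0, nat_lit 0, nat_lit 0, nat_lit 0, nat_lit 0, nat_lit 63, nat_lit 243, nat_lit 558, nat_lit 828, nat_lit 648, nat_lit 0, nat_lit 0, nat_lit 0], [nat_lit 0, nat_lit 30, nat_lit 60, nat_lit 90, nat_lit 120, nat_lit 150, nat_lit 180, nat_lit 210, nat_lit 240, nat_lit 270, nat_lit 300, nat_lit 330, nat_lit 360], [nat_lit 0, nat_lit 0, nat_lit 0, nat_lit 0, nat_lit 0, nat_lit 0, nat_lit 0, nat_lit 0, nat_lit 120, nat_lit 570, nat_lit 1100, nat_lit 550, nat_lit 0], [nat_lit 0, nat_lit 0, nat_lit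 0, nat_lit 0, nat_lit 0, nat_lit 0, nat_lit 0, nat_lit 0, nat_lit 60, nat_lit 300, nat_lit 660, nat_lit 660, nat_lit 660], [nat_lit 0, nat_lit 0, nat_lit 0, nat_lit 0, nat_lit 0, nat_lit 0, nat_lit 0, nat_lit 0, nat_lit 0, nat_lit 30, nat_lit 220, nat_lit 770, nat_lit 1320]]),
  (nat_lit 15, nat_lit 15, nat_lit 45045, [[nat_lit 24024, nat_lit 12441, nat_lit 5610, nat_lit 2145, nat_lit 660, nat_lit 147, nat_lit 18, nat_lit 0, nat_lit 0, nat_lit 0, nat_lit 0, nat_lit 0, nat_lit 0, nat_lit 0, nat_lit 0], [nat_lit 15015, nat_lit 10725, nat_lit 7425, nat_lit 4950, nat_lit 3150, nat_lit 1890, nat_lit 1050, nat_lit 525, nat_lit 225, nat_lit 75, nat_lit 15, nat_lit 0, nat_lit 0, nat_lit 0, nat_lit 0], [nat_lit 0, nat_lit 11583, nat_lit 13662, nat_lit 10395, nat_lit 5940, nat_lit 2565, nat_lit 774, nat_lit 126, nat_lit 0, nat_lit 0, nat_lit 0, nat_lit 0, nat_lit 0, nat_lit 0, nat_lit 0], [nat_lit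 6006, nat_lit 6006, nat_lit 6006, nat_lit 6006, nat_lit 6006, nat_lit 5628, nat_lit 4578, nat_lit 3003, nat_lit 1428, nat_lit 378, nat_lit 0, nat_lit 0, nat_lit 0, nat_lit 0, nat_lit 0], [nat_lit 0, nat_lit 0, nat_lit 4752, nat_lit 10098, nat_lit 11880, nat_lit 9720, nat_lit 5760, nat_lit 2331, nat_lit 504, nat_lit 0, nat_lit 0, nat_lit 0, nat_lit 0, nat_lit 0, nat_lit 0], [nat_lit 0, nat_lit 2860, nat_lit 4730, nat_lit 5775, nat_lit 6150, nat_lit 6000, nat_lit 5460, nat_lit 4655, nat_lit 3700, nat_lit 2700, nat_lit 1750, nat_lit 935, nat_lit 330, nat_lit 0, nat_lit 0], [nat_lit 0, nat_lit 0, nat_lit 0, nat_lit 1386, nat_lit 5544, nat_lit 10080, nat_lit 11760, nat_lit 9555, nat_lit 5208, nat_lit 1512, nat_lit 0, nat_lit 0, nat_lit 0, nat_lit 0, nat_lit 0], [nat_lit 0, nat_lit 1430, nat_lit 2530, nat_lit 3355, nat_lit 3950, nat_lit 4350, nat_lit 4580, nat_lit 4655, nat_lit 4580, nat_lit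 4350, nat_lit 3950, nat_lit 3355, nat_lit 2530, nat_lit 1430, nat_lit 0], [nat_lit 0, nat_lit 0, nat_lit 0, nat_lit 0, nat_lit 0, nat_lit 1512, nat_lit 5208, nat_lit 9555, nat_lit 11760, nat_lit 10080, nat_lit 5544, nat_lit 1386, nat_lit 0, nat_lit 0, nat_lit 0], [nat_lit 0, nat_lit 0, nat_lit 330, nat_lit 935, nat_lit 1750, nat_lit 2700, nat_lit 3700, nat_lit 4655, nat_lit 5460, nat_lit 6000, nat_lit 6150, nat_lit 5775, nat_lit 4730, nat_lit 2860, nat_lit 0], [nat_lit 0, nat_lit 0, nat_lit 0, nat_lit 0, nat_lit 0, nat_lit 0, nat_lit 504, nat_lit 2331, nat_lit 5760, nat_lit 9720, nat_lit 11880, nat_lit 10098, nat_lit 4752, nat_lit 0, nat_lit 0], [nat_lit 0, nat_lit 0, nat_lit 0, nat_lit 0, nat_lit 0, nat_lit 378, nat_lit 1428, nat_lit 3003, nat_lit 4578, nat_lit 5628, nat_lit 6006, nat_lit 6006, nat_lit 6006, nat_lit 6006, nat_lit 6006], [nat_lit 0, nat_lit 0, nat_lit 0, nat_lit 0,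 nat_lit 0, nat_lit 0, nat_lit 0, nat_lit 126, nat_lit 774, nat_lit 2565, nat_lit 5940, nat_lit 10395, nat_lit 13662, nat_lit 11583, nat_lit 0], [nat_lit 0, nat_lit 0, nat_lit 0, nat_lit 0, nat_lit 15, nat_lit 75, nat_lit 225, nat_lit 525, nat_lit 1050, nat_lit 1890, nat_lit 3150, nat_lit 4950, nat_lit 7425, nat_lit 10725, nat_lit 15015], [nat_lit 0, nat_lit 0, nat_lit 0, nat_lit 0, nat_lit 0, nat_lit 0, nat_lit 0, nat_lit 0, nat_lit 18, nat_lit 147, nat_lit 660, nat_lit 2145, nat_lit 5610, nat_lit 12441, nat_lit 24024]]),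
  (nat_lit 16, nat_lit 17, nat_lit 2040, [[nat_lit 1120, nat_lit 665, nat_lit 210, nat_lit 41, nat_lit 4, nat_lit 0, nat_lit 0, nat_lit 0, nat_lit 0, nat_lit 0, nat_lit 0, nat_lit 0, nat_lit 0, nat_lit 0, nat_lit 0, nat_lit 0, nat_lit 0], [nat_lit 560, nat_lit 560, nat_lit 560, nat_lit 274, nat_lit 76, nat_lit 10, nat_lit 0, nat_lit 0, nat_lit 0, nat_lit 0, nat_lit 0, nat_lit 0, nat_lit 0, nat_lit 0, nat_lit 0, nat_lit 0, nat_lit 0], [nat_lit 0, nat_lit 455, nat_lit 910, nat_lit 507, nat_lit 148, nat_lit 20, nat_lit 0, nat_lit 0, nat_lit 0, nat_lit 0, nat_lit 0, nat_lit 0, nat_lit 0, nat_lit 0, nat_lit 0, nat_lit 0, nat_lit 0], [nat_lit 360, nat_lit 315, nat_lit 273, nat_lit 234, nat_lit 198, nat_lit 165, nat_lit 135, nat_lit 108, nat_lit 84, nat_lit 63, nat_lit 45, nat_lit 30, nat_lit 18, nat_lit 9, nat_lit 3, nat_lit 0, nat_lit 0], [nat_lit 0, nat_lit 0, nat_lit 0, nat_lit 858, nat_lit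 792, nat_lit 330, nat_lit 60, nat_lit 0, nat_lit 0, nat_lit 0, nat_lit 0, nat_lit 0, nat_lit 0, nat_lit 0, nat_lit 0, nat_lit 0, nat_lit 0], [nat_lit 0, nat_lit 0, nat_lit 0, nat_lit 0, nat_lit 440, nat_lit 715, nat_lit 570, nat_lit 259, nat_lit 56, nat_lit 0, nat_lit 0, nat_lit 0, nat_lit 0, nat_lit 0, nat_lit 0, nat_lit 0, nat_lit 0], [nat_lit 0, nat_lit 0, nat_lit 0, nat_lit 0, nat_lit 220, nat_lit 440, nat_lit 540, nat_lit 476, nat_lit 280, nat_lit 84, nat_lit 0, nat_lit 0, nat_lit 0, nat_lit 0, nat_lit 0, nat_lit 0, nat_lit 0], [nat_lit 0, nat_lit 0, nat_lit 0, nat_lit 0, nat_lit 0, nat_lit 165, nat_lit 510, nat_lit 693, nat_lit 504, nat_lit 168, nat_lit 0, nat_lit 0, nat_lit 0, nat_lit 0, nat_lit 0, nat_lit 0, nat_lit 0], [nat_lit 0, nat_lit 45, nat_lit 84, nat_lit 117, nat_lit 144, nat_lit 165, nat_lit 180, nat_lit 189, nat_lit 192, nat_lit 189, nat_lit 180, nat_lit 165, nat_lit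 144, nat_lit 117, nat_lit 84, nat_lit 45, nat_lit 0], [nat_lit 0, nat_lit 0, nat_lit 0, nat_lit 0, nat_lit 0, nat_lit 0, nat_lit 0, nat_lit 168, nat_lit 504, nat_lit 693, nat_lit 510, nat_lit 165, nat_lit 0, nat_lit 0, nat_lit 0, nat_lit 0, nat_lit 0], [nat_lit 0, nat_lit 0, nat_lit 0, nat_lit 0, nat_lit 0, nat_lit 0, nat_lit 0, nat_lit 84, nat_lit 280, nat_lit 476, nat_lit 540, nat_lit 440, nat_lit 220, nat_lit 0, nat_lit 0, nat_lit 0, nat_lit 0], [nat_lit 0, nat_lit 0, nat_lit 0, nat_lit 0, nat_lit 0, nat_lit 0, nat_lit 0, nat_lit 0, nat_lit 56, nat_lit 259, nat_lit 570, nat_lit 715, nat_lit 440, nat_lit 0, nat_lit 0, nat_lit 0, nat_lit 0], [nat_lit 0, nat_lit 0, nat_lit 0, nat_lit 0, nat_lit 0, nat_lit 0, nat_lit 0, nat_lit 0, nat_lit 0, nat_lit 0, nat_lit 60, nat_lit 330, nat_lit 792, nat_lit 858, nat_lit 0, nat_lit 0, nat_lit 0], [nat_lit 0, nat_lit 0, nat_lit 3, nat_lit 9, nat_lit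 18, nat_lit 30, nat_lit 45, nat_lit 63, nat_lit 84, nat_lit 108, nat_lit 135, nat_lit 165, nat_lit 198, nat_lit 234, nat_lit 273, nat_lit 315, nat_lit 360], [nat_lit 0, nat_lit 0, nat_lit 0, nat_lit 0, nat_lit 0, nat_lit 0, nat_lit 0, nat_lit 0, nat_lit 0, nat_lit 0, nat_lit 0, nat_lit 20, nat_lit 148, nat_lit 507, nat_lit 910, nat_lit 455, nat_lit 0], [nat_lit 0, nat_lit 0, nat_lit 0, nat_lit 0, nat_lit 0, nat_lit 0, nat_lit 0, nat_lit 0, nat_lit 0, nat_lit 0, nat_lit 0, nat_lit 10, nat_lit 76, nat_lit 274, nat_lit 560, nat_lit 560, nat_lit 560], [nat_lit 0, nat_lit 0, nat_lit 0, nat_lit 0, nat_lit 0, nat_lit 0, nat_lit 0, nat_lit 0, nat_lit 0, nat_lit 0, nat_lit 0, nat_lit 0, nat_lit 4, nat_lit 41, nat_lit 210, nat_lit 665, nat_lit 1120]])]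

/-- the two summands of the blocks, as words -/
def dtab : List (ℕ × List ℕ × List ℕ) := [
  (1, [0, 0], [0]),
  (2, [0, 0, 0], [0, 0]),
  (3, [0, 0, 0, 0], [0]),
  (4, [0, 0, 0, 0], [0, 0]),
  (5, [1, 1], [0]),
  (6, [0, 1, 0], [0, 0]),
  (7, [4], [0]),
  (7, [3], [0, 0]),
  (7, [0, 0, 0, 0], [1]),
  (8, [1, 0], [0, 1]),
  (8, [0, 1], [1, 0]),
  (9, [0, 0, 0, 0, 0, 0], [0, 0, 0]),
  (10, [0, 0, 1, 0, 0], [0, 0]),
  (11, [0, 0, 0, 0, 0, 0, 0], [0, 0]),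
  (12, [0, 1, 1, 0], [0]),
  (13, [2, 2], [0]),
  (14, [1, 2, 1], [0, 0]),
  (15, [3, 3], [0, 1, 0]),
  (16, [1, 0, 1, 1, 0, 1], [0, 0, 0]),
  (17, [8], [0, 0]),
  (18, [17, 17], [0])]


/-- size of a block -/
noncomputable def sz (f : ℕ) : ℕ := nth 0 szT f
/-- denominator of a block -/
noncomputable def den (f : ℕ) : ℕ := nth 0 denT f
/-- width of a block -/
noncomputable def wd (f : ℕ) : ℕ := nth 0 wdT f
/-- numerator of the balance constant of a block -/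
noncomputable def uN (f : ℕ) : ℕ := nth 0 uNT f
/-- denominator of the balance constant of a block -/
noncomputable def uD (f : ℕ) : ℕ := nth 0 uDT f
/-- rank distributions of the elements of a block -/
noncomputable def els (f : ℕ) : List (List ℕ) := nth [] elT f

/-- number of elements -/
noncomputable def lenW : List ℕ → ℕ
  | [] => 0
  | f :: w => sz f + lenW w

/-- positions of the blocks -/
noncomputable def pls : ℕ → List ℕ → List (ℕ × ℕ)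
  | _, [] => []
  | s, f :: w => (s, f) :: pls (s + sz f) w

lemma lenW_append (w v : List ℕ) : lenW (w ++ v) = lenW w + lenW v := by
  induction w with
  | nil => simp [lenW]
  | cons b w ih => rw [List.cons_append, lenW, lenW, ih]; ring

lemma pls_append (w v : List ℕ) (s : ℕ) :
    pls s (w ++ v) = pls s w ++ pls (s + lenW w) v := by
  induction w generalizing s with
  | nil => simp [lenW, pls]
  | cons b w ih =>
    rw [List.cons_append, pls, pls, lenW, ih, List.cons_append]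
    rw [show s + sz b + lenW w = s + (sz b + lenW w) by ring]

lemma pls_le {w : List ℕ} : ∀ {s : ℕ} {p : ℕ × ℕ}, p ∈ pls s w →
    s ≤ p.1 ∧ p.1 + sz p.2 ≤ s + lenW w ∧ p.2 ∈ w := by
  induction w with
  | nil => intro s p h; simp [pls] at h
  | cons b w ih =>
    intro s p h
    rw [pls, List.mem_cons] at h
    rw [lenW]
    rcases h with rfl | h
    · exact ⟨le_rfl, by simp only; omega, by simp⟩
    · obtain ⟨h1, h2, h3⟩ := ih h
      exact ⟨by omega, by omega, by simp [h3]⟩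

/-- basic data check -/
noncomputable def okB : Bool := (List.range 19).all fun f =>
  decide (1 ≤ sz f) && decide (1 ≤ den f) && decide (den f < 65536) && decide (1 ≤ wd f) &&
  decide (1 ≤ uD f) && decide (2 * uN f ≤ uD f) &&
  decide ((els f).length ≠ 0) && (els f).all fun wt =>
    decide (wt.length = sz f) && decide (wt.sum = den f)

lemma okB_true : okB = true := by decide +kernel

structure Basic (f : ℕ) : Prop where
  sz1 : 1 ≤ sz f
  den1 : 1 ≤ den f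
  denle : den f < 65536
  wd1 : 1 ≤ wd f
  uD1 : 1 ≤ uD f
  uN2 : 2 * uN f ≤ uD f
  ne : (els f).length ≠ 0
  len : ∀ wt ∈ els f, wt.length = sz f
  sum : ∀ wt ∈ els f, wt.sum = den f

lemma basic {f : ℕ} (hf : f < 19) : Basic f := by
  have h := okB_true
  unfold okB at h
  rw [List.all_eq_true] at h
  have h1 := h f (List.mem_range.2 hf)
  simp only [Bool.and_eq_true, decide_eq_true_eq, List.all_eq_true] at h1
  obtain ⟨⟨⟨⟨⟨⟨⟨h1, h2⟩, h3⟩, h4⟩, h5⟩, h6⟩, h7⟩, h8⟩ := h1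
  exact ⟨h1, h2, h3, h4, h5, h6, h7, fun wt hwt => (h8 wt hwt).1, fun wt hwt => (h8 wt hwt).2⟩

end Pool.Agent.W5h8.SP
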