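import Mathlib
import Pool.Agent.W5h8.SPC

/-! Kernel checks of the table of blocks. -/

open Finset

namespace Pool.Agent.W5h8.SP

open Pool.Agent.H931R3.Bal

/-- rank distribution numerator, fast version -/
def RKb (n m i r : ℕ) : ℕ := bin 64 r i * bin 64 (n + m - 1 - r) (n - 1 - i)

lemma RKb_eq {n m i r : ℕ} (h : n + m < 64) (hr : r < n + m) : RKb n m i r = RK n m i r := by
  unfold RKb RK
  rw [bin_eq (by omega), bin_eq (by omega)]

/-- `wt` is the rank distribution in the sum of the element with distribution `wt'` -/
noncomputable def pushB (n m a g : ℕ) (wt' : List ℕ) (f : ℕ) (wt : List ℕ) : Bool :=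
  (List.range (n + m)).all fun r => Nat.beq (nth 0 wt r * (den g * bin 64 (n + m) m))
    (den f * levN wt' a (fun i => RKb n m i r))

/-- crossing numerator, fast version -/
def TTb (n m i j : ℕ) : ℕ := ∑ k ∈ range (j + 1), dd 64 n m i k

lemma TTb_eq {n m i j : ℕ} (h : n + m < 64) (hi : i < n) (hj : j ≤ m) :
    TTb n m i j = TT n m i j := by
  unfold TTb TT
  apply Finset.sum_congr rfl
  intro k hk
  rw [mem_range] at hk
  exact dd_eq h hi (by omega)

/-- kernel-friendly prefix sums -/
noncomputable def TTr (n m i j : ℕ) : ℕ :=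
  @Nat.rec (fun _ => ℕ) (dd 64 n m i 0) (fun k ih => ih + dd 64 n m i (k + 1)) j

lemma TTr_eq (n m i j : ℕ) : TTr n m i j = TTb n m i j := by
  unfold TTb
  induction j with
  | zero => simp [TTr]
  | succ j ih =>
    rw [sum_range_succ, ← ih]
    rfl

/-- crossing value numerator -/
noncomputable def VNb (n m a : ℕ) (wt : List ℕ) (b : ℕ) (wt' : List ℕ) : ℕ :=
  levN wt a (fun i => levN wt' b (fun j => TTr n m i j))

/-- denominator -/
noncomputable def VDb (n m g g' : ℕ) : ℕ := den g * den g' * bin 64 (n + m) m

/-- all elements of the first word come from, and give, elements of the block -/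
noncomputable def fwdB (n m : ℕ) (A : List ℕ) (f : ℕ) : Bool :=
  (pls 0 A).all fun p => (els p.2).all fun wt' => (els f).any fun wt =>
    pushB n m p.1 p.2 wt' f wt

/-- an element of the block comes from the first word -/
noncomputable def srcB (n m : ℕ) (A : List ℕ) (f : ℕ) (wt : List ℕ) : Bool :=
  (pls 0 A).any fun p => (els p.2).any fun wt' => pushB n m p.1 p.2 wt' f wt

/-- upper bound for a crossing pair -/
noncomputable def upB (f V T : ℕ) : Bool :=
  Nat.ble (V * uD f) (uN f * T) || Nat.ble ((T - V) * uD f) (uN f * T)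

/-- lower bound for a crossing pair -/
noncomputable def loB (f V T : ℕ) : Bool :=
  Nat.ble (uN f * T) (V * uD f) && Nat.ble (uN f * T) ((T - V) * uD f) && Nat.ble V T

/-- upper bounds for the crossing pairs -/
noncomputable def crUp (n m : ℕ) (A B : List ℕ) (f : ℕ) : Bool :=
  (pls 0 A).all fun p => (els p.2).all fun wt => (pls 0 B).all fun q => (els q.2).all fun wt' =>
    upB f (VNb n m p.1 wt q.1 wt') (VDb n m p.2 q.2)

/-- lower bound for some crossing pair -/
noncomputable def crLo (n m : ℕ) (A B : List ℕ) (f : ℕ) : Bool :=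
  (pls 0 A).any fun p => (els p.2).any fun wt => (pls 0 B).any fun q => (els q.2).any fun wt' =>
    loB f (VNb n m p.1 wt q.1 wt') (VDb n m p.2 q.2)

/-- comparison of the constants of two blocks -/
noncomputable def leB (g f : ℕ) : Bool := Nat.ble (uN g * uD f) (uN f * uD g)

/-- width of a word -/
noncomputable def wdW : List ℕ → ℕ
  | [] => 0
  | f :: w => max (wd f) (wdW w)

/-- check of one line of the table -/
noncomputable def chkD (t : ℕ × List ℕ × List ℕ) : Bool :=
  let f := t.1
  let A := t.2.1
  let B := t.2.2
  let n := lenW A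
  let m := lenW B
  decide (f < 19) && decide (sz f = n + m) && decide (n + m < 64) && decide (A ≠ []) &&
  decide (B ≠ []) && decide (wd f = wdW A + wdW B) &&
  fwdB n m A f && fwdB m n B f &&
  ((els f).all fun wt => srcB n m A f wt || srcB m n B f wt) &&
  crUp n m A B f && ((A ++ B).all fun g => leB g f && decide (g < 19)) &&
  (crLo n m A B f || (A ++ B).any fun g => leB f g)

set_option maxRecDepth 100000 in
lemma chkD_true : ∀ t ∈ dtab, chkD t = true := by
  decide +kernel

end Pool.Agent.W5h8.SP
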