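import Mathlib
import Pool.Agent.W5h8.SPD

/-! Posets given by words of blocks. -/

open Finset

namespace Pool.Agent.W5h8.SP

open Pool.Agent.H13R3.WB (prob balance)
open Pool.Agent.H931R3.Bal

/-- `P` is an ordinal sum of blocks given by the word `w` -/
inductive IsW : List ℕ → (P : Type) → [PartialOrder P] → Prop
  | one (P : Type) [PartialOrder P] : Nonempty (P ≃o Fin 1) → IsW [0] P
  | blk (f : ℕ) (A B : List ℕ) (P Q R : Type) [PartialOrder P] [PartialOrder Q] [PartialOrder R] :
      (f, A, B) ∈ dtab → IsW A P → IsW B Q → Nonempty (R ≃o (P ⊕ Q)) → IsW [f] R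
  | cat (u v : List ℕ) (P Q R : Type) [PartialOrder P] [PartialOrder Q] [PartialOrder R] :
      IsW u P → IsW v Q → Nonempty (R ≃o (P ⊕ₗ Q)) → IsW (u ++ v) R

/-- balance constant of a block -/
noncomputable def bal (f : ℕ) : ℝ := (uN f : ℝ) / uD f

/-- balance constant of a word -/
noncomputable def balW : List ℕ → ℝ
  | [] => 0
  | f :: w => max (bal f) (balW w)

lemma balW_append (u v : List ℕ) : balW (u ++ v) = max (balW u) (balW v) := by
  induction u with
  | nil =>
    rw [List.nil_append, balW, max_eq_right]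
    induction v with
    | nil => exact le_rfl
    | cons a v ih => exact ih.trans (le_max_right _ _)
  | cons a u ih => rw [List.cons_append, balW, balW, ih, max_assoc]

lemma wdW_append (u v : List ℕ) : wdW (u ++ v) = max (wdW u) (wdW v) := by
  induction u with
  | nil => simp [wdW]
  | cons a u ih => rw [List.cons_append, wdW, wdW, ih, max_assoc]

lemma balW_le {w : List ℕ} {c : ℝ} (hc : 0 ≤ c) (h : ∀ f ∈ w, bal f ≤ c) : balW w ≤ c := by
  induction w with
  | nil => exact hc
  | cons a w ih =>
    rw [balW]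
    exact max_le (h a (by simp)) (ih fun f hf => h f (by simp [hf]))

lemma le_balW {w : List ℕ} {f : ℕ} (h : f ∈ w) : bal f ≤ balW w := by
  induction w with
  | nil => simp at h
  | cons a w ih =>
    rw [List.mem_cons] at h
    rw [balW]
    rcases h with rfl | h
    · exact le_max_left _ _
    · exact (ih h).trans (le_max_right _ _)

/-- properties of a poset given by a word -/
structure Spec (w : List ℕ) (P : Type) [PartialOrder P] : Prop where
  ne : w ≠ []
  val : ∀ f ∈ w, f < 19
  card : Nat.card P = lenW w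
  fin : Finite P
  nem : Nonempty P
  real : ∀ s, ∀ p ∈ pls s w, ∀ wt ∈ els p.2, ∃ x : P, ∀ φ : ℕ → ℝ,
    avg P (lenW w) x (fun i => φ (s + i)) = lev wt p.1 φ / den p.2
  full : ∀ s, ∀ x : P, ∃ p ∈ pls s w, ∃ wt ∈ els p.2, ∀ φ : ℕ → ℝ,
    avg P (lenW w) x (fun i => φ (s + i)) = lev wt p.1 φ / den p.2
  wle : ∀ S : Finset P, IsAntichain (· ≤ ·) (S : Set P) → S.card ≤ wdW w
  wge : ∃ S : Finset P, IsAntichain (· ≤ ·) (S : Set P) ∧ S.card = wdW w
  ble : ∀ x y : P, min (pr P (lenW w) x y) (pr P (lenW w) y x) ≤ balW w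
  bge : ∃ x y : P, balW w ≤ min (pr P (lenW w) x y) (pr P (lenW w) y x)
  sp : SeriesParallel P

lemma sp_iso {P R : Type} [PartialOrder P] [PartialOrder R] (h : SeriesParallel P) (e : P ≃o R) :
    SeriesParallel R := by
  cases h with
  | one _ e1 => exact SeriesParallel.one R (e1.map fun e1 => e.symm.trans e1)
  | disj A B _ hA hB e1 => exact SeriesParallel.disj A B R hA hB (e1.map fun e1 => e.symm.trans e1)
  | direct A B _ hA hB e1 =>
    exact SeriesParallel.direct A B R hA hB (e1.map fun e1 => e.symm.trans e1)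

lemma Spec.iso {w : List ℕ} {P R : Type} [PartialOrder P] [PartialOrder R] (h : Spec w P)
    (e : P ≃o R) : Spec w R where
  ne := h.ne
  val := h.val
  card := by rw [← h.card]; exact Nat.card_congr e.symm.toEquiv
  fin := by have := h.fin; exact Finite.of_equiv _ e.toEquiv
  nem := by have := h.nem; exact ⟨e this.some⟩
  real := by
    intro s p hp wt hwt
    obtain ⟨x, hx⟩ := h.real s p hp wt hwt
    exact ⟨e x, fun φ => by rw [avg_iso, hx]⟩
  full := by
    intro s x
    obtain ⟨p, hp, wt, hwt, hx⟩ := h.full s (e.symm x)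
    refine ⟨p, hp, wt, hwt, fun φ => ?_⟩
    rw [← hx φ, ← avg_iso e]
    simp
  wle := by
    classical
    intro S hS
    have h1 := h.wle (S.map e.symm.toEquiv.toEmbedding) (by
      intro a ha b hb hab hle
      rw [Finset.mem_coe, Finset.mem_map] at ha hb
      obtain ⟨a', ha', rfl⟩ := ha
      obtain ⟨b', hb', rfl⟩ := hb
      have h2 : a' ≤ b' := e.symm.le_iff_le.1 hle
      exact hS ha' hb' (fun h3 => hab (by rw [h3])) h2)
    rwa [Finset.card_map] at h1
  wge := by
    classical
    obtain ⟨S, hS, hc⟩ := h.wge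
    refine ⟨S.map e.toEquiv.toEmbedding, ?_, by rw [Finset.card_map, hc]⟩
    intro a ha b hb hab hle
    rw [Finset.mem_coe, Finset.mem_map] at ha hb
    obtain ⟨a', ha', rfl⟩ := ha
    obtain ⟨b', hb', rfl⟩ := hb
    have h2 : a' ≤ b' := e.le_iff_le.1 hle
    exact hS ha' hb' (fun h3 => hab (by rw [h3])) h2
  ble := by
    intro x y
    have h1 := h.ble (e.symm x) (e.symm y)
    rw [← pr_iso e, ← pr_iso e] at h1
    simpa using h1
  bge := by
    obtain ⟨x, y, hxy⟩ := h.bge
    refine ⟨e x, e y, ?_⟩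
    rw [pr_iso e, pr_iso e]
    exact hxy
  sp := sp_iso h.sp e

lemma Spec.one : Spec [0] (Fin 1) := by
  have e1 : els 0 = [[1]] := rfl
  have e2 : den 0 = 1 := rfl
  have e3 : lenW [0] = 1 := rfl
  have e4 : wdW [0] = 1 := rfl
  have e5 : balW [0] = 0 := by
    have h1 : uN 0 = 0 := rfl
    simp [balW, bal, h1]
  refine ⟨by simp, by simp, by rw [e3]; simp, inferInstance, inferInstance, ?_, ?_, ?_, ?_, ?_, ?_,
    sp_one⟩
  · intro s p hp wt hwt
    rw [pls, pls, List.mem_singleton] at hp
    subst hp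
    simp only [e1, List.mem_singleton] at hwt
    subst hwt
    refine ⟨0, fun φ => ?_⟩
    rw [e3, avg_one]
    simp only [e2, lev]
    simp
  · intro s x
    refine ⟨(s, 0), by simp [pls], [1], by simp [e1], fun φ => ?_⟩
    rw [e3, Subsingleton.elim x 0, avg_one]
    simp only [e2, lev]
    simp
  · intro S _
    rw [e4]
    have := card_le_univ S
    simpa using this
  · exact ⟨{0}, by simp, by rw [e4]; simp⟩
  · intro x y
    rw [e3, e5, Subsingleton.elim y x, pr_self]
    simp
  · exact ⟨0, 0, by rw [e3, e5, pr_self]; simp⟩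

section lex

variable {P Q : Type} [PartialOrder P] [PartialOrder Q] {u v : List ℕ}

lemma Spec.lex (hP : Spec u P) (hQ : Spec v Q) : Spec (u ++ v) (P ⊕ₗ Q) := by
  classical
  have fP := hP.fin
  have fQ := hQ.fin
  have := Fintype.ofFinite P
  have := Fintype.ofFinite Q
  have h1 : Fintype.card P = lenW u := by rw [← hP.card, Nat.card_eq_fintype_card]
  have h2 : Fintype.card Q = lenW v := by rw [← hQ.card, Nat.card_eq_fintype_card]
  have nP := hP.nem
  have nQ := hQ.nem
  refine ⟨by simp [hP.ne], ?_, ?_, (inferInstance : Finite (P ⊕ Q)), ⟨toLex (Sum.inl nP.some)⟩,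
    ?_, ?_, ?_, ?_, ?_, ?_, ?_⟩
  · intro f hf
    rw [List.mem_append] at hf
    rcases hf with hf | hf
    · exact hP.val f hf
    · exact hQ.val f hf
  · rw [lenW_append, ← hP.card, ← hQ.card]
    exact Nat.card_sum
  · intro s p hp wt hwt
    rw [pls_append, List.mem_append] at hp
    rw [lenW_append]
    rcases hp with hp | hp
    · obtain ⟨x, hx⟩ := hP.real s p hp wt hwt
      refine ⟨toLex (Sum.inl x), fun φ => ?_⟩
      rw [avg_lex_inl h1 h2, hx]
    · obtain ⟨y, hy⟩ := hQ.real (s + lenW u) p hp wt hwt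
      refine ⟨toLex (Sum.inr y), fun φ => ?_⟩
      rw [avg_lex_inr h1 h2, ← hy]
      congr 1
      funext i
      rw [add_assoc]
  · intro s x
    rw [lenW_append]
    rcases x with x | y
    · obtain ⟨p, hp, wt, hwt, hx⟩ := hP.full s x
      refine ⟨p, by rw [pls_append, List.mem_append]; exact Or.inl hp, wt, hwt, fun φ => ?_⟩
      rw [← hx]
      exact avg_lex_inl h1 h2 x _
    · obtain ⟨p, hp, wt, hwt, hx⟩ := hQ.full (s + lenW u) y
      refine ⟨p, by rw [pls_append, List.mem_append]; exact Or.inr hp, wt, hwt, fun φ => ?_⟩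
      rw [← hx]
      refine (avg_lex_inr h1 h2 y _).trans ?_
      congr 1
      funext i
      rw [add_assoc]
  · intro S hS
    rw [wdW_append]
    by_cases hl : ∃ x : P, (toLex (Sum.inl x) : P ⊕ₗ Q) ∈ S
    · obtain ⟨x, hx⟩ := hl
      have hall : ∀ z ∈ S, ∃ a : P, toLex (Sum.inl a) = z := by
        intro z hz
        rcases z with a | b
        · exact ⟨a, rfl⟩
        · exfalso
          have : (toLex (Sum.inl x) : P ⊕ₗ Q) ≠ toLex (Sum.inr b) := by
            intro h; have := toLex.injective h; simp at this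
          exact hS (Finset.mem_coe.2 hx) (Finset.mem_coe.2 hz) this (Sum.Lex.inl_le_inr x b)
      let g : P ↪ P ⊕ₗ Q := ⟨fun a => toLex (Sum.inl a), fun a b h =>
        Sum.inl_injective (toLex.injective h)⟩
      let S' : Finset P := univ.filter fun a => toLex (Sum.inl a) ∈ S
      have hS' : S = S'.map g := by
        ext z
        rw [Finset.mem_map]
        constructor
        · intro hz
          obtain ⟨a, rfl⟩ := hall z hz
          exact ⟨a, by simp [S', hz], rfl⟩
        · rintro ⟨a, ha, rfl⟩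
          exact (Finset.mem_filter.1 ha).2
      rw [hS', Finset.card_map]
      refine (hP.wle S' ?_).trans (le_max_left _ _)
      intro a ha b hb hab hle
      have ha' : (toLex (Sum.inl a) : P ⊕ₗ Q) ∈ S := by simpa [S'] using ha
      have hb' : (toLex (Sum.inl b) : P ⊕ₗ Q) ∈ S := by simpa [S'] using hb
      exact hS ha' hb' (fun h => hab (g.injective h)) (Sum.Lex.inl_le_inl_iff.2 hle)
    · have hall : ∀ z ∈ S, ∃ a : Q, toLex (Sum.inr a) = z := by
        intro z hz
        rcases z with a | b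
        · exact absurd ⟨a, hz⟩ hl
        · exact ⟨b, rfl⟩
      let g : Q ↪ P ⊕ₗ Q := ⟨fun a => toLex (Sum.inr a), fun a b h =>
        Sum.inr_injective (toLex.injective h)⟩
      let S' : Finset Q := univ.filter fun a => toLex (Sum.inr a) ∈ S
      have hS' : S = S'.map g := by
        ext z
        rw [Finset.mem_map]
        constructor
        · intro hz
          obtain ⟨a, rfl⟩ := hall z hz
          exact ⟨a, by simp [S', hz], rfl⟩
        · rintro ⟨a, ha, rfl⟩
          exact (Finset.mem_filter.1 ha).2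
      rw [hS', Finset.card_map]
      refine (hQ.wle S' ?_).trans (le_max_right _ _)
      intro a ha b hb hab hle
      have ha' : (toLex (Sum.inr a) : P ⊕ₗ Q) ∈ S := by simpa [S'] using ha
      have hb' : (toLex (Sum.inr b) : P ⊕ₗ Q) ∈ S := by simpa [S'] using hb
      exact hS ha' hb' (fun h => hab (g.injective h)) (Sum.Lex.inr_le_inr_iff.2 hle)
  · rw [wdW_append]
    rcases le_total (wdW v) (wdW u) with hle | hle
    · obtain ⟨S, hS, hc⟩ := hP.wge
      let g : P ↪ P ⊕ₗ Q := ⟨fun a => toLex (Sum.inl a), fun a b h =>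
        Sum.inl_injective (toLex.injective h)⟩
      refine ⟨S.map g, ?_, by rw [Finset.card_map, hc, max_eq_left hle]⟩
      intro a ha b hb hab hle
      rw [Finset.mem_coe, Finset.mem_map] at ha hb
      obtain ⟨a', ha', rfl⟩ := ha
      obtain ⟨b', hb', rfl⟩ := hb
      exact hS ha' hb' (fun h => hab (by rw [h])) (Sum.Lex.inl_le_inl_iff.1 hle)
    · obtain ⟨S, hS, hc⟩ := hQ.wge
      let g : Q ↪ P ⊕ₗ Q := ⟨fun a => toLex (Sum.inr a), fun a b h =>
        Sum.inr_injective (toLex.injective h)⟩
      refine ⟨S.map g, ?_, by rw [Finset.card_map, hc, max_eq_right hle]⟩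
      intro a ha b hb hab hle
      rw [Finset.mem_coe, Finset.mem_map] at ha hb
      obtain ⟨a', ha', rfl⟩ := ha
      obtain ⟨b', hb', rfl⟩ := hb
      exact hS ha' hb' (fun h => hab (by rw [h])) (Sum.Lex.inr_le_inr_iff.1 hle)
  · intro x y
    rw [balW_append, lenW_append]
    have hu0 : 0 ≤ balW u := by
      obtain ⟨x⟩ := nP
      have := hP.ble x x
      rw [pr_self] at this
      simpa using this
    rcases x with x | x <;> rcases y with y | y
    · have e1 := pr_lex_inl h1 h2 x y
      have e2 := pr_lex_inl h1 h2 y x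
      refine le_trans (le_of_eq ?_) ((hP.ble x y).trans (le_max_left _ _))
      rw [← e1, ← e2]
      rfl
    · refine (min_le_right _ _).trans ?_
      have : pr (P ⊕ₗ Q) (lenW u + lenW v) (toLex (Sum.inr y)) (toLex (Sum.inl x)) = 0 :=
        pr_zero_of_lt (Sum.Lex.inl_lt_inr x y)
      calc _ = (0 : ℝ) := this
        _ ≤ _ := hu0.trans (le_max_left _ _)
    · refine (min_le_left _ _).trans ?_
      have : pr (P ⊕ₗ Q) (lenW u + lenW v) (toLex (Sum.inr x)) (toLex (Sum.inl y)) = 0 :=
        pr_zero_of_lt (Sum.Lex.inl_lt_inr y x)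
      calc _ = (0 : ℝ) := this
        _ ≤ _ := hu0.trans (le_max_left _ _)
    · have e1 := pr_lex_inr h1 h2 x y
      have e2 := pr_lex_inr h1 h2 y x
      refine le_trans (le_of_eq ?_) ((hQ.ble x y).trans (le_max_right _ _))
      rw [← e1, ← e2]
      rfl
  · rw [balW_append, lenW_append]
    rcases le_total (balW v) (balW u) with hle | hle
    · obtain ⟨x, y, hxy⟩ := hP.bge
      refine ⟨toLex (Sum.inl x), toLex (Sum.inl y), ?_⟩
      rw [pr_lex_inl h1 h2, pr_lex_inl h1 h2, max_eq_left hle]
      exact hxy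
    · obtain ⟨x, y, hxy⟩ := hQ.bge
      refine ⟨toLex (Sum.inr x), toLex (Sum.inr y), ?_⟩
      rw [pr_lex_inr h1 h2, pr_lex_inr h1 h2, max_eq_right hle]
      exact hxy
  · exact SeriesParallel.direct P Q _ hP.sp hQ.sp ⟨OrderIso.refl _⟩

end lex

end Pool.Agent.W5h8.SP
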