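import Mathlib
import Pool.Agent.W5h8.SPE

/-! Disjoint sums of posets given by words. -/

open Finset

namespace Pool.Agent.W5h8.SP

open Pool.Agent.H13R3.WB (prob balance)
open Pool.Agent.H931R3.Bal

lemma levN_congr {φ ψ : ℕ → ℕ} : ∀ (w : List ℕ) (s : ℕ),
    (∀ i, s ≤ i → i < s + w.length → φ i = ψ i) → levN w s φ = levN w s ψ := by
  intro w
  induction w with
  | nil => intro s _; rfl
  | cons a w ih =>
    intro s h
    rw [List.length_cons] at h
    rw [levN, levN, h s le_rfl (by omega), ih (s + 1) (fun i h1 h2 => h i (by omega) (by omega))]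

lemma lev_FF {n m a b : ℕ} {wt wt' : List ℕ} (ha : a + wt.length ≤ n) (hb : b + wt'.length ≤ m) :
    lev wt a (fun i => lev wt' b (fun j => FF n m i j)) =
      (levN wt a (fun i => levN wt' b (fun j => TT n m i j)) : ℝ) / (n + m).choose m := by
  rw [← lev_cast, ← lev_div]
  apply lev_congr
  intro i h1 h2
  rw [← lev_cast, ← lev_div]
  apply lev_congr
  intro j h3 h4
  exact FF_TT (by omega) (by omega)

lemma push_val {n m a g f : ℕ} {wt' wt : List ℕ} (h64 : n + m < 64)
    (h : pushB n m a g wt' f wt = true) (hl : wt.length = n + m)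
    (hg : 1 ≤ den g) (hf : 1 ≤ den f) (φ : ℕ → ℝ) :
    lev wt' a (fun i => (∑ r ∈ range (n + m), (RK n m i r : ℝ) * φ r) / (n + m).choose m) /
      den g = lev wt 0 φ / den f := by
  unfold pushB at h
  rw [List.all_eq_true] at h
  have hC : (0 : ℝ) < (n + m).choose m := by
    exact_mod_cast Nat.choose_pos (show m ≤ n + m by omega)
  have hg' : (0 : ℝ) < den g := by exact_mod_cast hg
  have hf' : (0 : ℝ) < den f := by exact_mod_cast hf
  have h1 : ∀ r ∈ range (n + m), (wt.getD r 0 : ℝ) * (den g * (n + m).choose m) =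
      den f * lev wt' a (fun i => (RK n m i r : ℝ)) := by
    intro r hr
    have h2 := h r (List.mem_range.2 (mem_range.1 hr))
    have h3 := Nat.eq_of_beq_eq_true h2
    rw [nth_eq, bin_eq h64] at h3
    rw [levN_congr (ψ := fun i => RK n m i r) wt' a
      (fun i _ _ => RKb_eq h64 (mem_range.1 hr))] at h3
    rw [lev_cast]
    exact_mod_cast h3
  rw [lev_div, lev_sum, lev_range, hl]
  rw [div_div, div_eq_div_iff (by positivity) (by positivity)]
  rw [Finset.sum_mul, Finset.sum_mul]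
  apply Finset.sum_congr rfl
  intro r hr
  have h4 := h1 r hr
  have h5 : lev wt' a (fun i => (RK n m i r : ℝ) * φ r) =
      lev wt' a (fun i => (RK n m i r : ℝ)) * φ r := by
    have := lev_mul (φ r) (fun i => (RK n m i r : ℝ)) wt' a
    rw [mul_comm (lev wt' a _), ← this]
    congr 1
    funext i
    ring
  rw [h5, zero_add]
  calc lev wt' a (fun i => (RK n m i r : ℝ)) * φ r * den f =
      (den f * lev wt' a (fun i => (RK n m i r : ℝ))) * φ r := by ring
    _ = _ := by rw [← h4]; ring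

variable {P Q : Type} [PartialOrder P] [PartialOrder Q]

lemma avg_disj_inr [Fintype P] [Fintype Q] {n m : ℕ} (hn : Fintype.card P = n)
    (hm : Fintype.card Q = m) (y : Q) (φ : ℕ → ℝ) :
    avg (P ⊕ Q) (n + m) (Sum.inr y) φ =
      avg Q m y (fun i => (∑ r ∈ range (m + n), (RK m n i r : ℝ) * φ r) / (m + n).choose n) := by
  rw [← avg_disj_inl hm hn, Nat.add_comm m n, ← avg_iso (OrderIso.sumComm Q P)]
  rfl

lemma VNb_eq {n m a b : ℕ} {wt wt' : List ℕ} (h64 : n + m < 64) (ha : a + wt.length ≤ n)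
    (hb : b + wt'.length ≤ m) : VNb n m a wt b wt' =
      levN wt a (fun i => levN wt' b (fun j => TT n m i j)) := by
  unfold VNb
  apply levN_congr
  intro i h1 h2
  apply levN_congr
  intro j h3 h4
  rw [TTr_eq, TTb_eq h64 (by omega) (by omega)]

lemma Spec.disj {f : ℕ} {A B : List ℕ} (ht : (f, A, B) ∈ dtab) (hP : Spec A P) (hQ : Spec B Q) :
    Spec [f] (P ⊕ Q) := by
  classical
  have fP := hP.fin
  have fQ := hQ.fin
  have := Fintype.ofFinite P
  have := Fintype.ofFinite Q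
  have hn : Fintype.card P = lenW A := by rw [← hP.card, Nat.card_eq_fintype_card]
  have hm : Fintype.card Q = lenW B := by rw [← hQ.card, Nat.card_eq_fintype_card]
  have nP := hP.nem
  have nQ := hQ.nem
  have hc := chkD_true _ ht
  unfold chkD at hc
  simp only [Bool.and_eq_true, Bool.or_eq_true, decide_eq_true_eq] at hc
  obtain ⟨⟨⟨⟨⟨⟨⟨⟨⟨⟨⟨c1, c2⟩, c3⟩, c4⟩, c5⟩, c6⟩, c7⟩, c8⟩, c9⟩, c10⟩, c11⟩, c12⟩ := hc
  have bf := basic c1
  have hl : lenW [f] = lenW A + lenW B := by simp [lenW, c2]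
  have hw : wdW [f] = wdW A + wdW B := by simp [wdW, c6]
  have hbf : 0 ≤ bal f := by unfold bal; positivity
  have hb : balW [f] = bal f := by simp [balW, hbf]
  have hU : (0 : ℝ) < uD f := by exact_mod_cast bf.uD1
  -- codes of the two words
  have pA : ∀ p ∈ pls 0 A, Basic p.2 ∧ p.1 + sz p.2 ≤ lenW A := by
    intro p hp
    obtain ⟨h1, h2, h3⟩ := pls_le hp
    exact ⟨basic (hP.val _ h3), by omega⟩
  have pB : ∀ p ∈ pls 0 B, Basic p.2 ∧ p.1 + sz p.2 ≤ lenW B := by
    intro p hp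
    obtain ⟨h1, h2, h3⟩ := pls_le hp
    exact ⟨basic (hQ.val _ h3), by omega⟩
  have realA : ∀ p ∈ pls 0 A, ∀ wt ∈ els p.2, ∃ x : P, ∀ φ : ℕ → ℝ,
      avg P (lenW A) x φ = lev wt p.1 φ / den p.2 := by
    intro p hp wt hwt
    obtain ⟨x, hx⟩ := hP.real 0 p hp wt hwt
    exact ⟨x, fun φ => by rw [← hx φ]; simp⟩
  have realB : ∀ p ∈ pls 0 B, ∀ wt ∈ els p.2, ∃ x : Q, ∀ φ : ℕ → ℝ,
      avg Q (lenW B) x φ = lev wt p.1 φ / den p.2 := by
    intro p hp wt hwt
    obtain ⟨x, hx⟩ := hQ.real 0 p hp wt hwt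
    exact ⟨x, fun φ => by rw [← hx φ]; simp⟩
  have fullA : ∀ x : P, ∃ p ∈ pls 0 A, ∃ wt ∈ els p.2, ∀ φ : ℕ → ℝ,
      avg P (lenW A) x φ = lev wt p.1 φ / den p.2 := by
    intro x
    obtain ⟨p, hp, wt, hwt, hx⟩ := hP.full 0 x
    exact ⟨p, hp, wt, hwt, fun φ => by rw [← hx φ]; simp⟩
  have fullB : ∀ x : Q, ∃ p ∈ pls 0 B, ∃ wt ∈ els p.2, ∀ φ : ℕ → ℝ,
      avg Q (lenW B) x φ = lev wt p.1 φ / den p.2 := by
    intro x
    obtain ⟨p, hp, wt, hwt, hx⟩ := hQ.full 0 x
    exact ⟨p, hp, wt, hwt, fun φ => by rw [← hx φ]; simp⟩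
  -- transfer of distributions
  have keyA : ∀ (x : P) (p : ℕ × ℕ) (wt' wt : List ℕ), p ∈ pls 0 A → wt' ∈ els p.2 →
      wt ∈ els f → pushB (lenW A) (lenW B) p.1 p.2 wt' f wt = true →
      (∀ φ : ℕ → ℝ, avg P (lenW A) x φ = lev wt' p.1 φ / den p.2) → ∀ (s : ℕ) (φ : ℕ → ℝ),
      avg (P ⊕ Q) (lenW A + lenW B) (Sum.inl x) (fun i => φ (s + i)) = lev wt s φ / den f := by
    intro x p wt' wt hp hwt' hwt hpush hx s φ
    obtain ⟨b1, b2⟩ := pA p hp
    rw [avg_disj_inl hn hm, hx]
    have := push_val c3 hpush (by rw [bf.len wt hwt, c2])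
      b1.den1 bf.den1 (fun i => φ (s + i))
    rw [this, lev_shift, add_zero]
  have keyB : ∀ (x : Q) (p : ℕ × ℕ) (wt' wt : List ℕ), p ∈ pls 0 B → wt' ∈ els p.2 →
      wt ∈ els f → pushB (lenW B) (lenW A) p.1 p.2 wt' f wt = true →
      (∀ φ : ℕ → ℝ, avg Q (lenW B) x φ = lev wt' p.1 φ / den p.2) → ∀ (s : ℕ) (φ : ℕ → ℝ),
      avg (P ⊕ Q) (lenW A + lenW B) (Sum.inr x) (fun i => φ (s + i)) = lev wt s φ / den f := by
    intro x p wt' wt hp hwt' hwt hpush hx s φ
    obtain ⟨b1, b2⟩ := pB p hp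
    rw [avg_disj_inr hn hm, hx]
    have := push_val (by omega) hpush (by rw [bf.len wt hwt, c2]; omega)
      b1.den1 bf.den1 (fun i => φ (s + i))
    rw [this, lev_shift, add_zero]
  -- crossing probabilities
  have hC : (0 : ℝ) < (lenW A + lenW B).choose (lenW B) := by
    exact_mod_cast Nat.choose_pos (show lenW B ≤ lenW A + lenW B by omega)
  have cross : ∀ (x : P) (y : Q) (p q : ℕ × ℕ) (wt wt' : List ℕ), p ∈ pls 0 A → wt ∈ els p.2 →
      q ∈ pls 0 B → wt' ∈ els q.2 →
      (∀ φ : ℕ → ℝ, avg P (lenW A) x φ = lev wt p.1 φ / den p.2) →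
      (∀ φ : ℕ → ℝ, avg Q (lenW B) y φ = lev wt' q.1 φ / den q.2) →
      pr (P ⊕ Q) (lenW A + lenW B) (Sum.inl x) (Sum.inr y) =
        (VNb (lenW A) (lenW B) p.1 wt q.1 wt' : ℝ) / (VDb (lenW A) (lenW B) p.2 q.2 : ℕ) := by
    intro x y p q wt wt' hp hwt hq hwt' hx hy
    obtain ⟨b1, b2⟩ := pA p hp
    obtain ⟨b3, b4⟩ := pB q hq
    have d1 : (0 : ℝ) < den p.2 := by exact_mod_cast b1.den1
    have d2 : (0 : ℝ) < den q.2 := by exact_mod_cast b3.den1
    rw [pr_disj_cross hn hm, hx]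
    simp_rw [hy]
    rw [lev_div, lev_FF (by rw [b1.len _ hwt]; exact b2) (by rw [b3.len _ hwt']; exact b4),
      VNb_eq c3 (by rw [b1.len _ hwt]; exact b2) (by rw [b3.len _ hwt']; exact b4)]
    unfold VDb
    rw [bin_eq c3]
    push_cast
    field_simp
  have hVD : ∀ p ∈ pls 0 A, ∀ q ∈ pls 0 B, (0 : ℝ) < (VDb (lenW A) (lenW B) p.2 q.2 : ℕ) := by
    intro p hp q hq
    unfold VDb
    rw [bin_eq c3]
    have d1 : (0 : ℝ) < den p.2 := by exact_mod_cast (pA p hp).1.den1
    have d2 : (0 : ℝ) < den q.2 := by exact_mod_cast (pB q hq).1.den1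
    push_cast
    positivity
  have hsum : ∀ (x : P) (y : Q), pr (P ⊕ Q) (lenW A + lenW B) (Sum.inl x) (Sum.inr y) +
      pr (P ⊕ Q) (lenW A + lenW B) (Sum.inr y) (Sum.inl x) = 1 := fun x y =>
    pr_add (by rw [Fintype.card_sum, hn, hm]) (by simp)
  -- comparisons of the constants
  have hleB : ∀ g ∈ A ++ B, bal g ≤ bal f := by
    intro g hg
    rw [List.all_eq_true] at c11
    have h1 := c11 g hg
    rw [Bool.and_eq_true, decide_eq_true_eq] at h1
    have h2 := Nat.le_of_ble_eq_true h1.1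
    have bg := basic h1.2
    have hUg : (0 : ℝ) < uD g := by exact_mod_cast bg.uD1
    unfold bal
    rw [div_le_div_iff₀ hUg hU]
    exact_mod_cast h2
  have hbA : balW A ≤ bal f := balW_le hbf fun g hg => hleB g (by simp [hg])
  have hbB : balW B ≤ bal f := balW_le hbf fun g hg => hleB g (by simp [hg])
  -- cross upper bound
  have crossUp : ∀ (x : P) (y : Q), min (pr (P ⊕ Q) (lenW A + lenW B) (Sum.inl x) (Sum.inr y))
      (pr (P ⊕ Q) (lenW A + lenW B) (Sum.inr y) (Sum.inl x)) ≤ bal f := by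
    intro x y
    obtain ⟨p, hp, wt, hwt, hx⟩ := fullA x
    obtain ⟨q, hq, wt', hwt', hy⟩ := fullB y
    have hv := cross x y p q wt wt' hp hwt hq hwt' hx hy
    have hs := hsum x y
    unfold crUp at c10
    simp only [List.all_eq_true] at c10
    have h1 := c10 p hp wt hwt q hq wt' hwt'
    unfold upB at h1
    rw [Bool.or_eq_true] at h1
    have hT := hVD p hp q hq
    rcases h1 with h1 | h1
    · refine (min_le_left _ _).trans ?_
      rw [hv]
      unfold bal
      rw [div_le_div_iff₀ hT hU]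
      exact_mod_cast Nat.le_of_ble_eq_true h1
    · refine (min_le_right _ _).trans ?_
      have h2 : pr (P ⊕ Q) (lenW A + lenW B) (Sum.inr y) (Sum.inl x) =
          1 - (VNb (lenW A) (lenW B) p.1 wt q.1 wt' : ℝ) /
            (VDb (lenW A) (lenW B) p.2 q.2 : ℕ) := by rw [← hv]; linarith
      rw [h2]
      unfold bal
      have h3 : ((VDb (lenW A) (lenW B) p.2 q.2 - VNb (lenW A) (lenW B) p.1 wt q.1 wt') * uD f : ℝ)
          ≤ uN f * VDb (lenW A) (lenW B) p.2 q.2 := by
        have h4 := Nat.le_of_ble_eq_true h1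
        have h5 : (((VDb (lenW A) (lenW B) p.2 q.2 - VNb (lenW A) (lenW B) p.1 wt q.1 wt' : ℕ)
          : ℝ) * uD f : ℝ) ≤ uN f * VDb (lenW A) (lenW B) p.2 q.2 := by exact_mod_cast h4
        refine le_trans (mul_le_mul_of_nonneg_right ?_ hU.le) h5
        rw [sub_le_iff_le_add]
        have h6 : VDb (lenW A) (lenW B) p.2 q.2 ≤ (VDb (lenW A) (lenW B) p.2 q.2 -
            VNb (lenW A) (lenW B) p.1 wt q.1 wt') + VNb (lenW A) (lenW B) p.1 wt q.1 wt' := by
          omega
        exact_mod_cast h6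
      rw [le_div_iff₀ hU, sub_mul, div_mul_eq_mul_div, sub_le_iff_le_add, ← sub_le_iff_le_add',
        le_div_iff₀ hT]
      nlinarith
  refine ⟨by simp, by simpa using c1, ?_, inferInstance, inferInstance, ?_, ?_, ?_, ?_, ?_, ?_,
    SeriesParallel.disj P Q _ hP.sp hQ.sp ⟨OrderIso.refl _⟩⟩
  · rw [hl, ← hP.card, ← hQ.card]
    exact Nat.card_sum
  · intro s p hp wt hwt
    rw [pls, pls, List.mem_singleton] at hp
    subst hp
    rw [List.all_eq_true] at c9
    have h1 := c9 wt hwt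
    rw [Bool.or_eq_true] at h1
    rw [hl]
    rcases h1 with h1 | h1
    · unfold srcB at h1
      simp only [List.any_eq_true] at h1
      obtain ⟨p, hp, wt', hwt', hpush⟩ := h1
      obtain ⟨x, hx⟩ := realA p hp wt' hwt'
      exact ⟨Sum.inl x, keyA x p wt' wt hp hwt' hwt hpush hx s⟩
    · unfold srcB at h1
      simp only [List.any_eq_true] at h1
      obtain ⟨p, hp, wt', hwt', hpush⟩ := h1
      obtain ⟨x, hx⟩ := realB p hp wt' hwt'
      exact ⟨Sum.inr x, keyB x p wt' wt hp hwt' hwt hpush hx s⟩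
  · intro s x
    rw [hl]
    rcases x with x | x
    · obtain ⟨p, hp, wt', hwt', hx⟩ := fullA x
      unfold fwdB at c7
      simp only [List.all_eq_true, List.any_eq_true] at c7
      obtain ⟨wt, hwt, hpush⟩ := c7 p hp wt' hwt'
      exact ⟨(s, f), by simp [pls], wt, hwt, keyA x p wt' wt hp hwt' hwt hpush hx s⟩
    · obtain ⟨p, hp, wt', hwt', hx⟩ := fullB x
      unfold fwdB at c8
      simp only [List.all_eq_true, List.any_eq_true] at c8
      obtain ⟨wt, hwt, hpush⟩ := c8 p hp wt' hwt'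
      exact ⟨(s, f), by simp [pls], wt, hwt, keyB x p wt' wt hp hwt' hwt hpush hx s⟩
  · intro S hS
    rw [hw, ← Finset.card_toLeft_add_card_toRight]
    apply Nat.add_le_add
    · apply hP.wle
      intro a ha b hb hab hle
      rw [Finset.mem_coe, Finset.mem_toLeft] at ha hb
      exact hS ha hb (fun h => hab (Sum.inl_injective h)) (Sum.inl_le_inl_iff.2 hle)
    · apply hQ.wle
      intro a ha b hb hab hle
      rw [Finset.mem_coe, Finset.mem_toRight] at ha hb
      exact hS ha hb (fun h => hab (Sum.inr_injective h)) (Sum.inr_le_inr_iff.2 hle)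
  · obtain ⟨S, hS, hSc⟩ := hP.wge
    obtain ⟨T, hT, hTc⟩ := hQ.wge
    refine ⟨S.disjSum T, ?_, by rw [Finset.card_disjSum, hSc, hTc, hw]⟩
    intro a ha b hb hab hle
    rw [Finset.mem_coe] at ha hb
    rcases a with a | a <;> rcases b with b | b
    · rw [Finset.inl_mem_disjSum] at ha hb
      exact hS ha hb (fun h => hab (by rw [h])) (Sum.inl_le_inl_iff.1 hle)
    · exact Sum.not_inl_le_inr hle
    · exact Sum.not_inr_le_inl hle
    · rw [Finset.inr_mem_disjSum] at ha hb
      exact hT ha hb (fun h => hab (by rw [h])) (Sum.inr_le_inr_iff.1 hle)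
  · intro x y
    rw [hl, hb]
    rcases x with x | x <;> rcases y with y | y
    · rw [pr_disj_inl hn hm, pr_disj_inl hn hm]
      exact (hP.ble x y).trans hbA
    · exact crossUp x y
    · rw [min_comm]
      exact crossUp y x
    · rw [pr_disj_inr hn hm, pr_disj_inr hn hm]
      exact (hQ.ble x y).trans hbB
  · rw [hl, hb]
    rcases c12 with h1 | h1
    · unfold crLo at h1
      simp only [List.any_eq_true] at h1
      obtain ⟨p, hp, wt, hwt, q, hq, wt', hwt', h2⟩ := h1
      obtain ⟨x, hx⟩ := realA p hp wt hwt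
      obtain ⟨y, hy⟩ := realB q hq wt' hwt'
      have hv := cross x y p q wt wt' hp hwt hq hwt' hx hy
      have hs := hsum x y
      have hT := hVD p hp q hq
      unfold loB at h2
      rw [Bool.and_eq_true, Bool.and_eq_true] at h2
      obtain ⟨⟨h3, h4⟩, h5⟩ := h2
      have h3' := Nat.le_of_ble_eq_true h3
      have h4' := Nat.le_of_ble_eq_true h4
      have h5' := Nat.le_of_ble_eq_true h5
      refine ⟨Sum.inl x, Sum.inr y, le_min ?_ ?_⟩
      · rw [hv]
        unfold bal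
        rw [div_le_div_iff₀ hU hT]
        exact_mod_cast h3'
      · have h6 : pr (P ⊕ Q) (lenW A + lenW B) (Sum.inr y) (Sum.inl x) =
          ((VDb (lenW A) (lenW B) p.2 q.2 - VNb (lenW A) (lenW B) p.1 wt q.1 wt' : ℕ) : ℝ) /
            (VDb (lenW A) (lenW B) p.2 q.2 : ℕ) := by
          rw [Nat.cast_sub h5', sub_div, ← hv, div_self hT.ne']
          linarith
        rw [h6]
        unfold bal
        rw [div_le_div_iff₀ hU hT]
        exact_mod_cast h4'
    · rw [List.any_eq_true] at h1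
      obtain ⟨g, hg, h2⟩ := h1
      rw [List.all_eq_true] at c11
      have h3 := c11 g hg
      rw [Bool.and_eq_true, decide_eq_true_eq] at h3
      have bg := basic h3.2
      have hUg : (0 : ℝ) < uD g := by exact_mod_cast bg.uD1
      have h4 : bal f ≤ bal g := by
        unfold bal
        rw [div_le_div_iff₀ hU hUg]
        exact_mod_cast Nat.le_of_ble_eq_true h2
      rw [List.mem_append] at hg
      rcases hg with hg | hg
      · obtain ⟨x, y, hxy⟩ := hP.bge
        refine ⟨Sum.inl x, Sum.inl y, ?_⟩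
        rw [pr_disj_inl hn hm, pr_disj_inl hn hm]
        exact (h4.trans (le_balW hg)).trans hxy
      · obtain ⟨x, y, hxy⟩ := hQ.bge
        refine ⟨Sum.inr x, Sum.inr y, ?_⟩
        rw [pr_disj_inr hn hm, pr_disj_inr hn hm]
        exact (h4.trans (le_balW hg)).trans hxy

theorem IsW.spec {w : List ℕ} {P : Type} [PartialOrder P] (h : IsW w P) : Spec w P := by
  induction h with
  | one P e =>
    obtain ⟨e⟩ := e
    exact Spec.one.iso e.symm
  | blk f A B P Q R ht _ _ e ihP ihQ =>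
    obtain ⟨e⟩ := e
    exact (Spec.disj ht ihP ihQ).iso e.symm
  | cat u v P Q R _ _ e ihP ihQ =>
    obtain ⟨e⟩ := e
    exact (Spec.lex ihP ihQ).iso e.symm

end Pool.Agent.W5h8.SP
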