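import Mathlib
import Pool.Agent.W5h8.SPC

/-! The checker for pairs of words. -/

namespace Pool.Agent.W5h8.SP

/-- map -/
noncomputable def mapR {α β : Type} (f : α → β) (l : List α) : List β :=
  @List.rec α (fun _ => List β) [] (fun a _ ih => f a :: ih) l

/-- drop -/
noncomputable def dropR {α : Type} (k : ℕ) (l : List α) : List α :=
  @Nat.rec (fun _ => List α → List α) (fun l => l)
    (fun _ ih l => @List.rec α (fun _ => List α) [] (fun _ t _ => ih t) l) k l

/-- packed weights -/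
noncomputable def pkw (K : ℕ) (l : List ℕ) : ℕ :=
  @List.rec ℕ (fun _ => ℕ) 0 (fun a _ ih => Nat.add a (Nat.mul (Nat.pow 2 K) ih)) l

/-- packed entries, in descending order -/
noncomputable def hd (K : ℕ) (f : ℕ → ℕ) (J : ℕ) : ℕ :=
  @Nat.rec (fun _ => ℕ) 0 (fun j ih => Nat.add (f j) (Nat.mul (Nat.pow 2 K) ih)) J

/-- packed prefix sums, in descending order -/
noncomputable def rowD (K J n m i : ℕ) : ℕ :=
  Nat.div (Nat.sub (Nat.mul (Nat.pow 2 K) (hd K (dd K n m i) J))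
    (Nat.mod (hd K (dd K n m i) J) (Nat.sub (Nat.pow 2 K) 1))) (Nat.sub (Nat.pow 2 K) 1)

/-- combination of rows -/
noncomputable def cmb (w rows : List ℕ) : ℕ :=
  @List.rec ℕ (fun _ => List ℕ → ℕ) (fun _ => 0)
    (fun a _ ih rs => @List.rec ℕ (fun _ => ℕ) 0
      (fun r rs' _ => Nat.add (Nat.mul a r) (ih rs')) rs) w rows

/-- row indices -/
def ilist : List ℕ := [nat_lit 0, nat_lit 1, nat_lit 2, nat_lit 3, nat_lit 4, nat_lit 5, nat_lit 6,
  nat_lit 7, nat_lit 8, nat_lit 9, nat_lit 10, nat_lit 11, nat_lit 12, nat_lit 13, nat_lit 14,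
  nat_lit 15, nat_lit 16, nat_lit 17, nat_lit 18, nat_lit 19, nat_lit 20, nat_lit 21, nat_lit 22,
  nat_lit 23, nat_lit 24, nat_lit 25, nat_lit 26, nat_lit 27, nat_lit 28, nat_lit 29, nat_lit 30,
  nat_lit 31, nat_lit 32, nat_lit 33, nat_lit 34, nat_lit 35, nat_lit 36, nat_lit 37, nat_lit 38,
  nat_lit 39, nat_lit 40, nat_lit 41, nat_lit 42, nat_lit 43, nat_lit 44, nat_lit 45, nat_lit 46,
  nat_lit 47, nat_lit 48, nat_lit 49, nat_lit 50, nat_lit 51, nat_lit 52, nat_lit 53, nat_lit 54,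
  nat_lit 55, nat_lit 56, nat_lit 57, nat_lit 58, nat_lit 59]

/-- one item of a cell -/
noncomputable def itT (K J CL CU dX : ℕ) (RL : List (ℕ × ℕ)) (PT : List (ℕ × ℕ × List ℕ))
    (z : ℕ) : Bool :=
  (fun (b e : ℕ) (q : ℕ × ℕ × List ℕ) =>
    (fun (p c s : ℕ) (r : ℕ × ℕ) => cond (Nat.ble (Nat.add b q.1) J)
      (cond (Nat.ble (Nat.mul 19 (Nat.mul c CL)) (Nat.mul 45 (dig K (Nat.mul r.1 p) s)))
        (Nat.ble (Nat.mul 45 (dig K (Nat.mul r.2 p) s)) (Nat.mul 26 (Nat.mul c CU)))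
        false) false)
      (nth 0 q.2.2 (Nat.mod (Nat.shiftRight z 10) 32)) (Nat.mul dX q.2.1)
      (Nat.sub (Nat.sub J 1) b) (nth (0, 0) RL e))
    (Nat.div (Nat.mod z 1024) 17) (Nat.mod (Nat.shiftRight z 15) 32)
    (nth (0, 0, []) PT (Nat.mod (Nat.mod z 1024) 17))

/-- all items of a cell -/
noncomputable def cellT (f : ℕ → Bool) (k z : ℕ) : Bool :=
  @Nat.rec (fun _ => ℕ → Bool) (fun _ => true)
    (fun _ ih z => cond (Nat.ble 2 z) (cond (f z) (ih (Nat.shiftRight z 20)) false) true) k z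

/-- mask of a cell -/
noncomputable def mask (k z : ℕ) : ℕ :=
  @Nat.rec (fun _ => ℕ → ℕ) (fun _ => 0)
    (fun _ ih z => cond (Nat.ble 2 z)
      (Nat.lor (Nat.shiftLeft 1 (Nat.mod z 1024)) (ih (Nat.shiftRight z 20))) 0) k z

/-- the cells of one row -/
noncomputable def rowT (K J n1 CL CU a : ℕ) (PT : List (ℕ × ℕ × List ℕ)) (rL rU : List ℕ)
    (bl : List (ℕ × ℕ × ℕ × List (List ℕ))) (cs : List ℕ) : Bool :=
  @List.rec (ℕ × ℕ × ℕ × List (List ℕ)) (fun _ => List ℕ → Bool) (fun _ => true)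
    (fun B _ ih cs => @List.rec ℕ (fun _ => Bool) true (fun z cs' _ =>
      cond (Nat.ble 2 z)
        (cond (Nat.ble (Nat.add a B.2.1) n1)
          (cond (cellT (itT K J CL CU B.2.2.1 (mapR (fun w => (cmb w rL, cmb w rU)) B.2.2.2) PT)
            100 z) (ih cs') false) false)
        (ih cs')) cs) bl cs

/-- all rows -/
noncomputable def tabT (K J n1 CL CU : ℕ) (PT : List (ℕ × ℕ × List ℕ))
    (bl : List (ℕ × ℕ × ℕ × List (List ℕ))) (rows : List (List ℕ)) (a : ℕ) (rL rU : List ℕ) : Bool :=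
  @List.rec (List ℕ) (fun _ => ℕ → List ℕ → List ℕ → Bool) (fun _ _ _ => true)
    (fun r _ ih a rL rU => cond (rowT K J n1 CL CU a PT rL rU bl r)
      (ih (Nat.succ a) (dropR 1 rL) (dropR 1 rU)) false) rows a rL rU

/-- loop over the blocks, first side -/
noncomputable def forA (g : ℕ → ℕ → ℕ → Bool) (bl : List (ℕ × ℕ × ℕ × List (List ℕ)))
    (cs : List ℕ) : Bool :=
  @List.rec (ℕ × ℕ × ℕ × List (List ℕ)) (fun _ => List ℕ → Bool) (fun _ => true)
    (fun B _ ih cs => @List.rec ℕ (fun _ => Bool) (cond (g B.1 B.2.1 0) (ih []) false)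
      (fun z cs' _ => cond (g B.1 B.2.1 z) (ih cs') false) cs) bl cs

/-- loop over the blocks, second side -/
noncomputable def forB (g : ℕ → ℕ → Bool) (bl : List (ℕ × ℕ × ℕ × List (List ℕ))) : Bool :=
  @List.rec (ℕ × ℕ × ℕ × List (List ℕ)) (fun _ => Bool) true
    (fun B _ ih => cond (g B.1 B.2.1) ih false) bl

/-- reversed exceptional pairs of words -/
def excR : List (List ℕ × List ℕ) := [
  ([0, 0], [0]), ([0, 0, 0, 0], [0]), ([1, 1], [0]), ([4], [0]), ([0, 1, 1, 0], [0]),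
  ([2, 2], [0]), ([0, 0, 0], [0, 0]), ([0, 0, 0, 0], [0, 0]), ([0, 1, 0], [0, 0]), ([3], [0, 0]),
  ([0, 0, 0, 0, 0, 0, 0], [0, 0]), ([0, 0, 1, 0, 0], [0, 0]), ([1, 2, 1], [0, 0]),
  ([0, 0, 0, 0], [1]), ([0, 0, 0, 0, 0, 0], [0, 0, 0]), ([1, 0, 1, 1, 0, 1], [0, 0, 0]),
  ([1, 0], [0, 1]), ([0, 1], [1, 0]), ([3, 3], [0, 1, 0])]

/-- leaf check -/
def leaf (n1 n2 m1 m2 la lb : ℕ) (wa wb : List ℕ) : Bool :=
  Nat.beq n1 n2 && (Nat.beq m1 m2 && (Nat.beq la n1 && (Nat.beq lb m1 &&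
    decide ((wa, wb) ∈ excR))))

/-- search -/
noncomputable def dfs (n1 n2 m1 m2 p q : ℕ) (bl : List (ℕ × ℕ × ℕ × List (List ℕ))) (fuel : ℕ) :
    List (List ℕ) → ℕ → ℕ → ℕ → ℕ → List ℕ → List ℕ → Bool :=
  @Nat.rec (fun _ => List (List ℕ) → ℕ → ℕ → ℕ → ℕ → List ℕ → List ℕ → Bool)
    (fun _ _ _ _ _ _ _ => false)
    (fun _ ih TA la lb UA SB wa wb =>
      cond (Nat.ble n1 la)
        (cond (Nat.ble m1 lb) (leaf n1 n2 m1 m2 la lb wa wb)
          (forB (fun f s => cond (Nat.ble (Nat.succ m2) (Nat.add lb s)) true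
            (cond (Nat.testBit UA (Nat.add (Nat.mul 17 lb) f)) true
              (ih TA la (Nat.add lb s) UA
                (Nat.lor SB (Nat.shiftLeft 1 (Nat.add (Nat.mul 17 lb) f))) wa (f :: wb)))) bl))
        (cond (cond (Nat.ble m1 lb) true (Nat.ble (Nat.mul la p) (Nat.mul lb q)))
          (forA (fun f s z => cond (Nat.ble (Nat.succ n2) (Nat.add la s)) true
            (cond (Nat.beq (Nat.land (mask 100 z) SB) 0)
              (ih (dropR s TA) (Nat.add la s) lb (Nat.lor UA (mask 100 z)) SB (f :: wa) wb)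
              true)) bl (@List.rec (List ℕ) (fun _ => List ℕ) [] (fun r _ _ => r) TA))
          (forB (fun f s => cond (Nat.ble (Nat.succ m2) (Nat.add lb s)) true
            (cond (Nat.testBit UA (Nat.add (Nat.mul 17 lb) f)) true
              (ih TA la (Nat.add lb s) UA
                (Nat.lor SB (Nat.shiftLeft 1 (Nat.add (Nat.mul 17 lb) f))) wa (f :: wb)))) bl)))
    fuel

/-- a rectangle with its certificate -/
structure Rect where
  n1 : ℕ
  n2 : ℕ
  m1 : ℕ
  m2 : ℕ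
  p : ℕ
  q : ℕ
  K : ℕ
  J : ℕ
  fuel : ℕ
  rows : List (List ℕ)

/-- check of one rectangle -/
noncomputable def chkR (R : Rect) : Bool :=
  @Rect.rec (fun _ => Bool) (fun n1 n2 m1 m2 p q K J fuel rows =>
    cond (Nat.ble (Nat.add (Nat.add n2 m2) 32) K)
      (cond (Nat.ble J m1)
        (cond (tabT K J (cond (Nat.ble n1 60) n1 60) (bin K (Nat.add n1 m2) m2)
          (bin K (Nat.add n2 m1) m1)
          (mapR (fun B => (B.2.1, B.2.2.1, mapR (pkw K) B.2.2.2)) blT) blT rows 0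
          (mapR (rowD K J n1 m2) ilist) (mapR (rowD K J n2 m1) ilist))
          (dfs n1 n2 m1 m2 p q blT fuel rows 0 0 0 0 [] []) false) false) false) R

/-- check of a list of rectangles -/
noncomputable def chkL (l : List Rect) : Bool :=
  @List.rec Rect (fun _ => Bool) true (fun R _ ih => cond (chkR R) ih false) l

lemma chkL_append {a b : List Rect} (ha : chkL a = true) (hb : chkL b = true) :
    chkL (a ++ b) = true := by
  induction a with
  | nil => exact hb
  | cons R a ih =>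
    have h1 : cond (chkR R) (chkL a) false = true := ha
    have h2 : chkR R = true := by
      cases h : chkR R with
      | true => rfl
      | false => rw [h] at h1; exact absurd h1 (by simp)
    rw [h2] at h1
    change cond (chkR R) (chkL (a ++ b)) false = true
    rw [h2]
    exact ih h1

end Pool.Agent.W5h8.SP
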