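import Mathlib
import Pool.Agent.W5h8.SPG
import Pool.Agent.W5h8.SPF

/-! Soundness of the items of the checker. -/

open Finset

namespace Pool.Agent.W5h8.SP

open Pool.Agent.H931R3.Bal

lemma mapR_eq {α β : Type} (f : α → β) (l : List α) : mapR f l = l.map f := by
  induction l with
  | nil => rfl
  | cons a l ih => rw [List.map_cons, ← ih]; rfl

lemma dropR_eq {α : Type} (k : ℕ) : ∀ l : List α, dropR k l = l.drop k := by
  induction k with
  | zero => intro l; rfl
  | succ k ih =>
    intro l
    cases l with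
    | nil => rfl
    | cons a l => rw [List.drop_succ_cons, ← ih]; rfl

lemma pkw_eq (K : ℕ) : ∀ l : List ℕ, pkw K l = ∑ v ∈ range l.length, l.getD v 0 * (2 ^ K) ^ v := by
  intro l
  induction l with
  | nil => rfl
  | cons a l ih =>
    have h : pkw K (a :: l) = a + 2 ^ K * pkw K l := rfl
    rw [h, ih, List.length_cons, Finset.sum_range_succ', Finset.mul_sum, add_comm]
    congr 1
    · apply Finset.sum_congr rfl
      intro k _
      rw [List.getD_cons_succ, pow_succ]
      ring
    · simp

lemma hd_succ (K : ℕ) (f : ℕ → ℕ) (J : ℕ) : hd K f (J + 1) = f J + 2 ^ K * hd K f J := rfl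

lemma hd_eq (K : ℕ) (f : ℕ → ℕ) : ∀ J, hd K f J = ∑ u ∈ range J, f (J - 1 - u) * (2 ^ K) ^ u := by
  intro J
  induction J with
  | zero => rfl
  | succ J ih =>
    rw [hd_succ, ih, Finset.sum_range_succ', Finset.mul_sum, add_comm]
    congr 1
    · apply Finset.sum_congr rfl
      intro k hk
      rw [mem_range] at hk
      rw [show J + 1 - 1 - (k + 1) = J - 1 - k by omega, pow_succ]
      ring
    · simp

lemma hd_congr (K : ℕ) {f g : ℕ → ℕ} : ∀ J, (∀ j < J, f j = g j) → hd K f J = hd K g J := by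
  intro J
  induction J with
  | zero => intro _; rfl
  | succ J ih =>
    intro h
    rw [hd_succ, hd_succ, h J (by omega), ih (fun j hj => h j (by omega))]

/-- geometric identity -/
lemma geoD (K : ℕ) (d : ℕ → ℕ) : ∀ J, (2 ^ K - 1) * hd K (fun j => ∑ k ∈ range (j + 1), d k) J +
    ∑ k ∈ range J, d k = 2 ^ K * hd K d J := by
  obtain ⟨b, hb⟩ : ∃ b, 2 ^ K = b + 1 := ⟨2 ^ K - 1, by have := Nat.one_le_two_pow (n := K); omega⟩
  intro J
  induction J with
  | zero => rfl
  | succ J ih =>
    rw [hd_succ, hd_succ, sum_range_succ d J, mul_add (2 ^ K) (d J)]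
    have h1 : 2 ^ K * (2 ^ K * hd K d J) = 2 ^ K * ((2 ^ K - 1) *
      hd K (fun j => ∑ k ∈ range (j + 1), d k) J + ∑ k ∈ range J, d k) := by rw [ih]
    rw [h1, hb, show b + 1 - 1 = b by omega]
    ring

lemma sum_lt {K n m i J : ℕ} (hK : n + m + 32 ≤ K) (hi : i < n) (hJ : J ≤ m) :
    ∑ k ∈ range J, D m n i k < 2 ^ K - 1 := by
  have h2 : (n + m).choose m < 2 ^ K - 1 := by
    have h3 : (n + m).choose m ≤ 2 ^ (n + m) := Nat.choose_le_two_pow _ _
    have h4 : 2 ^ (n + m) * 2 ^ 32 ≤ 2 ^ K := by
      rw [← pow_add]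
      exact Nat.pow_le_pow_right (by norm_num) hK
    have h5 : 0 < 2 ^ (n + m) := Nat.two_pow_pos _
    have h6 : (2 : ℕ) ^ 32 = 4294967296 := by norm_num
    rw [h6] at h4
    omega
  rcases Nat.eq_zero_or_pos J with h0 | h0
  · subst h0
    simp only [range_zero, sum_empty]
    omega
  · have := TT_le (n := n) (m := m) hi (show J - 1 ≤ m by omega)
    unfold TT at this
    rw [show J - 1 + 1 = J by omega] at this
    omega

lemma rowD_eq {K n m i J : ℕ} (hK : n + m + 32 ≤ K) (hi : i < n) (hJm : J ≤ m) :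
    rowD K J n m i = hd K (fun j => TT n m i j) J := by
  have h1 : hd K (dd K n m i) J = hd K (fun j => D m n i j) J :=
    hd_congr K J (fun j hj => dd_eq (by omega) hi (by omega))
  unfold rowD
  rw [h1]
  show (2 ^ K * hd K (fun j => D m n i j) J - (hd K (fun j => D m n i j) J) % (2 ^ K - 1)) /
    (2 ^ K - 1) = _
  have h2 := geoD K (fun j => D m n i j) J
  have h3 := sum_lt hK hi hJm
  have h4 : hd K (fun j => D m n i j) J % (2 ^ K - 1) = ∑ k ∈ range J, D m n i k := by
    have h5 : 2 ^ K * hd K (fun j => D m n i j) J % (2 ^ K - 1) = ∑ k ∈ range J, D m n i k := by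
      rw [← h2, Nat.mul_add_mod, Nat.mod_eq_of_lt h3]
    have h6 : 2 ^ K ≡ 1 [MOD (2 ^ K - 1)] :=
      ((Nat.modEq_iff_dvd' Nat.one_le_two_pow).2 dvd_rfl).symm
    have h7 := h6.mul_right (hd K (fun j => D m n i j) J)
    rw [one_mul] at h7
    rw [← h5]
    exact h7.symm
  rw [h4, ← h2, Nat.add_sub_cancel, Nat.mul_div_cancel_left _ (by omega)]
  rfl

lemma conv_dig2 {K : ℕ} (r y : ℕ → ℕ) (J L t M W : ℕ) (ht : t < J) (hL : L ≤ t + 1)
    (hr : ∀ u < J, r u ≤ M) (hy : ∑ v ∈ range L, y v ≤ W) (hMW : M * W < 2 ^ K) :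
    dig K ((∑ u ∈ range J, r u * (2 ^ K) ^ u) * (∑ v ∈ range L, y v * (2 ^ K) ^ v)) t =
      ∑ v ∈ range L, y v * r (t - v) := by
  rw [dig_eq, conv, dig_sum (Nat.two_pow_pos K) _ _ _ (by omega)]
  · apply Finset.sum_congr rfl
    intro k hk
    rw [mem_range] at hk
    rw [if_pos (by omega), mul_comm]
  · intro t _
    calc (∑ v ∈ range L, if v ≤ t ∧ t < v + J then r (t - v) * y v else 0) ≤
        ∑ v ∈ range L, M * y v := by
          apply Finset.sum_le_sum
          intro v _
          split_ifs with h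
          · exact Nat.mul_le_mul_right _ (hr _ (by omega))
          · exact Nat.zero_le _
      _ = M * ∑ v ∈ range L, y v := by rw [← Finset.mul_sum]
      _ ≤ M * W := Nat.mul_le_mul_left _ hy
      _ < _ := hMW

lemma cmb_cons (a : ℕ) (w : List ℕ) (r : ℕ) (rs : List ℕ) :
    cmb (a :: w) (r :: rs) = a * r + cmb w rs := rfl

lemma cmb_eq (R : ℕ → ℕ) (N : ℕ) : ∀ (w : List ℕ) (a : ℕ), a + w.length ≤ N →
    cmb w (((List.range N).map R).drop a) = levN w a R := by
  intro w
  induction w with
  | nil => intro a _; rfl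
  | cons b w ih =>
    intro a h
    rw [List.length_cons] at h
    have h1 : ((List.range N).map R).drop a = R a :: ((List.range N).map R).drop (a + 1) := by
      rw [List.drop_eq_getElem_cons (by simp; omega)]
      simp
    rw [h1, cmb_cons, ih (a + 1) (by omega)]
    rfl

lemma ilist_eq : ilist = List.range 60 := rfl

lemma levN_mono {φ ψ : ℕ → ℕ} : ∀ (w : List ℕ) (s : ℕ),
    (∀ i, s ≤ i → i < s + w.length → φ i ≤ ψ i) → levN w s φ ≤ levN w s ψ := by
  intro w
  induction w with
  | nil => intro s _; exact le_rfl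
  | cons a w ih =>
    intro s h
    rw [List.length_cons] at h
    rw [levN, levN]
    apply Nat.add_le_add
    · exact Nat.mul_le_mul_left _ (h s le_rfl (by omega))
    · exact ih (s + 1) (fun i h1 h2 => h i (by omega) (by omega))

lemma levN_const (c : ℕ) : ∀ (w : List ℕ) (s : ℕ), levN w s (fun _ => c) = w.sum * c := by
  intro w
  induction w with
  | nil => intro s; simp [levN]
  | cons a w ih =>
    intro s
    rw [levN, ih, List.sum_cons]
    ring

lemma levN_sum {ι : Type} (S : Finset ι) (f : ℕ → ι → ℕ) : ∀ (w : List ℕ) (s : ℕ),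
    levN w s (fun i => ∑ r ∈ S, f i r) = ∑ r ∈ S, levN w s (fun i => f i r) := by
  intro w
  induction w with
  | nil => intro s; simp [levN]
  | cons b w ih =>
    intro s
    simp only [levN]
    rw [ih, Finset.mul_sum, Finset.sum_add_distrib]

lemma levN_mul (c : ℕ) (φ : ℕ → ℕ) : ∀ (w : List ℕ) (s : ℕ),
    levN w s (fun i => φ i * c) = levN w s φ * c := by
  intro w
  induction w with
  | nil => intro s; simp [levN]
  | cons a w ih =>
    intro s
    rw [levN, ih, levN]
    ring

/-- value of an item -/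
lemma item_val {K J n m a b : ℕ} {w y : List ℕ} {dX dY : ℕ} (hK : n + m + 32 ≤ K) (hJ : J ≤ m)
    (ha : a + w.length ≤ n) (h60 : a + w.length ≤ 60) (hb : b + y.length ≤ J) (hy1 : 1 ≤ y.length)
    (hw : w.sum = dX) (hy : y.sum = dY) (hdX : dX < 65536) (hdY : dY < 65536) :
    dig K (cmb w ((mapR (rowD K J n m) ilist).drop a) * pkw K y) (J - 1 - b) =
      levN w a (fun i => levN y b (fun j => TT n m i j)) := by
  rw [mapR_eq, ilist_eq, cmb_eq _ 60 w a h60, pkw_eq]
  have h1 : levN w a (rowD K J n m) = ∑ u ∈ range J,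
      levN w a (fun i => TT n m i (J - 1 - u)) * (2 ^ K) ^ u := by
    rw [levN_congr (ψ := fun i => ∑ u ∈ range J, TT n m i (J - 1 - u) * (2 ^ K) ^ u) w a
      (fun i h1 h2 => by rw [rowD_eq hK (by omega) hJ, hd_eq]), levN_sum]
    apply Finset.sum_congr rfl
    intro u _
    rw [levN_mul]
  rw [h1]
  have hM : ∀ u < J, levN w a (fun i => TT n m i (J - 1 - u)) ≤ dX * (n + m).choose m := by
    intro u hu
    rw [← hw, ← levN_const ((n + m).choose m) w a]
    apply levN_mono
    intro i h2 h3
    exact TT_le (by omega) (by omega)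
  have hysum : ∑ v ∈ range y.length, y.getD v 0 ≤ dY := by
    rw [← hy]
    have := levN_range (fun _ => 1) y 0
    rw [levN_const] at this
    simp only [mul_one] at this
    exact this.symm.le
  have hMW : dX * (n + m).choose m * dY < 2 ^ K := by
    have h3 : (n + m).choose m ≤ 2 ^ (n + m) := Nat.choose_le_two_pow _ _
    have h4 : 2 ^ (n + m) * 2 ^ 32 ≤ 2 ^ K := by
      rw [← pow_add]
      exact Nat.pow_le_pow_right (by norm_num) hK
    have h6 : (2 : ℕ) ^ 32 = 4294967296 := by norm_num
    rw [h6] at h4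
    have h7 : dX * dY < 4294967296 := by
      calc dX * dY ≤ 65535 * 65535 := Nat.mul_le_mul (by omega) (by omega)
        _ < 4294967296 := by norm_num
    have h5 : 0 < 2 ^ (n + m) := Nat.two_pow_pos _
    calc dX * (n + m).choose m * dY = (n + m).choose m * (dX * dY) := by ring
      _ ≤ 2 ^ (n + m) * (dX * dY) := Nat.mul_le_mul_right _ h3
      _ < 2 ^ (n + m) * 4294967296 := Nat.mul_lt_mul_of_pos_left h7 h5
      _ ≤ _ := h4
  rw [conv_dig2 (fun u => levN w a (fun i => TT n m i (J - 1 - u))) (fun v => y.getD v 0)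
    J y.length (J - 1 - b) _ dY (by omega) (by omega) hM hysum hMW]
  have h8 : levN w a (fun i => levN y b (fun j => TT n m i j)) =
      ∑ v ∈ range y.length, y.getD v 0 * levN w a (fun i => TT n m i (b + v)) := by
    have h9 : (fun i => levN y b (fun j => TT n m i j)) = fun i => ∑ v ∈ range y.length,
        TT n m i (b + v) * y.getD v 0 := by
      funext i
      rw [levN_range]
      apply Finset.sum_congr rfl
      intro v _
      ring
    rw [h9, levN_sum]
    apply Finset.sum_congr rfl
    intro v _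
    rw [levN_mul]
    ring
  rw [h8]
  apply Finset.sum_congr rfl
  intro v hv
  rw [mem_range] at hv
  rw [show J - 1 - (J - 1 - b - v) = b + v by omega]

/-- some pair of elements of two blocks is balanced -/
def KR (n m a X b Y : ℕ) : Prop :=
  ∃ wt ∈ els X, ∃ wt' ∈ els Y,
    19 / 45 * ((den X : ℝ) * den Y) ≤ lev wt a (fun i => lev wt' b (fun j => FF n m i j)) ∧
    lev wt a (fun i => lev wt' b (fun j => FF n m i j)) ≤ 26 / 45 * ((den X : ℝ) * den Y)

lemma blT_eq : blT = (List.range 17).map (fun f => (f, sz f, den f, els f)) := by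
  decide +kernel

lemma nth_mem {α : Type} {d : α} {l : List α} {k : ℕ} : nth d l k = d ∨ nth d l k ∈ l := by
  rw [nth_eq]
  rcases Nat.lt_or_ge k l.length with h | h
  · right
    rw [List.getD_eq_getElem _ _ h]
    exact List.getElem_mem h
  · left
    rw [List.getD_eq_default _ _ h]

lemma itT_sound {K J n1 n2 m1 m2 a X z : ℕ} (hX : X < 17) (hK : n2 + m2 + 32 ≤ K) (hJ : J ≤ m1)
    (ha : a + sz X ≤ n1) (h60 : a + sz X ≤ 60)
    (h : itT K J (bin K (Nat.add n1 m2) m2) (bin K (Nat.add n2 m1) m1) (den X)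
      (mapR (fun w => (cmb w ((mapR (rowD K J n1 m2) ilist).drop a),
        cmb w ((mapR (rowD K J n2 m1) ilist).drop a))) (els X))
      (mapR (fun B => (B.2.1, B.2.2.1, mapR (pkw K) B.2.2.2)) blT) z = true)
    {n m : ℕ} (h1 : n1 ≤ n) (h2 : n ≤ n2) (h3 : m1 ≤ m) (h4 : m ≤ m2) :
    KR n m a X (z % 1024 / 17) (z % 1024 % 17) := by
  unfold itT at h
  beta_reduce at h
  have hY : z % 1024 % 17 < 17 := Nat.mod_lt _ (by norm_num)
  have hY' : Nat.mod (Nat.mod z 1024) 17 = z % 1024 % 17 := rfl
  have hb' : Nat.div (Nat.mod z 1024) 17 = z % 1024 / 17 := rfl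
  rw [hY', hb'] at h
  generalize hYe : z % 1024 % 17 = Y at *
  generalize hbe : z % 1024 / 17 = b at *
  have bX := basic (show X < 19 by omega)
  have bY := basic (show Y < 19 by omega)
  have hq : nth (0, 0, []) (mapR (fun B => (B.2.1, B.2.2.1, mapR (pkw K) B.2.2.2)) blT) Y =
      (sz Y, den Y, mapR (pkw K) (els Y)) := by
    rw [nth_eq, mapR_eq, blT_eq, List.map_map, List.getD_eq_getElem _ _ (by simpa using hY)]
    simp
  rw [hq] at h
  simp only at h
  have c1 : bin K (Nat.add n1 m2) m2 = (n1 + m2).choose m2 := bin_eq (by show n1 + m2 < K; omega)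
  have c2 : bin K (Nat.add n2 m1) m1 = (n2 + m1).choose m1 := bin_eq (by show n2 + m1 < K; omega)
  rw [c1, c2] at h
  have C1 : 0 < (n1 + m2).choose m2 := Nat.choose_pos (by omega)
  have C2 : 0 < (n2 + m1).choose m1 := Nat.choose_pos (by omega)
  have hdX := bX.den1
  have hdY := bY.den1
  generalize Nat.mod (Nat.shiftRight z 15) 32 = e at h
  generalize Nat.mod (Nat.shiftRight z 10) 32 = e' at h
  have dig0 : ∀ s, dig K 0 s = 0 := by intro s; rw [dig_eq]; simp
  rcases hcb : Nat.ble (Nat.add b (sz Y)) J with _ | _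
  · rw [hcb] at h; exact absurd h (by simp)
  rw [hcb] at h
  have hbJ : b + sz Y ≤ J := Nat.le_of_ble_eq_true hcb
  simp only [cond_true] at h
  have hcpos : 0 < 19 * (den X * den Y * (n1 + m2).choose m2) := by positivity
  rcases nth_mem (d := (0, 0)) (l := mapR (fun w => (cmb w ((mapR (rowD K J n1 m2) ilist).drop a),
        cmb w ((mapR (rowD K J n2 m1) ilist).drop a))) (els X)) (k := e) with hr | hr
  · exfalso
    rw [hr] at h
    have : Nat.ble (Nat.mul 19 (Nat.mul (Nat.mul (den X) (den Y)) ((n1 + m2).choose m2)))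
        (Nat.mul 45 (dig K (Nat.mul (0, 0).1 (nth 0 (mapR (pkw K) (els Y)) e'))
          (Nat.sub (Nat.sub J 1) b))) = false := by
      have e1 : Nat.mul (0, 0).1 (nth 0 (mapR (pkw K) (els Y)) e') = 0 := Nat.zero_mul _
      rw [e1, dig0]
      rw [Bool.eq_false_iff]
      intro hh
      have := Nat.le_of_ble_eq_true hh
      have e2 : Nat.mul 45 0 = 0 := rfl
      rw [e2] at this
      have e3 : Nat.mul 19 (Nat.mul (Nat.mul (den X) (den Y)) ((n1 + m2).choose m2)) =
        19 * (den X * den Y * (n1 + m2).choose m2) := rfl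
      omega
    rw [this] at h
    simp at h
  rw [mapR_eq, List.mem_map] at hr
  obtain ⟨w, hw, hrw⟩ := hr
  rw [← mapR_eq] at hrw
  rw [← hrw] at h
  rcases nth_mem (d := 0) (l := mapR (pkw K) (els Y)) (k := e') with hp | hp
  · exfalso
    rw [hp] at h
    simp only at h
    have : Nat.ble (Nat.mul 19 (Nat.mul (Nat.mul (den X) (den Y)) ((n1 + m2).choose m2)))
        (Nat.mul 45 (dig K (Nat.mul (cmb w ((mapR (rowD K J n1 m2) ilist).drop a)) 0)
          (Nat.sub (Nat.sub J 1) b))) = false := by
      have e1 : Nat.mul (cmb w ((mapR (rowD K J n1 m2) ilist).drop a)) 0 = 0 := Nat.mul_zero _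
      rw [e1, dig0]
      rw [Bool.eq_false_iff]
      intro hh
      have := Nat.le_of_ble_eq_true hh
      have e2 : Nat.mul 45 0 = 0 := rfl
      rw [e2] at this
      have e3 : Nat.mul 19 (Nat.mul (Nat.mul (den X) (den Y)) ((n1 + m2).choose m2)) =
        19 * (den X * den Y * (n1 + m2).choose m2) := rfl
      omega
    rw [this] at h
    simp at h
  rw [mapR_eq, List.mem_map] at hp
  obtain ⟨y, hy, hpy⟩ := hp
  rw [← mapR_eq] at hpy
  rw [← hpy] at h
  simp only at h
  have lw := bX.len w hw
  have ly := bY.len y hy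
  have sy1 := bY.sz1
  have v1 : dig K (Nat.mul (cmb w ((mapR (rowD K J n1 m2) ilist).drop a)) (pkw K y))
      (Nat.sub (Nat.sub J 1) b) = levN w a (fun i => levN y b (fun j => TT n1 m2 i j)) :=
    item_val (n := n1) (m := m2) (dX := den X) (dY := den Y) (by omega) (by omega) (by omega)
      (by omega) (by omega) (by omega) (bX.sum w hw) (bY.sum y hy) bX.denle bY.denle
  have v2 : dig K (Nat.mul (cmb w ((mapR (rowD K J n2 m1) ilist).drop a)) (pkw K y))
      (Nat.sub (Nat.sub J 1) b) = levN w a (fun i => levN y b (fun j => TT n2 m1 i j)) :=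
    item_val (n := n2) (m := m1) (dX := den X) (dY := den Y) (by omega) (by omega) (by omega)
      (by omega) (by omega) (by omega) (bX.sum w hw) (bY.sum y hy) bX.denle bY.denle
  rw [v1, v2] at h
  have h5 : 19 * (den X * den Y * (n1 + m2).choose m2) ≤
      45 * levN w a (fun i => levN y b (fun j => TT n1 m2 i j)) := by
    rcases hh : Nat.ble (Nat.mul 19 (Nat.mul (Nat.mul (den X) (den Y)) ((n1 + m2).choose m2)))
        (Nat.mul 45 (levN w a (fun i => levN y b (fun j => TT n1 m2 i j)))) with _ | _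
    · rw [hh] at h; simp at h
    · exact Nat.le_of_ble_eq_true hh
  have h6 : 45 * levN w a (fun i => levN y b (fun j => TT n2 m1 i j)) ≤
      26 * (den X * den Y * (n2 + m1).choose m1) := by
    rcases hh : Nat.ble (Nat.mul 19 (Nat.mul (Nat.mul (den X) (den Y)) ((n1 + m2).choose m2)))
        (Nat.mul 45 (levN w a (fun i => levN y b (fun j => TT n1 m2 i j)))) with _ | _
    · rw [hh] at h; simp at h
    · rw [hh] at h
      simp only [cond_true] at h
      exact Nat.le_of_ble_eq_true h
  have R1 : (0 : ℝ) < (n1 + m2).choose m2 := by exact_mod_cast C1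
  have R2 : (0 : ℝ) < (n2 + m1).choose m1 := by exact_mod_cast C2
  refine ⟨w, hw, y, hy, ?_, ?_⟩
  · have e1 := lev_FF (n := n1) (m := m2) (a := a) (b := b) (wt := w) (wt' := y) (by omega)
      (by omega)
    have e2 : lev w a (fun i => lev y b (fun j => FF n1 m2 i j)) ≤
        lev w a (fun i => lev y b (fun j => FF n m i j)) := by
      apply lev_mono
      intro i i1 i2
      apply lev_mono
      intro j j1 j2
      exact (FF_anti_right (by omega) (show j < m by omega) h4).trans
        (FF_mono_left (by omega) (by omega) h1)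
    refine le_trans ?_ e2
    rw [e1, le_div_iff₀ R1]
    have : (19 : ℝ) * (den X * den Y * (n1 + m2).choose m2) ≤
      45 * levN w a (fun i => levN y b (fun j => TT n1 m2 i j)) := by exact_mod_cast h5
    linarith
  · have e1 := lev_FF (n := n2) (m := m1) (a := a) (b := b) (wt := w) (wt' := y) (by omega)
      (by omega)
    have e2 : lev w a (fun i => lev y b (fun j => FF n m i j)) ≤
        lev w a (fun i => lev y b (fun j => FF n2 m1 i j)) := by
      apply lev_mono
      intro i i1 i2
      apply lev_mono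
      intro j j1 j2
      exact (FF_mono_left (show i < n by omega) (show j < m by omega) h2).trans
        (FF_anti_right (by omega) (show j < m1 by omega) h3)
    refine e2.trans ?_
    rw [e1, div_le_iff₀ R2]
    have : (45 : ℝ) * levN w a (fun i => levN y b (fun j => TT n2 m1 i j)) ≤
      26 * (den X * den Y * (n2 + m1).choose m1) := by exact_mod_cast h6
    linarith

end Pool.Agent.W5h8.SP
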