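import Mathlib
import Pool.Agent.W5h8.SPH

/-! Soundness of the search. -/

open Finset

namespace Pool.Agent.W5h8.SP

open Pool.Agent.H931R3.Bal

lemma cond_tt {a b : Bool} (h : cond a b false = true) : a = true ∧ b = true := by
  cases a <;> simp_all

lemma cellT_succ (f : ℕ → Bool) (k z : ℕ) : cellT f (k + 1) z =
    cond (Nat.ble 2 z) (cond (f z) (cellT f k (Nat.shiftRight z 20)) false) true := rfl

lemma mask_succ (k z : ℕ) : mask (k + 1) z = cond (Nat.ble 2 z)
    (Nat.lor (Nat.shiftLeft 1 (Nat.mod z 1024)) (mask k (Nat.shiftRight z 20))) 0 := rfl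

lemma testBit_one_shift {s t : ℕ} (h : (Nat.shiftLeft 1 s).testBit t = true) : t = s := by
  have h1 : Nat.shiftLeft 1 s = 2 ^ s := by
    show 1 <<< s = 2 ^ s
    rw [Nat.shiftLeft_eq, one_mul]
  rw [h1, Nat.testBit_two_pow] at h
  exact (of_decide_eq_true h).symm

lemma cell_sound (f : ℕ → Bool) : ∀ k z, cellT f k z = true → ∀ t, (mask k z).testBit t = true →
    ∃ z', f z' = true ∧ z' % 1024 = t := by
  intro k
  induction k with
  | zero =>
    intro z _ t ht
    have : mask 0 z = 0 := rfl
    rw [this] at ht
    simp at ht
  | succ k ih =>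
    intro z h t ht
    rw [cellT_succ] at h
    rw [mask_succ] at ht
    rcases hb : Nat.ble 2 z with _ | _
    · rw [hb] at ht
      simp at ht
    · rw [hb] at h ht
      simp only [cond_true] at h ht
      obtain ⟨h1, h2⟩ := cond_tt h
      have ht' : (Nat.shiftLeft 1 (Nat.mod z 1024) ||| mask k (Nat.shiftRight z 20)).testBit t =
        true := ht
      rw [Nat.testBit_or, Bool.or_eq_true] at ht'
      rcases ht' with h3 | h3
      · exact ⟨z, h1, (testBit_one_shift h3).symm⟩
      · exact ih _ h2 t h3

/-- list of blocks -/
abbrev BL := List (ℕ × ℕ × ℕ × List (List ℕ))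

lemma mask_small {k z : ℕ} (h : Nat.ble 2 z = false) : mask k z = 0 := by
  cases k with
  | zero => rfl
  | succ k => rw [mask_succ, h]; rfl

lemma rowT_sound {K J n1 CL CU a : ℕ} {PT : List (ℕ × ℕ × List ℕ)} {rL rU : List ℕ} :
    ∀ (bl : BL) (cs : List ℕ), rowT K J n1 CL CU a PT rL rU bl cs = true →
    ∀ (k : ℕ) (B : ℕ × ℕ × ℕ × List (List ℕ)), bl[k]? = some B → ∀ t,
      (mask 100 (cs.getD k 0)).testBit t = true → a + B.2.1 ≤ n1 ∧ ∃ z',
        itT K J CL CU B.2.2.1 (mapR (fun w => (cmb w rL, cmb w rU)) B.2.2.2) PT z' = true ∧
        z' % 1024 = t := by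
  intro bl
  induction bl with
  | nil => intro cs _ k B hB; simp at hB
  | cons B0 bl ih =>
    intro cs h k B hB t ht
    cases cs with
    | nil =>
      simp only [List.getD_nil] at ht
      rw [mask_small rfl] at ht
      simp at ht
    | cons z cs =>
      have h1 : rowT K J n1 CL CU a PT rL rU (B0 :: bl) (z :: cs) = cond (Nat.ble 2 z)
        (cond (Nat.ble (Nat.add a B0.2.1) n1)
          (cond (cellT (itT K J CL CU B0.2.2.1 (mapR (fun w => (cmb w rL, cmb w rU)) B0.2.2.2) PT)
            100 z) (rowT K J n1 CL CU a PT rL rU bl cs) false) false)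
        (rowT K J n1 CL CU a PT rL rU bl cs) := rfl
      rw [h1] at h
      cases k with
      | zero =>
        simp only [List.getElem?_cons_zero, Option.some.injEq] at hB
        subst hB
        simp only [List.getD_cons_zero] at ht
        rcases hb : Nat.ble 2 z with _ | _
        · rw [mask_small hb] at ht
          simp at ht
        · rw [hb] at h
          simp only [cond_true] at h
          obtain ⟨h2, h3⟩ := cond_tt h
          obtain ⟨h4, _⟩ := cond_tt h3
          exact ⟨Nat.le_of_ble_eq_true h2, cell_sound _ 100 z h4 t ht⟩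
      | succ k =>
        simp only [List.getElem?_cons_succ] at hB
        simp only [List.getD_cons_succ] at ht
        have h5 : rowT K J n1 CL CU a PT rL rU bl cs = true := by
          rcases hb : Nat.ble 2 z with _ | _
          · rw [hb] at h
            exact h
          · rw [hb] at h
            simp only [cond_true] at h
            obtain ⟨h2, h3⟩ := cond_tt h
            exact (cond_tt h3).2
        exact ih cs h5 k B hB t ht

lemma blT_get {X : ℕ} (hX : X < 17) : blT[X]? = some (X, sz X, den X, els X) := by
  rw [blT_eq, List.getElem?_map, List.getElem?_range hX]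
  rfl

/-- correctness of a table of masks -/
def TAok (n m la : ℕ) (TA : List (List ℕ)) : Prop :=
  ∀ k X t, X < 17 → (mask 100 ((TA.getD k []).getD X 0)).testBit t = true →
    KR n m (la + k) X (t / 17) (t % 17)

lemma tabT_sound {K J n1 n2 m1 m2 n m : ℕ} (hK : n2 + m2 + 32 ≤ K) (hJ : J ≤ m1)
    (h1 : n1 ≤ n) (h2 : n ≤ n2) (h3 : m1 ≤ m) (h4 : m ≤ m2) : ∀ (rows : List (List ℕ)) (a : ℕ),
    tabT K J (cond (Nat.ble n1 60) n1 60) (bin K (Nat.add n1 m2) m2) (bin K (Nat.add n2 m1) m1)
      (mapR (fun B => (B.2.1, B.2.2.1, mapR (pkw K) B.2.2.2)) blT) blT rows a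
      ((mapR (rowD K J n1 m2) ilist).drop a) ((mapR (rowD K J n2 m1) ilist).drop a) = true →
    TAok n m a rows := by
  intro rows
  induction rows with
  | nil =>
    intro a _ k X t _ ht
    simp only [List.getD_nil] at ht
    rw [mask_small rfl] at ht
    simp at ht
  | cons r rows ih =>
    intro a h k X t hX ht
    have h' : cond (rowT K J (cond (Nat.ble n1 60) n1 60) (bin K (Nat.add n1 m2) m2)
        (bin K (Nat.add n2 m1) m1) a
        (mapR (fun B => (B.2.1, B.2.2.1, mapR (pkw K) B.2.2.2)) blT)
        ((mapR (rowD K J n1 m2) ilist).drop a) ((mapR (rowD K J n2 m1) ilist).drop a) blT r)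
      (tabT K J (cond (Nat.ble n1 60) n1 60) (bin K (Nat.add n1 m2) m2) (bin K (Nat.add n2 m1) m1)
        (mapR (fun B => (B.2.1, B.2.2.1, mapR (pkw K) B.2.2.2)) blT) blT rows (Nat.succ a)
        (dropR 1 ((mapR (rowD K J n1 m2) ilist).drop a))
        (dropR 1 ((mapR (rowD K J n2 m1) ilist).drop a))) false = true := h
    obtain ⟨h5, h6⟩ := cond_tt h'
    cases k with
    | zero =>
      simp only [List.getD_cons_zero] at ht
      obtain ⟨h7, z', h8, h9⟩ := rowT_sound blT r h5 X _ (blT_get hX) t ht
      simp only at h7 h8
      have h10 : a + sz X ≤ n1 ∧ a + sz X ≤ 60 := by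
        rcases hb : Nat.ble n1 60 with _ | _
        · rw [hb] at h7
          simp only [cond_false] at h7
          have : ¬ n1 ≤ 60 := by
            intro hh
            have := Nat.ble_eq_true_of_le hh
            rw [hb] at this
            simp at this
          omega
        · rw [hb] at h7
          simp only [cond_true] at h7
          have := Nat.le_of_ble_eq_true hb
          omega
      have := itT_sound hX hK hJ h10.1 h10.2 h8 h1 h2 h3 h4
      rw [h9] at this
      exact this
    | succ k =>
      simp only [List.getD_cons_succ] at ht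
      rw [dropR_eq, dropR_eq, List.drop_drop, List.drop_drop] at h6
      have := ih (a + 1) h6 k X t hX ht
      rw [show a + 1 + k = a + (k + 1) by ring] at this
      exact this

lemma forA_sound {g : ℕ → ℕ → ℕ → Bool} : ∀ (bl : BL) (cs : List ℕ), forA g bl cs = true →
    ∀ (k : ℕ) (B : ℕ × ℕ × ℕ × List (List ℕ)), bl[k]? = some B →
      g B.1 B.2.1 (cs.getD k 0) = true := by
  intro bl
  induction bl with
  | nil => intro cs _ k B hB; simp at hB
  | cons B0 bl ih =>
    intro cs h k B hB
    cases cs with
    | nil =>
      have h1 : forA g (B0 :: bl) [] = cond (g B0.1 B0.2.1 0) (forA g bl []) false := rfl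
      rw [h1] at h
      obtain ⟨h2, h3⟩ := cond_tt h
      cases k with
      | zero =>
        simp only [List.getElem?_cons_zero, Option.some.injEq] at hB
        subst hB
        exact h2
      | succ k =>
        simp only [List.getElem?_cons_succ] at hB
        have := ih [] h3 k B hB
        simpa using this
    | cons z cs =>
      have h1 : forA g (B0 :: bl) (z :: cs) = cond (g B0.1 B0.2.1 z) (forA g bl cs) false := rfl
      rw [h1] at h
      obtain ⟨h2, h3⟩ := cond_tt h
      cases k with
      | zero =>
        simp only [List.getElem?_cons_zero, Option.some.injEq] at hB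
        subst hB
        exact h2
      | succ k =>
        simp only [List.getElem?_cons_succ] at hB
        exact ih cs h3 k B hB

lemma forB_sound {g : ℕ → ℕ → Bool} : ∀ (bl : BL), forB g bl = true →
    ∀ (k : ℕ) (B : ℕ × ℕ × ℕ × List (List ℕ)), bl[k]? = some B → g B.1 B.2.1 = true := by
  intro bl
  induction bl with
  | nil => intro _ k B hB; simp at hB
  | cons B0 bl ih =>
    intro h k B hB
    have h1 : forB g (B0 :: bl) = cond (g B0.1 B0.2.1) (forB g bl) false := rfl
    rw [h1] at h
    obtain ⟨h2, h3⟩ := cond_tt h
    cases k with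
    | zero =>
      simp only [List.getElem?_cons_zero, Option.some.injEq] at hB
      subst hB
      exact h2
    | succ k =>
      simp only [List.getElem?_cons_succ] at hB
      exact ih h3 k B hB

/-- the conclusion for words -/
def Con (n m la lb : ℕ) (LA LB : List (ℕ × ℕ)) (wa wb A B : List ℕ) : Prop :=
  (A.reverse ++ wa, B.reverse ++ wb) ∈ excR ∨
    ∃ p ∈ LA ++ pls la A, ∃ q ∈ LB ++ pls lb B, KR n m p.1 p.2 q.1 q.2

lemma lenW_pos {A : List ℕ} (h : ∀ f ∈ A, f < 17) (hA : A ≠ []) : 1 ≤ lenW A := by
  cases A with
  | nil => exact absurd rfl hA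
  | cons f A =>
    have := (basic (show f < 19 by have := h f (by simp); omega)).sz1
    rw [lenW]
    omega

lemma head_eq (TA : List (List ℕ)) :
    @List.rec (List ℕ) (fun _ => List ℕ) [] (fun r _ _ => r) TA = TA.getD 0 [] := by
  cases TA <;> simp

/-- step on the first side -/
noncomputable def stA (n1 n2 m1 m2 p q fuel : ℕ) (TA : List (List ℕ)) (la lb UA SB : ℕ)
    (wa wb : List ℕ) : Bool :=
  forA (fun f s z => cond (Nat.ble (Nat.succ n2) (Nat.add la s)) true
    (cond (Nat.beq (Nat.land (mask 100 z) SB) 0)
      (dfs n1 n2 m1 m2 p q blT fuel (dropR s TA) (Nat.add la s) lb (Nat.lor UA (mask 100 z)) SB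
        (f :: wa) wb)
      true)) blT (@List.rec (List ℕ) (fun _ => List ℕ) [] (fun r _ _ => r) TA)

/-- step on the second side -/
noncomputable def stB (n1 n2 m1 m2 p q fuel : ℕ) (TA : List (List ℕ)) (la lb UA SB : ℕ)
    (wa wb : List ℕ) : Bool :=
  forB (fun f s => cond (Nat.ble (Nat.succ m2) (Nat.add lb s)) true
    (cond (Nat.testBit UA (Nat.add (Nat.mul 17 lb) f)) true
      (dfs n1 n2 m1 m2 p q blT fuel TA la (Nat.add lb s) UA
        (Nat.lor SB (Nat.shiftLeft 1 (Nat.add (Nat.mul 17 lb) f))) wa (f :: wb)))) blT

lemma dfs_succ (n1 n2 m1 m2 p q fuel : ℕ) (TA : List (List ℕ)) (la lb UA SB : ℕ)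
    (wa wb : List ℕ) : dfs n1 n2 m1 m2 p q blT (fuel + 1) TA la lb UA SB wa wb =
    cond (Nat.ble n1 la)
        (cond (Nat.ble m1 lb) (leaf n1 n2 m1 m2 la lb wa wb)
          (stB n1 n2 m1 m2 p q fuel TA la lb UA SB wa wb))
        (cond (cond (Nat.ble m1 lb) true (Nat.ble (Nat.mul la p) (Nat.mul lb q)))
          (stA n1 n2 m1 m2 p q fuel TA la lb UA SB wa wb)
          (stB n1 n2 m1 m2 p q fuel TA la lb UA SB wa wb)) := rfl

lemma ble_false {a b : ℕ} (h : ¬ a ≤ b) : Nat.ble a b = false := by
  rcases hb : Nat.ble a b with _ | _
  · rfl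
  · exact absurd (Nat.le_of_ble_eq_true hb) h

lemma dfs_sound {n1 n2 m1 m2 p q n m : ℕ} (h1 : n1 ≤ n) (h2 : n ≤ n2) (h3 : m1 ≤ m) (h4 : m ≤ m2) :
    ∀ (fuel : ℕ) (TA : List (List ℕ)) (la lb UA SB : ℕ) (wa wb : List ℕ) (LA LB : List (ℕ × ℕ)),
    TAok n m la TA →
    (∀ t, UA.testBit t = true → ∃ p ∈ LA, KR n m p.1 p.2 (t / 17) (t % 17)) →
    (∀ t, SB.testBit t = true → (t / 17, t % 17) ∈ LB) →
    dfs n1 n2 m1 m2 p q blT fuel TA la lb UA SB wa wb = true →
    ∀ A B : List ℕ, (∀ f ∈ A, f < 17) → (∀ f ∈ B, f < 17) → la + lenW A = n → lb + lenW B = m →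
      Con n m la lb LA LB wa wb A B := by
  intro fuel
  induction fuel with
  | zero => intro TA la lb UA SB wa wb LA LB _ _ _ h; exact absurd h (by simp [dfs])
  | succ fuel ih =>
    intro TA la lb UA SB wa wb LA LB hT hU hS h A B hA hB hla hlb
    -- the two steps
    have stepA : la < n1 → stA n1 n2 m1 m2 p q fuel TA la lb UA SB wa wb = true →
        Con n m la lb LA LB wa wb A B := by
      intro hlt hst
      cases A with
      | nil => simp only [lenW] at hla; omega
      | cons f A =>
        have hf : f < 17 := hA f (by simp)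
        unfold stA at hst
        have h5 := forA_sound blT _ hst f _ (blT_get hf)
        simp only at h5
        rw [lenW] at hla
        rw [ble_false (show ¬ Nat.succ n2 ≤ Nat.add la (sz f) by
          show ¬ n2 + 1 ≤ la + sz f
          omega)] at h5
        simp only [cond_false] at h5
        rw [head_eq] at h5
        rcases hb : Nat.beq (Nat.land (mask 100 ((TA.getD 0 []).getD f 0)) SB) 0 with _ | _
        · -- killed
          have h6 : (mask 100 ((TA.getD 0 []).getD f 0)) &&& SB ≠ 0 := by
            intro h7
            have h8 : Nat.beq (Nat.land (mask 100 ((TA.getD 0 []).getD f 0)) SB) 0 = true := by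
              have h9 : Nat.land (mask 100 ((TA.getD 0 []).getD f 0)) SB = 0 := h7
              rw [h9]
              rfl
            rw [hb] at h8
            simp at h8
          obtain ⟨t, ht⟩ := Nat.exists_testBit_of_ne_zero h6
          rw [Nat.testBit_and, Bool.and_eq_true] at ht
          right
          refine ⟨(la, f), ?_, (t / 17, t % 17), ?_, ?_⟩
          · rw [List.mem_append, pls]
            right
            simp
          · rw [List.mem_append]
            left
            exact hS t ht.2
          · exact hT 0 f t hf ht.1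
        · rw [hb] at h5
          simp only [cond_true] at h5
          have h6 := ih (dropR (sz f) TA) (la + sz f) lb _ SB (f :: wa) wb (LA ++ [(la, f)]) LB
            (by
              intro k X t hX ht
              rw [dropR_eq] at ht
              have h7 : (List.drop (sz f) TA).getD k [] = TA.getD (sz f + k) [] := by
                simp [List.getD_eq_getElem?_getD, List.getElem?_drop]
              rw [h7] at ht
              have := hT (sz f + k) X t hX ht
              rw [show la + sz f + k = la + (sz f + k) by ring]
              exact this)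
            (by
              intro t ht
              have ht' : (UA ||| mask 100 ((TA.getD 0 []).getD f 0)).testBit t = true := ht
              rw [Nat.testBit_or, Bool.or_eq_true] at ht'
              rcases ht' with h8 | h8
              · obtain ⟨p, hp, hk⟩ := hU t h8
                exact ⟨p, by simp [hp], hk⟩
              · exact ⟨(la, f), by simp, hT 0 f t hf h8⟩)
            hS h5 A B (fun g hg => hA g (by simp [hg])) hB (by omega) hlb
          rcases h6 with h6 | ⟨p, hp, q, hq, hk⟩
          · left
            simpa [List.reverse_cons, List.append_assoc] using h6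
          · right
            refine ⟨p, ?_, q, hq, hk⟩
            rw [pls]
            simp only [List.mem_append, List.mem_cons, List.not_mem_nil, or_false] at hp ⊢
            tauto
    have stepB : lb < m → stB n1 n2 m1 m2 p q fuel TA la lb UA SB wa wb = true →
        Con n m la lb LA LB wa wb A B := by
      intro hlt hst
      cases B with
      | nil => simp only [lenW] at hlb; omega
      | cons f B =>
        have hf : f < 17 := hB f (by simp)
        unfold stB at hst
        have h5 := forB_sound blT hst f _ (blT_get hf)
        simp only at h5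
        rw [lenW] at hlb
        rw [ble_false (show ¬ Nat.succ m2 ≤ Nat.add lb (sz f) by
          show ¬ m2 + 1 ≤ lb + sz f
          omega)] at h5
        simp only [cond_false] at h5
        have e1 : (17 * lb + f) / 17 = lb := by omega
        have e2 : (17 * lb + f) % 17 = f := by omega
        rcases hb : Nat.testBit UA (Nat.add (Nat.mul 17 lb) f) with _ | _
        · rw [hb] at h5
          simp only [cond_false] at h5
          have h6 := ih TA la (lb + sz f) UA _ wa (f :: wb) LA (LB ++ [(lb, f)]) hT hU
            (by
              intro t ht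
              have ht' : (SB ||| Nat.shiftLeft 1 (Nat.add (Nat.mul 17 lb) f)).testBit t = true :=
                ht
              rw [Nat.testBit_or, Bool.or_eq_true] at ht'
              rcases ht' with h8 | h8
              · have := hS t h8
                simp [this]
              · have h9 := testBit_one_shift h8
                have h10 : Nat.add (Nat.mul 17 lb) f = 17 * lb + f := rfl
                rw [h9, h10, e1, e2]
                simp)
            h5 A B hA (fun g hg => hB g (by simp [hg])) hla (by omega)
          rcases h6 with h6 | ⟨p, hp, q, hq, hk⟩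
          · left
            simpa [List.reverse_cons, List.append_assoc] using h6
          · right
            refine ⟨p, hp, q, ?_, hk⟩
            rw [pls]
            simp only [List.mem_append, List.mem_cons, List.not_mem_nil, or_false] at hq ⊢
            tauto
        · obtain ⟨p, hp, hk⟩ := hU _ hb
          have h10 : Nat.add (Nat.mul 17 lb) f = 17 * lb + f := rfl
          rw [h10, e1, e2] at hk
          right
          refine ⟨p, by simp [hp], (lb, f), ?_, hk⟩
          rw [List.mem_append, pls]
          right
          simp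
    rw [dfs_succ] at h
    rcases hb1 : Nat.ble n1 la with _ | _
    · have hlt : la < n1 := by
        by_contra hc
        have := Nat.ble_eq_true_of_le (not_lt.1 hc)
        rw [hb1] at this
        simp at this
      rw [hb1] at h
      simp only [cond_false] at h
      rcases hb2 : Nat.ble m1 lb with _ | _
      · have hlt2 : lb < m1 := by
          by_contra hc
          have := Nat.ble_eq_true_of_le (not_lt.1 hc)
          rw [hb2] at this
          simp at this
        rw [hb2] at h
        simp only [cond_false] at h
        rcases hb3 : Nat.ble (Nat.mul la p) (Nat.mul lb q) with _ | _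
        · rw [hb3] at h
          exact stepB (by omega) h
        · rw [hb3] at h
          exact stepA hlt h
      · rw [hb2] at h
        simp only [cond_true] at h
        exact stepA hlt h
    · have hge := Nat.le_of_ble_eq_true hb1
      rw [hb1] at h
      simp only [cond_true] at h
      rcases hb2 : Nat.ble m1 lb with _ | _
      · have hlt2 : lb < m1 := by
          by_contra hc
          have := Nat.ble_eq_true_of_le (not_lt.1 hc)
          rw [hb2] at this
          simp at this
        rw [hb2] at h
        simp only [cond_false] at h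
        exact stepB (by omega) h
      · rw [hb2] at h
        simp only [cond_true] at h
        unfold leaf at h
        simp only [Bool.and_eq_true, decide_eq_true_eq] at h
        obtain ⟨g1, g2, g3, g4, g5⟩ := h
        have g1' := Nat.eq_of_beq_eq_true g1
        have g2' := Nat.eq_of_beq_eq_true g2
        have g3' := Nat.eq_of_beq_eq_true g3
        have g4' := Nat.eq_of_beq_eq_true g4
        have hA0 : A = [] := by
          by_contra hc
          have := lenW_pos hA hc
          omega
        have hB0 : B = [] := by
          by_contra hc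
          have := lenW_pos hB hc
          omega
        subst hA0 hB0
        left
        simpa using g5

/-- conclusion for a pair of words -/
def Con0 (n m : ℕ) (A B : List ℕ) : Prop :=
  (A.reverse, B.reverse) ∈ excR ∨ ∃ p ∈ pls 0 A, ∃ q ∈ pls 0 B, KR n m p.1 p.2 q.1 q.2

lemma chkR_sound {R : Rect} (h : chkR R = true) {n m : ℕ} (h1 : R.n1 ≤ n) (h2 : n ≤ R.n2)
    (h3 : R.m1 ≤ m) (h4 : m ≤ R.m2) {A B : List ℕ} (hA : ∀ f ∈ A, f < 17) (hB : ∀ f ∈ B, f < 17)
    (hla : lenW A = n) (hlb : lenW B = m) : Con0 n m A B := by
  obtain ⟨n1, n2, m1, m2, p, q, K, J, fuel, rows⟩ := R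
  simp only at h1 h2 h3 h4
  have h' : cond (Nat.ble (Nat.add (Nat.add n2 m2) 32) K)
      (cond (Nat.ble J m1)
        (cond (tabT K J (cond (Nat.ble n1 60) n1 60) (bin K (Nat.add n1 m2) m2)
          (bin K (Nat.add n2 m1) m1)
          (mapR (fun B => (B.2.1, B.2.2.1, mapR (pkw K) B.2.2.2)) blT) blT rows 0
          (mapR (rowD K J n1 m2) ilist) (mapR (rowD K J n2 m1) ilist))
          (dfs n1 n2 m1 m2 p q blT fuel rows 0 0 0 0 [] []) false) false) false = true := h
  obtain ⟨g1, g2⟩ := cond_tt h'
  obtain ⟨g3, g4⟩ := cond_tt g2
  obtain ⟨g5, g6⟩ := cond_tt g4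
  have k1 : n2 + m2 + 32 ≤ K := Nat.le_of_ble_eq_true g1
  have k2 := Nat.le_of_ble_eq_true g3
  have k3 := tabT_sound k1 k2 h1 h2 h3 h4 rows 0 (by simpa using g5)
  have k4 := dfs_sound h1 h2 h3 h4 fuel rows 0 0 0 0 [] [] [] [] k3 (by simp) (by simp) g6 A B hA hB
    (by omega) (by omega)
  rcases k4 with k4 | ⟨p, hp, q, hq, hk⟩
  · left
    simpa using k4
  · right
    exact ⟨p, by simpa using hp, q, by simpa using hq, hk⟩

lemma chkL_cons (R : Rect) (l : List Rect) : chkL (R :: l) = cond (chkR R) (chkL l) false := rfl

lemma chkL_sound {l : List Rect} (h : chkL l = true) : ∀ R ∈ l, chkR R = true := by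
  induction l with
  | nil => simp
  | cons R l ih =>
    rw [chkL_cons] at h
    obtain ⟨h1, h2⟩ := cond_tt h
    intro S hS
    rw [List.mem_cons] at hS
    rcases hS with rfl | hS
    · exact h1
    · exact ih h2 S hS

end Pool.Agent.W5h8.SP
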