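import Mathlib
import Pool.Agent.W5h8.SPI

/-! Large words: no jump over the window. -/

open Finset

namespace Pool.Agent.W5h8.SP

open Pool.Agent.H931R3.Bal

/-- one-sided transport distance -/
def w1N : ℕ → ℕ → List ℕ → List ℕ → ℕ
  | p, q, a :: x, b :: y => (p + a - (q + b)) + w1N (p + a) (q + b) x y
  | _, _, _, _ => 0

lemma w1_le {G : ℕ → ℝ} {δ : ℝ} : ∀ (x y : List ℕ) (p q a : ℕ), x.length = y.length →
    (∀ i, a ≤ i → i < a + x.length → 0 ≤ G i - G (i + 1) ∧ G i - G (i + 1) ≤ δ) →
    ((p : ℝ) - q) * G a + lev x a G - lev y a G ≤ δ * w1N p q x y +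
      ((p : ℝ) + x.sum - (q + y.sum)) * G (a + x.length) := by
  intro x
  induction x with
  | nil =>
    intro y p q a hl _
    cases y with
    | nil => simp [lev, w1N]
    | cons b y => simp at hl
  | cons u x ih =>
    intro y p q a hl hG
    cases y with
    | nil => simp at hl
    | cons v y =>
      rw [List.length_cons] at hG
      rw [List.length_cons, List.length_cons] at hl
      have h1 := ih y (p + u) (q + v) (a + 1) (by omega) (fun i h1 h2 => hG i (by omega) (by omega))
      obtain ⟨g1, g2⟩ := hG a le_rfl (by omega)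
      simp only [lev, w1N, List.sum_cons, List.length_cons]
      rw [show a + (x.length + 1) = a + 1 + x.length by ring]
      have h2 : ((p + u : ℕ) - (q + v : ℕ) : ℝ) * (G a - G (a + 1)) ≤
          δ * ((p + u - (q + v) : ℕ) : ℝ) := by
        rcases Nat.le_total (q + v) (p + u) with h | h
        · rw [Nat.cast_sub h, mul_comm δ]
          apply mul_le_mul_of_nonneg_left g2
          have : ((q + v : ℕ) : ℝ) ≤ ((p + u : ℕ) : ℝ) := by exact_mod_cast h
          linarith
        · rw [Nat.sub_eq_zero_of_le h]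
          have : ((p + u : ℕ) : ℝ) ≤ ((q + v : ℕ) : ℝ) := by exact_mod_cast h
          have : ((p + u : ℕ) - (q + v : ℕ) : ℝ) * (G a - G (a + 1)) ≤ 0 :=
            mul_nonpos_of_nonpos_of_nonneg (by linarith) g1
          simpa using this
      push_cast at h1 h2 ⊢
      nlinarith

lemma w1_le' {G : ℕ → ℝ} {δ : ℝ} {x y : List ℕ} {a : ℕ} (hl : x.length = y.length)
    (hs : x.sum = y.sum)
    (hG : ∀ i, a ≤ i → i < a + x.length → 0 ≤ G i - G (i + 1) ∧ G i - G (i + 1) ≤ δ) :
    lev x a G - lev y a G ≤ δ * w1N 0 0 x y := by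
  have := w1_le x y 0 0 a hl hG
  rw [hs] at this
  simpa using this

/-- consecutive elements are close -/
def chainB (d : ℕ) : List ℕ → List (List ℕ) → Bool
  | _, [] => true
  | x, y :: L => decide (5 * w1N 0 0 x y ≤ 13 * d) && chainB d y L

/-- left point mass -/
def ptL (d : ℕ) : ℕ → List ℕ
  | 0 => []
  | k + 1 => d :: List.replicate k 0

/-- right point mass -/
def ptR (d : ℕ) : ℕ → List ℕ
  | 0 => []
  | k + 1 => List.replicate k 0 ++ [d]

/-- data check for the no-jump lemma -/
noncomputable def njB (f : ℕ) : Bool :=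
  match els f with
  | [] => false
  | x :: L => decide (5 * w1N 0 0 (ptL (den f) (sz f)) x ≤ 4 * den f) && chainB (den f) x L &&
    decide (5 * w1N 0 0 ((x :: L).getLastD []) (ptR (den f) (sz f)) ≤ 4 * den f)

lemma njB_true : ∀ f < 17, njB f = true := by decide +kernel

lemma lev_zeros (G : ℕ → ℝ) : ∀ (k a : ℕ), lev (List.replicate k 0) a G = 0 := by
  intro k
  induction k with
  | zero => intro a; rfl
  | succ k ih =>
    intro a
    rw [List.replicate_succ, lev, ih]
    simp

lemma lev_ptL (G : ℕ → ℝ) (d a : ℕ) : ∀ k, 1 ≤ k → lev (ptL d k) a G = d * G a := by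
  intro k hk
  cases k with
  | zero => omega
  | succ k => rw [ptL, lev, lev_zeros, add_zero]

lemma lev_append (G : ℕ → ℝ) (y : List ℕ) : ∀ (x : List ℕ) (a : ℕ),
    lev (x ++ y) a G = lev x a G + lev y (a + x.length) G := by
  intro x
  induction x with
  | nil => intro a; simp [lev]
  | cons u x ih =>
    intro a
    rw [List.cons_append, lev, ih, lev, List.length_cons,
      show a + 1 + x.length = a + (x.length + 1) by ring]
    ring

lemma lev_ptR (G : ℕ → ℝ) (d a : ℕ) : ∀ k, 1 ≤ k → lev (ptR d k) a G = d * G (a + k - 1) := by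
  intro k hk
  cases k with
  | zero => omega
  | succ k =>
    rw [ptR, lev_append, lev_zeros, List.length_replicate, lev, lev,
      show a + (k + 1) - 1 = a + k by omega]
    ring

lemma ptL_len (d k : ℕ) : (ptL d k).length = k := by
  cases k <;> simp [ptL]

lemma ptR_len (d k : ℕ) : (ptR d k).length = k := by
  cases k <;> simp [ptR]

lemma ptL_sum (d k : ℕ) (hk : 1 ≤ k) : (ptL d k).sum = d := by
  cases k with
  | zero => omega
  | succ k => simp [ptL]

lemma ptR_sum (d k : ℕ) (hk : 1 ≤ k) : (ptR d k).sum = d := by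
  cases k with
  | zero => omega
  | succ k => simp [ptR]

/-- walking along the elements of a block -/
lemma chain_walk {G : ℕ → ℝ} {d N a : ℕ} (hd : 1 ≤ d)
    (hG : ∀ i, a ≤ i → i < a + N → 0 ≤ G i - G (i + 1) ∧ G i - G (i + 1) ≤ 1 / 17) :
    ∀ (L : List (List ℕ)) (x : List ℕ), chainB d x L = true →
    (∀ y ∈ x :: L, y.length = N ∧ y.sum = d) → 19 / 45 * d ≤ lev x a G →
    (∃ y ∈ x :: L, 19 / 45 * (d : ℝ) ≤ lev y a G ∧ lev y a G ≤ 26 / 45 * d) ∨
      (∀ y ∈ x :: L, 26 / 45 * (d : ℝ) < lev y a G) := by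
  intro L
  induction L with
  | nil =>
    intro x _ _ hx
    rcases le_or_gt (lev x a G) (26 / 45 * d) with h | h
    · exact Or.inl ⟨x, by simp, hx, h⟩
    · right
      intro y hy
      rw [List.mem_singleton] at hy
      rw [hy]
      exact h
  | cons y L ih =>
    intro x hc hall hx
    rcases le_or_gt (lev x a G) (26 / 45 * d) with h | h
    · exact Or.inl ⟨x, by simp, hx, h⟩
    · rw [chainB, Bool.and_eq_true, decide_eq_true_eq] at hc
      obtain ⟨c1, c2⟩ := hc
      obtain ⟨l1, s1⟩ := hall x (by simp)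
      obtain ⟨l2, s2⟩ := hall y (by simp)
      have h1 := w1_le' (G := G) (δ := 1 / 17) (x := x) (y := y) (a := a) (by rw [l1, l2])
        (by rw [s1, s2]) (by rw [l1]; exact hG)
      have h2 : (5 : ℝ) * w1N 0 0 x y ≤ 13 * d := by exact_mod_cast c1
      have hd' : (1 : ℝ) ≤ d := by exact_mod_cast hd
      rcases ih y c2 (fun z hz => hall z (by simp at hz ⊢; tauto)) (by linarith) with h3 | h3
      · obtain ⟨z, hz, hz2⟩ := h3
        exact Or.inl ⟨z, by simp at hz ⊢; tauto, hz2⟩
      · right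
        intro z hz
        rw [List.mem_cons] at hz
        rcases hz with rfl | hz
        · exact h
        · exact h3 z hz

/-- no jump over the window -/
lemma no_jump {G : ℕ → ℝ} {n : ℕ} (hn : G (n + 1) = 0)
    (hG : ∀ i ≤ n, 0 ≤ G i - G (i + 1) ∧ G i - G (i + 1) ≤ 1 / 17) : ∀ (A : List ℕ) (s : ℕ),
    (∀ f ∈ A, f < 17) → s + lenW A = n → 26 / 45 - 4 / 85 < G s →
    ∃ p ∈ pls s A, ∃ x ∈ els p.2, 19 / 45 * (den p.2 : ℝ) ≤ lev x p.1 (fun i => G (i + 1)) ∧
      lev x p.1 (fun i => G (i + 1)) ≤ 26 / 45 * den p.2 := by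
  intro A
  induction A with
  | nil =>
    intro s _ hs h
    simp only [lenW, add_zero] at hs
    subst hs
    have := (hG s le_rfl).2
    rw [hn] at this
    exfalso
    linarith
  | cons f A ih =>
    intro s hA hs h
    have hf : f < 17 := hA f (by simp)
    have bf := basic (show f < 19 by omega)
    rw [lenW] at hs
    have hG' : ∀ i, s ≤ i → i < s + sz f → 0 ≤ (fun i => G (i + 1)) i - (fun i => G (i + 1)) (i + 1)
        ∧ (fun i => G (i + 1)) i - (fun i => G (i + 1)) (i + 1) ≤ 1 / 17 := by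
      intro i h1 h2
      exact hG (i + 1) (by omega)
    have hnj := njB_true f hf
    unfold njB at hnj
    have hne := bf.ne
    rcases hE : els f with _ | ⟨x, L⟩
    · rw [hE] at hne
      simp at hne
    rw [hE] at hnj
    simp only [Bool.and_eq_true, decide_eq_true_eq] at hnj
    obtain ⟨⟨c1, c2⟩, c3⟩ := hnj
    have hall : ∀ y ∈ x :: L, y.length = sz f ∧ y.sum = den f := by
      intro y hy
      rw [← hE] at hy
      exact ⟨bf.len y hy, bf.sum y hy⟩
    have hd' : (1 : ℝ) ≤ den f := by exact_mod_cast bf.den1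
    obtain ⟨lx, sx⟩ := hall x (by simp)
    have h1 := w1_le' (G := fun i => G (i + 1)) (δ := 1 / 17) (x := ptL (den f) (sz f)) (y := x)
      (a := s) (by rw [ptL_len, lx]) (by rw [ptL_sum _ _ bf.sz1, sx])
      (by rw [ptL_len]; exact hG')
    rw [lev_ptL _ _ _ _ bf.sz1] at h1
    have h2 : (5 : ℝ) * w1N 0 0 (ptL (den f) (sz f)) x ≤ 4 * den f := by exact_mod_cast c1
    have h3 := (hG s (by omega)).2
    have h4 : 19 / 45 * (den f : ℝ) ≤ lev x s (fun i => G (i + 1)) := by
      have h5 : (26 / 45 - 4 / 85 - 1 / 17) * (den f : ℝ) ≤ den f * G (s + 1) := by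
        rw [mul_comm]
        apply mul_le_mul_of_nonneg_left _ (by linarith)
        linarith
      linarith
    rcases chain_walk bf.den1 hG' L x c2 hall h4 with h5 | h5
    · obtain ⟨y, hy, hy2⟩ := h5
      exact ⟨(s, f), by rw [pls]; simp, y, by rw [hE]; exact hy, hy2⟩
    · have hlast : (x :: L).getLastD [] ∈ x :: L := by
        rw [List.getLastD_eq_getLast?]
        rw [List.getLast?_eq_getLast_of_ne_nil (by simp)]
        simp only [Option.getD_some]
        exact List.getLast_mem _
      obtain ⟨ll, sl⟩ := hall _ hlast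
      have h6 := h5 _ hlast
      have h7 := w1_le' (G := fun i => G (i + 1)) (δ := 1 / 17) (x := (x :: L).getLastD [])
        (y := ptR (den f) (sz f)) (a := s) (by rw [ptR_len, ll]) (by rw [ptR_sum _ _ bf.sz1, sl])
        (by rw [ll]; exact hG')
      rw [lev_ptR _ _ _ _ bf.sz1] at h7
      have h8 : (5 : ℝ) * w1N 0 0 ((x :: L).getLastD []) (ptR (den f) (sz f)) ≤ 4 * den f := by
        exact_mod_cast c3
      have h9 : 26 / 45 - 4 / 85 < G (s + sz f) := by
        have e : s + sz f - 1 + 1 = s + sz f := by have := bf.sz1; omega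
        simp only [e] at h7
        have h10 : (26 / 45 - 4 / 85) * (den f : ℝ) < G (s + sz f) * den f := by linarith
        exact lt_of_mul_lt_mul_right h10 (by linarith)
      obtain ⟨p, hp, y, hy, hy2⟩ := ih (s + sz f) (fun g hg => hA g (by simp [hg])) (by omega) h9
      exact ⟨p, by rw [pls]; simp [hp], y, hy, hy2⟩

/-- bound for the point probabilities -/
def SNc (n m j : ℕ) (c : ℝ) : Prop := ∀ i ≤ n, (D n m j i : ℝ) ≤ c * (n + m).choose m

/-- the rank `r` is good -/
def SupOK (n m r : ℕ) : Prop := r < m ∧ ∀ g < 17, ∀ s, s ≤ r → r < s + sz g → s + sz g ≤ m →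
  ∃ y ∈ els g, ∃ c : ℕ → ℝ, (∀ j, s ≤ j → j < s + sz g → SNc n m j (c j)) ∧
    17 * lev y s c ≤ den g

lemma coverW : ∀ (B : List ℕ) (s0 r : ℕ), s0 ≤ r → r < s0 + lenW B →
    ∃ q ∈ pls s0 B, q.1 ≤ r ∧ r < q.1 + sz q.2 := by
  intro B
  induction B with
  | nil => intro s0 r h1 h2; simp [lenW] at h2; omega
  | cons f B ih =>
    intro s0 r h1 h2
    rw [lenW] at h2
    rw [pls]
    by_cases h : r < s0 + sz f
    · exact ⟨(s0, f), by simp, h1, h⟩
    · obtain ⟨q, hq, h3⟩ := ih (s0 + sz f) r (by omega) (by omega)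
      exact ⟨q, by simp [hq], h3⟩

lemma sup_case {n m r : ℕ} (h : SupOK n m r) {A B : List ℕ} (hA : ∀ f ∈ A, f < 17)
    (hB : ∀ f ∈ B, f < 17) (hla : lenW A = n) (hlb : lenW B = m) : Con0 n m A B := by
  obtain ⟨hr, h⟩ := h
  obtain ⟨q, hq, h1, h2⟩ := coverW B 0 r (by omega) (by omega)
  obtain ⟨q1, q2, q3⟩ := pls_le hq
  have hg : q.2 < 17 := hB _ q3
  obtain ⟨y, hy, c, hc, hl⟩ := h q.2 hg q.1 h1 h2 (by omega)
  have bg := basic (show q.2 < 19 by omega)
  have hd' : (0 : ℝ) < den q.2 := by exact_mod_cast bg.den1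
  have hT : (0 : ℝ) < (n + m).choose m := by
    exact_mod_cast Nat.choose_pos (show m ≤ n + m by omega)
  have ly := bg.len y hy
  set G : ℕ → ℝ := fun i => lev y q.1 (fun j => (Kf n m j i : ℝ)) /
    (den q.2 * (n + m).choose m) with hGdef
  have hstep : ∀ i ≤ n, G i - G (i + 1) = lev y q.1 (fun j => (D n m j i : ℝ)) /
      (den q.2 * (n + m).choose m) := by
    intro i hi
    simp only [hGdef]
    rw [← sub_div, ← lev_sub]
    congr 1
    apply lev_congr
    intro j j1 j2
    rw [Kf_step (show j < m by omega) hi]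
    push_cast
    ring
  have hG : ∀ i ≤ n, 0 ≤ G i - G (i + 1) ∧ G i - G (i + 1) ≤ 1 / 17 := by
    intro i hi
    rw [hstep i hi]
    constructor
    · apply div_nonneg
      · rw [lev_cast]
        positivity
      · positivity
    · rw [div_le_iff₀ (by positivity)]
      have h3 : lev y q.1 (fun j => (D n m j i : ℝ)) ≤
          lev y q.1 (fun j => (n + m).choose m * c j) := by
        apply lev_mono
        intro j j1 j2
        have := hc j j1 (by omega) i hi
        linarith
      rw [lev_mul] at h3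
      have h4 : ((n + m).choose m : ℝ) * (17 * lev y q.1 c) ≤ (n + m).choose m * den q.2 :=
        mul_le_mul_of_nonneg_left hl hT.le
      linarith
  have hn : G (n + 1) = 0 := by
    simp only [hGdef]
    rw [lev_congr (ψ := fun _ => 0) y q.1 (fun j j1 j2 => by
      rw [Kf_end (show j < m by omega)]; simp), lev_const]
    simp
  have h0 : G 0 = 1 := by
    simp only [hGdef]
    rw [lev_congr (ψ := fun _ => ((n + m).choose m : ℝ)) y q.1 (fun j j1 j2 => by
      rw [Kf_zero (show j < m by omega)]), lev_const, bg.sum y hy, div_self (by positivity)]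
  obtain ⟨p, hp, x, hx, x1, x2⟩ := no_jump hn hG A 0 hA (by omega) (by rw [h0]; norm_num)
  right
  refine ⟨p, hp, q, hq, x, hx, y, hy, ?_⟩
  obtain ⟨p1, p2, p3⟩ := pls_le hp
  have bp := basic (show p.2 < 19 by have := hA _ p3; omega)
  have lx := bp.len x hx
  have e : lev x p.1 (fun i => lev y q.1 (fun j => FF n m i j)) =
      den q.2 * lev x p.1 (fun i => G (i + 1)) := by
    rw [← lev_mul]
    apply lev_congr
    intro i i1 i2
    simp only [hGdef]
    rw [show (den q.2 : ℝ) * (lev y q.1 (fun j => (Kf n m j (i + 1) : ℝ)) /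
      (den q.2 * (n + m).choose m)) = lev y q.1 (fun j => (Kf n m j (i + 1) : ℝ)) /
        (n + m).choose m by field_simp, ← lev_div]
    apply lev_congr
    intro j j1 j2
    exact FF_eq_Kf (by omega) (by omega)
  rw [e]
  constructor
  · have := mul_le_mul_of_nonneg_left x1 hd'.le
    linarith
  · have := mul_le_mul_of_nonneg_left x2 hd'.le
    linarith

end Pool.Agent.W5h8.SP
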