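import Mathlib
import Pool.Agent.W5h8.SPJ

/-! Large words: bounds for the point probabilities. -/

open Finset

namespace Pool.Agent.W5h8.SP

open Pool.Agent.H931R3.Bal

lemma SNc_succ {n m j : ℕ} {c : ℝ} (hj : j < m) (h : SNc n m j c) : SNc (n + 1) m j c := by
  intro i hi
  obtain ⟨b, rfl⟩ : ∃ b, m = j + 1 + b := ⟨m - (j + 1), by omega⟩
  have hc : 0 ≤ c := by
    have h0 := h 0 (by omega)
    have h1 : (0 : ℝ) ≤ D n (j + 1 + b) j 0 := Nat.cast_nonneg _
    have h2 : (0 : ℝ) < (n + (j + 1 + b)).choose (j + 1 + b) := by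
      exact_mod_cast Nat.choose_pos (show j + 1 + b ≤ n + (j + 1 + b) by omega)
    by_contra hneg
    have := mul_neg_of_neg_of_pos (not_le.1 hneg) h2
    linarith
  have hT := choose_succ_left n (j + 1 + b)
  -- the recursion
  have key : (n + 1) * D (n + 1) (j + 1 + b) j i ≤
      (if i ≤ n then D n (j + 1 + b) j i * (n - i + b + 1) else 0) +
      (if 1 ≤ i then D n (j + 1 + b) j (i - 1) * (i + j) else 0) := by
    unfold D
    rw [show j + 1 + b - 1 - j = b by omega]
    have A : i ≤ n → (n + 1 - i + b).choose b * (n + 1 - i) =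
        (n - i + b).choose b * (n - i + b + 1) := by
      intro h1
      have := Nat.choose_mul_succ_eq (n - i + b) b
      rw [show n - i + b + 1 - b = n + 1 - i by omega] at this
      rw [show n + 1 - i + b = n - i + b + 1 by omega]
      exact this.symm
    have B : 1 ≤ i → (i + j).choose j * i = (i - 1 + j).choose j * (i + j) := by
      intro h1
      have := Nat.choose_mul_succ_eq (i - 1 + j) j
      rw [show i - 1 + j + 1 - j = i by omega, show i - 1 + j + 1 = i + j by omega] at this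
      exact this.symm
    have e3 : (n + 1) = (n + 1 - i) + i := by omega
    have lhs : (n + 1) * ((i + j).choose j * (n + 1 - i + b).choose b) =
        (i + j).choose j * ((n + 1 - i + b).choose b * (n + 1 - i)) +
        ((i + j).choose j * i) * (n + 1 - i + b).choose b := by
      nth_rw 1 [e3]
      ring
    rw [lhs]
    apply Nat.add_le_add
    · split_ifs with h1
      · rw [A h1]
        exact le_of_eq (by ring)
      · have : n + 1 - i = 0 := by omega
        rw [this]
        simp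
    · split_ifs with h1
      · rw [B h1]
        rw [show n - (i - 1) + b = n + 1 - i + b by omega]
        exact le_of_eq (by ring)
      · have : i = 0 := by omega
        rw [this]
        simp
  set T : ℝ := (((n + (j + 1 + b)).choose (j + 1 + b) : ℕ) : ℝ) with hTdef
  have hT0 : 0 ≤ T := Nat.cast_nonneg _
  have hcT : 0 ≤ c * T := mul_nonneg hc hT0
  have hb1 : (((if i ≤ n then D n (j + 1 + b) j i * (n - i + b + 1) else 0) : ℕ) : ℝ) ≤
      c * T * ((n + 1 - i + b : ℕ) : ℝ) := by
    split_ifs with h1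
    · have h2 := h i h1
      rw [show n + 1 - i + b = n - i + b + 1 by omega]
      push_cast
      exact mul_le_mul_of_nonneg_right h2 (by positivity)
    · push_cast
      positivity
  have hb2 : (((if 1 ≤ i then D n (j + 1 + b) j (i - 1) * (i + j) else 0) : ℕ) : ℝ) ≤
      c * T * ((i + j : ℕ) : ℝ) := by
    split_ifs with h1
    · have h2 := h (i - 1) (by omega)
      push_cast
      exact mul_le_mul_of_nonneg_right h2 (by positivity)
    · push_cast
      positivity
  have key' : ((n + 1 : ℕ) : ℝ) * D (n + 1) (j + 1 + b) j i ≤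
      (((if i ≤ n then D n (j + 1 + b) j i * (n - i + b + 1) else 0) : ℕ) : ℝ) +
      (((if 1 ≤ i then D n (j + 1 + b) j (i - 1) * (i + j) else 0) : ℕ) : ℝ) := by
    exact_mod_cast key
  have hsum : ((n + 1 - i + b : ℕ) : ℝ) + ((i + j : ℕ) : ℝ) ≤ ((n + 1 + (j + 1 + b) : ℕ) : ℝ) := by
    have : (n + 1 - i + b) + (i + j) ≤ n + 1 + (j + 1 + b) := by omega
    exact_mod_cast this
  have hT' : ((n + 1 + (j + 1 + b)).choose (j + 1 + b) : ℝ) * ((n + 1 : ℕ) : ℝ) =
      T * ((n + 1 + (j + 1 + b) : ℕ) : ℝ) := by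
    rw [hTdef]
    exact_mod_cast hT
  have h3 : ((n + 1 : ℕ) : ℝ) * D (n + 1) (j + 1 + b) j i ≤
      ((n + 1 : ℕ) : ℝ) * (c * (n + 1 + (j + 1 + b)).choose (j + 1 + b)) := by
    calc ((n + 1 : ℕ) : ℝ) * D (n + 1) (j + 1 + b) j i ≤ c * T * ((n + 1 - i + b : ℕ) : ℝ) +
          c * T * ((i + j : ℕ) : ℝ) := by linarith
      _ = c * T * (((n + 1 - i + b : ℕ) : ℝ) + ((i + j : ℕ) : ℝ)) := by ring
      _ ≤ c * T * ((n + 1 + (j + 1 + b) : ℕ) : ℝ) := mul_le_mul_of_nonneg_left hsum hcT
      _ = c * (T * ((n + 1 + (j + 1 + b) : ℕ) : ℝ)) := by ring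
      _ = _ := by rw [← hT']; ring
  exact le_of_mul_le_mul_left h3 (by positivity)

lemma SNc_mono {n n' m j : ℕ} {c : ℝ} (hj : j < m) (hn : n ≤ n') (h : SNc n m j c) :
    SNc n' m j c := by
  induction n', hn using Nat.le_induction with
  | base => exact h
  | succ k _ ih => exact SNc_succ hj ih

lemma SupOK_mono {n n' m r : ℕ} (hn : n ≤ n') (h : SupOK n m r) : SupOK n' m r := by
  obtain ⟨hr, h⟩ := h
  refine ⟨hr, fun g hg s h1 h2 h3 => ?_⟩
  obtain ⟨y, hy, c, hc, hl⟩ := h g hg s h1 h2 h3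
  exact ⟨y, hy, c, fun j j1 j2 => SNc_mono (by omega) hn (hc j j1 j2), hl⟩

/-! ### the mode -/

lemma D_rec {n m j i b : ℕ} (hi : i < n) (hb : m - 1 - j = b) :
    D n m j (i + 1) * ((i + 1) * (n - i + b)) = D n m j i * ((i + 1 + j) * (n - i)) := by
  unfold D
  rw [hb]
  have h1 := Nat.choose_mul_succ_eq (i + j) j
  rw [show i + j + 1 - j = i + 1 by omega] at h1
  have h2 := Nat.choose_mul_succ_eq (n - (i + 1) + b) b
  rw [show n - (i + 1) + b + 1 - b = n - i by omega,
    show n - (i + 1) + b + 1 = n - i + b by omega] at h2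
  rw [show i + 1 + j = i + j + 1 by ring]
  calc (i + j + 1).choose j * (n - (i + 1) + b).choose b * ((i + 1) * (n - i + b)) =
      ((i + j + 1).choose j * (i + 1)) * ((n - (i + 1) + b).choose b * (n - i + b)) := by ring
    _ = ((i + j).choose j * (i + j + 1)) * ((n - i + b).choose b * (n - i)) := by rw [h1, h2]
    _ = _ := by ring

lemma D_dn {n m j i b : ℕ} (hi : i < n) (hb : m - 1 - j = b) (h : j * (n - i) ≤ (i + 1) * b) :
    D n m j (i + 1) ≤ D n m j i := by
  have h1 := D_rec hi hb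
  have hpos : 0 < (i + 1) * (n - i + b) := Nat.mul_pos (by omega) (by omega)
  have h2 : (i + 1 + j) * (n - i) ≤ (i + 1) * (n - i + b) := by
    have e1 : (i + 1 + j) * (n - i) = (i + 1) * (n - i) + j * (n - i) := by ring
    have e2 : (i + 1) * (n - i + b) = (i + 1) * (n - i) + (i + 1) * b := by ring
    omega
  have h4 : D n m j (i + 1) * ((i + 1) * (n - i + b)) ≤ D n m j i * ((i + 1) * (n - i + b)) := by
    rw [h1]
    exact Nat.mul_le_mul_left _ h2
  exact Nat.le_of_mul_le_mul_right h4 hpos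

lemma D_upp {n m j i b : ℕ} (hi : i < n) (hb : m - 1 - j = b) (h : (i + 1) * b ≤ j * (n - i)) :
    D n m j i ≤ D n m j (i + 1) := by
  have h1 := D_rec hi hb
  have hpos : 0 < (i + 1 + j) * (n - i) := Nat.mul_pos (by omega) (by omega)
  have h2 : (i + 1) * (n - i + b) ≤ (i + 1 + j) * (n - i) := by
    have e1 : (i + 1 + j) * (n - i) = (i + 1) * (n - i) + j * (n - i) := by ring
    have e2 : (i + 1) * (n - i + b) = (i + 1) * (n - i) + (i + 1) * b := by ring
    omega
  have h4 : D n m j i * ((i + 1 + j) * (n - i)) ≤ D n m j (i + 1) * ((i + 1 + j) * (n - i)) := by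
    rw [← h1]
    exact Nat.mul_le_mul_left _ h2
  exact Nat.le_of_mul_le_mul_right h4 hpos

lemma D_max {n m j i0 b : ℕ} (hb : m - 1 - j = b) (h1 : j * (n - i0) ≤ (i0 + 1) * b)
    (h2 : i0 = 0 ∨ i0 * b ≤ j * (n - (i0 - 1))) (h0 : i0 ≤ n) : ∀ i ≤ n, D n m j i ≤ D n m j i0 := by
  intro i hi
  rcases le_total i0 i with h | h
  · induction i, h using Nat.le_induction with
    | base => exact le_rfl
    | succ k hk ih =>
      refine (D_dn (by omega) hb ?_).trans (ih (by omega))
      calc j * (n - k) ≤ j * (n - i0) := Nat.mul_le_mul_left _ (by omega)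
        _ ≤ (i0 + 1) * b := h1
        _ ≤ (k + 1) * b := Nat.mul_le_mul_right _ (by omega)
  · obtain ⟨c, hc⟩ : ∃ c, i0 = i + c := ⟨i0 - i, by omega⟩
    induction c generalizing i with
    | zero => rw [add_zero] at hc; rw [hc]
    | succ c ih =>
      refine (D_upp (by omega) hb ?_).trans (ih (i + 1) (by omega) (by omega) (by omega))
      rcases h2 with h2 | h2
      · omega
      · calc (i + 1) * b ≤ i0 * b := Nat.mul_le_mul_right _ (by omega)
          _ ≤ j * (n - (i0 - 1)) := h2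
          _ ≤ j * (n - i) := Nat.mul_le_mul_left _ (by omega)

/-- the mode -/
def mo (n m j : ℕ) : ℕ := (j * n - (m - 1 - j) + (m - 2)) / (m - 1)

/-- check of the mode -/
def moB (n m j : ℕ) : Bool :=
  decide (j * (n - mo n m j) ≤ (mo n m j + 1) * (m - 1 - j)) &&
  decide (mo n m j = 0 ∨ mo n m j * (m - 1 - j) ≤ j * (n - (mo n m j - 1))) &&
  decide (mo n m j ≤ n)

/-- fast maximum -/
noncomputable def Dx (n m j : ℕ) : ℕ :=
  bin 256 (mo n m j + j) j * bin 256 (n - mo n m j + (m - 1 - j)) (m - 1 - j)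

lemma Dx_eq {n m j : ℕ} (h : n + m < 256) (hj : j < m) (hm : mo n m j ≤ n) :
    Dx n m j = D n m j (mo n m j) := by
  unfold Dx D
  rw [bin_eq (by omega), bin_eq (by omega)]

/-- indices -/
def jlist : List ℕ := [nat_lit 0, nat_lit 1, nat_lit 2, nat_lit 3, nat_lit 4, nat_lit 5, nat_lit 6, nat_lit 7, nat_lit 8, nat_lit 9, nat_lit 10, nat_lit 11, nat_lit 12, nat_lit 13, nat_lit 14, nat_lit 15, nat_lit 16, nat_lit 17, nat_lit 18, nat_lit 19, nat_lit 20, nat_lit 21, nat_lit 22, nat_lit 23, nat_lit 24, nat_lit 25, nat_lit 26, nat_lit 27, nat_lit 28, nat_lit 29, nat_lit 30, nat_lit 31, nat_lit 32, nat_lit 33, nat_lit 34, nat_lit 35, nat_lit 36, nat_lit 37, nat_lit 38, nat_lit 39, nat_lit 40, nat_lit 41, nat_lit 42, nat_lit 43, nat_lit 44, nat_lit 45, nat_lit 46, nat_lit 47, nat_lit 48, nat_lit 49, nat_lit 50, nat_lit 51, nat_lit 52, nat_lit 53, nat_lit 54, nat_lit 55, nat_lit 56, nat_lit 57, nat_lit 58, nat_lit 59, nat_lit 60, nat_lit 61, nat_lit 62, nat_lit 63, nat_lit 64,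 nat_lit 65, nat_lit 66, nat_lit 67, nat_lit 68, nat_lit 69, nat_lit 70, nat_lit 71, nat_lit 72, nat_lit 73, nat_lit 74, nat_lit 75, nat_lit 76, nat_lit 77, nat_lit 78, nat_lit 79, nat_lit 80, nat_lit 81, nat_lit 82, nat_lit 83, nat_lit 84, nat_lit 85, nat_lit 86, nat_lit 87, nat_lit 88, nat_lit 89, nat_lit 90, nat_lit 91, nat_lit 92, nat_lit 93, nat_lit 94, nat_lit 95, nat_lit 96, nat_lit 97, nat_lit 98, nat_lit 99, nat_lit 100, nat_lit 101, nat_lit 102, nat_lit 103, nat_lit 104, nat_lit 105, nat_lit 106]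

lemma jlist_eq : jlist = List.range 107 := rfl

/-- sizes from which on the point probabilities are small -/
def N0T : List ℕ := [nat_lit 0, nat_lit 16, nat_lit 32, nat_lit 40, nat_lit 28, nat_lit 32, nat_lit 35, nat_lit 38, nat_lit 40, nat_lit 41, nat_lit 43, nat_lit 43, nat_lit 45, nat_lit 45, nat_lit 47, nat_lit 48, nat_lit 49, nat_lit 50, nat_lit 51, nat_lit 52, nat_lit 53, nat_lit 54, nat_lit 55, nat_lit 56, nat_lit 57, nat_lit 58, nat_lit 59, nat_lit 59, nat_lit 60, nat_lit 61, nat_lit 62, nat_lit 63, nat_lit 63, nat_lit 64, nat_lit 65, nat_lit 65, nat_lit 66, nat_lit 67, nat_lit 68, nat_lit 68, nat_lit 69, nat_lit 69, nat_lit 70, nat_lit 71, nat_lit 71, nat_lit 72, nat_lit 72, nat_lit 73, nat_lit 74, nat_lit 74, nat_lit 75, nat_lit 75, nat_lit 76, nat_lit 76, nat_lit 77, nat_lit 77, nat_lit 78, nat_lit 78, nat_lit 79, nat_lit 79, nat_lit 80, nat_lit 80, nat_lit 81, nat_lit 81, nat_lit 82, nat_lit 82, nat_lit 82, nat_lit 83, nat_lit 83, nat_lit 84, nat_lit 84, nat_lit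 85, nat_lit 85, nat_lit 85, nat_lit 86, nat_lit 86, nat_lit 87, nat_lit 87, nat_lit 87, nat_lit 88, nat_lit 88, nat_lit 89, nat_lit 89, nat_lit 89, nat_lit 90, nat_lit 90, nat_lit 90, nat_lit 91, nat_lit 91, nat_lit 91, nat_lit 92, nat_lit 92, nat_lit 92, nat_lit 93, nat_lit 94, nat_lit 95, nat_lit 96, nat_lit 97, nat_lit 98, nat_lit 99, nat_lit 100, nat_lit 101, nat_lit 102, nat_lit 103, nat_lit 104, nat_lit 105, nat_lit 106]

/-- good ranks -/
def R0T : List ℕ := [nat_lit 0, nat_lit 0, nat_lit 0, nat_lit 1, nat_lit 1, nat_lit 2, nat_lit 2, nat_lit 3, nat_lit 3, nat_lit 3, nat_lit 4, nat_lit 5, nat_lit 5, nat_lit 6, nat_lit 6, nat_lit 6, nat_lit 7, nat_lit 8, nat_lit 8, nat_lit 9, nat_lit 9, nat_lit 10, nat_lit 10, nat_lit 10, nat_lit 11, nat_lit 11, nat_lit 11, nat_lit 13, nat_lit 13, nat_lit 13, nat_lit 13, nat_lit 14, nat_lit 15, nat_lit 15, nat_lit 15, nat_lit 17, nat_lit 17, nat_lit 17, nat_lit 17, nat_lit 18, nat_lit 18, nat_lit 20, nat_lit 19, nat_lit 19, nat_lit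 21, nat_lit 20, nat_lit 22, nat_lit 22, nat_lit 21, nat_lit 23, nat_lit 22, nat_lit 24, nat_lit 23, nat_lit 25, nat_lit 24, nat_lit 26, nat_lit 25, nat_lit 27, nat_lit 26, nat_lit 28, nat_lit 27, nat_lit 29, nat_lit 28, nat_lit 29, nat_lit 28, nat_lit 30, nat_lit 32, nat_lit 31, nat_lit 32, nat_lit 31, nat_lit 33, nat_lit 31, nat_lit 33, nat_lit 35, nat_lit 34, nat_lit 35, nat_lit 34, nat_lit 36, nat_lit 37, nat_lit 35, nat_lit 38, nat_lit 36, nat_lit 37, nat_lit 39, nat_lit 38, nat_lit 39, nat_lit 41, nat_lit 39, nat_lit 41, nat_lit 42, nat_lit 40, nat_lit 42, nat_lit 43, nat_lit 41, nat_lit 40, nat_lit 39, nat_lit 39, nat_lit 38, nat_lit 37, nat_lit 37, nat_lit 37, nat_lit 36, nat_lit 36, nat_lit 35, nat_lit 35, nat_lit 35, nat_lit 35]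

/-- size from which on the point probabilities are small -/
noncomputable def N0 (m : ℕ) : ℕ := nth 0 N0T m

/-- good rank -/
noncomputable def R0 (m : ℕ) : ℕ := nth 0 R0T m

lemma sz_le : ∀ g < 17, sz g ≤ 17 := by decide +kernel

/-- all placements of a block that cover the rank `r` -/
noncomputable def plB (n m r C : ℕ) (DL : List ℕ) (g : ℕ) : Bool :=
  (List.range 17).all fun k => Nat.ble (sz g) k || (Nat.ble (r + 1) k ||
    (Nat.ble (m + 1) (r - k + sz g) ||
      (els g).any fun y => Nat.ble (17 * cmb y (dropR (r - k) DL)) (den g * C)))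

/-- check of one size -/
noncomputable def szB (m : ℕ) : Bool :=
  decide (N0 m + m < 256) && decide (R0 m < m) && decide (m ≤ 107) &&
  ((List.range m).all fun j => moB (N0 m) m j) &&
  (List.range 17).all fun g => plB (N0 m) m (R0 m) (bin 256 (N0 m + m) m)
    (mapR (Dx (N0 m) m) jlist) g

set_option maxRecDepth 100000 in
lemma szB_true1 : ∀ m < 60, 1 ≤ m → szB m = true := by decide +kernel

set_option maxRecDepth 100000 in
lemma szB_true2 : ∀ k < 47, szB (60 + k) = true := by decide +kernel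

lemma szB_true {m : ℕ} (h : m < 107) (h1 : 1 ≤ m) : szB m = true := by
  rcases Nat.lt_or_ge m 60 with h2 | h2
  · exact szB_true1 m h2 h1
  · have := szB_true2 (m - 60) (by omega)
    rwa [show 60 + (m - 60) = m by omega] at this

lemma SupOK_fin {m : ℕ} (h : m < 107) (h1 : 1 ≤ m) : SupOK (N0 m) m (R0 m) := by
  have hs := szB_true h h1
  unfold szB at hs
  simp only [Bool.and_eq_true, decide_eq_true_eq, List.all_eq_true] at hs
  obtain ⟨⟨⟨⟨s1, s2⟩, s3⟩, s4⟩, s5⟩ := hs
  refine ⟨s2, fun g hg s g1 g2 g3 => ?_⟩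
  have h2 := s5 g (List.mem_range.2 hg)
  unfold plB at h2
  rw [List.all_eq_true] at h2
  have hsz := sz_le g hg
  have h3 := h2 (R0 m - s) (List.mem_range.2 (by omega))
  rw [Bool.or_eq_true, Bool.or_eq_true, Bool.or_eq_true] at h3
  rcases h3 with h3 | h3 | h3 | h3
  · have := Nat.le_of_ble_eq_true h3
    omega
  · have := Nat.le_of_ble_eq_true h3
    omega
  · have := Nat.le_of_ble_eq_true h3
    omega
  rw [List.any_eq_true] at h3
  obtain ⟨y, hy, h4⟩ := h3
  have h5 := Nat.le_of_ble_eq_true h4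
  rw [show R0 m - (R0 m - s) = s by omega] at h5
  have bg := basic (show g < 19 by omega)
  have ly := bg.len y hy
  rw [dropR_eq, mapR_eq, jlist_eq, cmb_eq _ 107 y s (by omega), bin_eq s1] at h5
  have hT : (0 : ℝ) < (N0 m + m).choose m := by
    exact_mod_cast Nat.choose_pos (show m ≤ N0 m + m by omega)
  refine ⟨y, hy, fun j => (Dx (N0 m) m j : ℝ) / (N0 m + m).choose m, ?_, ?_⟩
  · intro j j1 j2 i hi
    have hj : j < m := by omega
    have h6 := s4 j (List.mem_range.2 hj)
    unfold moB at h6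
    simp only [Bool.and_eq_true, decide_eq_true_eq] at h6
    obtain ⟨⟨m1, m2⟩, m3⟩ := h6
    rw [div_mul_cancel₀ _ hT.ne', Dx_eq s1 hj m3]
    exact_mod_cast D_max rfl m1 m2 m3 i hi
  · rw [lev_div, lev_cast, ← mul_div_assoc, div_le_iff₀ hT]
    exact_mod_cast h5

/-! ### the diagonal -/

lemma cb_mono {A B a N : ℕ} (ha : a ≤ N) (h : A * (N - a).centralBinom ≤ B * N.centralBinom) :
    A * (N + 1 - a).centralBinom ≤ B * (N + 1).centralBinom := by
  obtain ⟨M, rfl⟩ : ∃ M, N = a + M := ⟨N - a, by omega⟩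
  rw [show a + M + 1 - a = M + 1 by omega]
  rw [show a + M - a = M by omega] at h
  have h1 := Nat.succ_mul_centralBinom_succ M
  have h2 := Nat.succ_mul_centralBinom_succ (a + M)
  have h3 : (M + 1) * (a + M + 1) * (A * (M + 1).centralBinom) ≤
      (M + 1) * (a + M + 1) * (B * (a + M + 1).centralBinom) := by
    calc (M + 1) * (a + M + 1) * (A * (M + 1).centralBinom) =
        A * (a + M + 1) * ((M + 1) * (M + 1).centralBinom) := by ring
      _ = (A * M.centralBinom) * (2 * (2 * M + 1) * (a + M + 1)) := by rw [h1]; ring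
      _ ≤ (B * (a + M).centralBinom) * (2 * (2 * M + 1) * (a + M + 1)) :=
          Nat.mul_le_mul_right _ h
      _ ≤ (B * (a + M).centralBinom) * (2 * ((2 * (a + M) + 1) * (M + 1))) := by
          apply Nat.mul_le_mul_left
          nlinarith
      _ = B * (M + 1) * (2 * (2 * (a + M) + 1) * (a + M).centralBinom) := by ring
      _ = _ := by rw [← h2]; ring
  exact Nat.le_of_mul_le_mul_left h3 (by positivity)

/-- weight of the diagonal bound -/
noncomputable def Dg (j : ℕ) : ℕ := bin 256 (2 * j) j * bin 256 (2 * (107 - j)) (107 - j)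

/-- diagonal check -/
noncomputable def dgB : Bool := (List.range 17).all fun g => (List.range 35).all fun s =>
  decide (s + sz g ≤ 34) || (els g).any fun y =>
    Nat.ble (17 * cmb y (dropR s (mapR Dg jlist))) (2 * (den g * bin 256 (2 * 107) 107))

set_option maxRecDepth 100000 in
lemma dgB_true : dgB = true := by decide +kernel

lemma SupOK_diag {N : ℕ} (hN : 107 ≤ N) : SupOK N N 34 := by
  refine ⟨by omega, fun g hg s g1 g2 g3 => ?_⟩
  have h := dgB_true
  unfold dgB at h
  simp only [List.all_eq_true] at h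
  have h3 := h g (List.mem_range.2 hg) s (List.mem_range.2 (by omega))
  rw [Bool.or_eq_true, decide_eq_true_eq] at h3
  rcases h3 with h3 | h3
  · omega
  rw [List.any_eq_true] at h3
  obtain ⟨y, hy, h4⟩ := h3
  have h5 := Nat.le_of_ble_eq_true h4
  have bg := basic (show g < 19 by omega)
  have ly := bg.len y hy
  have hsz := sz_le g hg
  rw [dropR_eq, mapR_eq, jlist_eq, cmb_eq _ 107 y s (by omega), bin_eq (by norm_num)] at h5
  rw [← Nat.centralBinom_eq_two_mul_choose 107] at h5
  have hpos := Nat.centralBinom_pos 107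
  generalize hCC : (107 : ℕ).centralBinom = CC at h5 hpos
  have hT : (0 : ℝ) < CC := by exact_mod_cast hpos
  refine ⟨y, hy, fun j => (Dg j : ℝ) / (2 * CC), ?_, ?_⟩
  · intro j j1 j2 i hi
    have hj : 2 * j + 1 ≤ N := by omega
    have hDg : Dg j = (2 * j).choose j * (107 - j).centralBinom := by
      unfold Dg
      rw [bin_eq (by omega), bin_eq (by omega), Nat.centralBinom]
    have e1 : ∀ M, 107 ≤ M → CC * (M - j).centralBinom ≤
        (107 - j).centralBinom * M.centralBinom := by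
      intro M hM
      induction M, hM using Nat.le_induction with
      | base => rw [hCC, mul_comm]
      | succ k hk ih => exact cb_mono (by omega) ih
    have e2 := e1 N hN
    have e3 := D_mode hj hi
    have e4 := D_mid (N := N) (a := j) (by omega)
    have e5 : (N + N).choose N = N.centralBinom := by
      rw [Nat.centralBinom, two_mul]
    rw [e5]
    have e6 : 2 * CC * D N N j i ≤ Dg j * N.centralBinom := by
      calc 2 * CC * D N N j i ≤ 2 * CC * D N N j j :=
            Nat.mul_le_mul_left _ e3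
        _ = CC * (2 * D N N j j) := by ring
        _ = (2 * j).choose j * (CC * (N - j).centralBinom) := by
            rw [e4]; ring
        _ ≤ (2 * j).choose j * ((107 - j).centralBinom * N.centralBinom) :=
            Nat.mul_le_mul_left _ e2
        _ = _ := by rw [hDg]; ring
    rw [div_mul_eq_mul_div, le_div_iff₀ (by positivity)]
    have e7 : (2 * CC * D N N j i : ℝ) ≤ Dg j * N.centralBinom := by
      exact_mod_cast e6
    linarith
  · rw [lev_div, lev_cast, ← mul_div_assoc, div_le_iff₀ (by positivity)]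
    have h6 : (17 * levN y s Dg : ℝ) ≤ 2 * (den g * CC) := by
      exact_mod_cast h5
    linarith

/-- a good rank exists for large sizes -/
lemma exists_SupOK {n m : ℕ} (h1 : 1 ≤ m) (hmn : m ≤ n) (h : m < 107 → N0 m ≤ n) :
    ∃ r, SupOK n m r := by
  rcases Nat.lt_or_ge m 107 with h2 | h2
  · exact ⟨_, SupOK_mono (h h2) (SupOK_fin h2 h1)⟩
  · exact ⟨_, SupOK_mono hmn (SupOK_diag h2)⟩

end Pool.Agent.W5h8.SP
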