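import Mathlib
import Pool.Agent.W5h8.SPK
import Pool.Agent.W5h8.SPR01
import Pool.Agent.W5h8.SPR02
import Pool.Agent.W5h8.SPR03
import Pool.Agent.W5h8.SPR04
import Pool.Agent.W5h8.SPR05
import Pool.Agent.W5h8.SPR06
import Pool.Agent.W5h8.SPR07
import Pool.Agent.W5h8.SPR08
import Pool.Agent.W5h8.SPR09
import Pool.Agent.W5h8.SPR10
import Pool.Agent.W5h8.SPR11
import Pool.Agent.W5h8.SPR12
import Pool.Agent.W5h8.SPR13
import Pool.Agent.W5h8.SPR14
import Pool.Agent.W5h8.SPR15
import Pool.Agent.W5h8.SPR16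
import Pool.Agent.W5h8.SPR17
import Pool.Agent.W5h8.SPR18
import Pool.Agent.W5h8.SPR19
import Pool.Agent.W5h8.SPR20
import Pool.Agent.W5h8.SPR21
import Pool.Agent.W5h8.SPR22
import Pool.Agent.W5h8.SPR23
import Pool.Agent.W5h8.SPR24

/-! All pairs of words. -/

open Finset

namespace Pool.Agent.W5h8.SP

open Pool.Agent.H13R3.WB (prob balance)
open Pool.Agent.H931R3.Bal

/-- all rectangles -/
def allR : List Rect := rcR01 ++
  rcR02 ++
  rcR03 ++
  rcR04 ++
  rcR05 ++
  rcR06 ++
  rcR07 ++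
  rcR08 ++
  rcR09 ++
  rcR10 ++
  rcR11 ++
  rcR12 ++
  rcR13 ++
  rcR14 ++
  rcR15 ++
  rcR16 ++
  rcR17 ++
  rcR18 ++
  rcR19 ++
  rcR20 ++
  rcR21 ++
  rcR22 ++
  rcR23 ++
  rcR24

lemma allR_ok : ∀ R ∈ allR, chkR R = true := by
  intro R hR
  unfold allR at hR
  simp only [List.mem_append] at hR
  rcases hR with ((((((((((((((((((((((hR | hR) | hR) | hR) | hR) | hR) | hR) | hR) | hR) | hR) | hR) | hR) | hR) | hR) | hR) | hR) | hR) | hR) | hR) | hR) | hR) | hR) | hR) | hR
  · exact chkL_sound rcR01_ok R hR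
  · exact chkL_sound rcR02_ok R hR
  · exact chkL_sound rcR03_ok R hR
  · exact chkL_sound rcR04_ok R hR
  · exact chkL_sound rcR05_ok R hR
  · exact chkL_sound rcR06_ok R hR
  · exact chkL_sound rcR07_ok R hR
  · exact chkL_sound rcR08_ok R hR
  · exact chkL_sound rcR09_ok R hR
  · exact chkL_sound rcR10_ok R hR
  · exact chkL_sound rcR11_ok R hR
  · exact chkL_sound rcR12_ok R hR
  · exact chkL_sound rcR13_ok R hR
  · exact chkL_sound rcR14_ok R hR
  · exact chkL_sound rcR15_ok R hR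
  · exact chkL_sound rcR16_ok R hR
  · exact chkL_sound rcR17_ok R hR
  · exact chkL_sound rcR18_ok R hR
  · exact chkL_sound rcR19_ok R hR
  · exact chkL_sound rcR20_ok R hR
  · exact chkL_sound rcR21_ok R hR
  · exact chkL_sound rcR22_ok R hR
  · exact chkL_sound rcR23_ok R hR
  · exact chkL_sound rcR24_ok R hR

/-- the rectangles cover the small sizes -/
noncomputable def covB (m : ℕ) : Bool := (List.range (N0 m)).all fun n => Nat.ble (n + 1) m ||
  (allR.filter fun R => Nat.ble R.m1 m && Nat.ble m R.m2).any fun R =>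
    Nat.ble R.n1 n && Nat.ble n R.n2

set_option maxRecDepth 100000 in
lemma covB_true : ∀ m < 107, 1 ≤ m → covB m = true := by decide +kernel

/-- pairs of words: exceptional, or some pair of elements is balanced -/
theorem con0 {A B : List ℕ} (hA : ∀ f ∈ A, f < 17) (hB : ∀ f ∈ B, f < 17) (hB0 : B ≠ [])
    (h : lenW B ≤ lenW A) : Con0 (lenW A) (lenW B) A B := by
  have h1 : 1 ≤ lenW B := lenW_pos hB hB0
  by_cases h2 : lenW B < 107 ∧ lenW A < N0 (lenW B)
  · have h3 := covB_true (lenW B) h2.1 h1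
    unfold covB at h3
    rw [List.all_eq_true] at h3
    have h4 := h3 (lenW A) (List.mem_range.2 h2.2)
    rw [Bool.or_eq_true] at h4
    rcases h4 with h4 | h4
    · have := Nat.le_of_ble_eq_true h4
      omega
    · rw [List.any_eq_true] at h4
      obtain ⟨R, hR, h5⟩ := h4
      rw [List.mem_filter] at hR
      obtain ⟨hR, h6⟩ := hR
      simp only [Bool.and_eq_true] at h5 h6
      obtain ⟨g1, g2⟩ := h5
      obtain ⟨g3, g4⟩ := h6
      exact chkR_sound (allR_ok R hR) (Nat.le_of_ble_eq_true g1) (Nat.le_of_ble_eq_true g2)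
        (Nat.le_of_ble_eq_true g3) (Nat.le_of_ble_eq_true g4) hA hB rfl rfl
  · obtain ⟨r, hr⟩ := exists_SupOK h1 h (fun h3 => by
      by_contra hc
      exact h2 ⟨h3, not_le.1 hc⟩)
    exact sup_case hr hA hB rfl rfl

lemma exc_dtab : ∀ t ∈ excR, ∃ f < 17, (f, t.1.reverse, t.2.reverse) ∈ dtab := by
  decide +kernel

variable {P Q : Type} [PartialOrder P] [PartialOrder Q]

/-- disjoint sum of two posets given by words -/
lemma disj_aux [Fintype P] [Fintype Q] {A B : List ℕ} (hP : IsW A P) (hQ : IsW B Q)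
    (hA : ∀ f ∈ A, f < 17) (hB : ∀ f ∈ B, f < 17) (h : lenW B ≤ lenW A) :
    (∃ f < 17, IsW [f] (P ⊕ Q)) ∨ 19 / 45 ≤ balance (P ⊕ Q) := by
  have sP := hP.spec
  have sQ := hQ.spec
  have hn : Fintype.card P = lenW A := by rw [← sP.card, Nat.card_eq_fintype_card]
  have hm : Fintype.card Q = lenW B := by rw [← sQ.card, Nat.card_eq_fintype_card]
  rcases con0 hA hB sQ.ne h with h1 | ⟨p, hp, q, hq, wt, hwt, wt', hwt', v1, v2⟩
  · left
    obtain ⟨f, hf, hd⟩ := exc_dtab _ h1
    simp only [List.reverse_reverse] at hd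
    exact ⟨f, hf, IsW.blk f A B P Q _ hd hP hQ ⟨OrderIso.refl _⟩⟩
  · right
    obtain ⟨x, hx⟩ := sP.real 0 p hp wt hwt
    obtain ⟨y, hy⟩ := sQ.real 0 q hq wt' hwt'
    obtain ⟨_, _, p3⟩ := pls_le hp
    obtain ⟨_, _, q3⟩ := pls_le hq
    have bp := basic (sP.val _ p3)
    have bq := basic (sQ.val _ q3)
    have d1 : (0 : ℝ) < den p.2 := by exact_mod_cast bp.den1
    have d2 : (0 : ℝ) < den q.2 := by exact_mod_cast bq.den1
    simp only [zero_add] at hx hy
    have hcard : Fintype.card (P ⊕ Q) = lenW A + lenW B := by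
      rw [Fintype.card_sum, hn, hm]
    have hv : prob (P ⊕ Q) (Sum.inl x) (Sum.inr y) =
        lev wt p.1 (fun i => lev wt' q.1 (fun j => FF (lenW A) (lenW B) i j)) /
          (den p.2 * den q.2) := by
      rw [prob_eq hcard, pr_disj_cross hn hm, hx]
      simp_rw [hy]
      rw [lev_div, div_div]
      congr 1
      ring
    have hs := prob_add (P := P ⊕ Q) (x := Sum.inl x) (y := Sum.inr y) (by simp)
    have k1 : 19 / 45 ≤ prob (P ⊕ Q) (Sum.inl x) (Sum.inr y) := by
      rw [hv, le_div_iff₀ (by positivity)]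
      exact v1
    have k2 : prob (P ⊕ Q) (Sum.inl x) (Sum.inr y) ≤ 26 / 45 := by
      rw [hv, div_le_iff₀ (by positivity)]
      exact v2
    exact (le_min k1 (by linarith)).trans (le_balance (Sum.inl x) (Sum.inr y))

lemma IsW.iso {R : Type} [PartialOrder R] {w : List ℕ} (h : IsW w P) (e : P ≃o R) : IsW w R := by
  cases h with
  | one _ e1 => exact IsW.one R (e1.map fun e1 => e.symm.trans e1)
  | blk f A B P' Q' _ ht hA hB e1 =>
    exact IsW.blk f A B P' Q' R ht hA hB (e1.map fun e1 => e.symm.trans e1)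
  | cat u v P' Q' _ hA hB e1 =>
    exact IsW.cat u v P' Q' R hA hB (e1.map fun e1 => e.symm.trans e1)

/-- `P` is an ordinal sum of the first seventeen blocks, or its balance constant is at least
`19/45` -/
def Cls (P : Type) [Fintype P] [PartialOrder P] : Prop :=
  (∃ w : List ℕ, (∀ f ∈ w, f < 17) ∧ IsW w P) ∨ 19 / 45 ≤ balance P

lemma Cls.sum [Fintype P] [Fintype Q] [Nonempty P] [Nonempty Q] (hP : Cls P) (hQ : Cls Q) :
    Cls (P ⊕ Q) := by
  rcases hP with ⟨A, hA, hP⟩ | hP
  · rcases hQ with ⟨B, hB, hQ⟩ | hQ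
    · rcases le_total (lenW B) (lenW A) with h | h
      · rcases disj_aux hP hQ hA hB h with ⟨f, hf, h1⟩ | h1
        · exact Or.inl ⟨[f], by simpa using hf, h1⟩
        · exact Or.inr h1
      · rcases disj_aux hQ hP hB hA h with ⟨f, hf, h1⟩ | h1
        · exact Or.inl ⟨[f], by simpa using hf, h1.iso (OrderIso.sumComm Q P)⟩
        · exact Or.inr (h1.trans (balance_iso (OrderIso.sumComm Q P)))
    · exact Or.inr (hQ.trans balance_sum_right)
  · exact Or.inr (hP.trans balance_sum_left)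

lemma Cls.lex [Fintype P] [Fintype Q] [Nonempty P] [Nonempty Q] (hP : Cls P) (hQ : Cls Q) :
    Cls (P ⊕ₗ Q) := by
  rcases hP with ⟨A, hA, hP⟩ | hP
  · rcases hQ with ⟨B, hB, hQ⟩ | hQ
    · refine Or.inl ⟨A ++ B, ?_, IsW.cat A B P Q _ hP hQ ⟨OrderIso.refl _⟩⟩
      intro f hf
      rw [List.mem_append] at hf
      rcases hf with hf | hf
      · exact hA f hf
      · exact hB f hf
    · exact Or.inr (hQ.trans balance_lex_right)
  · exact Or.inr (hP.trans balance_lex_left)

theorem cls {R : Type} [PartialOrder R] (h : SeriesParallel R) : ∀ [Fintype R],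
    Nonempty R ∧ Cls R := by
  induction h with
  | one P e =>
    intro _
    exact ⟨⟨e.some.symm 0⟩, Or.inl ⟨[0], by simp, IsW.one P e⟩⟩
  | disj P Q R _ _ e ihP ihQ =>
    intro hR
    obtain ⟨e⟩ := e
    have fP : Finite P := Finite.of_injective (fun x : P => e.symm (Sum.inl x))
      (fun a b h => Sum.inl_injective (e.symm.injective h))
    have fQ : Finite Q := Finite.of_injective (fun x : Q => e.symm (Sum.inr x))
      (fun a b h => Sum.inr_injective (e.symm.injective h))
    have := Fintype.ofFinite P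
    have := Fintype.ofFinite Q
    obtain ⟨n1, h1⟩ := ihP
    obtain ⟨n2, h2⟩ := ihQ
    have h3 := Cls.sum h1 h2
    refine ⟨⟨e.symm (Sum.inl n1.some)⟩, ?_⟩
    rcases h3 with ⟨w, hw, h3⟩ | h3
    · exact Or.inl ⟨w, hw, h3.iso e.symm⟩
    · exact Or.inr (h3.trans (balance_iso e.symm))
  | direct P Q R _ _ e ihP ihQ =>
    intro hR
    obtain ⟨e⟩ := e
    have fP : Finite P := Finite.of_injective (fun x : P => e.symm (toLex (Sum.inl x)))
      (fun a b h => Sum.inl_injective (toLex.injective (e.symm.injective h)))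
    have fQ : Finite Q := Finite.of_injective (fun x : Q => e.symm (toLex (Sum.inr x)))
      (fun a b h => Sum.inr_injective (toLex.injective (e.symm.injective h)))
    have := Fintype.ofFinite P
    have := Fintype.ofFinite Q
    obtain ⟨n1, h1⟩ := ihP
    obtain ⟨n2, h2⟩ := ihQ
    have h3 := Cls.lex h1 h2
    have : Nonempty (P ⊕ₗ Q) := ⟨toLex (Sum.inl n1.some)⟩
    refine ⟨⟨e.symm (toLex (Sum.inl n1.some))⟩, ?_⟩
    rcases h3 with ⟨w, hw, h3⟩ | h3
    · exact Or.inl ⟨w, hw, h3.iso e.symm⟩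
    · exact Or.inr (h3.trans (balance_iso e.symm))

end Pool.Agent.W5h8.SP
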