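import Mathlib
import Pool.Agent.W5h8.SPL

/-! Values of the width infima, and the small balance constants of series-parallel posets. -/

open Finset

namespace Pool.Agent.W5h8.SP

open Pool.Agent.H13R3.WB (prob balance)
open Pool.Agent.H931R3.Bal

/-- some poset is given by the word -/
def Ex (w : List ℕ) : Prop := ∃ (P : Type) (_ : PartialOrder P), IsW w P

lemma ex_zero : Ex [0] := ⟨Fin 1, inferInstance, IsW.one _ ⟨OrderIso.refl _⟩⟩

lemma Ex.cat {u v : List ℕ} (hu : Ex u) (hv : Ex v) : Ex (u ++ v) := by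
  obtain ⟨P, _, hP⟩ := hu
  obtain ⟨Q, _, hQ⟩ := hv
  exact ⟨P ⊕ₗ Q, inferInstance, IsW.cat u v P Q _ hP hQ ⟨OrderIso.refl _⟩⟩

lemma Ex.blk {f : ℕ} {A B : List ℕ} (h : (f, A, B) ∈ dtab) (hA : Ex A) (hB : Ex B) : Ex [f] := by
  obtain ⟨P, _, hP⟩ := hA
  obtain ⟨Q, _, hQ⟩ := hB
  exact ⟨P ⊕ Q, inferInstance, IsW.blk f A B P Q _ h hP hQ ⟨OrderIso.refl _⟩⟩

lemma ex_word : ∀ w : List ℕ, w ≠ [] → (∀ f ∈ w, Ex [f]) → Ex w := by
  intro w
  induction w with
  | nil => intro h; exact absurd rfl h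
  | cons f w ih =>
    intro _ h
    rcases eq_or_ne w [] with h0 | h0
    · subst h0
      exact h f (by simp)
    · have h1 := ih h0 (fun g hg => h g (by simp [hg]))
      have h2 := h f (by simp)
      exact Ex.cat h2 h1

/-- decompositions -/
lemma dec_tab : ∀ f < 19, 1 ≤ f → ∃ t ∈ dtab, t.1 = f ∧ t.2.1 ≠ [] ∧ t.2.2 ≠ [] ∧
    (∀ g ∈ t.2.1, g < f) ∧ (∀ g ∈ t.2.2, g < f) := by
  decide +kernel

lemma ex_blk : ∀ f < 19, Ex [f] := by
  intro f
  induction f using Nat.strong_induction_on with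
  | _ f ih =>
    intro hf
    rcases Nat.eq_zero_or_pos f with h0 | h0
    · subst h0
      exact ex_zero
    · obtain ⟨⟨g, A, B⟩, ht, h1, h2, h3, h4, h5⟩ := dec_tab f hf h0
      simp only at h1 h2 h3 h4 h5
      subst h1
      exact Ex.blk ht (ex_word A h2 fun k hk => ih k (h4 k hk) (by have := h4 k hk; omega))
        (ex_word B h3 fun k hk => ih k (h5 k hk) (by have := h5 k hk; omega))

lemma spec_balance {w : List ℕ} {P : Type} [Fintype P] [PartialOrder P] (h : Spec w P) :
    balance P = balW w := by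
  have hn : Fintype.card P = lenW w := by rw [← h.card, Nat.card_eq_fintype_card]
  have := h.nem
  apply le_antisymm
  · have : Nonempty (P × P) := inferInstance
    unfold balance
    apply ciSup_le
    rintro ⟨x, y⟩
    simp only
    rw [prob_eq hn, prob_eq hn]
    exact h.ble x y
  · obtain ⟨x, y, hxy⟩ := h.bge
    rw [← prob_eq hn, ← prob_eq hn] at hxy
    exact hxy.trans (le_balance x y)

lemma spec_width {w : List ℕ} {P : Type} [PartialOrder P] (h : Spec w P) :
    HasWidth P (wdW w) := ⟨h.wge, h.wle⟩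

lemma width_unique {P : Type} [PartialOrder P] {a b : ℕ} (h1 : HasWidth P a) (h2 : HasWidth P b) :
    a = b := by
  obtain ⟨⟨s, hs, hc⟩, h3⟩ := h1
  obtain ⟨⟨t, ht, hd⟩, h4⟩ := h2
  have := h3 t ht
  have := h4 s hs
  omega

lemma wd_tab : ∀ f < 17, wd f ≤ 4 ∧ (wd f = 4 → f = 8 ∨ f = 15) := by decide +kernel

lemma wdW_le {w : List ℕ} (h : ∀ f ∈ w, f < 17) : wdW w ≤ 4 := by
  induction w with
  | nil => simp [wdW]
  | cons f w ih =>
    rw [wdW]
    exact max_le (wd_tab f (h f (by simp))).1 (ih fun g hg => h g (by simp [hg]))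

lemma wdW_four {w : List ℕ} (h : ∀ f ∈ w, f < 17) (h4 : wdW w = 4) : 8 ∈ w ∨ 15 ∈ w := by
  induction w with
  | nil => simp [wdW] at h4
  | cons f w ih =>
    rw [wdW] at h4
    obtain ⟨h1, h2⟩ := wd_tab f (h f (by simp))
    rcases eq_or_ne (wd f) 4 with h5 | h5
    · rcases h2 h5 with h6 | h6
      · left; simp [h6]
      · right; simp [h6]
    · have h6 := wdW_le (w := w) fun g hg => h g (by simp [hg])
      have h7 : wdW w = 4 := by omega
      rcases ih (fun g hg => h g (by simp [hg])) h7 with h8 | h8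
      · left; simp [h8]
      · right; simp [h8]

lemma bal_of {f a b : ℕ} (h1 : uN f = a) (h2 : uD f = b) : bal f = (a : ℝ) / b := by
  unfold bal
  rw [h1, h2]

lemma bal0 : bal 0 = 0 := by rw [bal_of (a := 0) (b := 1) rfl rfl]; norm_num
lemma bal1 : bal 1 = 1 / 3 := by rw [bal_of (a := 1) (b := 3) rfl rfl]; norm_num
lemma bal2 : bal 2 = 2 / 5 := by rw [bal_of (a := 2) (b := 5) rfl rfl]; norm_num
lemma bal3 : bal 3 = 2 / 5 := by rw [bal_of (a := 2) (b := 5) rfl rfl]; norm_num
lemma bal4 : bal 4 = 2 / 5 := by rw [bal_of (a := 2) (b := 5) rfl rfl]; norm_num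
lemma bal5 : bal 5 = 8 / 21 := by rw [bal_of (a := 8) (b := 21) rfl rfl]; norm_num
lemma bal6 : bal 6 = 26 / 63 := by rw [bal_of (a := 26) (b := 63) rfl rfl]; norm_num
lemma bal7 : bal 7 = 2 / 5 := by rw [bal_of (a := 2) (b := 5) rfl rfl]; norm_num
lemma bal8 : bal 8 = 263 / 630 := by rw [bal_of (a := 263) (b := 630) rfl rfl]; norm_num
lemma bal9 : bal 9 = 5 / 12 := by rw [bal_of (a := 5) (b := 12) rfl rfl]; norm_num
lemma bal10 : bal 10 = 5 / 12 := by rw [bal_of (a := 5) (b := 12) rfl rfl]; norm_num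
lemma bal11 : bal 11 = 5 / 12 := by rw [bal_of (a := 5) (b := 12) rfl rfl]; norm_num
lemma bal12 : bal 12 = 11 / 27 := by rw [bal_of (a := 11) (b := 27) rfl rfl]; norm_num
lemma bal13 : bal 13 = 9 / 22 := by rw [bal_of (a := 9) (b := 22) rfl rfl]; norm_num
lemma bal14 : bal 14 = 107 / 260 := by rw [bal_of (a := 107) (b := 260) rfl rfl]; norm_num
lemma bal15 : bal 15 = 178 / 429 := by rw [bal_of (a := 178) (b := 429) rfl rfl]; norm_num
lemma bal16 : bal 16 = 287 / 680 := by rw [bal_of (a := 287) (b := 680) rfl rfl]; norm_num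
lemma bal17 : bal 17 = 19 / 45 := by rw [bal_of (a := 19) (b := 45) rfl rfl]; norm_num
lemma bal18 : bal 18 = 19 / 45 := by rw [bal_of (a := 19) (b := 45) rfl rfl]; norm_num

/-- the balance constants below `19/45` -/
def specSet : Set ℝ := {0, 1 / 3, 8 / 21, 2 / 5, 11 / 27, 9 / 22, 107 / 260, 26 / 63, 178 / 429,
  5 / 12, 263 / 630, 287 / 680}

lemma bal_mem {f : ℕ} (hf : f < 17) : bal f ∈ specSet := by
  unfold specSet
  simp only [Set.mem_insert_iff, Set.mem_singleton_iff]
  interval_cases f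
  · rw [bal0]; simp
  · rw [bal1]; simp
  · rw [bal2]; simp
  · rw [bal3]; simp
  · rw [bal4]; simp
  · rw [bal5]; simp
  · rw [bal6]; simp
  · rw [bal7]; simp
  · rw [bal8]; simp
  · rw [bal9]; simp
  · rw [bal10]; simp
  · rw [bal11]; simp
  · rw [bal12]; simp
  · rw [bal13]; simp
  · rw [bal14]; simp
  · rw [bal15]; simp
  · rw [bal16]; simp

lemma specSet_lt {d : ℝ} (h : d ∈ specSet) : 0 ≤ d ∧ d < 19 / 45 := by
  unfold specSet at h
  simp only [Set.mem_insert_iff, Set.mem_singleton_iff] at h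
  rcases h with rfl | rfl | rfl | rfl | rfl | rfl | rfl | rfl | rfl | rfl | rfl | rfl <;> norm_num

lemma balW_mem {w : List ℕ} (h : ∀ f ∈ w, f < 17) : balW w ∈ specSet := by
  induction w with
  | nil =>
    rw [balW]
    simp [specSet]
  | cons f w ih =>
    rw [balW]
    have h1 := bal_mem (h f (by simp))
    have h2 := ih fun g hg => h g (by simp [hg])
    rcases le_total (bal f) (balW w) with h3 | h3
    · rw [max_eq_right h3]; exact h2
    · rw [max_eq_left h3]; exact h1

/-- a poset realising a block -/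
lemma real_blk {f : ℕ} (hf : f < 19) : ∃ (P : Type) (_ : Fintype P) (_ : PartialOrder P),
    SeriesParallel P ∧ HasWidth P (wd f) ∧ balance P = bal f := by
  obtain ⟨P, i1, hP⟩ := ex_blk f hf
  have s := hP.spec
  have := s.fin
  have i2 := Fintype.ofFinite P
  have hw : wdW [f] = wd f := by simp [wdW]
  have hb : balW [f] = bal f := by
    have : 0 ≤ bal f := by unfold bal; positivity
    simp [balW, this]
  refine ⟨P, i2, i1, s.sp, ?_, ?_⟩
  · rw [← hw]; exact spec_width s
  · rw [← hb]; exact spec_balance s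

theorem width_ge_five {w : ℕ} (hw : 5 ≤ w) (P : Type) [Fintype P] [PartialOrder P]
    (h : SeriesParallel P) (h2 : HasWidth P w) : 19 / 45 ≤ balance P := by
  rcases (cls h).2 with ⟨v, hv, h3⟩ | h3
  · have := width_unique h2 (spec_width h3.spec)
    have := wdW_le hv
    omega
  · exact h3

theorem width_four (P : Type) [Fintype P] [PartialOrder P]
    (h : SeriesParallel P) (h2 : HasWidth P 4) : 178 / 429 ≤ balance P := by
  rcases (cls h).2 with ⟨v, hv, h3⟩ | h3
  · have h4 := width_unique h2 (spec_width h3.spec)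
    rw [spec_balance h3.spec]
    rcases wdW_four hv h4.symm with h5 | h5
    · refine le_trans ?_ (le_balW h5)
      rw [bal8]; norm_num
    · refine le_trans ?_ (le_balW h5)
      rw [bal15]
  · exact le_trans (by norm_num) h3

theorem dSP_four : dSP 4 = 178 / 429 := by
  apply le_antisymm
  · obtain ⟨P, _, _, h1, h2, h3⟩ := real_blk (show 15 < 19 by norm_num)
    have hw : wd 15 = 4 := rfl
    rw [hw] at h2
    rw [← bal15, ← h3]
    exact dSP_le P h1 h2
  · exact dSP_ge (by norm_num) fun P _ _ h1 h2 => width_four P h1 h2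

theorem dSP_big {w : ℕ} (hw : 5 ≤ w) : 19 / 45 ≤ dSP w :=
  dSP_ge (by omega) fun P _ _ h1 h2 => width_ge_five hw P h1 h2

theorem dSP_five : dSP 5 = 19 / 45 := by
  apply le_antisymm _ (dSP_big le_rfl)
  obtain ⟨P, _, _, h1, h2, h3⟩ := real_blk (show 17 < 19 by norm_num)
  have hw : wd 17 = 5 := rfl
  rw [hw] at h2
  rw [← bal17, ← h3]
  exact dSP_le P h1 h2

theorem dSP_six : dSP 6 = 19 / 45 := by
  apply le_antisymm _ (dSP_big (by norm_num))
  obtain ⟨P, _, _, h1, h2, h3⟩ := real_blk (show 18 < 19 by norm_num)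
  have hw : wd 18 = 6 := rfl
  rw [hw] at h2
  rw [← bal18, ← h3]
  exact dSP_le P h1 h2

theorem spectrum : {d : ℝ | d < 19 / 45 ∧ ∃ (P : Type) (_ : Fintype P) (_ : PartialOrder P),
    SeriesParallel P ∧ balance P = d} = {0, 1 / 3, 8 / 21, 2 / 5, 11 / 27, 9 / 22, 107 / 260,
      26 / 63, 178 / 429, 5 / 12, 263 / 630, 287 / 680} := by
  ext d
  constructor
  · rintro ⟨h1, P, _, _, h2, rfl⟩
    rcases (cls h2).2 with ⟨v, hv, h3⟩ | h3
    · rw [spec_balance h3.spec]
      exact balW_mem hv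
    · linarith
  · intro h
    refine ⟨(specSet_lt h).2, ?_⟩
    simp only [Set.mem_insert_iff, Set.mem_singleton_iff] at h
    have key : ∀ f < 19, bal f = d → ∃ (P : Type) (_ : Fintype P) (_ : PartialOrder P),
        SeriesParallel P ∧ balance P = d := by
      intro f hf hd
      obtain ⟨P, i1, i2, h1, _, h3⟩ := real_blk hf
      exact ⟨P, i1, i2, h1, by rw [h3, hd]⟩
    rcases h with rfl | rfl | rfl | rfl | rfl | rfl | rfl | rfl | rfl | rfl | rfl | rfl
    · exact key 0 (by norm_num) bal0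
    · exact key 1 (by norm_num) bal1
    · exact key 5 (by norm_num) bal5
    · exact key 2 (by norm_num) bal2
    · exact key 12 (by norm_num) bal12
    · exact key 13 (by norm_num) bal13
    · exact key 14 (by norm_num) bal14
    · exact key 6 (by norm_num) bal6
    · exact key 15 (by norm_num) bal15
    · exact key 9 (by norm_num) bal9
    · exact key 8 (by norm_num) bal8
    · exact key 16 (by norm_num) bal16

end Pool.Agent.W5h8.SP
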