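import Mathlib
import Pool.Agent.W5h8.SPM

/-! Balance constants of series-parallel posets below `19/45`, by width. -/

open Finset

namespace Pool.Agent.W5h8.SP

open Pool.Agent.H13R3.WB (prob balance)
open Pool.Agent.H931R3.Bal

/-- the balance constants of the series-parallel posets of width `w` -/
def BSP (w : ℕ) : Set ℝ := {d : ℝ | ∃ (P : Type) (_ : Fintype P) (_ : PartialOrder P),
  SeriesParallel P ∧ HasWidth P w ∧ balance P = d}

lemma bal_nonneg (f : ℕ) : 0 ≤ bal f := by unfold bal; positivity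

lemma balW_attained {w : List ℕ} (h : w ≠ []) : ∃ f ∈ w, balW w = bal f := by
  induction w with
  | nil => exact absurd rfl h
  | cons f w ih =>
    rcases eq_or_ne w [] with h0 | h0
    · subst h0
      exact ⟨f, by simp, by simp [balW, bal_nonneg f]⟩
    · obtain ⟨g, hg, h1⟩ := ih h0
      rw [balW]
      rcases le_total (bal f) (balW w) with h2 | h2
      · exact ⟨g, by simp [hg], by rw [max_eq_right h2, h1]⟩
      · exact ⟨f, by simp, max_eq_left h2⟩

lemma wdW_attained {w : List ℕ} (h : w ≠ []) : ∃ f ∈ w, wdW w = wd f := by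
  induction w with
  | nil => exact absurd rfl h
  | cons f w ih =>
    rcases eq_or_ne w [] with h0 | h0
    · subst h0
      exact ⟨f, by simp, by simp [wdW]⟩
    · obtain ⟨g, hg, h1⟩ := ih h0
      rw [wdW]
      rcases le_total (wd f) (wdW w) with h2 | h2
      · exact ⟨g, by simp [hg], by rw [max_eq_right h2, h1]⟩
      · exact ⟨f, by simp, max_eq_left h2⟩

lemma wd_le_wdW {w : List ℕ} {f : ℕ} (h : f ∈ w) : wd f ≤ wdW w := by
  induction w with
  | nil => simp at h
  | cons a w ih =>
    rw [List.mem_cons] at h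
    rw [wdW]
    rcases h with rfl | h
    · exact le_max_left _ _
    · exact (ih h).trans (le_max_right _ _)

/-- a poset realising a word -/
lemma real_word {w : List ℕ} (h0 : w ≠ []) (hw : ∀ f ∈ w, f < 19) : balW w ∈ BSP (wdW w) := by
  obtain ⟨P, i1, hP⟩ := ex_word w h0 fun f hf => ex_blk f (hw f hf)
  have s := hP.spec
  have := s.fin
  have i2 := Fintype.ofFinite P
  exact ⟨P, i2, i1, s.sp, spec_width s, spec_balance s⟩

/-- the small balance constants come from words -/
lemma mem_small {k : ℕ} {d : ℝ} (h : d ∈ BSP k) (hd : d < 19 / 45) : ∃ v : List ℕ, v ≠ [] ∧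
    (∀ f ∈ v, f < 17) ∧ wdW v = k ∧ balW v = d := by
  obtain ⟨P, _, _, h1, h2, h3⟩ := h
  rcases (cls h1).2 with ⟨v, hv, h4⟩ | h4
  · exact ⟨v, h4.spec.ne, hv, width_unique (spec_width h4.spec) h2, by
      rw [← spec_balance h4.spec, h3]⟩
  · rw [h3] at h4
    exact absurd hd (not_lt.2 h4)

lemma wd_cases : ∀ f < 17, (wd f ≤ 2 → f = 0 ∨ f = 1 ∨ f = 2 ∨ f = 3 ∨ f = 4 ∨ f = 9 ∨ f = 11) ∧
    (wd f = 2 → f ≠ 0) ∧ (wd f ≤ 3 → f ≠ 8 ∧ f ≠ 15) ∧
    (wd f = 3 → f ≠ 0 ∧ f ≠ 1 ∧ f ≠ 2 ∧ f ≠ 3 ∧ f ≠ 4 ∧ f ≠ 8 ∧ f ≠ 9 ∧ f ≠ 11 ∧ f ≠ 15) := by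
  intro f hf
  have h0 : wd 0 = 1 := rfl
  have h1 : wd 1 = 2 := rfl
  have h2 : wd 2 = 2 := rfl
  have h3 : wd 3 = 2 := rfl
  have h4 : wd 4 = 2 := rfl
  have h5 : wd 5 = 3 := rfl
  have h6 : wd 6 = 3 := rfl
  have h7 : wd 7 = 3 := rfl
  have h8 : wd 8 = 4 := rfl
  have h9 : wd 9 = 2 := rfl
  have h10 : wd 10 = 3 := rfl
  have h11 : wd 11 = 2 := rfl
  have h12 : wd 12 = 3 := rfl
  have h13 : wd 13 = 3 := rfl
  have h14 : wd 14 = 3 := rfl
  have h15 : wd 15 = 4 := rfl
  have h16 : wd 16 = 3 := rfl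
  interval_cases f <;> simp [*]

lemma small_two : BSP 2 ∩ Set.Iio (19 / 45) = {1 / 3, 2 / 5, 5 / 12} := by
  ext d
  simp only [Set.mem_inter_iff, Set.mem_Iio, Set.mem_insert_iff, Set.mem_singleton_iff]
  constructor
  · rintro ⟨h, hd⟩
    obtain ⟨v, hv0, hv, h1, h2⟩ := mem_small h hd
    obtain ⟨f, hf, h3⟩ := balW_attained hv0
    obtain ⟨g, hg, h4⟩ := wdW_attained hv0
    have w1 := wd_le_wdW hf
    obtain ⟨c1, -, -, -⟩ := wd_cases f (hv f hf)
    obtain ⟨e1, e2, -, -⟩ := wd_cases g (hv g hg)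
    have hg0 := e2 (by omega)
    have hge := le_balW hg
    have hlb : 1 / 3 ≤ bal g := by
      rcases e1 (by omega) with h | h | h | h | h | h | h
      · exact absurd h hg0
      · rw [h, bal1]
      · rw [h, bal2]; norm_num
      · rw [h, bal3]; norm_num
      · rw [h, bal4]; norm_num
      · rw [h, bal9]; norm_num
      · rw [h, bal11]; norm_num
    rcases c1 (by omega) with h | h | h | h | h | h | h
    · exfalso
      rw [h3, h, bal0] at hge
      linarith
    · rw [← h2, h3, h, bal1]; simp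
    · rw [← h2, h3, h, bal2]; simp
    · rw [← h2, h3, h, bal3]; simp
    · rw [← h2, h3, h, bal4]; simp
    · rw [← h2, h3, h, bal9]; simp
    · rw [← h2, h3, h, bal11]; simp
  · have key : ∀ f < 19, wd f = 2 → bal f = d → d < 19 / 45 → d ∈ BSP 2 ∧ d < 19 / 45 := by
      intro f hf hw hb hd
      refine ⟨?_, hd⟩
      have := real_word (w := [f]) (by simp) (by simpa using hf)
      have e1 : wdW [f] = 2 := by simp [wdW, hw]
      have e2 : balW [f] = d := by simp [balW, bal_nonneg f]; exact hb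
      rwa [e1, e2] at this
    rintro (rfl | rfl | rfl)
    · exact key 1 (by norm_num) rfl bal1 (by norm_num)
    · exact key 2 (by norm_num) rfl bal2 (by norm_num)
    · exact key 9 (by norm_num) rfl bal9 (by norm_num)

lemma small_three : BSP 3 ∩ Set.Iio (19 / 45) =
    {8 / 21, 2 / 5, 11 / 27, 9 / 22, 107 / 260, 26 / 63, 5 / 12, 287 / 680} := by
  ext d
  simp only [Set.mem_inter_iff, Set.mem_Iio, Set.mem_insert_iff, Set.mem_singleton_iff]
  constructor
  · rintro ⟨h, hd⟩
    obtain ⟨v, hv0, hv, h1, h2⟩ := mem_small h hd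
    obtain ⟨f, hf, h3⟩ := balW_attained hv0
    obtain ⟨g, hg, h4⟩ := wdW_attained hv0
    have w1 := wd_le_wdW hf
    obtain ⟨-, -, c1, -⟩ := wd_cases f (hv f hf)
    obtain ⟨-, -, -, e1⟩ := wd_cases g (hv g hg)
    have hge := le_balW hg
    obtain ⟨k0, k1, k2, k3, k4, k8, k9, k11, k15⟩ := e1 (by omega)
    have hlb : 8 / 21 ≤ bal g := by
      have hg17 := hv g hg
      interval_cases g
      · exact absurd rfl k0
      · exact absurd rfl k1
      · exact absurd rfl k2
      · exact absurd rfl k3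
      · exact absurd rfl k4
      · rw [bal5]
      · rw [bal6]; norm_num
      · rw [bal7]; norm_num
      · exact absurd rfl k8
      · exact absurd rfl k9
      · rw [bal10]; norm_num
      · exact absurd rfl k11
      · rw [bal12]; norm_num
      · rw [bal13]; norm_num
      · rw [bal14]; norm_num
      · exact absurd rfl k15
      · rw [bal16]; norm_num
    obtain ⟨f8, f15⟩ := c1 (by omega)
    have hf17 := hv f hf
    rw [h3] at hge
    rw [h3] at h2
    interval_cases f
    · rw [bal0] at hge; linarith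
    · rw [bal1] at hge; linarith
    · rw [← h2, bal2]; simp
    · rw [← h2, bal3]; simp
    · rw [← h2, bal4]; simp
    · rw [← h2, bal5]; simp
    · rw [← h2, bal6]; simp
    · rw [← h2, bal7]; simp
    · exact absurd rfl f8
    · rw [← h2, bal9]; simp
    · rw [← h2, bal10]; simp
    · rw [← h2, bal11]; simp
    · rw [← h2, bal12]; simp
    · rw [← h2, bal13]; simp
    · rw [← h2, bal14]; simp
    · exact absurd rfl f15
    · rw [← h2, bal16]; simp
  · have key : ∀ f < 19, wd f = 3 → bal f = d → d < 19 / 45 → d ∈ BSP 3 ∧ d < 19 / 45 := by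
      intro f hf hw hb hd
      refine ⟨?_, hd⟩
      have := real_word (w := [f]) (by simp) (by simpa using hf)
      have e1 : wdW [f] = 3 := by simp [wdW, hw]
      have e2 : balW [f] = d := by simp [balW, bal_nonneg f]; exact hb
      rwa [e1, e2] at this
    rintro (rfl | rfl | rfl | rfl | rfl | rfl | rfl | rfl)
    · exact key 5 (by norm_num) rfl bal5 (by norm_num)
    · exact key 7 (by norm_num) rfl bal7 (by norm_num)
    · exact key 12 (by norm_num) rfl bal12 (by norm_num)
    · exact key 13 (by norm_num) rfl bal13 (by norm_num)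
    · exact key 14 (by norm_num) rfl bal14 (by norm_num)
    · exact key 6 (by norm_num) rfl bal6 (by norm_num)
    · exact key 10 (by norm_num) rfl bal10 (by norm_num)
    · exact key 16 (by norm_num) rfl bal16 (by norm_num)

lemma small_four : BSP 4 ∩ Set.Iio (19 / 45) = {178 / 429, 5 / 12, 263 / 630, 287 / 680} := by
  ext d
  simp only [Set.mem_inter_iff, Set.mem_Iio, Set.mem_insert_iff, Set.mem_singleton_iff]
  constructor
  · rintro ⟨h, hd⟩
    obtain ⟨v, hv0, hv, h1, h2⟩ := mem_small h hd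
    obtain ⟨f, hf, h3⟩ := balW_attained hv0
    have hge : 178 / 429 ≤ balW v := by
      rcases wdW_four hv h1 with h5 | h5
      · refine le_trans ?_ (le_balW h5)
        rw [bal8]; norm_num
      · refine le_trans ?_ (le_balW h5)
        rw [bal15]
    have hf17 := hv f hf
    rw [h3] at hge
    rw [h3] at h2
    interval_cases f
    · rw [bal0] at hge; norm_num at hge
    · rw [bal1] at hge; norm_num at hge
    · rw [bal2] at hge; norm_num at hge
    · rw [bal3] at hge; norm_num at hge
    · rw [bal4] at hge; norm_num at hge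
    · rw [bal5] at hge; norm_num at hge
    · rw [bal6] at hge; norm_num at hge
    · rw [bal7] at hge; norm_num at hge
    · rw [← h2, bal8]; simp
    · rw [← h2, bal9]; simp
    · rw [← h2, bal10]; simp
    · rw [← h2, bal11]; simp
    · rw [bal12] at hge; norm_num at hge
    · rw [bal13] at hge; norm_num at hge
    · rw [bal14] at hge; norm_num at hge
    · rw [← h2, bal15]; simp
    · rw [← h2, bal16]; simp
  · have key : ∀ w : List ℕ, w ≠ [] → (∀ f ∈ w, f < 19) → wdW w = 4 → balW w = d → d < 19 / 45 →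
        d ∈ BSP 4 ∧ d < 19 / 45 := by
      intro w h0 hf hw hb hd
      refine ⟨?_, hd⟩
      have := real_word h0 hf
      rwa [hw, hb] at this
    rintro (rfl | rfl | rfl | rfl)
    · exact key [15] (by simp) (by simp) rfl
        (by rw [balW, balW, bal15, max_eq_left (by norm_num)]) (by norm_num)
    · refine key [15, 9] (by simp) (by simp) rfl ?_ (by norm_num)
      simp only [balW, bal15, bal9]
      rw [max_eq_left (show (0 : ℝ) ≤ 5 / 12 by norm_num), max_eq_right (by norm_num)]
    · exact key [8] (by simp) (by simp) rfl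
        (by rw [balW, balW, bal8, max_eq_left (by norm_num)]) (by norm_num)
    · refine key [15, 16] (by simp) (by simp) rfl ?_ (by norm_num)
      simp only [balW, bal15, bal16]
      rw [max_eq_left (show (0 : ℝ) ≤ 287 / 680 by norm_num), max_eq_right (by norm_num)]

lemma small_big {w : ℕ} (hw : 5 ≤ w) : BSP w ∩ Set.Iio (19 / 45) = ∅ := by
  rw [Set.eq_empty_iff_forall_notMem]
  rintro d ⟨⟨P, _, _, h1, h2, rfl⟩, hd⟩
  exact absurd (width_ge_five hw P h1 h2) (not_le.2 hd)

lemma mem_blk {f : ℕ} (hf : f < 19) : bal f ∈ BSP (wd f) := real_blk hf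

lemma least_four : IsLeast (BSP 4) (178 / 429) := by
  refine ⟨?_, ?_⟩
  · have := mem_blk (show 15 < 19 by norm_num)
    rwa [bal15] at this
  · rintro d ⟨P, _, _, h1, h2, rfl⟩
    exact width_four P h1 h2

lemma least_five : IsLeast (BSP 5) (19 / 45) := by
  refine ⟨?_, ?_⟩
  · have := mem_blk (show 17 < 19 by norm_num)
    rwa [bal17] at this
  · rintro d ⟨P, _, _, h1, h2, rfl⟩
    exact width_ge_five le_rfl P h1 h2

lemma least_six : IsLeast (BSP 6) (19 / 45) := by
  refine ⟨?_, ?_⟩
  · have := mem_blk (show 18 < 19 by norm_num)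
    rwa [bal18] at this
  · rintro d ⟨P, _, _, h1, h2, rfl⟩
    exact width_ge_five (by norm_num) P h1 h2

end Pool.Agent.W5h8.SP
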