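import Mathlib

/-!
# Homomorphisms of the complete bipartite graph minus a perfect matching

The number of homomorphisms is at least as large as in a random bipartite graph of the same
density. Proof by reflections.
-/

set_option autoImplicit false

namespace Pool.Agent.W5h8.HN

open Finset

section Fold

variable {ι X Y : Type}

/-- the homomorphism condition -/
def IsHom (E : X → Y → Prop) (J : Finset (ι × ι)) (p : (ι → X) × (ι → Y)) : Prop :=
  ∀ q ∈ J, E (p.1 q.1) (p.2 q.2)

variable [DecidableEq ι]

/-- the index set of the fixed coordinates -/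
abbrev Rest (a b : ι) : Type := {i : ι // i ≠ a ∧ i ≠ b}

/-- splitting of the coordinates -/
def split (X Y : Type) {a b : ι} (hab : a ≠ b) :
    (ι → X) × (ι → Y) ≃ ((Rest a b → X) × (Rest a b → Y)) × (X × Y) × (X × Y) where
  toFun p := ((fun i => p.1 i, fun i => p.2 i), (p.1 a, p.2 b), (p.1 b, p.2 a))
  invFun r := (fun i => if h : i = a then r.2.1.1 else if h' : i = b then r.2.2.1 else
      r.1.1 ⟨i, h, h'⟩,
    fun i => if h : i = a then r.2.2.2 else if h' : i = b then r.2.1.2 else r.1.2 ⟨i, h, h'⟩)
  left_inv p := by
    refine Prod.ext ?_ ?_ <;> funext i <;> by_cases h : i = a <;> by_cases h' : i = b <;>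
      simp [h, h'] <;> subst_vars <;> first | exact absurd rfl hab | skip
    all_goals first | rfl | (intro h; exact absurd h.symm hab) | skip
  right_inv r := by
    obtain ⟨⟨f, g⟩, ⟨u, v⟩, ⟨u', v'⟩⟩ := r
    refine Prod.ext (Prod.ext ?_ ?_) (Prod.ext (Prod.ext ?_ ?_) (Prod.ext ?_ ?_))
    · funext i
      simp [i.2.1, i.2.2]
    · funext i
      simp [i.2.1, i.2.2]
    · simp
    · simp [hab.symm]
    · simp [hab.symm]
    · simp

/-- the folded graph -/
def fold [Fintype ι] (a b : ι) (J : Finset (ι × ι)) : Finset (ι × ι) :=
  univ.filter fun q => q.1 ≠ q.2 ∧ (if q.1 = b then a else q.1, if q.2 = a then b else q.2) ∈ J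

end Fold


section Ineq

variable {ι X Y : Type} [DecidableEq ι] [Fintype ι]

theorem coord_x {a b : ι} (hab : a ≠ b)
    (r : ((Rest a b → X) × (Rest a b → Y)) × (X × Y) × (X × Y)) (i : ι) :
    ((split X Y hab).symm r).1 i = if h : i = a then r.2.1.1 else if h' : i = b then r.2.2.1 else
      r.1.1 ⟨i, h, h'⟩ := rfl

theorem coord_y {a b : ι} (hab : a ≠ b)
    (r : ((Rest a b → X) × (Rest a b → Y)) × (X × Y) × (X × Y)) (i : ι) :
    ((split X Y hab).symm r).2 i = if h : i = a then r.2.2.2 else if h' : i = b then r.2.1.2 else
      r.1.2 ⟨i, h, h'⟩ := rfl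

/-- the condition on the left part -/
def PL {a b : ι} (hab : a ≠ b) (E : X → Y → Prop) (J : Finset (ι × ι))
    (φ : (Rest a b → X) × (Rest a b → Y)) (l : X × Y) : Prop :=
  ∀ q ∈ J, q.1 ≠ b → q.2 ≠ a →
    E (((split X Y hab).symm (φ, l, l)).1 q.1) (((split X Y hab).symm (φ, l, l)).2 q.2)

/-- the condition on the right part -/
def PR {a b : ι} (hab : a ≠ b) (E : X → Y → Prop) (J : Finset (ι × ι))
    (φ : (Rest a b → X) × (Rest a b → Y)) (l : X × Y) : Prop :=
  ∀ q ∈ J, q.1 ≠ a → q.2 ≠ b →
    E (((split X Y hab).symm (φ, l, l)).1 q.1) (((split X Y hab).symm (φ, l, l)).2 q.2)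

theorem isHom_iff {a b : ι} (hab : a ≠ b) (E : X → Y → Prop) (J : Finset (ι × ι))
    (hJ : ∀ q ∈ J, q.1 ≠ q.2) (φ : (Rest a b → X) × (Rest a b → Y)) (l r : X × Y) :
    IsHom E J ((split X Y hab).symm (φ, l, r)) ↔ PL hab E J φ l ∧ PR hab E J φ r := by
  constructor
  · intro h
    refine ⟨fun q hq h1 h2 => ?_, fun q hq h1 h2 => ?_⟩
    · have := h q hq
      simp only [coord_x, coord_y, h1, h2, dite_false] at this ⊢
      exact this
    · have := h q hq
      simp only [coord_x, coord_y, h1, h2, dite_false] at this ⊢
      exact this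
  · rintro ⟨hl, hr⟩ q hq
    have hne := hJ q hq
    by_cases h : q.1 = b ∨ q.2 = a
    · have h1 : q.1 ≠ a := by
        rcases h with h | h
        · rw [h]; exact hab.symm
        · rw [← h]; exact hne
      have h2 : q.2 ≠ b := by
        rcases h with h | h
        · rw [← h]; exact hne.symm
        · rw [h]; exact hab
      have := hr q hq h1 h2
      simp only [coord_x, coord_y, h1, h2, dite_false] at this ⊢
      exact this
    · rw [not_or] at h
      obtain ⟨h1, h2⟩ := h
      have := hl q hq h1 h2
      simp only [coord_x, coord_y, h1, h2, dite_false] at this ⊢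
      exact this

theorem mem_fold {a b : ι} {J : Finset (ι × ι)} {q : ι × ι} :
    q ∈ fold a b J ↔ q.1 ≠ q.2 ∧ (if q.1 = b then a else q.1, if q.2 = a then b else q.2) ∈ J := by
  simp [fold]

theorem isHom_fold_left {a b : ι} (hab : a ≠ b) (E : X → Y → Prop) (J : Finset (ι × ι))
    (hJ : ∀ q ∈ J, q.1 ≠ q.2) (φ : (Rest a b → X) × (Rest a b → Y)) (l r : X × Y) :
    IsHom E (fold a b J) ((split X Y hab).symm (φ, l, r)) ↔
      PL hab E J φ l ∧ PL hab E J φ r := by
  constructor
  · intro h
    refine ⟨fun q hq h1 h2 => ?_, fun q hq h1 h2 => ?_⟩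
    · have := h q (by rw [mem_fold, if_neg h1, if_neg h2]; exact ⟨hJ q hq, hq⟩)
      simp only [coord_x, coord_y, h1, h2, dite_false] at this ⊢
      exact this
    · have hne := hJ q hq
      have h3 := h (if q.1 = a then b else q.1, if q.2 = b then a else q.2) (by
        rw [mem_fold]
        refine ⟨?_, ?_⟩
        · by_cases h3 : q.1 = a <;> by_cases h4 : q.2 = b <;> simp [h3, h4]
          · exact hab.symm
          · exact fun h => h4 h.symm
          · exact hne
        · have h5 : (if (if q.1 = a then b else q.1) = b then a else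
              (if q.1 = a then b else q.1)) = q.1 := by
            by_cases h3 : q.1 = a
            · simp [h3]
            · simp [h3, h1]
          have h6 : (if (if q.2 = b then a else q.2) = a then b else
              (if q.2 = b then a else q.2)) = q.2 := by
            by_cases h3 : q.2 = b
            · simp [h3]
            · simp [h3, h2]
          simp only
          rw [h5, h6]
          exact hq)
      have h7 : ((split X Y hab).symm (φ, l, r)).1 (if q.1 = a then b else q.1) =
          ((split X Y hab).symm (φ, r, r)).1 q.1 := by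
        by_cases h3 : q.1 = a
        · simp [coord_x, h3, hab.symm]
        · simp [coord_x, h3, h1]
      have h8 : ((split X Y hab).symm (φ, l, r)).2 (if q.2 = b then a else q.2) =
          ((split X Y hab).symm (φ, r, r)).2 q.2 := by
        by_cases h3 : q.2 = b
        · simp [coord_y, h3, hab.symm]
        · simp [coord_y, h3, h2]
      rw [← h7, ← h8]
      exact h3
  · rintro ⟨hl, hr⟩ q hq
    rw [mem_fold] at hq
    obtain ⟨hne, hq⟩ := hq
    by_cases h : q.1 = b ∨ q.2 = a
    · have h9 := hr _ hq (by
        simp only
        split_ifs with h1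
        · exact hab
        · exact h1) (by
        simp only
        split_ifs with h1
        · exact hab.symm
        · exact h1)
      simp only at h9
      have h7 : ((split X Y hab).symm (φ, r, r)).1 (if q.1 = b then a else q.1) =
          ((split X Y hab).symm (φ, l, r)).1 q.1 := by
        by_cases h3 : q.1 = b
        · simp [coord_x, h3, hab.symm]
        · have h4 : q.1 ≠ a := by
            rcases h with h | h
            · exact absurd h h3
            · rw [← h]; exact hne
          simp [coord_x, h3, h4]
      have h8 : ((split X Y hab).symm (φ, r, r)).2 (if q.2 = a then b else q.2) =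
          ((split X Y hab).symm (φ, l, r)).2 q.2 := by
        by_cases h3 : q.2 = a
        · simp [coord_y, h3, hab.symm]
        · have h4 : q.2 ≠ b := by
            rcases h with h | h
            · rw [← h]; exact hne.symm
            · exact absurd h h3
          simp [coord_y, h3, h4]
      rw [h7, h8] at h9
      exact h9
    · rw [not_or] at h
      obtain ⟨h1, h2⟩ := h
      rw [if_neg h1, if_neg h2] at hq
      have := hl q hq h1 h2
      simp only [coord_x, coord_y, h1, h2, dite_false] at this ⊢
      exact this

theorem isHom_fold_right {a b : ι} (hab : a ≠ b) (E : X → Y → Prop) (J : Finset (ι × ι))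
    (hJ : ∀ q ∈ J, q.1 ≠ q.2) (φ : (Rest a b → X) × (Rest a b → Y)) (l r : X × Y) :
    IsHom E (fold b a J) ((split X Y hab).symm (φ, l, r)) ↔
      PR hab E J φ l ∧ PR hab E J φ r := by
  constructor
  · intro h
    refine ⟨fun q hq h1 h2 => ?_, fun q hq h1 h2 => ?_⟩
    · have hne := hJ q hq
      have h3 := h (if q.1 = b then a else q.1, if q.2 = a then b else q.2) (by
        rw [mem_fold]
        refine ⟨?_, ?_⟩
        · by_cases h3 : q.1 = b <;> by_cases h4 : q.2 = a <;> simp [h3, h4]
          · exact hab
          · exact fun h => h4 h.symm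
          · exact hne
        · have h5 : (if (if q.1 = b then a else q.1) = a then b else
              (if q.1 = b then a else q.1)) = q.1 := by
            by_cases h3 : q.1 = b
            · simp [h3]
            · simp [h3, h1]
          have h6 : (if (if q.2 = a then b else q.2) = b then a else
              (if q.2 = a then b else q.2)) = q.2 := by
            by_cases h3 : q.2 = a
            · simp [h3]
            · simp [h3, h2]
          simp only
          rw [h5, h6]
          exact hq)
      have h7 : ((split X Y hab).symm (φ, l, r)).1 (if q.1 = b then a else q.1) =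
          ((split X Y hab).symm (φ, l, l)).1 q.1 := by
        by_cases h3 : q.1 = b
        · simp [coord_x, h3, hab.symm]
        · simp [coord_x, h3, h1]
      have h8 : ((split X Y hab).symm (φ, l, r)).2 (if q.2 = a then b else q.2) =
          ((split X Y hab).symm (φ, l, l)).2 q.2 := by
        by_cases h3 : q.2 = a
        · simp [coord_y, h3, hab.symm]
        · simp [coord_y, h3, h2]
      rw [← h7, ← h8]
      exact h3
    · have := h q (by rw [mem_fold, if_neg h1, if_neg h2]; exact ⟨hJ q hq, hq⟩)
      simp only [coord_x, coord_y, h1, h2, dite_false] at this ⊢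
      exact this
  · rintro ⟨hl, hr⟩ q hq
    rw [mem_fold] at hq
    obtain ⟨hne, hq⟩ := hq
    by_cases h : q.1 = a ∨ q.2 = b
    · have h9 := hl _ hq (by
        simp only
        split_ifs with h1
        · exact hab.symm
        · exact h1) (by
        simp only
        split_ifs with h1
        · exact hab
        · exact h1)
      simp only at h9
      have h7 : ((split X Y hab).symm (φ, l, l)).1 (if q.1 = a then b else q.1) =
          ((split X Y hab).symm (φ, l, r)).1 q.1 := by
        by_cases h3 : q.1 = a
        · simp [coord_x, h3, hab.symm]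
        · have h4 : q.1 ≠ b := by
            rcases h with h | h
            · exact absurd h h3
            · rw [← h]; exact hne
          simp [coord_x, h3, h4]
      have h8 : ((split X Y hab).symm (φ, l, l)).2 (if q.2 = b then a else q.2) =
          ((split X Y hab).symm (φ, l, r)).2 q.2 := by
        by_cases h3 : q.2 = b
        · simp [coord_y, h3, hab.symm]
        · have h4 : q.2 ≠ a := by
            rcases h with h | h
            · rw [← h]; exact hne.symm
            · exact absurd h h3
          simp [coord_y, h3, h4]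
      rw [h7, h8] at h9
      exact h9
    · rw [not_or] at h
      obtain ⟨h1, h2⟩ := h
      rw [if_neg h1, if_neg h2] at hq
      have := hr q hq h1 h2
      simp only [coord_x, coord_y, h1, h2, dite_false] at this ⊢
      exact this

variable [Fintype X] [Fintype Y]

open Classical in
/-- the number of homomorphisms -/
noncomputable def cnt (E : X → Y → Prop) (J : Finset (ι × ι)) : ℝ :=
  ∑ p : (ι → X) × (ι → Y), if IsHom E J p then (1 : ℝ) else 0

theorem cnt_nonneg (E : X → Y → Prop) (J : Finset (ι × ι)) : 0 ≤ cnt E J :=
  sum_nonneg fun p _ => by split_ifs <;> norm_num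

open Classical in
theorem fold_ineq {a b : ι} (hab : a ≠ b) (E : X → Y → Prop) (J : Finset (ι × ι))
    (hJ : ∀ q ∈ J, q.1 ≠ q.2) : cnt E J ^ 2 ≤ cnt E (fold a b J) * cnt E (fold b a J) := by
  set L : (Rest a b → X) × (Rest a b → Y) → ℝ := fun φ =>
    ∑ l : X × Y, if PL hab E J φ l then (1 : ℝ) else 0 with hL
  set R : (Rest a b → X) × (Rest a b → Y) → ℝ := fun φ =>
    ∑ l : X × Y, if PR hab E J φ l then (1 : ℝ) else 0 with hR
  have h1 : cnt E J = ∑ φ, L φ * R φ := by
    rw [cnt, ← (split X Y hab).symm.sum_comp, Fintype.sum_prod_type]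
    refine sum_congr rfl fun φ _ => ?_
    rw [hL, hR]
    simp only
    rw [sum_mul_sum, Fintype.sum_prod_type]
    refine sum_congr rfl fun l _ => sum_congr rfl fun r _ => ?_
    rw [isHom_iff hab E J hJ]
    split_ifs <;> simp_all
  have h2 : cnt E (fold a b J) = ∑ φ, L φ ^ 2 := by
    rw [cnt, ← (split X Y hab).symm.sum_comp, Fintype.sum_prod_type]
    refine sum_congr rfl fun φ _ => ?_
    rw [hL, sq]
    simp only
    rw [sum_mul_sum, Fintype.sum_prod_type]
    refine sum_congr rfl fun l _ => sum_congr rfl fun r _ => ?_
    rw [isHom_fold_left hab E J hJ]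
    split_ifs <;> simp_all
  have h3 : cnt E (fold b a J) = ∑ φ, R φ ^ 2 := by
    rw [cnt, ← (split X Y hab).symm.sum_comp, Fintype.sum_prod_type]
    refine sum_congr rfl fun φ _ => ?_
    rw [hR, sq]
    simp only
    rw [sum_mul_sum, Fintype.sum_prod_type]
    refine sum_congr rfl fun l _ => sum_congr rfl fun r _ => ?_
    rw [isHom_fold_right hab E J hJ]
    split_ifs <;> simp_all
  rw [h1, h2, h3]
  exact sum_mul_sq_le_sq_mul_sq _ _ _

end Ineq

end Pool.Agent.W5h8.HN
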