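import Pool.Agent.W5h8.HNA

/-!
# Reflections generate the complete bipartite graph minus a perfect matching
-/

set_option autoImplicit false

namespace Pool.Agent.W5h8.HN

open Finset

variable {ι : Type} [DecidableEq ι] [Fintype ι]

theorem card_fold {a b : ι} (hab : a ≠ b) (J : Finset (ι × ι)) (hJ : ∀ q ∈ J, q.1 ≠ q.2) :
    (fold a b J).card + (fold b a J).card = 2 * J.card := by
  classical
  set σ : ι × ι ≃ ι × ι := Equiv.prodCongr (Equiv.swap a b) (Equiv.swap a b) with hσ
  have hσ1 : ∀ q, σ q = (Equiv.swap a b q.1, Equiv.swap a b q.2) := fun q => rfl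
  set χ : ι × ι → ℕ := fun q => if q ∈ J then 1 else 0 with hχ
  have hd : ∀ q : ι × ι, q.1 = q.2 → χ q = 0 ∧ χ (σ q) = 0 := by
    intro q hq
    refine ⟨if_neg fun h => hJ q h hq, if_neg fun h => hJ _ h ?_⟩
    rw [hσ1, hq]
  have hA : ∀ q : ι × ι, (if q ∈ fold a b J then 1 else 0 : ℕ) =
      if q.1 = b ∨ q.2 = a then χ (σ q) else χ q := by
    intro q
    by_cases hq : q.1 = q.2
    · rw [if_neg (by rw [mem_fold]; tauto), (hd q hq).1, (hd q hq).2, ite_self]
    · by_cases h : q.1 = b ∨ q.2 = a
      · rw [if_pos h]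
        have : q ∈ fold a b J ↔ σ q ∈ J := by
          rw [mem_fold, hσ1]
          have h1 : (if q.1 = b then a else q.1) = Equiv.swap a b q.1 := by
            by_cases h2 : q.1 = b
            · rw [if_pos h2, h2, Equiv.swap_apply_right]
            · have h3 : q.1 ≠ a := by
                rcases h with h | h
                · exact absurd h h2
                · rw [← h]; exact hq
              rw [if_neg h2, Equiv.swap_apply_of_ne_of_ne h3 h2]
          have h4 : (if q.2 = a then b else q.2) = Equiv.swap a b q.2 := by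
            by_cases h2 : q.2 = a
            · rw [if_pos h2, h2, Equiv.swap_apply_left]
            · have h3 : q.2 ≠ b := by
                rcases h with h | h
                · rw [← h]; exact fun h5 => hq h5.symm
                · exact absurd h h2
              rw [if_neg h2, Equiv.swap_apply_of_ne_of_ne h2 h3]
          rw [h1, h4]
          simp [hq]
        simp only [hχ, this]
      · rw [if_neg h]
        rw [not_or] at h
        have : q ∈ fold a b J ↔ q ∈ J := by
          rw [mem_fold, if_neg h.1, if_neg h.2]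
          simp [hq]
        simp only [hχ, this]
  have hB : ∀ q : ι × ι, (if q ∈ fold b a J then 1 else 0 : ℕ) =
      if q.1 = a ∨ q.2 = b then χ (σ q) else χ q := by
    intro q
    by_cases hq : q.1 = q.2
    · rw [if_neg (by rw [mem_fold]; tauto), (hd q hq).1, (hd q hq).2, ite_self]
    · by_cases h : q.1 = a ∨ q.2 = b
      · rw [if_pos h]
        have : q ∈ fold b a J ↔ σ q ∈ J := by
          rw [mem_fold, hσ1]
          have h1 : (if q.1 = a then b else q.1) = Equiv.swap a b q.1 := by
            by_cases h2 : q.1 = a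
            · rw [if_pos h2, h2, Equiv.swap_apply_left]
            · have h3 : q.1 ≠ b := by
                rcases h with h | h
                · exact absurd h h2
                · rw [← h]; exact hq
              rw [if_neg h2, Equiv.swap_apply_of_ne_of_ne h2 h3]
          have h4 : (if q.2 = b then a else q.2) = Equiv.swap a b q.2 := by
            by_cases h2 : q.2 = b
            · rw [if_pos h2, h2, Equiv.swap_apply_right]
            · have h3 : q.2 ≠ a := by
                rcases h with h | h
                · rw [← h]; exact fun h5 => hq h5.symm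
                · exact absurd h h2
              rw [if_neg h2, Equiv.swap_apply_of_ne_of_ne h3 h2]
          rw [h1, h4]
          simp [hq]
        simp only [hχ, this]
      · rw [if_neg h]
        rw [not_or] at h
        have : q ∈ fold b a J ↔ q ∈ J := by
          rw [mem_fold, if_neg h.1, if_neg h.2]
          simp [hq]
        simp only [hχ, this]
  have hc : ∀ S : Finset (ι × ι), S.card = ∑ q : ι × ι, (if q ∈ S then 1 else 0 : ℕ) := by
    intro S
    simp
  rw [hc (fold a b J), hc (fold b a J), hc J, sum_congr rfl fun q _ => hA q,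
    sum_congr rfl fun q _ => hB q]
  have h1 : ∑ q : ι × ι, (if q.1 = b ∨ q.2 = a then χ (σ q) else χ q) =
      ∑ q : ι × ι, (if q.1 = a ∨ q.2 = b then χ q else 0) +
        ∑ q : ι × ι, (if q.1 = b ∨ q.2 = a then 0 else χ q) := by
    rw [← σ.sum_comp fun q => if q.1 = a ∨ q.2 = b then χ q else 0, ← sum_add_distrib]
    refine sum_congr rfl fun q _ => ?_
    have h2 : ((σ q).1 = a ∨ (σ q).2 = b) ↔ (q.1 = b ∨ q.2 = a) := by
      rw [hσ1]
      simp only
      rw [Equiv.swap_apply_eq_iff, Equiv.swap_apply_left, Equiv.swap_apply_eq_iff,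
        Equiv.swap_apply_right]
    by_cases h : q.1 = b ∨ q.2 = a
    · rw [if_pos h, if_pos (h2.2 h), if_pos h, add_zero]
    · rw [if_neg h, if_neg (fun h3 => h (h2.1 h3)), if_neg h, zero_add]
  have h1' : ∑ q : ι × ι, (if q.1 = a ∨ q.2 = b then χ (σ q) else χ q) =
      ∑ q : ι × ι, (if q.1 = b ∨ q.2 = a then χ q else 0) +
        ∑ q : ι × ι, (if q.1 = a ∨ q.2 = b then 0 else χ q) := by
    rw [← σ.sum_comp fun q => if q.1 = b ∨ q.2 = a then χ q else 0, ← sum_add_distrib]
    refine sum_congr rfl fun q _ => ?_
    have h2 : ((σ q).1 = b ∨ (σ q).2 = a) ↔ (q.1 = a ∨ q.2 = b) := by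
      rw [hσ1]
      simp only
      rw [Equiv.swap_apply_eq_iff, Equiv.swap_apply_right, Equiv.swap_apply_eq_iff,
        Equiv.swap_apply_left]
    by_cases h : q.1 = a ∨ q.2 = b
    · rw [if_pos h, if_pos (h2.2 h), if_pos h, add_zero]
    · rw [if_neg h, if_neg (fun h3 => h (h2.1 h3)), if_neg h, zero_add]
  have h2 : ∀ P : ι × ι → Prop, ∀ [DecidablePred P],
      ∑ q : ι × ι, (if P q then χ q else 0) + ∑ q : ι × ι, (if P q then 0 else χ q) =
        ∑ q : ι × ι, χ q := by
    intro P _
    rw [← sum_add_distrib]
    refine sum_congr rfl fun q _ => ?_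
    split_ifs <;> simp
  have h3 := h2 fun q => q.1 = a ∨ q.2 = b
  have h4 := h2 fun q => q.1 = b ∨ q.2 = a
  rw [h1, h1']
  simp only [hχ] at h3 h4 ⊢
  omega

/-- all pairs of distinct indices -/
def off (ι : Type) [DecidableEq ι] [Fintype ι] : Finset (ι × ι) :=
  univ.filter fun q => q.1 ≠ q.2

theorem mem_off {q : ι × ι} : q ∈ off ι ↔ q.1 ≠ q.2 := by simp [off]

theorem fold_sub_off (a b : ι) (J : Finset (ι × ι)) : fold a b J ⊆ off ι := by
  intro q hq
  rw [mem_fold] at hq
  exact mem_off.2 hq.1

/-- A family of graphs closed under folding with a nonempty member contains the whole graph. -/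
theorem fold_closed (PP : Finset (ι × ι) → Prop) (hsub : ∀ J, PP J → J ⊆ off ι)
    (hcl : ∀ J, PP J → ∀ a b : ι, a ≠ b → PP (fold a b J)) (J : Finset (ι × ι)) (hJ : PP J)
    (hne : J.Nonempty) : PP (off ι) := by
  classical
  obtain ⟨⟨i₀, b⟩, hib⟩ := hne
  have hib' : i₀ ≠ b := mem_off.1 (hsub J hJ hib)
  -- one full column
  have step1 : ∀ (n : ℕ) (J : Finset (ι × ι)), PP J → (∃ i, (i, b) ∈ J) →
      (univ.filter fun i => i ≠ b ∧ (i, b) ∉ J).card ≤ n →
      ∃ J', PP J' ∧ ∀ i, i ≠ b → (i, b) ∈ J' := by
    intro n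
    induction n with
    | zero =>
      intro J hJ _ h0
      refine ⟨J, hJ, fun i hi => ?_⟩
      by_contra h
      have : i ∈ (univ.filter fun i => i ≠ b ∧ (i, b) ∉ J) := by simp [hi, h]
      exact absurd (card_pos.2 ⟨i, this⟩) (by omega)
    | succ n ih =>
      rintro J hJ ⟨i, hi⟩ hn
      by_cases hfull : ∀ i, i ≠ b → (i, b) ∈ J
      · exact ⟨J, hJ, hfull⟩
      · push Not at hfull
        obtain ⟨i', hi', hmiss⟩ := hfull
        have hib : i ≠ b := mem_off.1 (hsub J hJ hi)
        have hii : i ≠ i' := fun h => hmiss (h ▸ hi)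
        have hmem : ∀ l, l ≠ b → ((l, b) ∈ fold i i' J ↔ (if l = i' then i else l, b) ∈ J) := by
          intro l hl
          rw [mem_fold]
          simp only [ne_eq, hl, not_false_eq_true, true_and]
          have h5 : (if b = i then i' else b) = b := if_neg (fun h => hib h.symm)
          rw [h5]
        refine ih (fold i i' J) (hcl J hJ i i' hii) ⟨i, ?_⟩ ?_
        · rw [hmem i hib, if_neg hii]
          exact hi
        · have hss : (univ.filter fun l => l ≠ b ∧ (l, b) ∉ fold i i' J) ⊂
              (univ.filter fun l => l ≠ b ∧ (l, b) ∉ J) := by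
            rw [ssubset_iff_of_subset]
            · refine ⟨i', by simp [hi', hmiss], ?_⟩
              simp only [mem_filter, mem_univ, true_and, not_and, not_not]
              intro _
              rw [hmem i' hi', if_pos rfl]
              exact hi
            · intro l hl
              simp only [mem_filter, mem_univ, true_and] at hl ⊢
              refine ⟨hl.1, fun h => hl.2 ?_⟩
              have h5 : l ≠ i' := by
                rintro rfl
                exact hmiss h
              rw [hmem l hl.1, if_neg h5]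
              exact h
          have := card_lt_card hss
          omega
  obtain ⟨J₁, hJ₁, hfull₁⟩ := step1 _ J hJ ⟨i₀, hib⟩ le_rfl
  have step2 : ∀ (n : ℕ) (J : Finset (ι × ι)), PP J → (∀ i, i ≠ b → (i, b) ∈ J) →
      (univ.filter fun j => ¬ ∀ i, i ≠ j → (i, j) ∈ J).card ≤ n →
      ∃ J', PP J' ∧ ∀ j i, i ≠ j → (i, j) ∈ J' := by
    intro n
    induction n with
    | zero =>
      intro J hJ _ h0
      refine ⟨J, hJ, fun j => ?_⟩
      by_contra h
      have : j ∈ (univ.filter fun j => ¬ ∀ i, i ≠ j → (i, j) ∈ J) := by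
        simp only [mem_filter, mem_univ, true_and]
        exact h
      exact absurd (card_pos.2 ⟨j, this⟩) (by omega)
    | succ n ih =>
      rintro J hJ hb hn
      by_cases hfull : ∀ j i, i ≠ j → (i, j) ∈ J
      · exact ⟨J, hJ, hfull⟩
      · rw [not_forall] at hfull
        obtain ⟨j, hj⟩ := hfull
        have hjb : j ≠ b := fun h => hj (by rw [h]; exact hb)
        have hkeep : ∀ l, (∀ i, i ≠ l → (i, l) ∈ J) → ∀ i, i ≠ l → (i, l) ∈ fold j b J := by
          intro l hl i hi
          rw [mem_fold]
          refine ⟨hi, ?_⟩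
          have hlj : l ≠ j := fun h => hj (by rw [← h]; exact hl)
          simp only
          rw [if_neg hlj]
          by_cases h : i = b
          · rw [if_pos h]
            exact hl j hlj.symm
          · rw [if_neg h]
            exact hl i hi
        refine ih (fold j b J) (hcl J hJ j b hjb) (hkeep b hb) ?_
        have hss : (univ.filter fun l => ¬ ∀ i, i ≠ l → (i, l) ∈ fold j b J) ⊂
            (univ.filter fun l => ¬ ∀ i, i ≠ l → (i, l) ∈ J) := by
          rw [ssubset_iff_of_subset]
          · refine ⟨j, by simp only [mem_filter, mem_univ, true_and]; exact hj, ?_⟩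
            simp only [mem_filter, mem_univ, true_and, not_not]
            intro i hi
            rw [mem_fold]
            refine ⟨hi, ?_⟩
            simp only
            rw [if_true]
            by_cases h : i = b
            · rw [if_pos h]
              exact hb j hjb
            · rw [if_neg h]
              exact hb i h
          · intro l hl
            simp only [mem_filter, mem_univ, true_and] at hl ⊢
            exact fun h => hl (hkeep l h)
        have := card_lt_card hss
        omega
  obtain ⟨J₂, hJ₂, hfull₂⟩ := step2 _ J₁ hJ₁ hfull₁ le_rfl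
  have : J₂ = off ι := by
    refine Subset.antisymm (hsub _ hJ₂) fun q hq => ?_
    have := hfull₂ q.2 q.1 (mem_off.1 hq)
    simpa using this
  rwa [← this]

variable {X Y : Type} [Fintype X] [Fintype Y]

open Classical in
/-- the number of edges -/
noncomputable def ecount (E : X → Y → Prop) : ℝ :=
  ∑ p : X × Y, if E p.1 p.2 then (1 : ℝ) else 0

theorem cnt_empty (E : X → Y → Prop) :
    cnt E (∅ : Finset (ι × ι)) = ((Fintype.card X : ℝ) * Fintype.card Y) ^ Fintype.card ι := by
  classical
  unfold cnt
  have : ∀ p : (ι → X) × (ι → Y), IsHom E ∅ p := fun p q hq => absurd hq (notMem_empty _)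
  simp only [this, if_true]
  rw [sum_const, card_univ, Fintype.card_prod, Fintype.card_fun, Fintype.card_fun, nsmul_eq_mul,
    mul_one]
  push_cast
  rw [mul_pow]

theorem cnt_single (E : X → Y → Prop) (a b : ι) :
    cnt E ({(a, b)} : Finset (ι × ι)) * ((Fintype.card X : ℝ) * Fintype.card Y) =
      ecount E * ((Fintype.card X : ℝ) * Fintype.card Y) ^ Fintype.card ι := by
  classical
  have h1 : cnt E ({(a, b)} : Finset (ι × ι)) =
      ∑ x : ι → X, ∑ y : ι → Y, if E (x a) (y b) then (1 : ℝ) else 0 := by
    rw [cnt, Fintype.sum_prod_type]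
    refine sum_congr rfl fun x _ => sum_congr rfl fun y _ => ?_
    have : IsHom E ({(a, b)} : Finset (ι × ι)) (x, y) ↔ E (x a) (y b) := by
      simp [IsHom]
    simp only [this]
  have key : ∀ (Z : Type) [Fintype Z] (c : ι) (f : Z → ℝ),
      (∑ x : ι → Z, f (x c)) * Fintype.card Z = (∑ z, f z) * (Fintype.card Z : ℝ) ^ Fintype.card ι := by
    intro Z _ c f
    rw [← (Equiv.funSplitAt c Z).symm.sum_comp, Fintype.sum_prod_type]
    have : ∀ (z : Z) (w : {j // j ≠ c} → Z), f ((Equiv.funSplitAt c Z).symm (z, w) c) = f z := by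
      intro z w
      simp [Equiv.funSplitAt, Equiv.piSplitAt]
    simp only [this, sum_const, card_univ, Fintype.card_fun, nsmul_eq_mul]
    rw [← mul_sum]
    have hc : Fintype.card {j // j ≠ c} + 1 = Fintype.card ι := by
      rw [Fintype.card_subtype_compl, Fintype.card_subtype_eq]
      have : 0 < Fintype.card ι := Fintype.card_pos_iff.2 ⟨c⟩
      omega
    rw [← hc, pow_succ]
    push_cast
    ring
  have h2 : ∀ x : ι → X, (∑ y : ι → Y, if E (x a) (y b) then (1 : ℝ) else 0) * Fintype.card Y =
      (∑ y, if E (x a) y then (1 : ℝ) else 0) * (Fintype.card Y : ℝ) ^ Fintype.card ι :=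
    fun x => key Y b fun y => if E (x a) y then (1 : ℝ) else 0
  rw [h1, ← mul_assoc, mul_right_comm, sum_mul, sum_congr rfl fun x _ => h2 x, ← sum_mul,
    mul_right_comm, key X a fun x => ∑ y, if E x y then (1 : ℝ) else 0, ecount,
    Fintype.sum_prod_type, mul_pow]
  ring

/-- Sidorenko's inequality for the complete bipartite graph minus a perfect matching. -/
theorem sidorenko (E : X → Y → Prop) (hι : 2 ≤ Fintype.card ι) :
    ecount E ^ (off ι).card * ((Fintype.card X : ℝ) * Fintype.card Y) ^ Fintype.card ι ≤
      cnt E (off ι) * ((Fintype.card X : ℝ) * Fintype.card Y) ^ (off ι).card := by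
  classical
  set M : ℝ := (Fintype.card X : ℝ) * Fintype.card Y with hM
  obtain ⟨a, b, hab⟩ := Fintype.one_lt_card_iff.1 (show 1 < Fintype.card ι by omega)
  have hoff : 0 < (off ι).card := card_pos.2 ⟨(a, b), mem_off.2 hab⟩
  have he0 : 0 ≤ ecount E := sum_nonneg fun p _ => by split_ifs <;> norm_num
  rcases he0.eq_or_lt with he | he
  · rw [← he, zero_pow hoff.ne', zero_mul]
    exact mul_nonneg (cnt_nonneg _ _) (by positivity)
  have hMpos : 0 < M := by
    by_contra h
    have hM0 : M = 0 := le_antisymm (not_lt.1 h) (by positivity)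
    have hcard : Fintype.card (X × Y) = 0 := by
      have : ((Fintype.card (X × Y) : ℕ) : ℝ) = 0 := by
        rw [Fintype.card_prod]
        push_cast
        exact hM0
      exact_mod_cast this
    have : IsEmpty (X × Y) := Fintype.card_eq_zero_iff.1 hcard
    simp [ecount] at he
  set p : ℝ := ecount E / M with hp
  have hp0 : 0 < p := div_pos he hMpos
  set Φ : Finset (ι × ι) → ℝ := fun J => cnt E J / p ^ J.card with hΦ
  obtain ⟨J₀, hJ₀, hmax⟩ := exists_max_image (off ι).powerset Φ ⟨∅, by simp⟩
  set V := Φ J₀ with hV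
  have hΦe : Φ ∅ = M ^ Fintype.card ι := by
    simp only [hΦ, cnt_empty, card_empty, pow_zero, div_one]
    rfl
  have hΦs : Φ {(a, b)} = M ^ Fintype.card ι := by
    have h1 := cnt_single E a b
    simp only [hΦ, card_singleton, pow_one, hp]
    rw [← hM] at h1
    field_simp
    linarith
  have hVe : M ^ Fintype.card ι ≤ V := by
    rw [← hΦe]
    exact hmax ∅ (by simp)
  have hVpos : 0 < V := lt_of_lt_of_le (by positivity) hVe
  have key : Φ (off ι) = V := by
    have h1 : ∀ J : Finset (ι × ι), J ⊆ off ι ∧ Φ J = V → ∀ a b : ι, a ≠ b →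
        fold a b J ⊆ off ι ∧ Φ (fold a b J) = V := by
      rintro J ⟨hJ, hJV⟩ a b hab
      refine ⟨fold_sub_off a b J, ?_⟩
      have hJ' : ∀ q ∈ J, q.1 ≠ q.2 := fun q hq => mem_off.1 (hJ hq)
      have h2 : Φ J ^ 2 ≤ Φ (fold a b J) * Φ (fold b a J) := by
        simp only [hΦ]
        rw [div_pow, div_mul_div_comm, ← pow_add, card_fold hab J hJ', ← pow_mul,
          mul_comm J.card 2]
        exact div_le_div_of_nonneg_right (fold_ineq hab E J hJ') (by positivity)
      have h3 : Φ (fold a b J) ≤ V := hmax _ (mem_powerset.2 (fold_sub_off a b J))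
      have h4 : Φ (fold b a J) ≤ V := hmax _ (mem_powerset.2 (fold_sub_off b a J))
      have h5 : 0 ≤ Φ (fold a b J) := div_nonneg (cnt_nonneg _ _) (by positivity)
      rw [hJV] at h2
      nlinarith
    have h2 : ∃ J : Finset (ι × ι), (J ⊆ off ι ∧ Φ J = V) ∧ J.Nonempty := by
      rcases J₀.eq_empty_or_nonempty with h | h
      · refine ⟨{(a, b)}, ⟨by simpa [mem_off] using hab, ?_⟩, by simp⟩
        rw [hΦs, hV, h, hΦe]
      · exact ⟨J₀, ⟨mem_powerset.1 hJ₀, rfl⟩, h⟩
    obtain ⟨J, hJ, hne⟩ := h2
    exact (fold_closed (fun J => J ⊆ off ι ∧ Φ J = V) (fun J h => h.1) h1 J hJ hne).2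
  have h3 : M ^ Fintype.card ι ≤ cnt E (off ι) / p ^ (off ι).card := by
    have : Φ (off ι) = cnt E (off ι) / p ^ (off ι).card := rfl
    rw [← this, key]
    exact hVe
  rw [le_div_iff₀ (by positivity), hp, div_pow, mul_div_assoc', div_le_iff₀ (by positivity)] at h3
  linarith

end Pool.Agent.W5h8.HN
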