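import Pool.Agent.W5h8.HNB

/-!
# Common neighbours of tuples
-/

set_option autoImplicit false

namespace Pool.Agent.W5h8.HN

open Finset

section Defs

variable {X Y : Type}

/-- `s` distinct elements of `X` have fewer than `t` common neighbours. -/
def NoK (s t : ℕ) (E : X → Y → Prop) : Prop :=
  ∀ S : Finset X, S.card = s → {y | ∀ x ∈ S, E x y}.ncard < t

/-- The sets `N(y) = {x | E x y}` have Helly number at most `h`: if any `h` (or fewer) members of a
subfamily have a common element, then all members have. -/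
def Helly (h : ℕ) (E : X → Y → Prop) : Prop :=
  ∀ F : Set Y, (∀ S : Finset Y, (∀ y ∈ S, y ∈ F) → S.card ≤ h → ∃ x, ∀ y ∈ S, E x y) →
    ∃ x, ∀ y ∈ F, E x y

theorem Helly.mono {h k : ℕ} (hk : h ≤ k) {E : X → Y → Prop} (hE : Helly h E) : Helly k E :=
  fun F hF => hE F fun S hS hc => hF S hS (hc.trans hk)

/-- The condition of Berge and Duchet. -/
theorem Helly.center {h : ℕ} {E : X → Y → Prop} (hE : Helly h E) {ι : Type} [Fintype ι]
    (hι : Fintype.card ι = h + 1) (x : ι → X) :
    ∃ z, ∀ y, (∃ i, ∀ j, j ≠ i → E (x j) y) → E z y := by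
  classical
  obtain ⟨z, hz⟩ := hE {y | ∃ i, ∀ j, j ≠ i → E (x j) y} (by
    intro S hS hc
    have hne : Nonempty ι := Fintype.card_pos_iff.1 (by omega)
    choose! f hf using fun y (hy : y ∈ S) => hS y hy
    have hcard : (S.image f).card < Fintype.card ι := by
      have := card_image_le (s := S) (f := f)
      omega
    obtain ⟨j, hj⟩ : ∃ j, j ∉ S.image f := by
      by_contra hcon
      push Not at hcon
      have : S.image f = univ := eq_univ_iff_forall.2 hcon
      rw [this, card_univ] at hcard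
      exact lt_irrefl _ hcard
    refine ⟨x j, fun y hy => hf y hy j ?_⟩
    rintro rfl
    exact hj (mem_image_of_mem f hy))
  exact ⟨z, fun y hy => hz y hy⟩

end Defs

section Count

variable {X Y : Type} [Fintype X] [Fintype Y]

open Classical in
/-- common neighbours of a tuple -/
noncomputable def co {κ : Type} (E : X → Y → Prop) (x : κ → X) : Finset Y :=
  univ.filter fun y => ∀ i, E (x i) y

omit [Fintype X] in
theorem mem_co {κ : Type} {E : X → Y → Prop} {x : κ → X} {y : Y} :
    y ∈ co E x ↔ ∀ i, E (x i) y := by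
  classical
  simp [co]

open Classical in
/-- neighbours of an element of `X` -/
noncomputable def nb (E : X → Y → Prop) (x : X) : Finset Y := univ.filter fun y => E x y

omit [Fintype X] in
theorem mem_nb {E : X → Y → Prop} {x : X} {y : Y} : y ∈ nb E x ↔ E x y := by
  classical
  simp [nb]

omit [Fintype X] in
theorem NoK.co_lt {s t : ℕ} {E : X → Y → Prop} (hK : NoK s t E) {κ : Type} [Fintype κ]
    (hκ : Fintype.card κ = s) {x : κ → X} (hx : Function.Injective x) : (co E x).card < t := by
  classical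
  have h := hK (univ.image x) (by rw [card_image_of_injective _ hx, card_univ, hκ])
  have h2 : {y | ∀ z ∈ univ.image x, E z y} = (co E x : Set Y) := by
    ext y
    simp [mem_co]
  rwa [h2, Set.ncard_coe_finset] at h

theorem pow_le_desc (m s : ℕ) (hs : 1 ≤ s) :
    m ^ s ≤ (2 * s) ^ s * (m + m.descFactorial s) := by
  rcases Nat.eq_zero_or_pos m with rfl | hm
  · rw [zero_pow (by omega)]
    exact Nat.zero_le _
  rcases lt_or_ge m (2 * s) with h | h
  · calc m ^ s ≤ (2 * s) ^ s := Nat.pow_le_pow_left h.le s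
      _ ≤ (2 * s) ^ s * (m + m.descFactorial s) := Nat.le_mul_of_pos_right _ (by omega)
  · calc m ^ s ≤ (2 * (m + 1 - s)) ^ s := Nat.pow_le_pow_left (by omega) s
      _ = 2 ^ s * (m + 1 - s) ^ s := mul_pow _ _ _
      _ ≤ (2 * s) ^ s * m.descFactorial s :=
        Nat.mul_le_mul (Nat.pow_le_pow_left (by omega) s) (Nat.pow_sub_le_descFactorial m s)
      _ ≤ _ := Nat.mul_le_mul_left _ (by omega)

open Classical in
omit [Fintype X] in
theorem desc_eq (E : X → Y → Prop) {κ : Type} (x : κ → X) (s : ℕ) :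
    ((co E x).card).descFactorial s =
      ∑ T : Fin s ↪ Y, if ∀ i, T i ∈ co E x then 1 else 0 := by
  have h1 : ((co E x).card).descFactorial s = Fintype.card (Fin s ↪ {y // y ∈ co E x}) := by
    rw [Fintype.card_embedding_eq, Fintype.card_fin, Fintype.card_coe]
  have h2 : Fintype.card {T : Fin s ↪ Y // ∀ i, T i ∈ co E x} =
      ∑ T : Fin s ↪ Y, if ∀ i, T i ∈ co E x then 1 else 0 := by
    rw [Fintype.card_subtype, card_filter]
  rw [h1, ← h2]
  refine Fintype.card_congr ⟨fun T => ⟨T.trans (Function.Embedding.subtype _), fun i => (T i).2⟩,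
    fun T => ⟨fun i => ⟨T.1 i, T.2 i⟩, fun i j h => T.1.injective (by simpa using h)⟩,
    fun T => ?_, fun T => ?_⟩
  · ext i
    rfl
  · ext i
    rfl

open Classical in
theorem card_fun_mem {κ : Type} [Fintype κ] [DecidableEq κ] {Z : Type} [Fintype Z] (A : Finset Z) :
    A.card ^ Fintype.card κ = ∑ x : κ → Z, if ∀ i, x i ∈ A then 1 else 0 := by
  rw [← card_filter]
  have : (univ.filter fun x : κ → Z => ∀ i, x i ∈ A) = Fintype.piFinset fun _ => A := by
    ext x
    simp [Fintype.mem_piFinset]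
  rw [this, Fintype.card_piFinset, prod_const, card_univ]

theorem sum_co_pow (E : X → Y → Prop) {κ : Type} [Fintype κ] [DecidableEq κ] (s : ℕ)
    (hs : 1 ≤ s) :
    ∑ x : κ → X, (co E x).card ^ s ≤ (2 * s) ^ s * (∑ x : κ → X, (co E x).card +
      ∑ T : Fin s ↪ Y, (co (fun y x => E x y) (T : Fin s → Y)).card ^ Fintype.card κ) := by
  classical
  have h2 : ∑ x : κ → X, ((co E x).card).descFactorial s =
      ∑ T : Fin s ↪ Y, (co (fun y x => E x y) (T : Fin s → Y)).card ^ Fintype.card κ := by
    rw [sum_congr rfl fun x _ => desc_eq E x s, sum_comm]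
    refine sum_congr rfl fun T _ => ?_
    rw [card_fun_mem]
    refine sum_congr rfl fun x _ => ?_
    have : (∀ i, T i ∈ co E x) ↔ ∀ j, x j ∈ co (fun y x => E x y) (T : Fin s → Y) := by
      simp only [mem_co]
      exact ⟨fun h j i => h i j, fun h i j => h j i⟩
    simp only [this]
  calc ∑ x : κ → X, (co E x).card ^ s
      ≤ ∑ x : κ → X, (2 * s) ^ s * ((co E x).card + ((co E x).card).descFactorial s) :=
        sum_le_sum fun x _ => pow_le_desc _ s hs
    _ = (2 * s) ^ s * (∑ x : κ → X, (co E x).card +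
          ∑ x : κ → X, ((co E x).card).descFactorial s) := by
        rw [← mul_sum, sum_add_distrib]
    _ = _ := by rw [h2]

/-- exchanging the order -/
theorem sum_co (E : X → Y → Prop) {κ : Type} [Fintype κ] [DecidableEq κ] :
    ∑ x : κ → X, (co E x).card = ∑ y : Y, (nb (fun y x => E x y) y).card ^ Fintype.card κ := by
  classical
  have h1 : ∀ x : κ → X, (co E x).card = ∑ y : Y, if y ∈ co E x then 1 else 0 := by
    intro x
    simp
  rw [sum_congr rfl fun x _ => h1 x, sum_comm]
  refine sum_congr rfl fun y _ => ?_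
  rw [card_fun_mem]
  refine sum_congr rfl fun x _ => ?_
  simp only [mem_nb, mem_co]

theorem sum_co_emb (E : X → Y → Prop) (s : ℕ) :
    ∑ T : Fin s ↪ X, (co E (T : Fin s → X)).card ≤
      ∑ y : Y, (nb (fun y x => E x y) y).card ^ s := by
  classical
  have h := sum_co E (κ := Fin s)
  rw [Fintype.card_fin] at h
  rw [← h]
  have : ∑ T : Fin s ↪ X, (co E (T : Fin s → X)).card =
      ∑ x ∈ univ.image (fun T : Fin s ↪ X => (T : Fin s → X)), (co E x).card := by
    rw [sum_image]
    intro T _ T' _ hTT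
    exact DFunLike.coe_injective hTT
  rw [this]
  exact sum_le_sum_of_subset (subset_univ _)

theorem edges_le (E : X → Y → Prop) (n : ℕ) (hX : Fintype.card X ≤ n) (hY : Fintype.card Y ≤ n) :
    ∑ x : X, (nb E x).card ≤ n * n := by
  classical
  calc ∑ x : X, (nb E x).card ≤ ∑ _x : X, n := sum_le_sum fun x _ => by
        refine le_trans (card_le_card (subset_univ _)) ?_
        rw [card_univ]
        exact hY
    _ ≤ n * n := by
        rw [sum_const, card_univ, smul_eq_mul]
        exact Nat.mul_le_mul_right n hX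

/-- the sum of the powers of the degrees -/
theorem sum_deg_pow {s t n : ℕ} (hs : 2 ≤ s) (E : X → Y → Prop)
    (hK : NoK s t fun y x => E x y) (hX : Fintype.card X ≤ n) (hY : Fintype.card Y ≤ n) :
    ∑ x : X, (nb E x).card ^ s ≤ (2 * s) ^ s * (1 + t) * n ^ s := by
  classical
  have h1 := sum_co_pow E (κ := Unit) s (by omega)
  have h2 : ∀ f : (Unit → X) → ℕ, ∑ x : Unit → X, f x = ∑ x : X, f fun _ => x := by
    intro f
    rw [← (Equiv.funUnique Unit X).symm.sum_comp]
    rfl
  have h3 : ∀ x : X, co E (fun _ : Unit => x) = nb E x := by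
    intro x
    ext y
    simp [mem_co, mem_nb]
  rw [h2, h2] at h1
  simp only [h3, Fintype.card_unit, pow_one] at h1
  have h4 : ∑ T : Fin s ↪ Y, (co (fun y x => E x y) (T : Fin s → Y)).card ≤ t * n ^ s := by
    calc ∑ T : Fin s ↪ Y, (co (fun y x => E x y) (T : Fin s → Y)).card
        ≤ ∑ _T : Fin s ↪ Y, t := sum_le_sum fun T _ =>
          (hK.co_lt (by simp) T.injective).le
      _ = Fintype.card (Fin s ↪ Y) * t := by rw [sum_const, card_univ, smul_eq_mul]
      _ ≤ n ^ s * t := by
          refine Nat.mul_le_mul_right t ?_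
          rw [Fintype.card_embedding_eq, Fintype.card_fin]
          exact (Nat.descFactorial_le_pow _ _).trans (Nat.pow_le_pow_left hY s)
      _ = t * n ^ s := mul_comm _ _
  have h5 := edges_le E n hX hY
  have h6 : n * n ≤ n ^ s := by
    rcases Nat.eq_zero_or_pos n with rfl | hn
    · simp
    · rw [← sq]
      exact Nat.pow_le_pow_right hn hs
  calc ∑ x : X, (nb E x).card ^ s ≤ _ := h1
    _ ≤ (2 * s) ^ s * (n ^ s + t * n ^ s) := Nat.mul_le_mul_left _ (by omega)
    _ = _ := by ring

/-- homomorphisms of `K_{s-1,s}` if the degrees are at most `μ` -/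
theorem sum_co_pow_deg {s t n μ : ℕ} (hs : 2 ≤ s) (hμ : 1 ≤ μ) (E : X → Y → Prop)
    (hK : NoK s t fun y x => E x y) (hX : Fintype.card X ≤ n) (hY : Fintype.card Y ≤ n)
    (hdX : ∀ x, (nb E x).card ≤ μ) (hdY : ∀ y, (nb (fun y x => E x y) y).card ≤ μ)
    {κ : Type} [Fintype κ] [DecidableEq κ] (hκ : Fintype.card κ + 1 = s) :
    ∑ x : κ → X, (co E x).card ^ s ≤ (2 * s) ^ s * (1 + t ^ s) * (n * μ ^ s) := by
  classical
  have h1 := sum_co_pow E (κ := κ) s (by omega)
  have h2 : ∑ x : κ → X, (co E x).card ≤ n * μ ^ s := by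
    rw [sum_co]
    calc ∑ y : Y, (nb (fun y x => E x y) y).card ^ Fintype.card κ
        ≤ ∑ _y : Y, μ ^ s := sum_le_sum fun y _ =>
          (Nat.pow_le_pow_left (hdY y) _).trans (Nat.pow_le_pow_right hμ (by omega))
      _ = Fintype.card Y * μ ^ s := by rw [sum_const, card_univ, smul_eq_mul]
      _ ≤ n * μ ^ s := Nat.mul_le_mul_right _ hY
  have h3 : ∑ T : Fin s ↪ Y, (co (fun y x => E x y) (T : Fin s → Y)).card ^ Fintype.card κ ≤
      t ^ s * (n * μ ^ s) := by
    have h4 : ∀ T : Fin s ↪ Y,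
        (co (fun y x => E x y) (T : Fin s → Y)).card ^ Fintype.card κ ≤
          t ^ s * (co (fun y x => E x y) (T : Fin s → Y)).card := by
      intro T
      have h5 := hK.co_lt (by simp) T.injective
      obtain ⟨k, hk⟩ : ∃ k, Fintype.card κ = k + 1 := ⟨Fintype.card κ - 1, by omega⟩
      rw [hk, pow_succ]
      refine Nat.mul_le_mul_right _ ?_
      exact (Nat.pow_le_pow_left h5.le k).trans (Nat.pow_le_pow_right (by omega) (by omega))
    calc _ ≤ ∑ T : Fin s ↪ Y, t ^ s * (co (fun y x => E x y) (T : Fin s → Y)).card :=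
          sum_le_sum fun T _ => h4 T
      _ = t ^ s * ∑ T : Fin s ↪ Y, (co (fun y x => E x y) (T : Fin s → Y)).card := by
          rw [mul_sum]
      _ ≤ t ^ s * ∑ x : X, (nb E x).card ^ s :=
          Nat.mul_le_mul_left _ (sum_co_emb (fun y x => E x y) s)
      _ ≤ t ^ s * ∑ _x : X, μ ^ s :=
          Nat.mul_le_mul_left _ (sum_le_sum fun x _ => Nat.pow_le_pow_left (hdX x) s)
      _ = t ^ s * (Fintype.card X * μ ^ s) := by rw [sum_const, card_univ, smul_eq_mul]
      _ ≤ _ := Nat.mul_le_mul_left _ (Nat.mul_le_mul_right _ hX)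
  calc ∑ x : κ → X, (co E x).card ^ s ≤ _ := h1
    _ ≤ (2 * s) ^ s * (n * μ ^ s + t ^ s * (n * μ ^ s)) :=
        Nat.mul_le_mul_left _ (Nat.add_le_add h2 h3)
    _ = _ := by ring

end Count

end Pool.Agent.W5h8.HN
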