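import Pool.Agent.W5h8.HNC

/-!
# Upper bounds for the numbers of homomorphisms
-/

set_option autoImplicit false

namespace Pool.Agent.W5h8.HN

open Finset

variable {X Y ι : Type} [Fintype X] [Fintype Y] [Fintype ι] [DecidableEq ι]

/-- homomorphisms of the complete bipartite graph minus a perfect matching -/
def Hm (E : X → Y → Prop) (x : ι → X) (y : ι → Y) : Prop := ∀ i j, i ≠ j → E (x i) (y j)

omit [Fintype X] [Fintype Y] [Fintype ι] [DecidableEq ι] in
theorem Hm.swap {E : X → Y → Prop} {x : ι → X} {y : ι → Y} (h : Hm E x y) :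
    Hm (fun y x => E x y) y x := fun i j hij => h j i hij.symm

theorem card_ne {κ : Type} [Fintype κ] [DecidableEq κ] (e : κ) :
    Fintype.card {i // i ≠ e} + 1 = Fintype.card κ := by
  have h : 0 < Fintype.card κ := Fintype.card_pos_iff.2 ⟨e⟩
  have h2 : Fintype.card {i // i ≠ e} = Fintype.card κ - 1 := by
    rw [Fintype.card_subtype, filter_ne' univ e, card_erase_of_mem (mem_univ e), card_univ]
  omega

omit [Fintype X] [Fintype Y] [Fintype ι] [DecidableEq ι] in
theorem prod_le_sum_pow {κ J : Type} [Fintype κ] [Nonempty κ] (f : κ → ℕ) (S : Finset J)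
    (m : J → κ) : ∏ j ∈ S, f (m j) ≤ ∑ i, f i ^ S.card := by
  obtain ⟨i₀, -, h₀⟩ := exists_max_image (univ : Finset κ) f univ_nonempty
  calc ∏ j ∈ S, f (m j) ≤ ∏ _j ∈ S, f i₀ := prod_le_prod' fun j _ => h₀ _ (mem_univ _)
    _ = f i₀ ^ S.card := prod_const _
    _ ≤ ∑ i, f i ^ S.card := single_le_sum (f := fun i => f i ^ S.card)
        (fun i _ => Nat.zero_le _) (mem_univ i₀)

omit [Fintype ι] [DecidableEq ι] in
/-- summation over one coordinate -/
theorem peel {κ : Type} [Fintype κ] [DecidableEq κ] (E : X → Y → Prop) (μ r : ℕ)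
    (hdY : ∀ y, (nb (fun y x => E x y) y).card ≤ μ) (i : κ) :
    ∑ x : κ → X, (co E x).card * (co E fun j : {j // j ≠ i} => x j).card ^ r ≤
      μ * ∑ S : {j // j ≠ i} → X, (co E S).card ^ (r + 1) := by
  classical
  rw [← (Equiv.funSplitAt i X).symm.sum_comp, Fintype.sum_prod_type, sum_comm, mul_sum]
  refine sum_le_sum fun S _ => ?_
  have h1 : ∀ v : X, (fun j : {j // j ≠ i} => (Equiv.funSplitAt i X).symm (v, S) (j : κ)) = S := by
    intro v
    funext j
    simp [Equiv.funSplitAt, Equiv.piSplitAt, j.2]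
  have h2 : ∀ v : X, (co E ((Equiv.funSplitAt i X).symm (v, S))).card ≤
      ∑ y ∈ co E S, if E v y then 1 else 0 := by
    intro v
    rw [← card_filter]
    refine card_le_card fun y hy => ?_
    rw [mem_co] at hy
    rw [mem_filter, mem_co]
    refine ⟨fun j => ?_, ?_⟩
    · have h3 := hy j
      have h4 : (Equiv.funSplitAt i X).symm (v, S) (j : κ) = S j := congrFun (h1 v) j
      rwa [h4] at h3
    · have h3 := hy i
      simpa [Equiv.funSplitAt, Equiv.piSplitAt] using h3
  calc ∑ v : X, (co E ((Equiv.funSplitAt i X).symm (v, S))).card *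
        (co E fun j : {j // j ≠ i} => (Equiv.funSplitAt i X).symm (v, S) j).card ^ r
      ≤ ∑ v : X, (∑ y ∈ co E S, if E v y then 1 else 0) * (co E S).card ^ r := by
        refine sum_le_sum fun v _ => ?_
        rw [h1 v]
        exact Nat.mul_le_mul_right _ (h2 v)
    _ = (∑ y ∈ co E S, ∑ v : X, if E v y then 1 else 0) * (co E S).card ^ r := by
        rw [← sum_mul, sum_comm]
    _ ≤ (∑ _y ∈ co E S, μ) * (co E S).card ^ r := by
        refine Nat.mul_le_mul_right _ (sum_le_sum fun y _ => ?_)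
        rw [← card_filter]
        exact hdY y
    _ = μ * (co E S).card ^ (r + 1) := by
        rw [sum_const, smul_eq_mul]
        ring

/-- coincidences on both sides -/
theorem coincide {s μ Q : ℕ} (hs : 2 ≤ s) (hι : Fintype.card ι = s + 1) (E : X → Y → Prop)
    (hdY : ∀ y, (nb (fun y x => E x y) y).card ≤ μ)
    (hQ : ∀ (κ : Type) [Fintype κ] [DecidableEq κ], Fintype.card κ + 1 = s →
      ∑ x : κ → X, (co E x).card ^ s ≤ Q)
    {a b c d : ι} (hab : a ≠ b) (hcd : c ≠ d) (A : Finset ((ι → X) × (ι → Y)))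
    (hA : ∀ p ∈ A, Hm E p.1 p.2 ∧ p.1 a = p.1 b ∧ p.2 c = p.2 d) :
    A.card ≤ s * (μ * Q) := by
  classical
  have hcard : ∀ e : ι, Fintype.card {i // i ≠ e} = s := by
    intro e
    have := card_ne e
    omega
  -- restriction
  let res : (ι → X) × (ι → Y) → ({i // i ≠ b} → X) × ({j // j ≠ d} → Y) :=
    fun p => (fun i => p.1 i, fun j => p.2 j)
  let m : {j // j ≠ d} → {i // i ≠ b} := fun j => if h : (j : ι) = b then ⟨a, hab⟩ else ⟨j, h⟩
  have hne : Nonempty {i // i ≠ b} := ⟨⟨a, hab⟩⟩
  let D : ({i // i ≠ b} → X) → {i // i ≠ b} → Finset Y := fun x i =>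
    co E fun j : {j // j ≠ i} => x j
  let B : Finset (({i // i ≠ b} → X) × ({j // j ≠ d} → Y)) :=
    univ.sigma (fun x => Fintype.piFinset fun j : {j // j ≠ d} =>
      if j = ⟨c, hcd⟩ then co E x else D x (m j)) |>.map
        ⟨fun q => (q.1, q.2), by rintro ⟨_, _⟩ ⟨_, _⟩ h; simpa using h⟩
  have hinj : Set.InjOn res A := by
    intro p hp q hq hpq
    have hp' := hA p hp
    have hq' := hA q hq
    have h1 : ∀ i, i ≠ b → p.1 i = q.1 i := fun i hi => congrFun (congrArg Prod.fst hpq) ⟨i, hi⟩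
    have h2 : ∀ j, j ≠ d → p.2 j = q.2 j := fun i hi => congrFun (congrArg Prod.snd hpq) ⟨i, hi⟩
    refine Prod.ext (funext fun i => ?_) (funext fun j => ?_)
    · by_cases h : i = b
      · rw [h, ← hp'.2.1, ← hq'.2.1]
        exact h1 a hab
      · exact h1 i h
    · by_cases h : j = d
      · rw [h, ← hp'.2.2, ← hq'.2.2]
        exact h2 c hcd
      · exact h2 j h
  have hmaps : ∀ p ∈ A, res p ∈ B := by
    intro p hp
    obtain ⟨h1, h2, h3⟩ := hA p hp
    simp only [B, mem_map, mem_sigma, mem_univ, true_and, Function.Embedding.coeFn_mk]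
    refine ⟨⟨(res p).1, (res p).2⟩, ?_, rfl⟩
    simp only [Fintype.mem_piFinset]
    intro j
    by_cases hj : j = ⟨c, hcd⟩
    · rw [if_pos hj, mem_co, hj]
      intro i
      simp only [res]
      by_cases hic : (i : ι) = c
      · rw [h3]
        exact h1 _ _ (by rw [hic]; exact hcd)
      · exact h1 _ _ hic
    · rw [if_neg hj]
      simp only [D, mem_co, res, m]
      intro i
      by_cases hjb : (j : ι) = b
      · have h4 := i.1.2
        exact h1 _ _ fun h => h4 (h.trans hjb)
      · have h4 : (i : {i // i ≠ b}) ≠ ⟨j, hjb⟩ := by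
          have := i.2
          simpa only [m, hjb, dite_false] using this
        refine h1 _ _ fun h5 => h4 (Subtype.ext h5)
  have hcardB : B.card ≤ ∑ x : {i // i ≠ b} → X, (co E x).card * ∑ i, (D x i).card ^ (s - 1) := by
    rw [card_map, card_sigma]
    refine sum_le_sum fun x _ => ?_
    rw [Fintype.card_piFinset, ← mul_prod_erase univ _ (mem_univ (⟨c, hcd⟩ : {j // j ≠ d})),
      if_pos rfl]
    refine Nat.mul_le_mul_left _ ?_
    have h1 : ∏ j ∈ univ.erase (⟨c, hcd⟩ : {j // j ≠ d}),
        (if j = ⟨c, hcd⟩ then co E x else D x (m j)).card =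
        ∏ j ∈ univ.erase (⟨c, hcd⟩ : {j // j ≠ d}), (D x (m j)).card := by
      refine prod_congr rfl fun j hj => ?_
      rw [if_neg (ne_of_mem_erase hj)]
    rw [h1]
    have h2 : (univ.erase (⟨c, hcd⟩ : {j // j ≠ d})).card = s - 1 := by
      rw [card_erase_of_mem (mem_univ _), card_univ, hcard d]
    have h3 := prod_le_sum_pow (fun i => (D x i).card) (univ.erase (⟨c, hcd⟩ : {j // j ≠ d})) m
    rwa [h2] at h3
  calc A.card ≤ B.card := card_le_card_of_injOn res hmaps hinj
    _ ≤ ∑ x : {i // i ≠ b} → X, (co E x).card * ∑ i, (D x i).card ^ (s - 1) := hcardB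
    _ = ∑ i, ∑ x : {i // i ≠ b} → X, (co E x).card * (D x i).card ^ (s - 1) := by
        rw [sum_comm]
        exact sum_congr rfl fun x _ => mul_sum _ _ _
    _ ≤ ∑ _i : {i // i ≠ b}, μ * Q := by
        refine sum_le_sum fun i _ => ?_
        refine (peel E μ (s - 1) hdY i).trans (Nat.mul_le_mul_left _ ?_)
        rw [Nat.sub_add_cancel (by omega)]
        refine hQ _ ?_
        have h2 := card_ne i
        have h3 := hcard b
        omega
    _ = s * (μ * Q) := by
        rw [sum_const, card_univ, hcard b, smul_eq_mul]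

/-- `x` injective and one additional edge -/
theorem inj_bad {s t μ n : ℕ} (hι : Fintype.card ι = s + 1) (E : X → Y → Prop)
    (hK : NoK s t E) (hY : Fintype.card Y ≤ n)
    (hdY : ∀ y, (nb (fun y x => E x y) y).card ≤ μ) (a : ι)
    (A : Finset ((ι → X) × (ι → Y)))
    (hA : ∀ p ∈ A, Hm E p.1 p.2 ∧ Function.Injective p.1 ∧ E (p.1 a) (p.2 a)) :
    A.card ≤ t ^ s * (n * μ ^ (s + 1)) := by
  classical
  have hcard : ∀ e : ι, Fintype.card {i // i ≠ e} = s := by
    intro e
    have := card_ne e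
    omega
  let C : (ι → X) → ι → Finset Y := fun x j =>
    if j = a then co E x else co E fun i : {i // i ≠ j} => x i
  let B : Finset (Σ _ : ι → X, (ι → Y)) :=
    (univ.filter fun x : ι → X => Function.Injective x).sigma fun x => Fintype.piFinset (C x)
  have h1 : A.card ≤ B.card := by
    refine card_le_card_of_injOn (fun p => ⟨p.1, p.2⟩) ?_ ?_
    · intro p hp
      obtain ⟨h1, h2, h3⟩ := hA p hp
      simp only [B, coe_sigma, Set.mem_sigma_iff, mem_coe, mem_filter, mem_univ, true_and,
        Fintype.mem_piFinset]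
      refine ⟨h2, fun j => ?_⟩
      simp only [C]
      split_ifs with hj
      · rw [mem_co]
        intro i
        by_cases hij : i = j
        · rw [hij, hj]
          exact h3
        · exact h1 i j hij
      · rw [mem_co]
        exact fun i => h1 _ _ i.2
    · rintro ⟨p1, p2⟩ _ ⟨q1, q2⟩ _ h
      simpa using h
  have h2 : B.card ≤ ∑ x : ι → X, (co E x).card * t ^ s := by
    rw [card_sigma]
    refine le_trans (sum_le_sum fun x hx => ?_) (sum_le_sum_of_subset (filter_subset _ _))
    rw [mem_filter] at hx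
    rw [Fintype.card_piFinset, ← mul_prod_erase univ _ (mem_univ a)]
    have h3 : C x a = co E x := if_pos rfl
    rw [h3]
    refine Nat.mul_le_mul_left _ ?_
    calc ∏ j ∈ univ.erase a, (C x j).card ≤ ∏ _j ∈ univ.erase a, t := by
          refine prod_le_prod' fun j hj => ?_
          have h4 : C x j = co E fun i : {i // i ≠ j} => x i := if_neg (ne_of_mem_erase hj)
          rw [h4]
          exact (hK.co_lt (hcard j) (hx.2.comp Subtype.val_injective)).le
      _ = t ^ s := by
          rw [prod_const, card_erase_of_mem (mem_univ _), card_univ, hι, Nat.add_sub_cancel]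
  calc A.card ≤ B.card := h1
    _ ≤ ∑ x : ι → X, (co E x).card * t ^ s := h2
    _ = t ^ s * ∑ y : Y, (nb (fun y x => E x y) y).card ^ (s + 1) := by
        rw [← sum_mul, sum_co, hι, mul_comm]
    _ ≤ t ^ s * ∑ _y : Y, μ ^ (s + 1) :=
        Nat.mul_le_mul_left _ (sum_le_sum fun y _ => Nat.pow_le_pow_left (hdY y) _)
    _ = t ^ s * (Fintype.card Y * μ ^ (s + 1)) := by rw [sum_const, card_univ, smul_eq_mul]
    _ ≤ _ := Nat.mul_le_mul_left _ (Nat.mul_le_mul_right _ hY)

/-- homomorphisms with `y` in the neighbourhood of `z` -/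
theorem low_center {s t μ : ℕ} (hι : Fintype.card ι = s + 1) (E E₀ : X → Y → Prop)
    (hK : NoK s t fun y x => E x y) (z : X) (hz : (nb E₀ z).card ≤ μ)
    (A : Finset ((ι → X) × (ι → Y)))
    (hA : ∀ p ∈ A, Hm E p.1 p.2 ∧ Function.Injective p.2 ∧ ∀ j, E₀ z (p.2 j)) :
    A.card ≤ t ^ (s + 1) * μ ^ (s + 1) := by
  classical
  have hcard : ∀ e : ι, Fintype.card {i // i ≠ e} = s := by
    intro e
    have := card_ne e
    omega
  let C : (ι → Y) → ι → Finset X := fun y i => co (fun y x => E x y) fun j : {j // j ≠ i} => y j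
  let B : Finset (Σ _ : ι → Y, (ι → X)) :=
    ((Fintype.piFinset fun _ => nb E₀ z).filter fun y : ι → Y => Function.Injective y).sigma
      fun y => Fintype.piFinset (C y)
  have h1 : A.card ≤ B.card := by
    refine card_le_card_of_injOn (fun p => ⟨p.2, p.1⟩) ?_ ?_
    · intro p hp
      obtain ⟨h1, h2, h3⟩ := hA p hp
      simp only [B, coe_sigma, Set.mem_sigma_iff, mem_coe, mem_filter, Fintype.mem_piFinset]
      refine ⟨⟨fun j => mem_nb.2 (h3 j), h2⟩, fun i => ?_⟩
      simp only [C, mem_co]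
      exact fun j => h1 _ _ j.2.symm
    · rintro ⟨p1, p2⟩ _ ⟨q1, q2⟩ _ h
      simp only [Sigma.mk.injEq, heq_eq_eq] at h
      rw [h.1, h.2]
  have h2 : B.card ≤ μ ^ (s + 1) * t ^ (s + 1) := by
    rw [card_sigma]
    calc _ ≤ ∑ _y ∈ ((Fintype.piFinset fun _ => nb E₀ z).filter
          fun y : ι → Y => Function.Injective y), t ^ (s + 1) := by
          refine sum_le_sum fun y hy => ?_
          rw [mem_filter] at hy
          rw [Fintype.card_piFinset]
          calc ∏ i, (C y i).card ≤ ∏ _i : ι, t := prod_le_prod' fun i _ =>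
                (hK.co_lt (hcard i) (hy.2.comp Subtype.val_injective)).le
            _ = t ^ (s + 1) := by rw [prod_const, card_univ, hι]
      _ ≤ ∑ _y ∈ (Fintype.piFinset fun _ : ι => nb E₀ z), t ^ (s + 1) :=
          sum_le_sum_of_subset (filter_subset _ _)
      _ = (nb E₀ z).card ^ (s + 1) * t ^ (s + 1) := by
          rw [sum_const, smul_eq_mul, Fintype.card_piFinset, prod_const, card_univ, hι]
      _ ≤ _ := Nat.mul_le_mul_right _ (Nat.pow_le_pow_left hz _)
  calc A.card ≤ B.card := h1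
    _ ≤ _ := h2
    _ = _ := mul_comm _ _

end Pool.Agent.W5h8.HN
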