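import Pool.Agent.W5h8.HND

/-!
# Homomorphisms with a center of large degree
-/

set_option autoImplicit false

namespace Pool.Agent.W5h8.HN

open Finset

theorem card_step {α β : Type} [Finite α] [Finite β] (P : α × β → Prop) (c : ℕ)
    (h : ∀ a, {b | P (a, b)}.ncard ≤ c) :
    {p | P p}.ncard ≤ c * {a | ∃ b, P (a, b)}.ncard := by
  classical
  have := Fintype.ofFinite α
  have := Fintype.ofFinite β
  have e1 : {p | P p}.ncard = (univ.filter P).card := by
    rw [← Set.ncard_coe_finset]
    congr 1
    ext p
    simp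
  have e2 : {a | ∃ b, P (a, b)}.ncard = (univ.filter fun a => ∃ b, P (a, b)).card := by
    rw [← Set.ncard_coe_finset]
    congr 1
    ext p
    simp
  rw [e1, e2, card_filter, Fintype.sum_prod_type]
  have h1 : ∀ a : α, (∑ b : β, if P (a, b) then 1 else 0) ≤ if ∃ b, P (a, b) then c else 0 := by
    intro a
    rw [← card_filter]
    split_ifs with h2
    · have e3 : {b | P (a, b)}.ncard = (univ.filter fun b => P (a, b)).card := by
        rw [← Set.ncard_coe_finset]
        congr 1
        ext p
        simp
      rw [← e3]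
      exact h a
    · push Not at h2
      rw [filter_false_of_mem fun b _ => h2 b]
      simp
  calc _ ≤ ∑ a : α, if ∃ b, P (a, b) then c else 0 := sum_le_sum fun a _ => h1 a
    _ = c * (univ.filter fun a => ∃ b, P (a, b)).card := by
      rw [← sum_filter, sum_const, smul_eq_mul, mul_comm]

/-- a set inside a finset -/
theorem ncard_le_card {α : Type} {S : Set α} {B : Finset α} (h : ∀ x ∈ S, x ∈ B) :
    S.ncard ≤ B.card := by
  rw [← Set.ncard_coe_finset]
  exact Set.ncard_le_ncard (fun x hx => mem_coe.2 (h x hx)) (B.finite_toSet)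

variable {X Y ι : Type} [Fintype X] [Fintype Y] [Fintype ι] [DecidableEq ι]

theorem high_center {s t μ n : ℕ} (hι : Fintype.card ι = s + 1) (hs : 1 ≤ s)
    (E E₀ : X → Y → Prop) (hE : ∀ x y, E x y → E₀ x y)
    (hK : NoK s t E₀) (hK' : NoK s t fun y x => E₀ x y) (hX : Fintype.card X ≤ n)
    (hdY : ∀ y, (nb (fun y x => E x y) y).card ≤ μ) (z : X)
    (A : Finset ((ι → X) × (ι → Y)))
    (hA : ∀ p ∈ A, Hm E p.1 p.2 ∧ Function.Injective p.1 ∧ Function.Injective p.2 ∧
      (∀ j, E₀ z (p.2 j)) ∧ ∀ i, p.1 i ≠ z) :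
    A.card ≤ t * (t ^ (s - 1) * (μ * (t * t * n ^ (s - 1)))) := by
  classical
  obtain ⟨a, b, hab⟩ := Fintype.one_lt_card_iff.1 (show 1 < Fintype.card ι by omega)
  have hR : Fintype.card (Rest a b) = s - 1 := by
    have h1 := card_ne b
    have h2 := card_ne (⟨a, hab⟩ : {i // i ≠ b})
    have h3 : Fintype.card (Rest a b) = Fintype.card {i : {i // i ≠ b} // i ≠ ⟨a, hab⟩} := by
      refine Fintype.card_congr ⟨fun i => ⟨⟨i.1, i.2.2⟩, fun h => i.2.1 (congrArg Subtype.val h)⟩,
        fun i => ⟨i.1.1, fun h => i.2 (Subtype.ext h), i.1.2⟩, fun i => rfl, fun i => rfl⟩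
    omega
  let dec : ((((Rest a b → X) × (Y × Y)) × X) × (Rest a b → Y)) × X → (ι → X) × (ι → Y) :=
    fun g => (split X Y hab).symm
      ((g.1.1.1.1, g.1.2), (g.1.1.2, g.1.1.1.2.1), (g.2, g.1.1.1.2.2))
  let enc : (ι → X) × (ι → Y) → ((((Rest a b → X) × (Y × Y)) × X) × (Rest a b → Y)) × X :=
    fun p => (((((fun i => p.1 i), (p.2 b, p.2 a)), p.1 a), fun i => p.2 i), p.1 b)
  have hdec : ∀ p, dec (enc p) = p := fun p => (split X Y hab).symm_apply_apply p
  let P₀ : ((((Rest a b → X) × (Y × Y)) × X) × (Rest a b → Y)) × X → Prop := fun g => dec g ∈ A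
  let P₁ : (((Rest a b → X) × (Y × Y)) × X) × (Rest a b → Y) → Prop := fun g => ∃ q, P₀ (g, q)
  let P₂ : ((Rest a b → X) × (Y × Y)) × X → Prop := fun g => ∃ V, P₁ (g, V)
  let P₃ : (Rest a b → X) × (Y × Y) → Prop := fun g => ∃ p, P₂ (g, p)
  let P₄ : (Rest a b → X) → Prop := fun g => ∃ w, P₃ (g, w)
  have h0 : A.card ≤ {g | P₀ g}.ncard := by
    rw [← Set.ncard_coe_finset]
    refine Set.ncard_le_ncard_of_injOn enc ?_ ?_ (Set.toFinite _)
    · intro p hp
      simp only [Set.mem_ofPred_eq, P₀]
      rw [hdec]
      exact hp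
    · intro p _ q _ h
      rw [← hdec p, ← hdec q, h]
  -- coordinates
  have hxa : ∀ g, (dec g).1 a = g.1.1.2 := by
    intro g
    simp [dec, coord_x]
  have hxb : ∀ g, (dec g).1 b = g.2 := by
    intro g
    simp [dec, coord_x, hab.symm]
  have hyb : ∀ g, (dec g).2 b = g.1.1.1.2.1 := by
    intro g
    simp [dec, coord_y, hab.symm]
  have hya : ∀ g, (dec g).2 a = g.1.1.1.2.2 := by
    intro g
    simp [dec, coord_y]
  have hxr : ∀ g (i : Rest a b), (dec g).1 i = g.1.1.1.1 i := by
    intro g i
    simp [dec, coord_x, i.2.1, i.2.2]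
  have hyr : ∀ g (i : Rest a b), (dec g).2 i = g.1.2 i := by
    intro g i
    simp [dec, coord_y, i.2.1, i.2.2]
  -- step 1
  have s1 : {g | P₀ g}.ncard ≤ t * {g | P₁ g}.ncard := card_step P₀ t (by
    intro a'
    rcases {q : X | P₀ (a', q)}.eq_empty_or_nonempty with h | ⟨q₀, hq₀⟩
    · rw [h, Set.ncard_empty]
      exact Nat.zero_le _
    · obtain ⟨-, -, hinj, -, -⟩ := hA _ hq₀
      have hy : ∀ q, (dec (a', q)).2 = (dec (a', q₀)).2 := by
        intro q
        rfl
      have h2 := hK'.co_lt (κ := {j // j ≠ b}) (by have := card_ne b; omega)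
        (x := fun j => (dec (a', q₀)).2 j) (hinj.comp Subtype.val_injective)
      refine le_trans (ncard_le_card fun q hq => ?_) h2.le
      obtain ⟨hH, -, -, -, -⟩ := hA _ hq
      rw [mem_co]
      intro j
      have h3 := hH b j j.2.symm
      rw [hxb, hy q] at h3
      exact hE _ _ h3)
  -- step 2
  have s2 : {g | P₁ g}.ncard ≤ t ^ (s - 1) * {g | P₂ g}.ncard := card_step P₁ (t ^ (s - 1)) (by
    intro a'
    rcases {V : Rest a b → Y | P₁ (a', V)}.eq_empty_or_nonempty with h | ⟨V₀, q₀, hq₀⟩
    · rw [h, Set.ncard_empty]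
      exact Nat.zero_le _
    · obtain ⟨-, hinj, -, -, hz⟩ := hA _ hq₀
      have hx : ∀ V q i, i ≠ b → (dec ((a', V), q)).1 i = (dec ((a', V₀), q₀)).1 i := by
        intro V q i hi
        by_cases hia : i = a
        · rw [hia, hxa, hxa]
        · rw [hxr _ ⟨i, hia, hi⟩, hxr _ ⟨i, hia, hi⟩]
      let xt : ι → X := (dec ((a', V₀), q₀)).1
      have hxt : ∀ V q i, i ≠ b → (dec ((a', V), q)).1 i = xt i := hx
      let C : Rest a b → Finset Y := fun j =>
        co E₀ fun o : Option {i : {i : ι // i ≠ b} // i ≠ ⟨j, j.2.2⟩} =>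
          o.elim z fun i => xt i
      have hC : ∀ j, (C j).card ≤ t := by
        intro j
        refine (hK.co_lt ?_ ?_).le
        · have h1 := card_ne b
          have h2 := card_ne (⟨j, j.2.2⟩ : {i : ι // i ≠ b})
          rw [Fintype.card_option]
          omega
        · rintro (_ | i) (_ | i') h
          · rfl
          · exact absurd h.symm (hz _)
          · exact absurd h (hz _)
          · exact congrArg some (Subtype.ext (Subtype.ext (hinj h)))
      calc {V : Rest a b → Y | P₁ (a', V)}.ncard ≤ (Fintype.piFinset C).card := by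
            refine ncard_le_card fun V hV => ?_
            obtain ⟨q, hq⟩ := hV
            obtain ⟨hH, -, -, hzy, -⟩ := hA _ hq
            rw [Fintype.mem_piFinset]
            intro j
            simp only [C]
            rw [mem_co]
            rintro (_ | i)
            · have := hzy j
              rwa [hyr] at this
            · have h5 : (i : ι) ≠ (j : ι) := fun h => i.2 (Subtype.ext h)
              have := hH _ _ h5
              rw [hyr, hxt V q _ i.1.2] at this
              exact hE _ _ this
        _ = ∏ j, (C j).card := Fintype.card_piFinset _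
        _ ≤ ∏ _j : Rest a b, t := prod_le_prod' fun j _ => hC j
        _ = t ^ (s - 1) := by rw [prod_const, card_univ, hR])
  -- step 3
  have s3 : {g | P₂ g}.ncard ≤ μ * {g | P₃ g}.ncard := card_step P₂ μ (by
    intro a'
    refine le_trans (ncard_le_card fun p hp => ?_) (hdY a'.2.1)
    obtain ⟨V, q, hq⟩ := hp
    obtain ⟨hH, -⟩ := hA _ hq
    have := hH a b hab
    rw [hxa, hyb] at this
    exact mem_nb.2 this)
  -- step 4
  have s4 : {g | P₃ g}.ncard ≤ (t * t) * {g | P₄ g}.ncard := card_step P₃ (t * t) (by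
    intro U
    rcases {w : Y × Y | P₃ (U, w)}.eq_empty_or_nonempty with h | ⟨w₀, p₀, V₀, q₀, hq₀⟩
    · rw [h, Set.ncard_empty]
      exact Nat.zero_le _
    · obtain ⟨-, hinj, -, -, hz⟩ := hA _ hq₀
      let C : Finset Y := co E₀ fun o : Option (Rest a b) => o.elim z fun i => U i
      have hC : C.card ≤ t := by
        refine (hK.co_lt ?_ ?_).le
        · rw [Fintype.card_option]
          omega
        · rintro (_ | i) (_ | i') h
          · rfl
          · refine absurd ?_ (hz (i' : ι))
            rw [hxr]
            exact h.symm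
          · refine absurd ?_ (hz (i : ι))
            rw [hxr]
            exact h
          · refine congrArg some (Subtype.ext (hinj ?_))
            rw [hxr, hxr]
            exact h
      calc {w : Y × Y | P₃ (U, w)}.ncard ≤ (C ×ˢ C).card := by
            refine ncard_le_card fun w hw => ?_
            obtain ⟨p, V, q, hq⟩ := hw
            obtain ⟨hH, -, -, hzy, -⟩ := hA _ hq
            rw [mem_product]
            constructor
            · rw [mem_co]
              rintro (_ | i)
              · have := hzy b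
                rwa [hyb] at this
              · have := hH i b i.2.2
                rw [hxr, hyb] at this
                exact hE _ _ this
            · rw [mem_co]
              rintro (_ | i)
              · have := hzy a
                rwa [hya] at this
              · have := hH i a i.2.1
                rw [hxr, hya] at this
                exact hE _ _ this
        _ = C.card * C.card := card_product _ _
        _ ≤ t * t := Nat.mul_le_mul hC hC)
  have s5 : {g | P₄ g}.ncard ≤ n ^ (s - 1) := by
    refine le_trans (ncard_le_card (B := univ) fun x _ => mem_univ x) ?_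
    rw [card_univ, Fintype.card_fun, hR]
    exact Nat.pow_le_pow_left hX _
  exact h0.trans (s1.trans (Nat.mul_le_mul_left _ (s2.trans (Nat.mul_le_mul_left _
    (s3.trans (Nat.mul_le_mul_left _ (s4.trans (Nat.mul_le_mul_left _ s5))))))))

end Pool.Agent.W5h8.HN
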