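import Pool.Agent.W5h8.HNE

/-!
# The bound for the edges between vertices of small degree
-/

set_option autoImplicit false

namespace Pool.Agent.W5h8.HN

open Finset

variable {X Y : Type} [Fintype X] [Fintype Y]

/-- the edges between vertices of degree at most `μ` -/
def low (μ : ℕ) (E : X → Y → Prop) (x : X) (y : Y) : Prop :=
  E x y ∧ (nb E x).card ≤ μ ∧ (nb (fun y x => E x y) y).card ≤ μ

/-- the constant -/
def KK (s t : ℕ) : ℕ :=
  (s + 1) ^ 4 * (s * ((2 * s) ^ s * (1 + t ^ s))) + 2 * ((s + 1) * t ^ s) +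
    (t ^ (s + 1) + (2 * s) ^ s * (1 + t) * t ^ (s + 2))

theorem NoK.mono {s t : ℕ} {E E' : X → Y → Prop} (h : ∀ x y, E' x y → E x y) (hK : NoK s t E) :
    NoK s t E' := fun S hS =>
  lt_of_le_of_lt (Set.ncard_le_ncard (fun y hy x hx => h x y (hy x hx)) (Set.toFinite _)) (hK S hS)

theorem low_nbX (μ : ℕ) (E : X → Y → Prop) (hμ : 0 ≤ μ) (x : X) : (nb (low μ E) x).card ≤ μ := by
  classical
  by_cases h : (nb E x).card ≤ μ
  · refine le_trans (card_le_card fun y hy => ?_) h
    rw [mem_nb] at hy ⊢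
    exact hy.1
  · have : nb (low μ E) x = ∅ := by
      ext y
      simp only [mem_nb, notMem_empty, iff_false]
      exact fun h2 => h h2.2.1
    rw [this]
    simpa using hμ

theorem low_nbY (μ : ℕ) (E : X → Y → Prop) (hμ : 0 ≤ μ) (y : Y) :
    (nb (fun y x => low μ E x y) y).card ≤ μ := by
  classical
  by_cases h : (nb (fun y x => E x y) y).card ≤ μ
  · refine le_trans (card_le_card fun x hx => ?_) h
    rw [mem_nb] at hx ⊢
    exact hx.1
  · have : nb (fun y x => low μ E x y) y = ∅ := by
      ext y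
      simp only [mem_nb, notMem_empty, iff_false]
      exact fun h2 => h h2.2.2
    rw [this]
    simpa using hμ

/-- The number of homomorphisms. -/
theorem hom_bound {s t μ n : ℕ} (hs : 2 ≤ s) (hμ : 1 ≤ μ) (E : X → Y → Prop)
    (hK : NoK s t E) (hK' : NoK s t fun y x => E x y) (hH : Helly s E)
    (hX : Fintype.card X ≤ n) (hY : Fintype.card Y ≤ n)
    (hd : (∀ z, (nb E z).card ≤ μ) ∨ n ^ (s - 1) ≤ μ ^ s)
    (A : Finset ((Fin (s + 1) → X) × (Fin (s + 1) → Y)))
    (hA : ∀ p ∈ A, Hm (low μ E) p.1 p.2) : A.card ≤ KK s t * (n * μ ^ (s + 1)) := by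
  classical
  set L := low μ E with hL
  have hLE : ∀ x y, L x y → E x y := fun x y h => h.1
  have hι : Fintype.card (Fin (s + 1)) = s + 1 := Fintype.card_fin _
  have hLX : ∀ x, (nb L x).card ≤ μ := low_nbX μ E (Nat.zero_le _)
  have hLY : ∀ y, (nb (fun y x => L x y) y).card ≤ μ := low_nbY μ E (Nat.zero_le _)
  have hKL : NoK s t L := hK.mono hLE
  have hKL' : NoK s t fun y x => L x y := hK'.mono fun x y h => hLE y x h
  let A₁ : Fin (s + 1) × Fin (s + 1) × Fin (s + 1) × Fin (s + 1) →
      Finset ((Fin (s + 1) → X) × (Fin (s + 1) → Y)) := fun q =>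
    A.filter fun p => (q.1 ≠ q.2.1 ∧ p.1 q.1 = p.1 q.2.1) ∧
      (q.2.2.1 ≠ q.2.2.2 ∧ p.2 q.2.2.1 = p.2 q.2.2.2)
  let A₂ : Fin (s + 1) → Finset ((Fin (s + 1) → X) × (Fin (s + 1) → Y)) := fun a =>
    A.filter fun p => Function.Injective p.1 ∧ L (p.1 a) (p.2 a)
  let A₃ : Fin (s + 1) → Finset ((Fin (s + 1) → X) × (Fin (s + 1) → Y)) := fun a =>
    A.filter fun p => Function.Injective p.2 ∧ L (p.1 a) (p.2 a)
  let A₄ : X → Finset ((Fin (s + 1) → X) × (Fin (s + 1) → Y)) := fun z =>
    A.filter fun p => Function.Injective p.1 ∧ Function.Injective p.2 ∧ (∀ j, E z (p.2 j)) ∧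
      ∀ i, p.1 i ≠ z
  have hcover : A ⊆ (univ.biUnion A₁ ∪ (univ.biUnion A₂ ∪ univ.biUnion A₃)) ∪ univ.biUnion A₄ := by
    intro p hp
    have hHm := hA p hp
    simp only [mem_union, mem_biUnion, mem_univ, true_and, A₁, A₂, A₃, A₄, mem_filter, hp]
    by_cases hx : Function.Injective p.1
    · by_cases hbad : ∃ a, L (p.1 a) (p.2 a)
      · obtain ⟨a, ha⟩ := hbad
        exact Or.inl (Or.inr (Or.inl ⟨a, hx, ha⟩))
      · push Not at hbad
        right
        have hne : ∀ a : Fin (s + 1), ∃ b, b ≠ a := by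
          intro a
          have : Nontrivial (Fin (s + 1)) := by
            rw [← Fintype.one_lt_card_iff_nontrivial, Fintype.card_fin]
            omega
          exact exists_ne a
        have hno : ∀ a, ¬ E (p.1 a) (p.2 a) := by
          intro a h
          obtain ⟨b, hb⟩ := hne a
          exact hbad a ⟨h, (hHm a b hb.symm).2.1, (hHm b a hb).2.2⟩
        have hy : Function.Injective p.2 := by
          intro c d hcd
          by_contra hne
          have h1 := hHm c d hne
          rw [← hcd] at h1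
          exact hbad c h1
        obtain ⟨z, hz⟩ := hH.center hι p.1
        have hzy : ∀ j, E z (p.2 j) := fun j => hz _ ⟨j, fun i hi => (hHm i j hi).1⟩
        refine ⟨z, hx, hy, hzy, fun i hi => hno i ?_⟩
        rw [hi]
        exact hzy i
    · have hx' : ∃ a b, a ≠ b ∧ p.1 a = p.1 b := by
        simp only [Function.Injective] at hx
        push Not at hx
        obtain ⟨a, b, h1, h2⟩ := hx
        exact ⟨a, b, h2, h1⟩
      obtain ⟨a, b, hab, hab'⟩ := hx'
      by_cases hy : Function.Injective p.2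
      · left; right; right
        refine ⟨a, hy, ?_⟩
        have h1 := hHm b a hab.symm
        rwa [← hab'] at h1
      · left; left
        simp only [Function.Injective] at hy
        push Not at hy
        obtain ⟨c, d, h1, h2⟩ := hy
        exact ⟨(a, b, c, d), ⟨hab, hab'⟩, h2, h1⟩
  have h1 : (univ.biUnion A₁).card ≤
      (s + 1) ^ 4 * (s * ((2 * s) ^ s * (1 + t ^ s))) * (n * μ ^ (s + 1)) := by
    calc (univ.biUnion A₁).card ≤ ∑ q, (A₁ q).card := card_biUnion_le
      _ ≤ ∑ _q : Fin (s + 1) × Fin (s + 1) × Fin (s + 1) × Fin (s + 1),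
          s * (μ * ((2 * s) ^ s * (1 + t ^ s) * (n * μ ^ s))) := by
          refine sum_le_sum fun q _ => ?_
          by_cases hq : q.1 ≠ q.2.1 ∧ q.2.2.1 ≠ q.2.2.2
          · refine coincide hs hι L hLY (fun κ _ _ hκ =>
              sum_co_pow_deg hs hμ L hKL' hX hY hLX hLY hκ) hq.1 hq.2 (A₁ q) fun p hp => ?_
            simp only [A₁, mem_filter] at hp
            exact ⟨hA p hp.1, hp.2.1.2, hp.2.2.2⟩
          · have : A₁ q = ∅ := by
              ext p
              simp only [A₁, mem_filter, notMem_empty, iff_false]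
              tauto
            rw [this]
            simp
      _ = _ := by
          rw [sum_const, card_univ, smul_eq_mul, Fintype.card_prod, Fintype.card_prod,
            Fintype.card_prod, hι]
          ring
  have h2 : (univ.biUnion A₂).card ≤ (s + 1) * t ^ s * (n * μ ^ (s + 1)) := by
    calc (univ.biUnion A₂).card ≤ ∑ a, (A₂ a).card := card_biUnion_le
      _ ≤ ∑ _a : Fin (s + 1), t ^ s * (n * μ ^ (s + 1)) := by
          refine sum_le_sum fun a _ => inj_bad hι L hKL hY hLY a (A₂ a) fun p hp => ?_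
          simp only [A₂, mem_filter] at hp
          exact ⟨hA p hp.1, hp.2.1, hp.2.2⟩
      _ = _ := by
          rw [sum_const, card_univ, smul_eq_mul, hι]
          ring
  have h3 : (univ.biUnion A₃).card ≤ (s + 1) * t ^ s * (n * μ ^ (s + 1)) := by
    calc (univ.biUnion A₃).card ≤ ∑ a, (A₃ a).card := card_biUnion_le
      _ ≤ ∑ _a : Fin (s + 1), t ^ s * (n * μ ^ (s + 1)) := by
          refine sum_le_sum fun a _ => ?_
          have h4 : ((A₃ a).map (Equiv.prodComm _ _).toEmbedding).card = (A₃ a).card :=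
            card_map _
          rw [← h4]
          refine inj_bad hι (fun y x => L x y) hKL' hX hLX a _ fun p hp => ?_
          rw [mem_map] at hp
          obtain ⟨q, hq, rfl⟩ := hp
          simp only [A₃, mem_filter] at hq
          exact ⟨(hA q hq.1).swap, hq.2.1, hq.2.2⟩
      _ = _ := by
          rw [sum_const, card_univ, smul_eq_mul, hι]
          ring
  have h4 : (univ.biUnion A₄).card ≤
      (t ^ (s + 1) + (2 * s) ^ s * (1 + t) * t ^ (s + 2)) * (n * μ ^ (s + 1)) := by
    have h5 : (univ.biUnion A₄).card ≤ ∑ z, (A₄ z).card := card_biUnion_le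
    have h6 : ∀ z, (A₄ z).card ≤ t ^ (s + 1) * μ ^ (s + 1) +
        if μ < (nb E z).card then t ^ (s + 2) * (μ * n ^ (s - 1)) else 0 := by
      intro z
      by_cases hz : (nb E z).card ≤ μ
      · refine le_trans (low_center hι L E hKL' z hz (A₄ z) fun p hp => ?_) (Nat.le_add_right _ _)
        simp only [A₄, mem_filter] at hp
        exact ⟨hA p hp.1, hp.2.2.1, hp.2.2.2.1⟩
      · rw [if_pos (not_le.1 hz)]
        refine le_trans ?_ (Nat.le_add_left _ _)
        have h7 := high_center hι (by omega) L E hLE hK hK' hX hLY z (A₄ z) (fun p hp => by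
          simp only [A₄, mem_filter] at hp
          exact ⟨hA p hp.1, hp.2⟩)
        refine h7.trans (le_of_eq ?_)
        obtain ⟨r, rfl⟩ : ∃ r, s = r + 1 := ⟨s - 1, by omega⟩
        rw [Nat.add_sub_cancel]
        ring
    have h7 : (∑ z : X, if μ < (nb E z).card then t ^ (s + 2) * (μ * n ^ (s - 1)) else 0) ≤
        (2 * s) ^ s * (1 + t) * t ^ (s + 2) * (n * μ ^ (s + 1)) := by
      rcases hd with hd | hd
      · rw [sum_eq_zero fun z _ => if_neg (not_lt.2 (hd z))]
        exact Nat.zero_le _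
      · have h8 : ∀ z : X, (if μ < (nb E z).card then t ^ (s + 2) * (μ * n ^ (s - 1)) else 0) ≤
            t ^ (s + 2) * μ * (nb E z).card ^ s := by
          intro z
          split_ifs with hz
          · rw [mul_assoc]
            refine Nat.mul_le_mul_left _ (Nat.mul_le_mul_left _ (hd.trans ?_))
            exact Nat.pow_le_pow_left hz.le s
          · exact Nat.zero_le _
        have h9 := sum_deg_pow hs E hK' hX hY
        have h10 : n ^ s ≤ n * μ ^ s := by
          have : n ^ s = n * n ^ (s - 1) := by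
            rw [← pow_succ', Nat.sub_add_cancel (by omega)]
          rw [this]
          exact Nat.mul_le_mul_left _ hd
        calc _ ≤ ∑ z : X, t ^ (s + 2) * μ * (nb E z).card ^ s := sum_le_sum fun z _ => h8 z
          _ = t ^ (s + 2) * μ * ∑ z : X, (nb E z).card ^ s := by rw [mul_sum]
          _ ≤ t ^ (s + 2) * μ * ((2 * s) ^ s * (1 + t) * n ^ s) := Nat.mul_le_mul_left _ h9
          _ ≤ t ^ (s + 2) * μ * ((2 * s) ^ s * (1 + t) * (n * μ ^ s)) :=
              Nat.mul_le_mul_left _ (Nat.mul_le_mul_left _ h10)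
          _ = _ := by ring
    calc (univ.biUnion A₄).card ≤ ∑ z, (A₄ z).card := h5
      _ ≤ ∑ z : X, (t ^ (s + 1) * μ ^ (s + 1) +
          if μ < (nb E z).card then t ^ (s + 2) * (μ * n ^ (s - 1)) else 0) :=
          sum_le_sum fun z _ => h6 z
      _ = Fintype.card X * (t ^ (s + 1) * μ ^ (s + 1)) +
          ∑ z : X, (if μ < (nb E z).card then t ^ (s + 2) * (μ * n ^ (s - 1)) else 0) := by
          rw [sum_add_distrib, sum_const, card_univ, smul_eq_mul]
      _ ≤ n * (t ^ (s + 1) * μ ^ (s + 1)) +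
          (2 * s) ^ s * (1 + t) * t ^ (s + 2) * (n * μ ^ (s + 1)) :=
          Nat.add_le_add (Nat.mul_le_mul_right _ hX) h7
      _ = _ := by ring
  have h5 := (card_le_card hcover).trans (card_union_le _ _)
  have h6 := card_union_le (univ.biUnion A₁) (univ.biUnion A₂ ∪ univ.biUnion A₃)
  have h7 := card_union_le (univ.biUnion A₂) (univ.biUnion A₃)
  calc A.card ≤ _ := h5
    _ ≤ ((s + 1) ^ 4 * (s * ((2 * s) ^ s * (1 + t ^ s))) * (n * μ ^ (s + 1)) +
        ((s + 1) * t ^ s * (n * μ ^ (s + 1)) + (s + 1) * t ^ s * (n * μ ^ (s + 1)))) +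
        (t ^ (s + 1) + (2 * s) ^ s * (1 + t) * t ^ (s + 2)) * (n * μ ^ (s + 1)) := by omega
    _ = _ := by
      unfold KK
      ring

theorem card_off (m : ℕ) : (off (Fin m)).card = m * m - m := by
  have : off (Fin m) = (univ : Finset (Fin m)).offDiag := by
    ext q
    simp [mem_off]
  rw [this, offDiag_card, card_univ, Fintype.card_fin]

/-- The edges between vertices of degree at most `μ`. -/
theorem low_edges {s t μ n : ℕ} (hs : 2 ≤ s) (hμ : 1 ≤ μ) (E : X → Y → Prop)
    (hK : NoK s t E) (hK' : NoK s t fun y x => E x y) (hH : Helly s E)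
    (hX : Fintype.card X ≤ n) (hY : Fintype.card Y ≤ n)
    (hd : (∀ z, (nb E z).card ≤ μ) ∨ n ^ (s - 1) ≤ μ ^ s) :
    ecount (low μ E) ^ (s * (s + 1)) ≤
      KK s t * ((n : ℝ) ^ (2 * s ^ 2 - 1) * (μ : ℝ) ^ (s + 1)) := by
  classical
  have hoff : (off (Fin (s + 1))).card = s * (s + 1) := by
    rw [card_off]
    have : (s + 1) * (s + 1) = s * (s + 1) + (s + 1) := by ring
    omega
  have hsid := sidorenko (ι := Fin (s + 1)) (low μ E) (by rw [Fintype.card_fin]; omega)
  rw [hoff, Fintype.card_fin] at hsid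
  have hcnt : cnt (low μ E) (off (Fin (s + 1))) ≤ KK s t * ((n : ℝ) * (μ : ℝ) ^ (s + 1)) := by
    have h1 := hom_bound hs hμ E hK hK' hH hX hY hd
      (univ.filter fun p => IsHom (low μ E) (off (Fin (s + 1))) p) (fun p hp i j hij => by
        rw [mem_filter] at hp
        exact hp.2 (i, j) (mem_off.2 hij))
    have h2 : cnt (low μ E) (off (Fin (s + 1))) =
        ((univ.filter fun p => IsHom (low μ E) (off (Fin (s + 1))) p).card : ℝ) := by
      rw [cnt, sum_boole]
    rw [h2]
    exact_mod_cast h1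
  set M : ℝ := (Fintype.card X : ℝ) * Fintype.card Y with hM
  have hM0 : 0 ≤ M := by positivity
  have hMn : M ≤ (n : ℝ) ^ 2 := by
    have h1 : (Fintype.card X : ℝ) ≤ n := by exact_mod_cast hX
    have h2 : (Fintype.card Y : ℝ) ≤ n := by exact_mod_cast hY
    rw [hM, sq]
    exact mul_le_mul h1 h2 (by positivity) (by positivity)
  have he0 : 0 ≤ ecount (low μ E) := sum_nonneg fun p _ => by split_ifs <;> norm_num
  have hKK : (0 : ℝ) ≤ KK s t := by positivity
  rcases hM0.eq_or_lt with h | h
  · have : ecount (low μ E) = 0 := by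
      have hcard : Fintype.card (X × Y) = 0 := by
        have : ((Fintype.card (X × Y) : ℕ) : ℝ) = 0 := by
          rw [Fintype.card_prod]
          push_cast
          exact h.symm
        exact_mod_cast this
      have : IsEmpty (X × Y) := Fintype.card_eq_zero_iff.1 hcard
      simp [ecount]
    rw [this, zero_pow (by positivity)]
    positivity
  · have hexp : s * (s + 1) = (s + 1) + (s + 1) * (s - 1) := by
      obtain ⟨r, rfl⟩ : ∃ r, s = r + 1 := ⟨s - 1, by omega⟩
      rw [Nat.add_sub_cancel]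
      ring
    have h3 : ecount (low μ E) ^ (s * (s + 1)) ≤
        cnt (low μ E) (off (Fin (s + 1))) * M ^ ((s + 1) * (s - 1)) := by
      have h4 : (0 : ℝ) < M ^ (s + 1) := by positivity
      have h5 : M ^ (s * (s + 1)) = M ^ (s + 1) * M ^ ((s + 1) * (s - 1)) := by
        rw [← pow_add, ← hexp]
      rw [h5] at hsid
      refine le_of_mul_le_mul_right ?_ h4
      calc _ ≤ _ := hsid
        _ = _ := by ring
    calc _ ≤ _ := h3
      _ ≤ (KK s t * ((n : ℝ) * (μ : ℝ) ^ (s + 1))) * ((n : ℝ) ^ 2) ^ ((s + 1) * (s - 1)) :=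
          mul_le_mul hcnt (pow_le_pow_left₀ hM0 hMn _) (by positivity) (by positivity)
      _ = _ := by
          have h6 : 2 * s ^ 2 - 1 = 1 + 2 * ((s + 1) * (s - 1)) := by
            obtain ⟨r, rfl⟩ : ∃ r, s = r + 1 := ⟨s - 1, by omega⟩
            rw [Nat.add_sub_cancel]
            have : 2 * (r + 1) ^ 2 = 1 + 2 * ((r + 1 + 1) * r) + 1 := by ring
            omega
          rw [h6, pow_add, pow_mul, pow_one]
          ring

end Pool.Agent.W5h8.HN
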