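import Pool.Agent.W5h8.HNF

/-!
# The exponents
-/

set_option autoImplicit false

namespace Pool.Agent.W5h8.HN

open Finset

variable {X Y : Type} [Fintype X] [Fintype Y]

theorem ecount_eq (E : X → Y → Prop) : ecount E = ∑ x : X, ((nb E x).card : ℝ) := by
  classical
  rw [ecount, Fintype.sum_prod_type]
  refine sum_congr rfl fun x _ => ?_
  rw [nb, card_filter]
  push_cast
  rfl

theorem ecount_swap (E : X → Y → Prop) : ecount E = ecount fun y x => E x y := by
  classical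
  rw [ecount, ecount, ← (Equiv.prodComm Y X).sum_comp]
  rfl

theorem ecount_nonneg (E : X → Y → Prop) : 0 ≤ ecount E :=
  sum_nonneg fun p _ => by split_ifs <;> norm_num

/-- the edges with an end of large degree -/
theorem lost_edges {s t n μ : ℕ} (hs : 2 ≤ s) (E : X → Y → Prop)
    (hK : NoK s t E) (hK' : NoK s t fun y x => E x y)
    (hX : Fintype.card X ≤ n) (hY : Fintype.card Y ≤ n) :
    (ecount E - ecount (low μ E)) * (μ : ℝ) ^ (s - 1) ≤
      2 * ((2 * s) ^ s * (1 + t) * (n : ℝ) ^ s) := by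
  classical
  have h1 : ecount E - ecount (low μ E) ≤
      ∑ x : X, (if μ < (nb E x).card then ((nb E x).card : ℝ) else 0) +
      ∑ y : Y, (if μ < (nb (fun y x => E x y) y).card then
        ((nb (fun y x => E x y) y).card : ℝ) else 0) := by
    have h2 : ∀ p : X × Y, (if E p.1 p.2 then (1 : ℝ) else 0) ≤
        (if low μ E p.1 p.2 then (1 : ℝ) else 0) +
        ((if μ < (nb E p.1).card then (if E p.1 p.2 then (1 : ℝ) else 0) else 0) +
        (if μ < (nb (fun y x => E x y) p.2).card then (if E p.1 p.2 then (1 : ℝ) else 0)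
          else 0)) := by
      intro p
      by_cases h : E p.1 p.2
      · by_cases ha : (nb E p.1).card ≤ μ
        · by_cases hb : (nb (fun y x => E x y) p.2).card ≤ μ
          · have : low μ E p.1 p.2 := ⟨h, ha, hb⟩
            simp [h, this, not_lt.2 ha, not_lt.2 hb]
          · simp only [h, if_true, if_pos (not_le.1 hb)]
            split_ifs <;> norm_num
        · simp only [h, if_true, if_pos (not_le.1 ha)]
          split_ifs <;> norm_num
      · simp only [h, if_false, ite_self, add_zero]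
        split_ifs <;> norm_num
    have h3 := sum_le_sum fun p (_ : p ∈ (univ : Finset (X × Y))) => h2 p
    rw [sum_add_distrib, sum_add_distrib] at h3
    have h4 : ∑ p : X × Y, (if μ < (nb E p.1).card then (if E p.1 p.2 then (1 : ℝ) else 0)
        else 0) = ∑ x : X, (if μ < (nb E x).card then ((nb E x).card : ℝ) else 0) := by
      rw [Fintype.sum_prod_type]
      refine sum_congr rfl fun x _ => ?_
      split_ifs with h
      · rw [sum_boole]
        rfl
      · simp
    have h5 : ∑ p : X × Y, (if μ < (nb (fun y x => E x y) p.2).card then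
        (if E p.1 p.2 then (1 : ℝ) else 0) else 0) =
        ∑ y : Y, (if μ < (nb (fun y x => E x y) y).card then
        ((nb (fun y x => E x y) y).card : ℝ) else 0) := by
      rw [Fintype.sum_prod_type, sum_comm]
      refine sum_congr rfl fun y _ => ?_
      split_ifs with h
      · rw [sum_boole]
        rfl
      · simp
    rw [h4, h5] at h3
    simp only [ecount]
    linarith
  have h2 : ∀ (Z W : Type) [Fintype Z] [Fintype W] (R : Z → W → Prop), Fintype.card Z ≤ n →
      Fintype.card W ≤ n → (NoK s t fun y x => R x y) →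
      (∑ z : Z, (if μ < (nb R z).card then ((nb R z).card : ℝ) else 0)) * (μ : ℝ) ^ (s - 1) ≤
        (2 * s) ^ s * (1 + t) * (n : ℝ) ^ s := by
    intro Z W _ _ R hZ hW hR
    have h3 := sum_deg_pow hs R hR hZ hW
    rw [sum_mul]
    calc _ ≤ ∑ z : Z, ((nb R z).card : ℝ) ^ s := by
          refine sum_le_sum fun z _ => ?_
          split_ifs with h
          · have h4 : ((nb R z).card : ℝ) ^ s = (nb R z).card * ((nb R z).card : ℝ) ^ (s - 1) := by
              rw [← pow_succ', Nat.sub_add_cancel (by omega)]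
            rw [h4]
            refine mul_le_mul_of_nonneg_left ?_ (by positivity)
            exact pow_le_pow_left₀ (by positivity) (by exact_mod_cast h.le) _
          · rw [zero_mul]
            positivity
      _ ≤ _ := by exact_mod_cast h3
  have h3 := h2 X Y E hX hY hK'
  have h4 := h2 Y X (fun y x => E x y) hY hX hK
  calc _ ≤ (∑ x : X, (if μ < (nb E x).card then ((nb E x).card : ℝ) else 0) +
      ∑ y : Y, (if μ < (nb (fun y x => E x y) y).card then
        ((nb (fun y x => E x y) y).card : ℝ) else 0)) * (μ : ℝ) ^ (s - 1) :=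
        mul_le_mul_of_nonneg_right h1 (by positivity)
    _ ≤ _ := by
        rw [add_mul]
        linarith

/-- The general bound: Helly number at most `s`. -/
theorem general_bound {s t : ℕ} (hs : 2 ≤ s) : ∃ C : ℝ, 0 < C ∧
    ∀ (n : ℕ) (X Y : Type) [Fintype X] [Fintype Y] (E : X → Y → Prop), Fintype.card X ≤ n →
      Fintype.card Y ≤ n → NoK s t E → (NoK s t fun y x => E x y) → Helly s E →
      ecount E ≤ C * (n : ℝ) ^ (2 - ((s : ℝ) ^ 2 + 1) / ((s : ℝ) ^ 3 + 1)) := by
  set γ : ℝ := 2 - ((s : ℝ) ^ 2 + 1) / ((s : ℝ) ^ 3 + 1) with hγ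
  set β : ℝ := ((s : ℝ) ^ 3 - (s : ℝ) ^ 2 + 1) / ((s : ℝ) ^ 3 + 1) with hβ
  have hs' : (2 : ℝ) ≤ s := by exact_mod_cast hs
  have hs3 : (0 : ℝ) < (s : ℝ) ^ 3 + 1 := by positivity
  set C₁ : ℝ := KK s t * 2 ^ (s + 1) + 1 with hC₁
  set C₂ : ℝ := 2 * ((2 * s) ^ s * (1 + t)) with hC₂
  have hC₁1 : 1 ≤ C₁ := by
    rw [hC₁]
    have : (0 : ℝ) ≤ KK s t * 2 ^ (s + 1) := by positivity
    linarith
  have hC₂0 : 0 ≤ C₂ := by positivity
  refine ⟨C₁ + C₂, by linarith, fun n X Y _ _ E hX hY hK hK' hH => ?_⟩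
  rcases Nat.eq_zero_or_pos n with rfl | hn
  · have hX0 : Fintype.card X = 0 := by omega
    have : IsEmpty X := Fintype.card_eq_zero_iff.1 hX0
    have h0 : ecount E = 0 := by simp [ecount]
    rw [h0]
    exact mul_nonneg (by linarith) (by positivity)
  have hn1 : (1 : ℝ) ≤ n := by exact_mod_cast hn
  have hn0 : (0 : ℝ) < n := by linarith
  set μ : ℕ := ⌈(n : ℝ) ^ β⌉₊ with hμ
  have hβ0 : 0 ≤ β := by
    rw [hβ]
    refine div_nonneg ?_ hs3.le
    nlinarith [pow_le_pow_left₀ (by norm_num : (0 : ℝ) ≤ 2) hs' 2, sq_nonneg (s : ℝ)]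
  have hnβ : 1 ≤ (n : ℝ) ^ β := Real.one_le_rpow hn1 hβ0
  have hμ1 : (n : ℝ) ^ β ≤ μ := Nat.le_ceil _
  have hμ2 : (μ : ℝ) ≤ 2 * (n : ℝ) ^ β := by
    have := Nat.ceil_lt_add_one (show 0 ≤ (n : ℝ) ^ β by positivity)
    linarith
  have hμpos : 1 ≤ μ := by
    have : (1 : ℝ) ≤ μ := hnβ.trans hμ1
    exact_mod_cast this
  have hμ0 : (0 : ℝ) < μ := by exact_mod_cast hμpos
  have hcond : n ^ (s - 1) ≤ μ ^ s := by
    have h1 : (n : ℝ) ^ (s - 1) ≤ (μ : ℝ) ^ s := by
      have h2 : ((n : ℝ) ^ β) ^ s = (n : ℝ) ^ (β * s) := by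
        rw [Real.rpow_mul hn0.le, Real.rpow_natCast]
      have h3 : ((s - 1 : ℕ) : ℝ) ≤ β * s := by
        rw [Nat.cast_sub (by omega), hβ, div_mul_eq_mul_div, le_div_iff₀ hs3]
        push_cast
        nlinarith
      calc (n : ℝ) ^ (s - 1) = (n : ℝ) ^ ((s - 1 : ℕ) : ℝ) := (Real.rpow_natCast _ _).symm
        _ ≤ (n : ℝ) ^ (β * s) := Real.rpow_le_rpow_of_exponent_le hn1 h3
        _ = ((n : ℝ) ^ β) ^ s := h2.symm
        _ ≤ (μ : ℝ) ^ s := pow_le_pow_left₀ (by positivity) hμ1 s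
    exact_mod_cast h1
  have hlow := low_edges hs hμpos E hK hK' hH hX hY (Or.inr hcond)
  have hlost := lost_edges (μ := μ) hs E hK hK' hX hY
  have e0 := ecount_nonneg (low μ E)
  -- the edges between vertices of small degree
  have h1 : ecount (low μ E) ≤ C₁ * (n : ℝ) ^ γ := by
    have h2 : ecount (low μ E) ^ (s * (s + 1)) ≤ (C₁ * (n : ℝ) ^ γ) ^ (s * (s + 1)) := by
      calc ecount (low μ E) ^ (s * (s + 1))
          ≤ KK s t * ((n : ℝ) ^ (2 * s ^ 2 - 1) * (μ : ℝ) ^ (s + 1)) := hlow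
        _ ≤ KK s t * ((n : ℝ) ^ (2 * s ^ 2 - 1) * (2 * (n : ℝ) ^ β) ^ (s + 1)) := by
            refine mul_le_mul_of_nonneg_left ?_ (by positivity)
            refine mul_le_mul_of_nonneg_left ?_ (by positivity)
            exact pow_le_pow_left₀ hμ0.le hμ2 _
        _ = KK s t * 2 ^ (s + 1) * (n : ℝ) ^ (γ * ((s * (s + 1) : ℕ) : ℝ)) := by
            rw [mul_pow, ← Real.rpow_natCast ((n : ℝ) ^ β), ← Real.rpow_mul hn0.le,
              ← Real.rpow_natCast (n : ℝ) (2 * s ^ 2 - 1)]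
            have h3 : γ * ((s * (s + 1) : ℕ) : ℝ) =
                ((2 * s ^ 2 - 1 : ℕ) : ℝ) + β * ((s + 1 : ℕ) : ℝ) := by
              rw [Nat.cast_sub (by nlinarith), hγ, hβ]
              push_cast
              field_simp
              ring
            rw [h3, Real.rpow_add hn0]
            ring
        _ ≤ C₁ * (n : ℝ) ^ (γ * ((s * (s + 1) : ℕ) : ℝ)) := by
            refine mul_le_mul_of_nonneg_right ?_ (by positivity)
            rw [hC₁]
            linarith
        _ ≤ C₁ ^ (s * (s + 1)) * (n : ℝ) ^ (γ * ((s * (s + 1) : ℕ) : ℝ)) := by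
            refine mul_le_mul_of_nonneg_right ?_ (by positivity)
            exact le_self_pow₀ hC₁1 (by positivity)
        _ = (C₁ * (n : ℝ) ^ γ) ^ (s * (s + 1)) := by
            rw [mul_pow, Real.rpow_mul hn0.le, Real.rpow_natCast]
    exact (pow_le_pow_iff_left₀ e0 (by positivity) (by positivity)).1 h2
  have h2 : ecount E - ecount (low μ E) ≤ C₂ * (n : ℝ) ^ γ := by
    have h3 : (0 : ℝ) < (μ : ℝ) ^ (s - 1) := by positivity
    have h4 : (n : ℝ) ^ s ≤ (n : ℝ) ^ γ * (μ : ℝ) ^ (s - 1) := by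
      calc (n : ℝ) ^ s = (n : ℝ) ^ (γ + β * ((s - 1 : ℕ) : ℝ)) := by
            rw [← Real.rpow_natCast]
            congr 1
            rw [Nat.cast_sub (by omega), hγ, hβ]
            push_cast
            field_simp
            ring
        _ = (n : ℝ) ^ γ * ((n : ℝ) ^ β) ^ (s - 1) := by
            rw [Real.rpow_add hn0, Real.rpow_mul hn0.le, Real.rpow_natCast]
        _ ≤ (n : ℝ) ^ γ * (μ : ℝ) ^ (s - 1) := by
            refine mul_le_mul_of_nonneg_left ?_ (by positivity)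
            exact pow_le_pow_left₀ (by positivity) hμ1 _
    refine le_of_mul_le_mul_right ?_ h3
    calc _ ≤ 2 * ((2 * s) ^ s * (1 + t) * (n : ℝ) ^ s) := hlost
      _ = C₂ * (n : ℝ) ^ s := by
          rw [hC₂]
          ring
      _ ≤ C₂ * ((n : ℝ) ^ γ * (μ : ℝ) ^ (s - 1)) := mul_le_mul_of_nonneg_left h4 hC₂0
      _ = _ := by ring
  rw [add_mul]
  linarith

/-- all degrees small -/
theorem low_eq {μ : ℕ} {E : X → Y → Prop} (hdX : ∀ x, (nb E x).card ≤ μ)
    (hdY : ∀ y, (nb (fun y x => E x y) y).card ≤ μ) : low μ E = E := by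
  funext x y
  exact propext ⟨fun h => h.1, fun h => ⟨h, hdX x, hdY y⟩⟩

/-- The bound in terms of the maximum degree. -/
theorem degree_bound {s t n Δ : ℕ} (hs : 2 ≤ s) (hΔ : 1 ≤ Δ) (E : X → Y → Prop)
    (hK : NoK s t E) (hK' : NoK s t fun y x => E x y) (hH : Helly s E)
    (hX : Fintype.card X ≤ n) (hY : Fintype.card Y ≤ n)
    (hdX : ∀ x, (nb E x).card ≤ Δ) (hdY : ∀ y, (nb (fun y x => E x y) y).card ≤ Δ) :
    ecount E ^ (s * (s + 1)) ≤ KK s t * ((n : ℝ) ^ (2 * s ^ 2 - 1) * (Δ : ℝ) ^ (s + 1)) := by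
  have h := low_edges hs hΔ E hK hK' hH hX hY (Or.inl hdX)
  rwa [low_eq hdX hdY] at h

/-- almost regular graphs -/
theorem regular_bound {s t : ℕ} (hs : 2 ≤ s) (D : ℝ) (hD : 0 ≤ D) : ∃ C : ℝ, 0 < C ∧
    ∀ (n Δ : ℕ) (X Y : Type) [Fintype X] [Fintype Y] (E : X → Y → Prop), Fintype.card X ≤ n →
      Fintype.card Y ≤ n → NoK s t E → (NoK s t fun y x => E x y) → Helly s E →
      (∀ x, (nb E x).card ≤ Δ) → (∀ y, (nb (fun y x => E x y) y).card ≤ Δ) →
      (Δ : ℝ) * n ≤ D * ecount E →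
      ecount E ≤ C * (n : ℝ) ^ (2 - (s : ℝ) / ((s : ℝ) ^ 2 - 1)) := by
  set γ : ℝ := 2 - (s : ℝ) / ((s : ℝ) ^ 2 - 1) with hγ
  have hs' : (2 : ℝ) ≤ s := by exact_mod_cast hs
  have hs2 : (0 : ℝ) < (s : ℝ) ^ 2 - 1 := by nlinarith
  set C : ℝ := KK s t * D ^ (s + 1) + 1 with hC
  have hC1 : 1 ≤ C := by
    rw [hC]
    have : (0 : ℝ) ≤ KK s t * D ^ (s + 1) := by positivity
    linarith
  refine ⟨C, by linarith, fun n Δ X Y _ _ E hX hY hK hK' hH hdX hdY hreg => ?_⟩
  have e0 := ecount_nonneg E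
  rcases e0.eq_or_lt with he | he
  · rw [← he]
    positivity
  have hn : 0 < n := by
    by_contra h
    have hX0 : Fintype.card X = 0 := by omega
    have : IsEmpty X := Fintype.card_eq_zero_iff.1 hX0
    simp [ecount] at he
  have hn0 : (0 : ℝ) < n := by exact_mod_cast hn
  have hΔ : 1 ≤ Δ := by
    by_contra h
    have h0 : ∀ x, (nb E x).card = 0 := fun x => by
      have := hdX x
      omega
    rw [ecount_eq] at he
    simp [h0] at he
  have h1 := degree_bound hs hΔ E hK hK' hH hX hY hdX hdY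
  -- insert the bound for the degree
  have h2 : (Δ : ℝ) ^ (s + 1) * (n : ℝ) ^ (s + 1) ≤ D ^ (s + 1) * ecount E ^ (s + 1) := by
    rw [← mul_pow, ← mul_pow]
    exact pow_le_pow_left₀ (by positivity) hreg _
  obtain ⟨r, rfl⟩ : ∃ r, s = r + 1 := ⟨s - 1, by omega⟩
  have hr : 1 ≤ r := by omega
  have h3 : ecount E ^ ((r + 2) * r) * (n : ℝ) ^ (r + 2) ≤
      KK (r + 1) t * D ^ (r + 2) * (n : ℝ) ^ (2 * (r + 1) ^ 2 - 1) := by
    have h4 : (0 : ℝ) < ecount E ^ (r + 2) := by positivity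
    refine le_of_mul_le_mul_right ?_ h4
    calc ecount E ^ ((r + 2) * r) * (n : ℝ) ^ (r + 2) * ecount E ^ (r + 2)
        = ecount E ^ ((r + 1) * (r + 1 + 1)) * (n : ℝ) ^ (r + 2) := by
          have : (r + 1) * (r + 1 + 1) = (r + 2) * r + (r + 2) := by ring
          rw [this, pow_add]
          ring
      _ ≤ KK (r + 1) t * ((n : ℝ) ^ (2 * (r + 1) ^ 2 - 1) * (Δ : ℝ) ^ (r + 1 + 1)) *
          (n : ℝ) ^ (r + 2) := mul_le_mul_of_nonneg_right h1 (by positivity)
      _ = KK (r + 1) t * (n : ℝ) ^ (2 * (r + 1) ^ 2 - 1) *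
          ((Δ : ℝ) ^ (r + 1 + 1) * (n : ℝ) ^ (r + 1 + 1)) := by ring
      _ ≤ KK (r + 1) t * (n : ℝ) ^ (2 * (r + 1) ^ 2 - 1) *
          (D ^ (r + 1 + 1) * ecount E ^ (r + 1 + 1)) :=
          mul_le_mul_of_nonneg_left h2 (by positivity)
      _ = _ := by ring
  have h5 : 2 * (r + 1) ^ 2 - 1 = (2 * r ^ 2 + 3 * r - 1) + (r + 2) := by
    have : 2 * (r + 1) ^ 2 = 2 * r ^ 2 + 3 * r + (r + 2) := by ring
    omega
  have h6 : ecount E ^ ((r + 2) * r) ≤ KK (r + 1) t * D ^ (r + 2) * (n : ℝ) ^ (2 * r ^ 2 + 3 * r - 1) := by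
    refine le_of_mul_le_mul_right ?_ (show (0 : ℝ) < (n : ℝ) ^ (r + 2) by positivity)
    calc _ ≤ _ := h3
      _ = _ := by
        rw [h5, pow_add]
        ring
  have h7 : ecount E ^ ((r + 2) * r) ≤ (C * (n : ℝ) ^ γ) ^ ((r + 2) * r) := by
    calc _ ≤ _ := h6
      _ ≤ C * (n : ℝ) ^ (2 * r ^ 2 + 3 * r - 1) := by
          refine mul_le_mul_of_nonneg_right ?_ (by positivity)
          rw [hC]
          linarith
      _ ≤ C ^ ((r + 2) * r) * (n : ℝ) ^ (2 * r ^ 2 + 3 * r - 1) := by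
          refine mul_le_mul_of_nonneg_right ?_ (by positivity)
          exact le_self_pow₀ hC1 (by positivity)
      _ = C ^ ((r + 2) * r) * (n : ℝ) ^ (γ * (((r + 2) * r : ℕ) : ℝ)) := by
          congr 1
          rw [← Real.rpow_natCast]
          congr 1
          have hr' : (1 : ℝ) ≤ r := by exact_mod_cast hr
          rw [Nat.cast_sub (by nlinarith), hγ]
          push_cast
          have h8 : ((r : ℝ) + 1) ^ 2 - 1 = (r + 2) * r := by ring
          rw [h8]
          field_simp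
          ring
      _ = _ := by
          rw [mul_pow, Real.rpow_mul hn0.le, Real.rpow_natCast]
  exact (pow_le_pow_iff_left₀ e0 (by positivity) (by positivity)).1 h7

end Pool.Agent.W5h8.HN
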