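import Pool.Agent.W5h8.HNG

/-!
# Helly number at most `s - 1`: the exponent drops by one step
-/

set_option autoImplicit false

namespace Pool.Agent.W5h8.HN

open Finset

variable {X Y : Type} [Fintype X] [Fintype Y]

open Classical in
/-- common neighbours of a set -/
noncomputable def cn (E : X → Y → Prop) (S : Finset X) : Finset Y :=
  univ.filter fun y => ∀ x ∈ S, E x y

theorem mem_cn {E : X → Y → Prop} {S : Finset X} {y : Y} : y ∈ cn E S ↔ ∀ x ∈ S, E x y := by
  classical
  simp [cn]

theorem NoK.cn_lt {s t : ℕ} {E : X → Y → Prop} (hK : NoK s t E) {S : Finset X}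
    (hS : S.card = s) : (cn E S).card < t := by
  classical
  have h := hK S hS
  have h2 : {y | ∀ z ∈ S, E z y} = (cn E S : Set Y) := by
    ext y
    simp [mem_cn]
  rwa [h2, Set.ncard_coe_finset] at h

/-- a subset with few common neighbours -/
theorem exists_poor [DecidableEq X] {s t : ℕ} (hs : 1 ≤ s) {E : X → Y → Prop} (hK : NoK s t E)
    (hH : Helly (s - 1) E) (T : Finset X) (hT : T.card = s) :
    ∃ S ∈ T.powersetCard (s - 1), (cn E S).card < t := by
  classical
  obtain ⟨z, hz⟩ := hH.center (ι := {x // x ∈ T}) (by rw [Fintype.card_coe]; omega) Subtype.val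
  by_cases hzT : z ∈ T
  · refine ⟨T.erase z, ?_, ?_⟩
    · rw [mem_powersetCard]
      exact ⟨erase_subset _ _, by rw [card_erase_of_mem hzT, hT]⟩
    · refine lt_of_le_of_lt (card_le_card fun y hy => ?_) (hK.cn_lt hT)
      rw [mem_cn] at hy ⊢
      intro x hx
      by_cases hxz : x = z
      · rw [hxz]
        refine hz y ⟨⟨z, hzT⟩, fun j hj => hy _ ?_⟩
        rw [mem_erase]
        exact ⟨fun h => hj (Subtype.ext h), j.2⟩
      · exact hy x (mem_erase.2 ⟨hxz, hx⟩)
  · obtain ⟨x, hx⟩ := card_pos.1 (show 0 < T.card by omega)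
    refine ⟨T.erase x, ?_, ?_⟩
    · rw [mem_powersetCard]
      exact ⟨erase_subset _ _, by rw [card_erase_of_mem hx, hT]⟩
    · have hc : (insert z (T.erase x)).card = s := by
        rw [card_insert_of_notMem fun h => hzT (mem_of_mem_erase h), card_erase_of_mem hx, hT]
        omega
      refine lt_of_le_of_lt (card_le_card fun y hy => ?_) (hK.cn_lt hc)
      rw [mem_cn] at hy ⊢
      intro w hw
      rcases mem_insert.1 hw with rfl | hw
      · refine hz y ⟨⟨x, hx⟩, fun j hj => hy _ ?_⟩
        rw [mem_erase]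
        exact ⟨fun h => hj (Subtype.ext h), j.2⟩
      · exact hy w hw

open Classical in
/-- poor subsets of a set -/
noncomputable def poor (s t : ℕ) (E : X → Y → Prop) (N : Finset X) : Finset (Finset X) :=
  (N.powersetCard (s - 1)).filter fun S => (cn E S).card < t

theorem choose_le_poor {s t : ℕ} (hs : 1 ≤ s) {E : X → Y → Prop} (hK : NoK s t E)
    (hH : Helly (s - 1) E) (N : Finset X) :
    N.card.choose (s - 1) ≤ s * (poor s t E N).card + 1 := by
  classical
  rcases lt_or_ge N.card s with h | h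
  · have : N.card.choose (s - 1) ≤ 1 := by
      rcases Nat.lt_or_ge N.card (s - 1) with h2 | h2
      · rw [Nat.choose_eq_zero_of_lt h2]
        omega
      · have : N.card = s - 1 := by omega
        rw [this, Nat.choose_self]
    omega
  · have h1 : (N.powersetCard s).card * 1 ≤ (poor s t E N).card * (N.card - (s - 1)) := by
      refine card_mul_le_card_mul (fun T S => S ⊆ T) ?_ ?_
      · intro T hT
        rw [mem_powersetCard] at hT
        obtain ⟨S, hS, hSt⟩ := exists_poor hs hK hH T hT.2
        rw [mem_powersetCard] at hS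
        refine card_pos.2 ⟨S, ?_⟩
        rw [mem_bipartiteAbove, poor, mem_filter, mem_powersetCard]
        exact ⟨⟨⟨hS.1.trans hT.1, hS.2⟩, hSt⟩, hS.1⟩
      · intro S hS
        rw [poor, mem_filter, mem_powersetCard] at hS
        have h2 : ((N.powersetCard s).bipartiteBelow (fun T S => S ⊆ T) S) ⊆
            (N \ S).image fun v => insert v S := by
          intro T hT
          rw [mem_bipartiteBelow, mem_powersetCard] at hT
          obtain ⟨⟨hTN, hTs⟩, hST⟩ := hT
          obtain ⟨v, hv, hvS⟩ : ∃ v ∈ T, v ∉ S := by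
            by_contra hcon
            push Not at hcon
            have := card_le_card (show T ⊆ S from hcon)
            omega
          rw [mem_image]
          refine ⟨v, mem_sdiff.2 ⟨hTN hv, hvS⟩, ?_⟩
          refine eq_of_subset_of_card_le (insert_subset hv hST) ?_
          rw [card_insert_of_notMem hvS]
          omega
        refine (card_le_card h2).trans (card_image_le.trans ?_)
        rw [card_sdiff_of_subset hS.1.1, hS.1.2]
    rw [card_powersetCard, mul_one] at h1
    have h2 := Nat.choose_succ_right_eq N.card (s - 1)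
    rw [Nat.sub_add_cancel hs] at h2
    have h3 : 0 < N.card - (s - 1) := by omega
    have h4 : N.card.choose (s - 1) * (N.card - (s - 1)) ≤
        (s * (poor s t E N).card) * (N.card - (s - 1)) := by
      rw [← h2]
      calc N.card.choose s * s ≤ (poor s t E N).card * (N.card - (s - 1)) * s :=
            Nat.mul_le_mul_right _ h1
        _ = _ := by ring
    have := Nat.le_of_mul_le_mul_right h4 h3
    omega

theorem pow_le_desc' (m s : ℕ) :
    m ^ s ≤ (2 * s) ^ s * (1 + m.descFactorial s) := by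
  rcases Nat.eq_zero_or_pos s with rfl | hs
  · simp
  rcases lt_or_ge m (2 * s) with h | h
  · calc m ^ s ≤ (2 * s) ^ s := Nat.pow_le_pow_left h.le s
      _ ≤ (2 * s) ^ s * (1 + m.descFactorial s) := Nat.le_mul_of_pos_right _ (by omega)
  · calc m ^ s ≤ (2 * (m + 1 - s)) ^ s := Nat.pow_le_pow_left (by omega) s
      _ = 2 ^ s * (m + 1 - s) ^ s := mul_pow _ _ _
      _ ≤ (2 * s) ^ s * m.descFactorial s :=
        Nat.mul_le_mul (Nat.pow_le_pow_left (by omega) s) (Nat.pow_sub_le_descFactorial m s)
      _ ≤ _ := Nat.mul_le_mul_left _ (by omega)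

/-- poor pairs -/
theorem sum_poor {s t n : ℕ} (E : X → Y → Prop) (hX : Fintype.card X ≤ n) :
    ∑ y : Y, (poor s t E (nb (fun y x => E x y) y)).card ≤ t * n ^ (s - 1) := by
  classical
  have h1 : ∀ y : Y, (poor s t E (nb (fun y x => E x y) y)).card =
      ∑ S ∈ poor s t E univ, if y ∈ cn E S then 1 else 0 := by
    intro y
    rw [← card_filter]
    congr 1
    ext S
    simp only [poor, mem_filter, mem_powersetCard, subset_univ, true_and, mem_cn]
    constructor
    · rintro ⟨⟨h1, h2⟩, h3⟩
      exact ⟨⟨h2, h3⟩, fun x hx => (mem_nb (E := fun y x => E x y)).1 (h1 hx)⟩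
    · rintro ⟨⟨h2, h3⟩, h1⟩
      exact ⟨⟨fun x hx => (mem_nb (E := fun y x => E x y)).2 (h1 x hx), h2⟩, h3⟩
  rw [sum_congr rfl fun y _ => h1 y, sum_comm]
  calc _ ≤ ∑ _S ∈ poor s t E (univ : Finset X), t := by
        refine sum_le_sum fun S hS => ?_
        rw [poor, mem_filter] at hS
        rw [← card_filter]
        refine le_trans (card_le_card ?_) hS.2.le
        intro y hy
        rw [mem_filter] at hy
        exact hy.2
    _ = (poor s t E (univ : Finset X)).card * t := by rw [sum_const, smul_eq_mul]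
    _ ≤ n ^ (s - 1) * t := by
        refine Nat.mul_le_mul_right _ ?_
        refine (card_filter_le _ _).trans ?_
        rw [card_powersetCard, card_univ]
        exact (Nat.choose_le_pow _ _).trans (Nat.pow_le_pow_left hX _)
    _ = _ := mul_comm _ _

theorem sum_deg_drop {s t n : ℕ} (hs : 2 ≤ s) {E : X → Y → Prop} (hK : NoK s t E)
    (hH : Helly (s - 1) E) (hX : Fintype.card X ≤ n) (hY : Fintype.card Y ≤ n) :
    ∑ y : Y, (nb (fun y x => E x y) y).card ^ (s - 1) ≤
      (2 * s) ^ s * (1 + s.factorial * (s * t + 1)) * n ^ (s - 1) := by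
  classical
  rcases Nat.eq_zero_or_pos n with rfl | hn
  · have : IsEmpty Y := Fintype.card_eq_zero_iff.1 (by omega)
    simp
  have hn1 : n ≤ n ^ (s - 1) := by
    calc n = n ^ 1 := (pow_one n).symm
      _ ≤ n ^ (s - 1) := Nat.pow_le_pow_right hn (by omega)
  have h1 : ∀ y : Y, (nb (fun y x => E x y) y).card ^ (s - 1) ≤
      (2 * s) ^ s * (1 + s.factorial *
        (s * (poor s t E (nb (fun y x => E x y) y)).card + 1)) := by
    intro y
    refine (pow_le_desc' _ (s - 1)).trans ?_
    refine Nat.mul_le_mul ?_ ?_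
    · calc (2 * (s - 1)) ^ (s - 1) ≤ (2 * s) ^ (s - 1) := Nat.pow_le_pow_left (by omega) _
        _ ≤ (2 * s) ^ s := Nat.pow_le_pow_right (by omega) (by omega)
    · refine Nat.add_le_add_left ?_ 1
      rw [Nat.descFactorial_eq_factorial_mul_choose]
      exact Nat.mul_le_mul (Nat.factorial_le (by omega)) (choose_le_poor (by omega) hK hH _)
  calc _ ≤ ∑ y : Y, (2 * s) ^ s * (1 + s.factorial *
        (s * (poor s t E (nb (fun y x => E x y) y)).card + 1)) := sum_le_sum fun y _ => h1 y
    _ = (2 * s) ^ s * (Fintype.card Y + s.factorial *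
        (s * ∑ y : Y, (poor s t E (nb (fun y x => E x y) y)).card + Fintype.card Y)) := by
        rw [← mul_sum, sum_add_distrib, ← mul_sum, sum_add_distrib, ← mul_sum]
        simp
    _ ≤ (2 * s) ^ s * (n ^ (s - 1) + s.factorial * (s * (t * n ^ (s - 1)) + n ^ (s - 1))) := by
        refine Nat.mul_le_mul_left _ (Nat.add_le_add (hY.trans hn1) (Nat.mul_le_mul_left _
          (Nat.add_le_add (Nat.mul_le_mul_left _ (sum_poor E hX)) (hY.trans hn1))))
    _ = _ := by ring

/-- Helly number at most `s - 1`. -/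
theorem drop_bound {s t : ℕ} (hs : 2 ≤ s) : ∃ C : ℝ, 0 < C ∧
    ∀ (n : ℕ) (X Y : Type) [Fintype X] [Fintype Y] (E : X → Y → Prop), Fintype.card X ≤ n →
      Fintype.card Y ≤ n → NoK s t E → Helly (s - 1) E →
      ecount E ≤ C * (n : ℝ) ^ (2 - 1 / ((s : ℝ) - 1)) := by
  set C : ℝ := (2 * s) ^ s * (1 + s.factorial * (s * t + 1)) with hC
  have hs' : (2 : ℝ) ≤ s := by exact_mod_cast hs
  have hC1 : 1 ≤ C := by
    rw [hC]
    have h1 : (1 : ℝ) ≤ (2 * s) ^ s := one_le_pow₀ (by linarith)
    have h2 : (0 : ℝ) ≤ s.factorial * (s * t + 1) := by positivity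
    nlinarith
  refine ⟨C, by linarith, fun n X Y _ _ E hX hY hK hH => ?_⟩
  have e0 := ecount_nonneg E
  rcases e0.eq_or_lt with he | he
  · rw [← he]
    positivity
  have hYpos : 0 < Fintype.card Y := by
    by_contra h
    have : IsEmpty Y := Fintype.card_eq_zero_iff.1 (by omega)
    simp [ecount] at he
  have hn : 0 < n := by omega
  have hn0 : (0 : ℝ) < n := by exact_mod_cast hn
  have h1 := sum_deg_drop (t := t) hs hK hH hX hY
  have h2 : ecount E = ∑ y : Y, ((nb (fun y x => E x y) y).card : ℝ) := by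
    rw [ecount_swap, ecount_eq]
  obtain ⟨r, rfl⟩ : ∃ r, s = r + 2 := ⟨s - 2, by omega⟩
  clear_value C
  have h3 : ecount E ^ (r + 1) ≤
      (Fintype.card Y : ℝ) ^ r * ∑ y : Y, ((nb (fun y x => E x y) y).card : ℝ) ^ (r + 1) := by
    rw [h2]
    have := pow_sum_le_card_mul_sum_pow (s := (univ : Finset Y))
      (f := fun y => ((nb (fun y x => E x y) y).card : ℝ)) (fun y _ => by positivity) r
    simpa using this
  have h4 : (∑ y : Y, ((nb (fun y x => E x y) y).card : ℝ) ^ (r + 1)) ≤ C * (n : ℝ) ^ (r + 1) := by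
    rw [hC]
    exact_mod_cast h1
  have h5 : ecount E ^ (r + 1) ≤ (C * (n : ℝ) ^ (2 - 1 / (((r + 2 : ℕ) : ℝ) - 1))) ^ (r + 1) := by
    calc ecount E ^ (r + 1) ≤ _ := h3
      _ ≤ (n : ℝ) ^ r * (C * (n : ℝ) ^ (r + 1)) := by
          refine mul_le_mul (pow_le_pow_left₀ (by positivity) (by exact_mod_cast hY) _) h4
            (by positivity) (by positivity)
      _ = C * (n : ℝ) ^ (2 * r + 1) := by ring
      _ ≤ C ^ (r + 1) * (n : ℝ) ^ (2 * r + 1) := by
          refine mul_le_mul_of_nonneg_right ?_ (by positivity)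
          exact le_self_pow₀ hC1 (by omega)
      _ = C ^ (r + 1) * (n : ℝ) ^ ((2 - 1 / (((r + 2 : ℕ) : ℝ) - 1)) * ((r + 1 : ℕ) : ℝ)) := by
          congr 1
          rw [← Real.rpow_natCast]
          congr 1
          push_cast
          have h8 : (r : ℝ) + 2 - 1 = r + 1 := by ring
          rw [h8]
          field_simp
          ring
      _ = _ := by
          rw [mul_pow C, Real.rpow_mul hn0.le, Real.rpow_natCast]
  exact (pow_le_pow_iff_left₀ e0 (by positivity) (by omega)).1 h5

end Pool.Agent.W5h8.HN
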