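import Pool.Agent.W5h8.HNH
import Pool.Agent.Y384.DM.Cone

/-!
# Graphs, examples
-/

set_option autoImplicit false

namespace Pool.Agent.W5h8.HN

open Finset SimpleGraph

section Auto

variable {X Y : Type} [Finite X] [Finite Y]

/-- Relations without `K_{s,t}` have Helly number at most `s + t - 1`. -/
theorem helly_auto {s t : ℕ} (E : X → Y → Prop) (hK' : NoK s t fun y x => E x y) :
    Helly (s + t - 1) E := by
  classical
  have := Fintype.ofFinite X
  have := Fintype.ofFinite Y
  intro F hF
  by_contra hcon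
  push Not at hcon
  choose f hfF hf using hcon
  have hs : s ≤ F.toFinset.card := by
    by_contra h
    obtain ⟨x, hx⟩ := hF F.toFinset (fun y hy => Set.mem_toFinset.1 hy) (by omega)
    exact hf x (hx _ (Set.mem_toFinset.2 (hfF x)))
  obtain ⟨T, hTF, hT⟩ := exists_subset_card_eq hs
  have h1 := hK' T hT
  have h2 : {x | ∀ y ∈ T, E x y} = ((univ.filter fun x => ∀ y ∈ T, E x y : Finset X) : Set X) := by
    ext x
    simp
  rw [h2, Set.ncard_coe_finset] at h1
  obtain ⟨x, hx⟩ := hF (T ∪ (univ.filter fun x => ∀ y ∈ T, E x y).image f) (by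
      intro y hy
      rcases mem_union.1 hy with hy | hy
      · exact Set.mem_toFinset.1 (hTF hy)
      · obtain ⟨x, -, rfl⟩ := mem_image.1 hy
        exact hfF x) (by
      have h3 := card_union_le T ((univ.filter fun x => ∀ y ∈ T, E x y).image f)
      have h4 := card_image_le (s := univ.filter fun x => ∀ y ∈ T, E x y) (f := f)
      omega)
  refine hf x (hx _ (mem_union_right _ (mem_image_of_mem f ?_)))
  rw [mem_filter]
  exact ⟨mem_univ _, fun y hy => hx y (mem_union_left _ hy)⟩

end Auto

section DQ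

variable {F : Type} [Field F]

/-- points and lines of the graph `D(3, q)` -/
def DQ (p l : F × F × F) : Prop := p.2.1 + l.2.1 = p.1 * l.1 ∧ p.2.2 + l.2.2 = p.1 * l.2.1

theorem dq_two {p p' l l' : F × F × F} (h1 : DQ p l) (h2 : DQ p l') (h3 : DQ p' l)
    (h4 : DQ p' l') : p = p' ∨ l = l' := by
  obtain ⟨a, b, c⟩ := p
  obtain ⟨a', b', c'⟩ := p'
  obtain ⟨x, y, z⟩ := l
  obtain ⟨x', y', z'⟩ := l'
  simp only [DQ] at h1 h2 h3 h4
  by_cases h : a = a'
  · left
    subst h
    have hb : b = b' := by
      have := h1.1.trans h3.1.symm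
      exact add_right_cancel this
    have hc : c = c' := by
      have := h1.2.trans h3.2.symm
      exact add_right_cancel this
    rw [hb, hc]
  · right
    have h5 : (a - a') * (x - x') = 0 := by
      linear_combination -h1.1 + h2.1 + h3.1 - h4.1
    have hx : x = x' := by
      rcases mul_eq_zero.1 h5 with h6 | h6
      · exact absurd (sub_eq_zero.1 h6) h
      · exact sub_eq_zero.1 h6
    subst hx
    have hy : y = y' := by
      have := h1.1.trans h2.1.symm
      exact add_left_cancel this
    subst hy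
    have hz : z = z' := by
      have := h1.2.trans h2.2.symm
      exact add_left_cancel this
    rw [hz]

/-- no triangles -/
theorem dq_three {p q r l m k : F × F × F} (h1 : DQ p l) (h2 : DQ q l) (h3 : DQ q m)
    (h4 : DQ r m) (h5 : DQ r k) (h6 : DQ p k) (hpq : p ≠ q) (hqr : q ≠ r) : l = m := by
  obtain ⟨a, b, c⟩ := p
  obtain ⟨a', b', c'⟩ := q
  obtain ⟨a'', b'', c''⟩ := r
  obtain ⟨x, y, z⟩ := l
  obtain ⟨x', y', z'⟩ := m
  obtain ⟨x'', y'', z''⟩ := k
  simp only [DQ] at h1 h2 h3 h4 h5 h6
  have ha : a ≠ a' := by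
    rintro rfl
    apply hpq
    have hb : b = b' := add_right_cancel (h1.1.trans h2.1.symm)
    have hc : c = c' := add_right_cancel (h1.2.trans h2.2.symm)
    rw [hb, hc]
  have ha' : a' ≠ a'' := by
    rintro rfl
    apply hqr
    have hb : b' = b'' := add_right_cancel (h3.1.trans h4.1.symm)
    have hc : c' = c'' := add_right_cancel (h3.2.trans h4.2.symm)
    rw [hb, hc]
  have key : (a - a') * (a' - a'') * (x - x') = 0 := by
    linear_combination a'' * (h1.1 - h2.1 + h3.1 - h4.1 + h5.1 - h6.1) -
      (h1.2 - h2.2 + h3.2 - h4.2 + h5.2 - h6.2) - (a - a') * h2.1 - (a' - a'') * h3.1 -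
      (a'' - a) * (h3.1 - h4.1 + h5.1)
  have hx : x = x' := by
    rcases mul_eq_zero.1 key with h7 | h7
    · rcases mul_eq_zero.1 h7 with h8 | h8
      · exact absurd (sub_eq_zero.1 h8) ha
      · exact absurd (sub_eq_zero.1 h8) ha'
    · exact sub_eq_zero.1 h7
  subst hx
  have hy : y = y' := add_left_cancel (h2.1.trans h3.1.symm)
  subst hy
  have hz : z = z' := add_left_cancel (h2.2.trans h3.2.symm)
  rw [hz]

end DQ

end Pool.Agent.W5h8.HN
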