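import Pool.Agent.W5h8.HNI

/-!
# The graph `D(3, q)` and simple graphs
-/

set_option autoImplicit false

namespace Pool.Agent.W5h8.HN

open Finset SimpleGraph

section DQ

variable {F : Type} [Field F] [Finite F]

theorem dq_noK : NoK 2 2 (DQ (F := F)) := by
  classical
  intro S hS
  obtain ⟨p, q, hpq, rfl⟩ := card_eq_two.1 hS
  have : {y | ∀ x ∈ ({p, q} : Finset (F × F × F)), DQ x y}.ncard ≤ 1 := by
    rw [Set.ncard_le_one (Set.toFinite _)]
    intro l hl m hm
    have h1 := hl p (by simp)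
    have h2 := hl q (by simp)
    have h3 := hm p (by simp)
    have h4 := hm q (by simp)
    exact (dq_two h1 h3 h2 h4).resolve_left hpq
  omega

theorem dq_noK' : NoK 2 2 (fun l p => DQ (F := F) p l) := by
  classical
  intro S hS
  obtain ⟨l, m, hlm, rfl⟩ := card_eq_two.1 hS
  have : {p | ∀ x ∈ ({l, m} : Finset (F × F × F)), DQ p x}.ncard ≤ 1 := by
    rw [Set.ncard_le_one (Set.toFinite _)]
    intro p hp q hq
    have h1 := hp l (by simp)
    have h2 := hp m (by simp)
    have h3 := hq l (by simp)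
    have h4 := hq m (by simp)
    exact (dq_two h1 h2 h3 h4).resolve_right hlm
  exact lt_of_le_of_lt this one_lt_two

theorem dq_helly : Helly 2 (DQ (F := F)) := by
  classical
  intro B hB
  have hpair : ∀ l ∈ B, ∀ m ∈ B, ∃ p, DQ p l ∧ DQ p m := by
    intro l hl m hm
    obtain ⟨p, hp⟩ := hB {l, m} (by
      intro y hy
      rw [mem_insert, mem_singleton] at hy
      rcases hy with rfl | rfl
      · exact hl
      · exact hm) card_le_two
    exact ⟨p, hp l (by simp), hp m (by simp)⟩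
  by_cases hne : ∃ l ∈ B, ∃ m ∈ B, l ≠ m
  · obtain ⟨l, hl, m, hm, hlm⟩ := hne
    obtain ⟨q, hql, hqm⟩ := hpair l hl m hm
    refine ⟨q, fun k hk => ?_⟩
    obtain ⟨p, hpl, hpk⟩ := hpair l hl k hk
    obtain ⟨r, hrm, hrk⟩ := hpair m hm k hk
    by_contra hcon
    have hpq : p ≠ q := by
      rintro rfl
      exact hcon hpk
    have hqr : q ≠ r := by
      rintro rfl
      exact hcon hrk
    exact hlm (dq_three hpl hql hqm hrm hrk hpk hpq hqr)
  · push Not at hne
    by_cases hB0 : B.Nonempty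
    · obtain ⟨l, hl⟩ := hB0
      obtain ⟨p, hp, -⟩ := hpair l hl l hl
      refine ⟨p, fun m hm => ?_⟩
      rw [← hne l hl m hm]
      exact hp
    · refine ⟨(0, 0, 0), fun m hm => absurd ⟨m, hm⟩ hB0⟩

theorem dq_degree (p : F × F × F) : {l | DQ p l}.ncard = Nat.card F := by
  have : {l | DQ p l} = Set.range fun x : F =>
      ((x, p.1 * x - p.2.1, p.1 * (p.1 * x - p.2.1) - p.2.2) : F × F × F) := by
    ext ⟨x, y, z⟩
    simp only [Set.mem_ofPred_eq, DQ, Set.mem_range, Prod.mk.injEq]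
    constructor
    · rintro ⟨h1, h2⟩
      have hy : y = p.1 * x - p.2.1 := by linear_combination h1
      refine ⟨x, rfl, hy.symm, ?_⟩
      rw [← hy]
      linear_combination -h2
    · rintro ⟨x', rfl, h1, h2⟩
      have hz : z = p.1 * y - p.2.2 := by rw [← h2, ← h1]
      exact ⟨by linear_combination -h1, by rw [hz]; ring⟩
  rw [this, ← Set.image_univ, Set.ncard_image_of_injective, Set.ncard_univ]
  intro x y h
  simp only [Prod.mk.injEq] at h
  exact h.1

theorem dq_degree' (l : F × F × F) : {p | DQ p l}.ncard = Nat.card F := by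
  have : {p | DQ p l} = Set.range fun a : F =>
      ((a, a * l.1 - l.2.1, a * l.2.1 - l.2.2) : F × F × F) := by
    ext ⟨a, b, c⟩
    simp only [Set.mem_ofPred_eq, DQ, Set.mem_range, Prod.mk.injEq]
    constructor
    · rintro ⟨h1, h2⟩
      exact ⟨a, rfl, by linear_combination -h1, by linear_combination -h2⟩
    · rintro ⟨a', rfl, h1, h2⟩
      exact ⟨by linear_combination -h1, by linear_combination -h2⟩
  rw [this, ← Set.image_univ, Set.ncard_image_of_injective, Set.ncard_univ]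
  intro x y h
  simp only [Prod.mk.injEq] at h
  exact h.1

end DQ

section Graphs

theorem ecount_ncard {X Y : Type} [Fintype X] [Fintype Y] (E : X → Y → Prop) :
    ecount E = ({p : X × Y | E p.1 p.2}.ncard : ℝ) := by
  classical
  have : {p : X × Y | E p.1 p.2} = ((univ.filter fun p : X × Y => E p.1 p.2 : Finset (X × Y)) :
      Set (X × Y)) := by
    ext p
    simp
  rw [this, Set.ncard_coe_finset, ecount, sum_boole]

theorem nb_ncard {X Y : Type} [Fintype Y] (E : X → Y → Prop) (x : X) :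
    (nb E x).card = {y | E x y}.ncard := by
  classical
  have : {y | E x y} = (nb E x : Set Y) := by
    ext y
    simp [mem_nb]
  rw [this, Set.ncard_coe_finset]

variable {V : Type} [Finite V]

/-- graphs without `K_{s,t}` -/
theorem noK_of_free {s t : ℕ} (G : SimpleGraph V)
    (hG : (completeBipartiteGraph (Fin s) (Fin t)).Free G) : NoK s t G.Adj := by
  classical
  have := Fintype.ofFinite V
  intro S hS
  by_contra hcon
  rw [not_lt] at hcon
  have h2 : {y | ∀ x ∈ S, G.Adj x y} = ((univ.filter fun y => ∀ x ∈ S, G.Adj x y : Finset V) :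
      Set V) := by
    ext y
    simp
  rw [h2, Set.ncard_coe_finset] at hcon
  obtain ⟨T, hTs, hT⟩ := exists_subset_card_eq hcon
  refine hG ?_
  rw [completeBipartiteGraph_isContained_iff]
  refine ⟨S, T, by rw [hS, Fintype.card_fin], by rw [hT, Fintype.card_fin], ?_⟩
  intro x hx y hy
  have := hTs (mem_coe.1 hy)
  rw [mem_filter] at this
  exact this.2 x (mem_coe.1 hx)

/-- closed neighbourhoods -/
def Cl (G : SimpleGraph V) (x y : V) : Prop := x = y ∨ G.Adj x y

theorem noK_cl {s t : ℕ} (G : SimpleGraph V) (hG : NoK s t G.Adj) : NoK s (s + t) (Cl G) := by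
  classical
  have := Fintype.ofFinite V
  intro S hS
  have h1 := hG S hS
  have h2 : {y | ∀ x ∈ S, Cl G x y} ⊆ (S : Set V) ∪ {y | ∀ x ∈ S, G.Adj x y} := by
    intro y hy
    by_cases h : y ∈ S
    · exact Or.inl h
    · refine Or.inr fun x hx => ?_
      rcases hy x hx with h3 | h3
      · exact absurd (h3 ▸ hx) h
      · exact h3
  have h3 := (Set.ncard_le_ncard h2 (Set.toFinite _)).trans (Set.ncard_union_le _ _)
  rw [Set.ncard_coe_finset, hS] at h3
  omega

theorem adj_swap (G : SimpleGraph V) : (fun y x => G.Adj x y) = G.Adj := by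
  funext x y
  exact propext (G.adj_comm y x)

theorem cl_swap (G : SimpleGraph V) : (fun y x => Cl G x y) = Cl G := by
  funext x y
  refine propext ?_
  unfold Cl
  rw [eq_comm, G.adj_comm]

theorem edges_adj (G : SimpleGraph V) :
    {p : V × V | G.Adj p.1 p.2}.ncard = 2 * G.edgeSet.ncard := by
  classical
  have := Fintype.ofFinite V
  exact Pool.Agent.Y384.DM.card_pairs_univ G

theorem edges_cl (G : SimpleGraph V) :
    2 * G.edgeSet.ncard ≤ {p : V × V | Cl G p.1 p.2}.ncard := by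
  rw [← edges_adj]
  exact Set.ncard_le_ncard (fun p hp => Or.inr hp) (Set.toFinite _)

/-- a bound for relations gives a bound for graphs -/
theorem graph_bound {s h : ℕ} (γ : ℝ)
    (hb : ∀ t : ℕ, ∃ C : ℝ, 0 < C ∧ ∀ (n : ℕ) (X Y : Type) [Fintype X] [Fintype Y]
      (E : X → Y → Prop), Fintype.card X ≤ n → Fintype.card Y ≤ n → NoK s t E →
      (NoK s t fun y x => E x y) → Helly h E → ecount E ≤ C * (n : ℝ) ^ γ) (t : ℕ) :
    ∃ C : ℝ, 0 < C ∧ ∀ (n : ℕ) (G : SimpleGraph (Fin n)),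
      (completeBipartiteGraph (Fin s) (Fin t)).Free G → (Helly h G.Adj ∨ Helly h (Cl G)) →
      (G.edgeSet.ncard : ℝ) ≤ C * (n : ℝ) ^ γ := by
  obtain ⟨C₁, hC₁, h1⟩ := hb t
  obtain ⟨C₂, hC₂, h2⟩ := hb (s + t)
  refine ⟨C₁ + C₂, by linarith, fun n G hG hH => ?_⟩
  have hK := noK_of_free G hG
  have hn : (0 : ℝ) ≤ (n : ℝ) ^ γ := by positivity
  rcases hH with hH | hH
  · have h3 := h1 n (Fin n) (Fin n) G.Adj (by simp) (by simp) hK (by rw [adj_swap]; exact hK) hH
    rw [ecount_ncard, edges_adj] at h3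
    push_cast at h3
    have : (0 : ℝ) ≤ G.edgeSet.ncard := by positivity
    nlinarith
  · have hK2 := noK_cl G hK
    have h3 := h2 n (Fin n) (Fin n) (Cl G) (by simp) (by simp) hK2
      (by rw [cl_swap]; exact hK2) hH
    rw [ecount_ncard] at h3
    have h4 : ((2 * G.edgeSet.ncard : ℕ) : ℝ) ≤ ({p : Fin n × Fin n | Cl G p.1 p.2}.ncard : ℝ) := by
      exact_mod_cast edges_cl G
    push_cast at h4
    have : (0 : ℝ) ≤ G.edgeSet.ncard := by positivity
    nlinarith

/-- comparison of exponents -/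
theorem exponent_gap {s : ℕ} (hs : 2 ≤ s) :
    2 - ((s : ℝ) ^ 2 + 1) / ((s : ℝ) ^ 3 + 1) < 2 - 1 / (s : ℝ) := by
  have hs' : (2 : ℝ) ≤ s := by exact_mod_cast hs
  have h1 : (0 : ℝ) < s := by linarith
  have h2 : (0 : ℝ) < (s : ℝ) ^ 3 + 1 := by positivity
  have : 1 / (s : ℝ) < ((s : ℝ) ^ 2 + 1) / ((s : ℝ) ^ 3 + 1) := by
    rw [div_lt_div_iff₀ h1 h2]
    nlinarith
  linarith

/-- smaller exponents are smaller for large `n` -/
theorem eventually_lt {α β c C : ℝ} (hαβ : α < β) (hc : 0 < c) :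
    ∃ n₀ : ℕ, ∀ n : ℕ, n₀ ≤ n → C * (n : ℝ) ^ α < c * (n : ℝ) ^ β := by
  have h1 : Filter.Tendsto (fun n : ℕ => (n : ℝ) ^ (β - α)) Filter.atTop Filter.atTop :=
    (tendsto_rpow_atTop (sub_pos.2 hαβ)).comp tendsto_natCast_atTop_atTop
  have h2 := (h1.eventually_gt_atTop (C / c)).and (Filter.eventually_ge_atTop 1)
  obtain ⟨n₀, hn₀⟩ := Filter.eventually_atTop.1 h2
  refine ⟨n₀, fun n hn => ?_⟩
  obtain ⟨h3, h4⟩ := hn₀ n hn
  have hn0 : (0 : ℝ) < n := by exact_mod_cast h4
  have h5 : (n : ℝ) ^ β = (n : ℝ) ^ (β - α) * (n : ℝ) ^ α := by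
    rw [← Real.rpow_add hn0, sub_add_cancel]
  rw [h5, ← mul_assoc]
  refine mul_lt_mul_of_pos_right ?_ (by positivity)
  rw [div_lt_iff₀ hc] at h3
  linarith

end Graphs

end Pool.Agent.W5h8.HN
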