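import Mathlib.Combinatorics.SimpleGraph.Finite
import Mathlib.Combinatorics.SimpleGraph.Tutte
import Mathlib.Data.Finset.Powerset
import Mathlib.Data.Nat.Choose.Basic
import Mathlib.Tactic

/-!
# Graphs of girth at least five with all degrees at least three: matchings with nine edges
-/

set_option autoImplicit false

namespace Pool.Agent.W5h8.M9

open Finset

/-- no circuits with three or four edges, all degrees at least three -/
structure G5 {V : Type} [Fintype V] (Γ : SimpleGraph V) [DecidableRel Γ.Adj] : Prop where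
  deg : ∀ v, 3 ≤ (Γ.neighborFinset v).card
  tri : ∀ {a b c : V}, Γ.Adj a b → Γ.Adj b c → Γ.Adj c a → False
  four : ∀ {a b c d : V}, a ≠ c → b ≠ d → Γ.Adj a b → Γ.Adj b c → Γ.Adj c d → Γ.Adj d a → False

variable {V : Type} [Fintype V] [DecidableEq V] {Γ : SimpleGraph V} [DecidableRel Γ.Adj]

/-- the ball of radius two has at least ten vertices -/
theorem G5.ball (h : G5 Γ) (u : V) : ∃ B : Finset V, 10 ≤ B.card ∧
    ∀ w ∈ B, w = u ∨ Γ.Adj u w ∨ ∃ v, Γ.Adj u v ∧ Γ.Adj v w := by
  obtain ⟨T, hT, hT3⟩ := Finset.exists_subset_card_eq (h.deg u)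
  have hTu : ∀ v ∈ T, Γ.Adj u v := fun v hv => by
    have := hT hv
    rwa [SimpleGraph.mem_neighborFinset] at this
  set D : V → Finset V := fun v => (Γ.neighborFinset v).erase u with hD
  have hDc : ∀ v ∈ T, 2 ≤ (D v).card := by
    intro v hv
    have h1 : u ∈ Γ.neighborFinset v := by
      rw [SimpleGraph.mem_neighborFinset]; exact (hTu v hv).symm
    rw [hD]
    simp only
    rw [Finset.card_erase_of_mem h1]
    have := h.deg v
    omega
  have hdis : ∀ v ∈ T, ∀ v' ∈ T, v ≠ v' → Disjoint (D v) (D v') := by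
    intro v hv v' hv' hne
    rw [Finset.disjoint_left]
    intro w hw hw'
    rw [hD] at hw hw'
    simp only [Finset.mem_erase, SimpleGraph.mem_neighborFinset] at hw hw'
    exact h.four (a := u) (b := v) (c := w) (d := v') (Ne.symm hw.1) hne (hTu v hv) hw.2
      hw'.2.symm (hTu v' hv').symm
  have hU : (T.biUnion D).card = ∑ v ∈ T, (D v).card := Finset.card_biUnion hdis
  have hU6 : 6 ≤ (T.biUnion D).card := by
    rw [hU]
    have : ∑ v ∈ T, 2 ≤ ∑ v ∈ T, (D v).card := Finset.sum_le_sum hDc
    rw [Finset.sum_const, hT3] at this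
    simpa using this
  have hTD : Disjoint T (T.biUnion D) := by
    rw [Finset.disjoint_left]
    intro w hw hw'
    rw [Finset.mem_biUnion] at hw'
    obtain ⟨v, hv, hwv⟩ := hw'
    rw [hD] at hwv
    simp only [Finset.mem_erase, SimpleGraph.mem_neighborFinset] at hwv
    exact h.tri (hTu v hv) hwv.2 (hTu w hw).symm
  have hu : u ∉ T ∪ T.biUnion D := by
    rw [Finset.mem_union, Finset.mem_biUnion]
    rintro (h1 | ⟨v, _, h2⟩)
    · exact (hTu u h1).ne rfl
    · rw [hD] at h2
      simp at h2
  refine ⟨insert u (T ∪ T.biUnion D), ?_, ?_⟩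
  · rw [Finset.card_insert_of_notMem hu, Finset.card_union_of_disjoint hTD]
    omega
  · intro w hw
    rw [Finset.mem_insert, Finset.mem_union, Finset.mem_biUnion] at hw
    rcases hw with h1 | h1 | ⟨v, hv, h1⟩
    · exact Or.inl h1
    · exact Or.inr (Or.inl (hTu w h1))
    · rw [hD] at h1
      simp only [Finset.mem_erase, SimpleGraph.mem_neighborFinset] at h1
      exact Or.inr (Or.inr ⟨v, hTu v hv, h1.2⟩)

/-- pairs of vertices in `S` have at most one common neighbour -/
theorem G5.pairs (h : G5 Γ) (S T : Finset V) :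
    ∑ v ∈ T, ((Γ.neighborFinset v ∩ S).card.choose 2) ≤ S.card.choose 2 := by
  have h1 : ∀ v ∈ T, ((Γ.neighborFinset v ∩ S).card.choose 2) =
      ((Γ.neighborFinset v ∩ S).powersetCard 2).card := fun v _ => by
    rw [Finset.card_powersetCard]
  rw [Finset.sum_congr rfl h1, ← Finset.card_biUnion, ← Finset.card_powersetCard]
  · apply Finset.card_le_card
    intro A hA
    rw [Finset.mem_biUnion] at hA
    obtain ⟨v, _, hv⟩ := hA
    rw [Finset.mem_powersetCard] at hv ⊢
    exact ⟨hv.1.trans Finset.inter_subset_right, hv.2⟩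
  · intro v hv v' hv' hne
    rw [Function.onFun, Finset.disjoint_left]
    intro A hA hA'
    rw [Finset.mem_powersetCard] at hA hA'
    obtain ⟨x, y, hxy, rfl⟩ := Finset.card_eq_two.1 hA.2
    have a1 := hA.1 (Finset.mem_insert_self x {y})
    have a2 := hA.1 (Finset.mem_insert_of_mem (Finset.mem_singleton_self y))
    have a3 := hA'.1 (Finset.mem_insert_self x {y})
    have a4 := hA'.1 (Finset.mem_insert_of_mem (Finset.mem_singleton_self y))
    simp only [Finset.mem_inter, SimpleGraph.mem_neighborFinset] at a1 a2 a3 a4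
    exact h.four (a := v) (b := x) (c := v') (d := y) hne hxy a1.1 a3.1.symm a4.1 a2.1.symm

/-- the contribution of one odd part -/
theorem G5.part (h : G5 Γ) (S D : Finset V) (hodd : Odd D.card)
    (hcl : ∀ v ∈ D, ∀ w, Γ.Adj v w → w ∉ S → w ∈ D) :
    15 ≤ 3 * D.card + 4 * ∑ v ∈ D, ((Γ.neighborFinset v ∩ S).card.choose 2) := by
  have hsplit : ∀ v ∈ D, 3 ≤ (Γ.neighborFinset v ∩ S).card + (Γ.neighborFinset v ∩ D).card := by
    intro v hv
    refine (h.deg v).trans ?_
    refine le_trans (Finset.card_le_card (t := (Γ.neighborFinset v ∩ S) ∪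
      (Γ.neighborFinset v ∩ D)) ?_) (Finset.card_union_le _ _)
    intro w hw
    rw [Finset.mem_union, Finset.mem_inter, Finset.mem_inter]
    by_cases h1 : w ∈ S
    · exact Or.inl ⟨hw, h1⟩
    · rw [SimpleGraph.mem_neighborFinset] at hw
      exact Or.inr ⟨by rwa [SimpleGraph.mem_neighborFinset], hcl v hv w hw h1⟩
  obtain ⟨k, hk⟩ := hodd
  rcases Nat.lt_or_ge k 2 with hk2 | hk2
  · interval_cases k
    · -- one vertex
      obtain ⟨v, rfl⟩ := Finset.card_eq_one.1 hk
      rw [Finset.sum_singleton]
      have h1 := hsplit v (Finset.mem_singleton_self v)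
      have h2 : Γ.neighborFinset v ∩ {v} = ∅ := by
        ext w
        simp only [Finset.mem_inter, SimpleGraph.mem_neighborFinset, Finset.mem_singleton,
          Finset.notMem_empty, iff_false]
        rintro ⟨h3, rfl⟩
        exact h3.ne rfl
      rw [h2] at h1
      have h3 : Nat.choose 3 2 ≤ (Γ.neighborFinset v ∩ S).card.choose 2 :=
        Nat.choose_le_choose 2 (by simpa using h1)
      have h4 : Nat.choose 3 2 = 3 := by decide
      rw [Finset.card_singleton]
      omega
    · -- three vertices
      obtain ⟨a, b, c, hab, hac, hbc, rfl⟩ := Finset.card_eq_three.1 (by omega : D.card = 3)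
      have key : ∀ x y z : V, x ≠ y → x ≠ z → y ≠ z → ({a, b, c} : Finset V) = {x, y, z} →
          ¬ Γ.Adj x y → 1 ≤ (Γ.neighborFinset x ∩ S).card.choose 2 := by
        intro x y z hxy hxz hyz heq hadj
        have h1 := hsplit x (by rw [heq]; simp)
        rw [heq] at h1
        have h2 : Γ.neighborFinset x ∩ {x, y, z} ⊆ {z} := by
          intro w hw
          simp only [Finset.mem_inter, SimpleGraph.mem_neighborFinset, Finset.mem_insert,
            Finset.mem_singleton] at hw
          rcases hw with ⟨h3, rfl | rfl | rfl⟩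
          · exact absurd rfl h3.ne
          · exact absurd h3 hadj
          · simp
        have h3 := Finset.card_le_card h2
        rw [Finset.card_singleton] at h3
        have h4 : Nat.choose 2 2 ≤ (Γ.neighborFinset x ∩ S).card.choose 2 :=
          Nat.choose_le_choose 2 (by omega)
        simpa using h4
      have hsum : ∑ v ∈ ({a, b, c} : Finset V), ((Γ.neighborFinset v ∩ S).card.choose 2) =
          (Γ.neighborFinset a ∩ S).card.choose 2 + ((Γ.neighborFinset b ∩ S).card.choose 2 +
            (Γ.neighborFinset c ∩ S).card.choose 2) := by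
        rw [Finset.sum_insert (by simp [hab, hac]), Finset.sum_insert (by simp [hbc]),
          Finset.sum_singleton]
      rw [hsum, (by omega : ({a, b, c} : Finset V).card = 3)]
      by_cases e1 : Γ.Adj a b
      · by_cases e2 : Γ.Adj b c
        · have e3 : ¬ Γ.Adj a c := fun e3 => h.tri e1 e2 e3.symm
          have k1 := key a c b hac hab hbc.symm (by ext x; simp; tauto) e3
          have k2 := key c a b hac.symm hbc.symm hab (by ext x; simp; tauto)
            (fun h' => e3 h'.symm)
          omega
        · have k1 := key b c a hbc hab.symm hac.symm (by ext x; simp; tauto) e2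
          have k2 := key c b a hbc.symm hac.symm hab.symm (by ext x; simp; tauto)
            (fun h' => e2 h'.symm)
          omega
      · have k1 := key a b c hab hac hbc rfl e1
        have k2 := key b a c hab.symm hbc hac (by ext x; simp; tauto) (fun h' => e1 h'.symm)
        omega
  · omega

/-- **counting odd parts** -/
theorem G5.count (h : G5 Γ) (hV : 18 ≤ Fintype.card V) {ι : Type} (I : Finset ι) (S : Finset V)
    (D : ι → Finset V) (hne : ∀ i ∈ I, Odd (D i).card)
    (hdis : ∀ i ∈ I, ∀ j ∈ I, i ≠ j → Disjoint (D i) (D j))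
    (hS : ∀ i ∈ I, Disjoint (D i) S)
    (hcl : ∀ i ∈ I, ∀ v ∈ D i, ∀ w, Γ.Adj v w → w ∉ S → w ∈ D i) :
    I.card + 16 < S.card + Fintype.card V := by
  classical
  by_contra hcon
  rw [not_lt] at hcon
  set n := Fintype.card V with hn
  have hbU : (I.biUnion D).card = ∑ i ∈ I, (D i).card := Finset.card_biUnion hdis
  have hsum : ∑ i ∈ I, (D i).card + S.card ≤ n := by
    rw [← hbU, ← Finset.card_union_of_disjoint]
    · exact Finset.card_le_univ _
    · rw [Finset.disjoint_biUnion_left]
      exact hS
  have hp : ∑ i ∈ I, ∑ v ∈ D i, ((Γ.neighborFinset v ∩ S).card.choose 2) ≤ S.card.choose 2 := by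
    rw [← Finset.sum_biUnion hdis]
    exact h.pairs S _
  have h15 : 15 * I.card ≤ 3 * ∑ i ∈ I, (D i).card +
      4 * ∑ i ∈ I, ∑ v ∈ D i, ((Γ.neighborFinset v ∩ S).card.choose 2) := by
    rw [Finset.mul_sum, Finset.mul_sum, ← Finset.sum_add_distrib]
    have : ∑ i ∈ I, 15 ≤ ∑ i ∈ I, (3 * (D i).card +
        4 * ∑ v ∈ D i, ((Γ.neighborFinset v ∩ S).card.choose 2)) :=
      Finset.sum_le_sum fun i hi => h.part S (D i) (hne i hi) (hcl i hi)
    rw [Finset.sum_const, smul_eq_mul] at this
    omega
  have h1 : I.card ≤ ∑ i ∈ I, (D i).card := by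
    have : ∑ i ∈ I, 1 ≤ ∑ i ∈ I, (D i).card := Finset.sum_le_sum fun i hi => (hne i hi).pos
    simpa using this
  have hs8 : S.card ≤ 8 := by omega
  have hs1 : S.card ≤ 1 := by
    generalize hs : S.card = s at *
    by_contra hs2
    rw [not_le] at hs2
    have h22 : Nat.choose 2 2 = 1 := by decide
    have h32 : Nat.choose 3 2 = 3 := by decide
    have h42 : Nat.choose 4 2 = 6 := by decide
    have h52 : Nat.choose 5 2 = 10 := by decide
    have h62 : Nat.choose 6 2 = 15 := by decide
    have h72 : Nat.choose 7 2 = 21 := by decide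
    have h82 : Nat.choose 8 2 = 28 := by decide
    interval_cases s <;> omega
  rcases Nat.lt_or_ge S.card 1 with hs0 | hs0
  · -- no vertices in `S`
    have hS0 : S = ∅ := Finset.card_eq_zero.1 (by omega)
    have h10 : ∀ i ∈ I, 10 ≤ (D i).card := by
      intro i hi
      obtain ⟨u, hu⟩ := Finset.card_pos.1 (hne i hi).pos
      obtain ⟨B, hB, hBw⟩ := h.ball u
      refine hB.trans (Finset.card_le_card fun w hw => ?_)
      have hcl' : ∀ v ∈ D i, ∀ w, Γ.Adj v w → w ∈ D i := fun v hv w hvw =>
        hcl i hi v hv w hvw (by rw [hS0]; simp)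
      rcases hBw w hw with rfl | h2 | ⟨v, h2, h3⟩
      · exact hu
      · exact hcl' u hu w h2
      · exact hcl' v (hcl' u hu v h2) w h3
    have h2 : ∑ i ∈ I, 10 ≤ ∑ i ∈ I, (D i).card := Finset.sum_le_sum h10
    rw [Finset.sum_const, smul_eq_mul] at h2
    omega
  · -- one vertex in `S`
    obtain ⟨x, hSx⟩ := Finset.card_eq_one.1 (by omega : S.card = 1)
    have h9 : ∀ i ∈ I, 9 ≤ (D i).card := by
      intro i hi
      obtain ⟨v0, hv0⟩ := Finset.card_pos.1 (hne i hi).pos
      have hx : ∀ w ∈ D i, w ≠ x := by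
        intro w hw hwx
        have := Finset.disjoint_left.1 (hS i hi) hw
        rw [hSx, hwx] at this
        simp at this
      have hcl' : ∀ v ∈ D i, ∀ w, Γ.Adj v w → w ≠ x → w ∈ D i := fun v hv w hvw hwx =>
        hcl i hi v hv w hvw (by rw [hSx]; simpa using hwx)
      have hu : ∃ u ∈ D i, ¬ Γ.Adj u x := by
        by_cases h0 : Γ.Adj v0 x
        · have h3 : 0 < ((Γ.neighborFinset v0).erase x).card := by
            rw [Finset.card_erase_of_mem (by rw [SimpleGraph.mem_neighborFinset]; exact h0)]
            have := h.deg v0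
            omega
          obtain ⟨u, hu⟩ := Finset.card_pos.1 h3
          rw [Finset.mem_erase, SimpleGraph.mem_neighborFinset] at hu
          exact ⟨u, hcl' v0 hv0 u hu.2 hu.1, fun h4 => h.tri hu.2 h4 h0.symm⟩
        · exact ⟨v0, hv0, h0⟩
      obtain ⟨u, hu, hux⟩ := hu
      obtain ⟨B, hB, hBw⟩ := h.ball u
      have h4 : B.erase x ⊆ D i := by
        intro w hw
        rw [Finset.mem_erase] at hw
        rcases hBw w hw.2 with rfl | h2 | ⟨v, h2, h3⟩
        · exact hu
        · exact hcl' u hu w h2 hw.1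
        · refine hcl' v (hcl' u hu v h2 ?_) w h3 hw.1
          rintro rfl
          exact hux h2
      have h5 := Finset.card_le_card h4
      have h6 := Finset.pred_card_le_card_erase (s := B) (a := x)
      omega
    have h2 : ∑ i ∈ I, 9 ≤ ∑ i ∈ I, (D i).card := Finset.sum_le_sum h9
    rw [Finset.sum_const, smul_eq_mul] at h2
    omega

end Pool.Agent.W5h8.M9
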