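import Pool.Agent.W5h8.M9A
import Mathlib.Combinatorics.SimpleGraph.Connectivity.Finite

/-!
# Nine disjoint edges, by Tutte's theorem
-/

set_option autoImplicit false

namespace Pool.Agent.W5h8.M9

open Finset

variable {V : Type}

/-- the join of `Γ` with the complete graph with `k` vertices -/
def joinK (Γ : SimpleGraph V) (k : ℕ) : SimpleGraph (V ⊕ Fin k) where
  Adj x y := match x, y with
    | Sum.inl v, Sum.inl w => Γ.Adj v w
    | Sum.inl _, Sum.inr _ => True
    | Sum.inr _, Sum.inl _ => True
    | Sum.inr i, Sum.inr j => i ≠ j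
  symm := ⟨by
    rintro (v | i) (w | j) h
    · exact h.symm
    · trivial
    · trivial
    · exact h.symm⟩
  loopless := ⟨by
    rintro (v | i) h
    · exact h.ne rfl
    · exact h rfl⟩

theorem joinK_inr {Γ : SimpleGraph V} {k : ℕ} (i : Fin k) (x : V ⊕ Fin k) (h : x ≠ Sum.inr i) :
    (joinK Γ k).Adj x (Sum.inr i) := by
  rcases x with v | j
  · trivial
  · exact fun h' => h (by rw [h'])

/-- a perfect matching of the join gives many disjoint edges -/
theorem of_perfect [Fintype V] {Γ : SimpleGraph V} {k : ℕ} (hk : k + 18 ≤ Fintype.card V)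
    {M : (joinK Γ k).Subgraph} (hM : M.IsPerfectMatching) :
    ∃ a b : Fin 9 → V, (∀ i, Γ.Adj (a i) (b i)) ∧ Function.Injective (Sum.elim a b) := by
  classical
  have hpm := SimpleGraph.Subgraph.isPerfectMatching_iff.1 hM
  choose p hp hpu using hpm
  have hpp : ∀ x, p (p x) = x := fun x => ((hpu (p x)) x (hp x).symm).symm
  set A : Finset V := univ.filter (fun v => ∃ w, p (Sum.inl v) = Sum.inl w) with hA
  have hAc : (univ.filter (fun v => ¬ ∃ w, p (Sum.inl v) = Sum.inl w)).card ≤ k := by
    have : ∀ v ∈ univ.filter (fun v => ¬ ∃ w, p (Sum.inl v) = Sum.inl w),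
        ∃ i : Fin k, p (Sum.inl v) = Sum.inr i := by
      intro v hv
      rw [mem_filter] at hv
      rcases h : p (Sum.inl v) with w | i
      · exact absurd ⟨w, h⟩ hv.2
      · exact ⟨i, rfl⟩
    rcases Nat.eq_zero_or_pos k with h0 | h0
    · have : univ.filter (fun v => ¬ ∃ w, p (Sum.inl v) = Sum.inl w) = ∅ := by
        rw [Finset.eq_empty_iff_forall_notMem]
        intro v hv
        obtain ⟨i, _⟩ := this v hv
        exact absurd i.2 (by omega)
      rw [this]
      simp
    · have hne : Nonempty (Fin k) := ⟨⟨0, h0⟩⟩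
      choose! g hg using this
      have := Finset.card_le_card_of_injOn (s := univ.filter
        (fun v => ¬ ∃ w, p (Sum.inl v) = Sum.inl w)) (t := (univ : Finset (Fin k))) g
        (fun v hv => mem_univ _) (by
          intro v hv w hw hvw
          have h1 := hg v (by simpa using hv)
          have h2 := hg w (by simpa using hw)
          rw [hvw, ← h2] at h1
          have h3 := congrArg p h1
          rw [hpp, hpp] at h3
          exact Sum.inl_injective h3)
      simpa using this
  have hA18 : 18 ≤ A.card := by
    have := Finset.card_filter_add_card_filter_not (s := (univ : Finset V))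
      (fun v => ∃ w, p (Sum.inl v) = Sum.inl w)
    rw [Finset.card_univ, ← hA] at this
    omega
  have hq : ∀ v : V, ∃ w, v ∈ A → p (Sum.inl v) = Sum.inl w := by
    intro v
    by_cases hv : v ∈ A
    · obtain ⟨w, hw⟩ := (mem_filter.1 hv).2
      exact ⟨w, fun _ => hw⟩
    · exact ⟨v, fun h => absurd h hv⟩
  choose q hq using hq
  have hqA : ∀ v ∈ A, q v ∈ A := by
    intro v hv
    refine mem_filter.2 ⟨mem_univ _, v, ?_⟩
    rw [← hq v hv, hpp]
  have hqq : ∀ v ∈ A, q (q v) = v := by
    intro v hv
    have h1 := hq (q v) (hqA v hv)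
    rw [← hq v hv, hpp] at h1
    exact (Sum.inl_injective h1).symm
  have hqadj : ∀ v ∈ A, Γ.Adj v (q v) := by
    intro v hv
    have h1 := (hp (Sum.inl v)).adj_sub
    rw [hq v hv] at h1
    exact h1
  -- a linear order on `V`
  set ord := (Fintype.equivFin V) with hord
  set A1 : Finset V := A.filter (fun v => ord v < ord (q v)) with hA1
  have hcov : A ⊆ A1 ∪ A1.image q := by
    intro v hv
    rw [mem_union, mem_image]
    rcases lt_trichotomy (ord v) (ord (q v)) with h1 | h1 | h1
    · exact Or.inl (mem_filter.2 ⟨hv, h1⟩)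
    · exact absurd (ord.injective h1) (hqadj v hv).ne
    · refine Or.inr ⟨q v, mem_filter.2 ⟨hqA v hv, ?_⟩, hqq v hv⟩
      rw [hqq v hv]
      exact h1
  have h9 : 9 ≤ A1.card := by
    have h1 := (Finset.card_le_card hcov).trans (Finset.card_union_le _ _)
    have h2 := Finset.card_image_le (s := A1) (f := q)
    omega
  obtain ⟨T, hT, hTc⟩ := Finset.exists_subset_card_eq h9
  set e := (Finset.equivFinOfCardEq hTc).symm with he
  have hTA : ∀ i, ((e i : V)) ∈ A ∧ ord (e i : V) < ord (q (e i : V)) := fun i =>
    mem_filter.1 (hT (e i).2)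
  refine ⟨fun i => (e i : V), fun i => q (e i : V), fun i => hqadj _ (hTA i).1, ?_⟩
  rintro (i | i) (j | j) hij
  · simp only [Sum.elim_inl] at hij
    rw [e.injective (Subtype.ext hij)]
  · simp only [Sum.elim_inl, Sum.elim_inr] at hij
    exfalso
    have h1 := (hTA i).2
    have h2 := (hTA j).2
    rw [hij, hqq _ (hTA j).1] at h1
    exact absurd (h1.trans h2) (lt_irrefl _)
  · simp only [Sum.elim_inl, Sum.elim_inr] at hij
    exfalso
    have h1 := (hTA i).2
    have h2 := (hTA j).2
    rw [← hij, hqq _ (hTA i).1] at h2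
    exact absurd (h1.trans h2) (lt_irrefl _)
  · simp only [Sum.elim_inr] at hij
    have h1 := congrArg q hij
    rw [hqq _ (hTA i).1, hqq _ (hTA j).1] at h1
    rw [e.injective (Subtype.ext h1)]

/-- **nine disjoint edges** -/
theorem G5.nine [Fintype V] {Γ : SimpleGraph V} [DecidableRel Γ.Adj] (h : G5 Γ)
    (hV : 18 ≤ Fintype.card V) :
    ∃ a b : Fin 9 → V, (∀ i, Γ.Adj (a i) (b i)) ∧ Function.Injective (Sum.elim a b) := by
  classical
  by_contra hcon
  set k := Fintype.card V - 18 with hk
  have hno : ¬ ∃ M : (joinK Γ k).Subgraph, M.IsPerfectMatching := by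
    rintro ⟨M, hM⟩
    exact hcon (of_perfect (by omega) hM)
  rw [SimpleGraph.tutte] at hno
  push Not at hno
  obtain ⟨u, hu⟩ := hno
  unfold SimpleGraph.IsTutteViolator at hu
  set H := ((⊤ : (joinK Γ k).Subgraph).deleteVerts u) with hH
  set G3 := H.coe with hG3
  have hverts : ∀ x, x ∈ H.verts ↔ x ∉ u := by
    intro x
    rw [hH, SimpleGraph.Subgraph.deleteVerts_verts, SimpleGraph.Subgraph.verts_top]
    simp
  have hHadj : ∀ a b, H.Adj a b ↔ a ∉ u ∧ b ∉ u ∧ (joinK Γ k).Adj a b := by
    intro a b
    rw [hH, SimpleGraph.Subgraph.deleteVerts_adj]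
    simp
  have hadj : ∀ x y : H.verts, G3.Adj x y ↔ (joinK Γ k).Adj x y := by
    intro x y
    rw [hG3, SimpleGraph.Subgraph.coe_adj, hHadj]
    have h1 := (hverts x).1 x.2
    have h2 := (hverts y).1 y.2
    exact ⟨fun h => h.2.2, fun h => ⟨h1, h2, h⟩⟩
  have hcardv : Nat.card H.verts + u.ncard = Fintype.card V + k := by
    have h1 : H.verts = uᶜ := by
      ext x
      rw [hverts, Set.mem_compl_iff]
    have h2 := Set.ncard_add_ncard_compl u
    rw [h1, Nat.card_coe_set_eq]
    rw [Nat.card_eq_fintype_card, Fintype.card_sum, Fintype.card_fin] at h2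
    omega
  have hpar := SimpleGraph.odd_ncard_oddComponents (G := G3)
  by_cases hfull : ∃ i : Fin k, Sum.inr i ∉ u
  · obtain ⟨i, hi⟩ := hfull
    set y : H.verts := ⟨Sum.inr i, (hverts _).2 hi⟩ with hy
    have hconn : ∀ c : G3.ConnectedComponent, c = G3.connectedComponentMk y := by
      intro c
      induction c using SimpleGraph.ConnectedComponent.ind with
      | h x =>
        by_cases hxy : x = y
        · rw [hxy]
        · apply SimpleGraph.ConnectedComponent.sound
          apply SimpleGraph.Adj.reachable
          rw [hadj]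
          apply joinK_inr
          intro h1
          exact hxy (Subtype.ext h1)
    have h1 : G3.oddComponents.ncard ≤ 1 := by
      rw [Set.ncard_le_one_iff]
      intro a b _ _
      rw [hconn a, hconn b]
    have h2 : u.ncard = 0 := by omega
    have h3 : G3.oddComponents.ncard = 1 := by omega
    rw [h3] at hpar
    have h4 := hpar.1 odd_one
    rw [Nat.odd_iff] at h4
    omega
  · push Not at hfull
    set S : Finset V := univ.filter (fun v => Sum.inl v ∈ u) with hS
    have hucard : u.ncard = S.card + k := by
      have h1 : u = (Sum.inl '' (S : Set V)) ∪ (Set.range Sum.inr) := by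
        ext x
        rcases x with v | i
        · simp [hS]
        · simp [hfull i]
      rw [h1, Set.ncard_union_eq]
      · rw [Set.ncard_image_of_injective _ Sum.inl_injective, Set.ncard_coe_finset]
        congr 1
        rw [← Set.image_univ, Set.ncard_image_of_injective _ Sum.inr_injective, Set.ncard_univ,
          Nat.card_eq_fintype_card, Fintype.card_fin]
      · rw [Set.disjoint_left]
        rintro x ⟨v, _, rfl⟩ ⟨i, hi⟩
        simp at hi
    -- the parts
    set mk : ∀ v : V, v ∉ S → H.verts := fun v hv => ⟨Sum.inl v, (hverts _).2 (by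
      intro h1
      exact hv (mem_filter.2 ⟨mem_univ _, h1⟩))⟩ with hmk
    set D : G3.ConnectedComponent → Finset V := fun c =>
      univ.filter (fun v => ∃ hv : v ∉ S, G3.connectedComponentMk (mk v hv) = c) with hD
    have hDm : ∀ c v, v ∈ D c ↔ ∃ hv : v ∉ S, G3.connectedComponentMk (mk v hv) = c := by
      intro c v
      rw [hD]
      simp only [mem_filter, mem_univ, true_and]
    have hDcard : ∀ c, (D c).card = c.supp.ncard := by
      intro c
      rw [← Set.ncard_coe_finset]
      refine Set.ncard_congr (fun v hv => mk v ((hDm c v).1 hv).1) ?_ ?_ ?_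
      · intro v hv
        obtain ⟨h1, h2⟩ := (hDm c v).1 hv
        rw [SimpleGraph.ConnectedComponent.mem_supp_iff]
        exact h2
      · intro v w hv hw hvw
        have := congrArg Subtype.val hvw
        exact Sum.inl_injective this
      · rintro ⟨x, hx⟩ hxc
        rcases x with v | i
        · rw [SimpleGraph.ConnectedComponent.mem_supp_iff] at hxc
          have hvS : v ∉ S := by
            intro h1
            exact (hverts _).1 hx (mem_filter.1 h1).2
          exact ⟨v, (hDm c v).2 ⟨hvS, hxc⟩, rfl⟩
        · exact absurd (hfull i) ((hverts _).1 hx)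
    set I : Finset G3.ConnectedComponent := univ.filter (fun c => Odd c.supp.ncard) with hI
    have hIcard : I.card = G3.oddComponents.ncard := by
      rw [← Set.ncard_coe_finset]
      congr 1
      ext c
      simp [hI]
    have hcount := h.count hV I S D (by
        intro c hc
        rw [hDcard]
        exact (mem_filter.1 hc).2) (by
        intro c _ c' _ hne
        rw [Finset.disjoint_left]
        intro v hv hv'
        obtain ⟨h1, h2⟩ := (hDm c v).1 hv
        obtain ⟨h3, h4⟩ := (hDm c' v).1 hv'
        exact hne (h2.symm.trans h4)) (by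
        intro c _
        rw [Finset.disjoint_left]
        intro v hv
        exact ((hDm c v).1 hv).1) (by
        intro c _ v hv w hvw hw
        obtain ⟨h1, h2⟩ := (hDm c v).1 hv
        refine (hDm c w).2 ⟨hw, ?_⟩
        rw [← h2]
        apply SimpleGraph.ConnectedComponent.sound
        apply SimpleGraph.Adj.reachable
        rw [hadj]
        exact hvw.symm)
    rw [Nat.odd_iff, Nat.odd_iff] at hpar
    omega

end Pool.Agent.W5h8.M9
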