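import Pool.Agent.W5h8.M9B
import Pool.Agent.R890.FF.Min

/-!
# Minimal quotients without flow have nine disjoint edges
-/

set_option autoImplicit false

namespace Pool.Agent.W5h8.M9

open Finset Pool.Agent.TH362.TF Pool.Agent.TH362.TF.Four Pool.Agent.R890.FF

variable {V E : Type} [Fintype V] [DecidableEq V] [DecidableEq E]

/-- nine disjoint edges of a minimal quotient -/
theorem Mq_nine {s t : E → V} {S : Finset E} (h : Mq s t S) :
    ∃ a b : Fin 9 → V, (∀ i, Nb s t S (a i) (b i)) ∧ Function.Injective (Sum.elim a b) := by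
  classical
  let W := {v : V // ∃ z, Nb s t S v z}
  let Γ : SimpleGraph W :=
    { Adj := fun x y => Nb s t S x.1 y.1
      symm := ⟨fun x y hxy => nb_comm hxy⟩
      loopless := ⟨fun x hx => hx.1 rfl⟩ }
  have hcard : ∀ v : W, (Γ.neighborFinset v).card = (univ.filter (Nb s t S v.1)).card := by
    intro v
    refine Finset.card_bij (fun w _ => w.1) ?_ ?_ ?_
    · intro w hw
      rw [SimpleGraph.mem_neighborFinset] at hw
      exact mem_filter.2 ⟨mem_univ _, hw⟩
    · intro w _ w' _ h'
      exact Subtype.ext h'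
    · intro z hz
      have hz' := (mem_filter.1 hz).2
      exact ⟨⟨z, v.1, nb_comm hz'⟩, by rw [SimpleGraph.mem_neighborFinset]; exact hz', rfl⟩
  have hG : G5 Γ :=
    { deg := by
        intro v
        rw [hcard v]
        have h1 : 0 < (univ.filter (Nb s t S v.1)).card := by
          obtain ⟨z, hz⟩ := v.2
          exact card_pos.2 ⟨z, mem_filter.2 ⟨mem_univ _, hz⟩⟩
        have h2 := h.nb_ne_one v.1
        have h3 := h.nb_ne_two v.1
        omega
      tri := fun h1 h2 h3 => h.tri h1 h2 h3
      four := fun hac hbd h1 h2 h3 h4 => h.four (fun h' => hac (Subtype.ext h'))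
        (fun h' => hbd (Subtype.ext h')) h1 h2 h3 h4 }
  have h18 : 18 ≤ Fintype.card W := by
    refine h.odd18.trans ?_
    rw [← Fintype.card_coe]
    refine Fintype.card_le_of_injective (fun x : (odd s t S) => (⟨x.1, ?_⟩ : W)) ?_
    · have h1 := (h.odd_nb x.1).1 x.2
      obtain ⟨z, hz⟩ := card_pos.1 (show 0 < (univ.filter (Nb s t S x.1)).card by omega)
      exact ⟨z, (mem_filter.1 hz).2⟩
    · intro x y hxy
      exact Subtype.ext (congrArg (fun w : W => w.1) hxy)
  obtain ⟨a, b, hab, hinj⟩ := hG.nine h18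
  refine ⟨fun i => (a i).1, fun i => (b i).1, hab, ?_⟩
  have h5 : Sum.elim (fun i => (a i).1) (fun i => (b i).1) = fun x => (Sum.elim a b x).1 := by
    funext x
    rcases x with i | i <;> rfl
  rw [h5]
  exact Subtype.val_injective.comp hinj

/-- **bridgeless multigraphs without nine disjoint edges** -/
theorem match_nine (s t : E → V) (S : Finset E) (h1 : N1 s t S)
    (hm : ¬ ∃ f : Fin 9 → E, (∀ i, f i ∈ S ∧ s (f i) ≠ t (f i)) ∧
      ∀ i j, i ≠ j → Disjoint ({s (f i), t (f i)} : Set V) {s (f j), t (f j)}) :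
    NZ s t S ∨ PQ s t S := by
  classical
  by_contra hc
  rw [not_or] at hc
  obtain ⟨π, hM⟩ := exists_Mq s t S h1 hc.1 hc.2
  obtain ⟨a, b, hab, hinj⟩ := Mq_nine hM
  choose hne f hf hE using hab
  apply hm
  have haa : ∀ i j, a i = a j → i = j := fun i j h => Sum.inl_injective (hinj
    (show Sum.elim a b (Sum.inl i) = Sum.elim a b (Sum.inl j) from h))
  have hbb : ∀ i j, b i = b j → i = j := fun i j h => Sum.inr_injective (hinj
    (show Sum.elim a b (Sum.inr i) = Sum.elim a b (Sum.inr j) from h))
  have hab : ∀ i j, a i ≠ b j := fun i j h => by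
    have := hinj (show Sum.elim a b (Sum.inl i) = Sum.elim a b (Sum.inr j) from h)
    simp at this
  refine ⟨f, fun i => ⟨hf i, ?_⟩, ?_⟩
  · intro h2
    rcases hE i with ⟨h3, h4⟩ | ⟨h3, h4⟩
    · exact hab i i (h3.symm.trans ((congrArg π h2).trans h4))
    · exact hab i i (h4.symm.trans ((congrArg π h2).symm.trans h3))
  · intro i j hij
    rw [Set.disjoint_left]
    have key : ∀ k x, x ∈ ({s (f k), t (f k)} : Set V) → π x = a k ∨ π x = b k := by
      intro k x hx
      rw [Set.mem_insert_iff, Set.mem_singleton_iff] at hx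
      rcases hE k with ⟨h3, h4⟩ | ⟨h3, h4⟩ <;> rcases hx with rfl | rfl
      · exact Or.inl h3
      · exact Or.inr h4
      · exact Or.inr h3
      · exact Or.inl h4
    intro x hx hx'
    rcases key i x hx with h5 | h5 <;> rcases key j x hx' with h6 | h6
    · exact hij (haa i j (h5.symm.trans h6))
    · exact hab i j (h5.symm.trans h6)
    · exact hab j i (h6.symm.trans h5)
    · exact hij (hbb i j (h5.symm.trans h6))

end Pool.Agent.W5h8.M9
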