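import Pool.Agent.W5h8.M9C
import Pool.Agent.TH362.TF.Contr
import Pool.Agent.TH362.TF.Cyc

/-!
# Short circuits disappear in minimal quotients
-/

set_option autoImplicit false

namespace Pool.Agent.W5h8.M9

open Finset Pool.Agent.TH362.TF Pool.Agent.TH362.TF.Four Pool.Agent.R890.FF

variable {V E : Type} [Fintype V] [DecidableEq V] [DecidableEq E]

omit [Fintype V] [DecidableEq V] [DecidableEq E] in
theorem ends_self {s t : E → V} (e : E) : Ends s t (s e) (t e) e := Or.inl ⟨rfl, rfl⟩

/-- the degree of `v` in an even set: an edge at `v` that is not a loop has a second one -/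
theorem second {s t : E → V} {C : Finset E} (hC : ∀ v, Even (deg s t C v)) {v x : V} {e : E}
    (he : e ∈ C) (hE : Ends s t v x e) (hvx : v ≠ x) :
    ∃ e' ∈ C, e' ≠ e ∧ ∃ y, v ≠ y ∧ Ends s t v y e' := by
  by_contra hcon
  push Not at hcon
  have h0 : ∀ e' ∈ C, e' ≠ e →
      ((if s e' = v then 1 else 0) + (if t e' = v then 1 else 0)) % 2 = 0 := by
    intro e' he' hne
    have h1 := hcon e' he' hne
    by_cases ha : s e' = v <;> by_cases hb : t e' = v
    · simp [ha, hb]
    · exact absurd (Or.inl ⟨ha, rfl⟩) (h1 (t e') (fun h => hb h.symm))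
    · exact absurd (Or.inr ⟨rfl, hb⟩) (h1 (s e') (fun h => ha h.symm))
    · simp [ha, hb]
  have h1 : deg s t C v % 2 = 1 := by
    unfold deg
    rw [← Finset.add_sum_erase C _ he, Nat.add_mod, Finset.sum_nat_mod]
    have h2 : ∑ i ∈ C.erase e, ((if s i = v then 1 else 0) + (if t i = v then 1 else 0)) % 2 = 0 :=
      Finset.sum_eq_zero fun i hi => h0 i (Finset.mem_of_mem_erase hi) (Finset.ne_of_mem_erase hi)
    rw [h2]
    rcases hE with ⟨h3, h4⟩ | ⟨h3, h4⟩
    · have h5 : t e ≠ v := fun h => hvx (h.symm.trans h4)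
      simp [h3, h5]
    · have h5 : s e ≠ v := fun h => hvx (h.symm.trans h3)
      simp [h4, h5]
  have h2 := hC v
  rw [Nat.even_iff] at h2
  omega

/-- in a minimal quotient the edges on short circuits are loops -/
theorem Mq_short {s t : E → V} {S : Finset E} (h : Mq s t S) {C : Finset E} (hCS : C ⊆ S)
    (hC : ∀ v, Even (deg s t C v)) (hc : C.card ≤ 4) {e : E} (he : e ∈ C) : s e = t e := by
  by_contra hab
  have par : ∀ {x y : V} {f f' : E}, x ≠ y → f ∈ C → f' ∈ C → f' ≠ f → Ends s t x y f →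
      Ends s t x y f' → False := fun hxy hf hf' hne h1 h2 =>
    hne (h.nopar hxy (hCS hf') (hCS hf) h2 h1)
  have hE : Ends s t (s e) (t e) e := Or.inl ⟨rfl, rfl⟩
  generalize s e = a at hab hE
  generalize t e = b at hab hE
  obtain ⟨e2, he2, n2, c, hac, E2⟩ := second hC he hE hab
  have hbc : b ≠ c := by
    rintro rfl
    exact par hab he he2 n2 hE E2
  obtain ⟨e3, he3, n3, d, hbd, E3⟩ := second hC he (ends_comm' hE) (Ne.symm hab)
  have had : a ≠ d := by
    rintro rfl
    exact par (Ne.symm hab) he he3 n3 (ends_comm' hE) E3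
  have hcd : c ≠ d := by
    rintro rfl
    exact h.notri hab hac hbc (hCS he) (hCS he3) (hCS he2) hE E3 (ends_comm' E2)
  obtain ⟨e4, he4, n4, f, hcf, E4⟩ := second hC he2 (ends_comm' E2) (Ne.symm hac)
  have haf : a ≠ f := by
    rintro rfl
    exact par (Ne.symm hac) he2 he4 n4 (ends_comm' E2) E4
  have hbf : b ≠ f := by
    rintro rfl
    exact h.notri hab hac hbc (hCS he) (hCS he4) (hCS he2) hE (ends_comm' E4) (ends_comm' E2)
  have hdf : d ≠ f := by
    rintro rfl
    exact h.nofour hab had hac hbd hbc (Ne.symm hcd) (hCS he) (hCS he3) (hCS he4) (hCS he2)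
      hE E3 (ends_comm' E4) (ends_comm' E2)
  obtain ⟨e5, he5, n5, g, hdg, E5⟩ := second hC he3 (ends_comm' E3) (Ne.symm hbd)
  have uniq : ∀ {x y x' y' : V} {k : E}, Ends s t x y k → Ends s t x' y' k →
      (x = x' ∧ y = y') ∨ (x = y' ∧ y = x') := by
    intro x y x' y' k h1 h2
    rcases h1 with ⟨h3, h4⟩ | ⟨h3, h4⟩ <;> rcases h2 with ⟨h5, h6⟩ | ⟨h5, h6⟩
    · exact Or.inl ⟨h3.symm.trans h5, h4.symm.trans h6⟩
    · exact Or.inr ⟨h3.symm.trans h5, h4.symm.trans h6⟩
    · exact Or.inr ⟨h4.symm.trans h6, h3.symm.trans h5⟩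
    · exact Or.inl ⟨h4.symm.trans h6, h3.symm.trans h5⟩
  have m51 : e5 ≠ e := by
    rintro rfl
    rcases uniq hE E5 with ⟨h1, _⟩ | ⟨_, h1⟩
    · exact had h1
    · exact hbd h1
  have m52 : e5 ≠ e2 := by
    rintro rfl
    rcases uniq E2 E5 with ⟨h1, _⟩ | ⟨_, h1⟩
    · exact had h1
    · exact hcd h1
  have m54 : e5 ≠ e4 := by
    rintro rfl
    rcases uniq E4 E5 with ⟨h1, _⟩ | ⟨_, h1⟩
    · exact hcd h1
    · exact hdf h1.symm
  have m32 : e3 ≠ e2 := by
    rintro rfl
    rcases uniq E2 E3 with ⟨h1, _⟩ | ⟨_, h1⟩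
    · exact hab h1
    · exact hbc h1.symm
  have m41 : e4 ≠ e := by
    rintro rfl
    rcases uniq hE E4 with ⟨h1, _⟩ | ⟨_, h1⟩
    · exact hac h1
    · exact hbc h1
  have m43 : e4 ≠ e3 := by
    rintro rfl
    rcases uniq E3 E4 with ⟨h1, _⟩ | ⟨_, h1⟩
    · exact hbc h1
    · exact hcd h1.symm
  have hsub : ({e, e2, e3, e4, e5} : Finset E) ⊆ C := by
    intro x hx
    simp only [mem_insert, mem_singleton] at hx
    rcases hx with rfl | rfl | rfl | rfl | rfl <;> assumption
  have hcard : ({e, e2, e3, e4, e5} : Finset E).card = 5 := by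
    rw [card_insert_of_notMem, card_insert_of_notMem, card_insert_of_notMem,
      card_insert_of_notMem, card_singleton]
    · simp only [mem_singleton]; exact m54.symm
    · simp only [mem_insert, mem_singleton, not_or]; exact ⟨m43.symm, n5.symm⟩
    · simp only [mem_insert, mem_singleton, not_or]; exact ⟨m32.symm, n4.symm, m52.symm⟩
    · simp only [mem_insert, mem_singleton, not_or]
      exact ⟨n2.symm, n3.symm, m41.symm, m51.symm⟩
  have := card_le_card hsub
  omega

/-- even sets stay even in quotients -/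
theorem even_quot {s t : E → V} {C : Finset E} (hC : ∀ v, Even (deg s t C v)) (π : V → V) (w : V) :
    Even (deg (fun e => π (s e)) (fun e => π (t e)) C w) := by
  have h1 : deg (fun e => π (s e)) (fun e => π (t e)) C w =
      ∑ v ∈ univ.filter (fun v => π v = w), deg s t C v := by
    unfold deg
    rw [Finset.sum_comm]
    refine Finset.sum_congr rfl fun e _ => ?_
    rw [Finset.sum_add_distrib, Finset.sum_ite_eq, Finset.sum_ite_eq]
    simp only [mem_filter, mem_univ, true_and]
  rw [h1]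
  exact Finset.even_sum _ fun v _ => hC v

/-- **bridgeless multigraphs without nine disjoint edges outside of short circuits** -/
theorem match_nine_short (s t : E → V) (S : Finset E) (h1 : N1 s t S)
    (hm : ¬ ∃ f : Fin 9 → E, (∀ i, f i ∈ S ∧
        ∀ C : Finset E, C ⊆ S → (∀ v, Even (deg s t C v)) → f i ∈ C → 5 ≤ C.card) ∧
      ∀ i j, i ≠ j → Disjoint ({s (f i), t (f i)} : Set V) {s (f j), t (f j)}) :
    NZ s t S ∨ PQ s t S := by
  classical
  by_contra hc
  rw [not_or] at hc
  obtain ⟨π, hM⟩ := exists_Mq s t S h1 hc.1 hc.2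
  obtain ⟨a, b, hab, hinj⟩ := Mq_nine hM
  have hne : ∀ i, b i ≠ a i := fun i => (hab i).1
  choose hne' f hf hE using hab
  apply hm
  have haa : ∀ i j, a i = a j → i = j := fun i j h => Sum.inl_injective (hinj
    (show Sum.elim a b (Sum.inl i) = Sum.elim a b (Sum.inl j) from h))
  have hbb : ∀ i j, b i = b j → i = j := fun i j h => Sum.inr_injective (hinj
    (show Sum.elim a b (Sum.inr i) = Sum.elim a b (Sum.inr j) from h))
  have hab : ∀ i j, a i ≠ b j := fun i j h => by
    have := hinj (show Sum.elim a b (Sum.inl i) = Sum.elim a b (Sum.inr j) from h)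
    simp at this
  refine ⟨f, fun i => ⟨hf i, ?_⟩, ?_⟩
  · intro C hCS hC hfC
    by_contra hlt
    have h2 := Mq_short hM hCS (even_quot hC π) (by omega) hfC
    rcases hE i with ⟨h3, h4⟩ | ⟨h3, h4⟩
    · exact hne i (h4.symm.trans (h2.symm.trans h3))
    · exact hne i (h3.symm.trans (h2.trans h4))
  · intro i j hij
    rw [Set.disjoint_left]
    have key : ∀ k x, x ∈ ({s (f k), t (f k)} : Set V) → π x = a k ∨ π x = b k := by
      intro k x hx
      rw [Set.mem_insert_iff, Set.mem_singleton_iff] at hx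
      rcases hE k with ⟨h3, h4⟩ | ⟨h3, h4⟩ <;> rcases hx with rfl | rfl
      · exact Or.inl h3
      · exact Or.inr h4
      · exact Or.inr h3
      · exact Or.inl h4
    intro x hx hx'
    rcases key i x hx with h5 | h5 <;> rcases key j x hx' with h6 | h6
    · exact hij (haa i j (h5.symm.trans h6))
    · exact hab i j (h5.symm.trans h6)
    · exact hab j i (h6.symm.trans h5)
    · exact hij (hbb i j (h5.symm.trans h6))

end Pool.Agent.W5h8.M9
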