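import Pool.Agent.W5h8.TangDefs

/-!
Extended promotion on labelings of a finite poset, in `key` form.
-/

namespace Pool.Agent.W5h8.Tang

set_option linter.unusedSectionVars false

variable {P : Type*} [PartialOrder P]

open Classical in
/-- One promotion step without relabelling: the elements of the path starting at label `a`
receive the label of their successor, the last one receives `c`. -/
noncomputable def prom (f : P → ℕ) (a c : ℕ) (x : P) : ℕ :=
  if OnPath f a x then (if h : ∃ w, IsSucc f x w then f h.choose else c) else f x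

section basic

variable {f : P → ℕ} {a c : ℕ}

theorem IsSucc.unique (hf : Function.Injective f) {v w w' : P} (h : IsSucc f v w)
    (h' : IsSucc f v w') : w = w' :=
  hf (le_antisymm (h.2 _ h'.1) (h'.2 _ h.1))

theorem exists_isSucc [Finite P] (f : P → ℕ) {v z : P} (h : v < z) : ∃ w, IsSucc f v w := by
  classical
  have hfin : {z : P | v < z}.Finite := Set.toFinite _
  obtain ⟨w, hw, hmin⟩ := Set.exists_min_image {z : P | v < z} f hfin ⟨z, h⟩
  exact ⟨w, hw, fun z hz => hmin z hz⟩

theorem path_le {v x : P} (h : Relation.ReflTransGen (IsSucc f) v x) : v ≤ x := by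
  induction h with
  | refl => exact le_rfl
  | tail _ h ih => exact ih.trans h.1.le

theorem path_total (hf : Function.Injective f) {v x y : P}
    (hx : Relation.ReflTransGen (IsSucc f) v x) (hy : Relation.ReflTransGen (IsSucc f) v y) :
    Relation.ReflTransGen (IsSucc f) x y ∨ Relation.ReflTransGen (IsSucc f) y x :=
  Relation.ReflTransGen.total_of_right_unique (fun _ _ _ h h' => h.unique hf h') hx hy

theorem path_succ_le (hf : Function.Injective f) {x w z : P}
    (hxz : Relation.ReflTransGen (IsSucc f) x z) (hne : x ≠ z) (hw : IsSucc f x w) :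
    Relation.ReflTransGen (IsSucc f) w z := by
  rcases Relation.ReflTransGen.cases_head hxz with h | ⟨w', hw', h⟩
  · exact absurd h hne
  · rwa [hw.unique hf hw']

theorem OnPath.start {v : P} (h : f v = a) : OnPath f a v := ⟨v, h, .refl⟩

theorem OnPath.next {x w : P} (h : OnPath f a x) (hw : IsSucc f x w) : OnPath f a w := by
  obtain ⟨v, hv, hp⟩ := h
  exact ⟨v, hv, hp.tail hw⟩

theorem OnPath.le_of_start (hf : Function.Injective f) {v x : P} (hv : f v = a)
    (h : OnPath f a x) : v ≤ x := by
  obtain ⟨v', hv', hp⟩ := h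
  have : v = v' := hf (hv.trans hv'.symm)
  subst this
  exact path_le hp

theorem OnPath.rtg (hf : Function.Injective f) {v x : P} (hv : f v = a)
    (h : OnPath f a x) : Relation.ReflTransGen (IsSucc f) v x := by
  obtain ⟨v', hv', hp⟩ := h
  have : v = v' := hf (hv.trans hv'.symm)
  subst this
  exact hp

theorem OnPath.total (hf : Function.Injective f) {x y : P} (hx : OnPath f a x)
    (hy : OnPath f a y) :
    Relation.ReflTransGen (IsSucc f) x y ∨ Relation.ReflTransGen (IsSucc f) y x := by
  obtain ⟨v, hv, hp⟩ := hx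
  exact path_total hf hp (hy.rtg hf hv)

/-- A path element above `x` is above the successor of `x`. -/
theorem OnPath.succ_le (hf : Function.Injective f) {x w z : P} (hx : OnPath f a x)
    (hz : OnPath f a z) (hxz : x < z) (hw : IsSucc f x w) : w ≤ z := by
  rcases hx.total hf hz with h | h
  · exact path_le (path_succ_le hf h hxz.ne hw)
  · exact absurd (path_le h) (not_le_of_gt hxz)

theorem prom_not {x : P} (h : ¬ OnPath f a x) : prom f a c x = f x := by
  simp [prom, h]

theorem prom_succ (hf : Function.Injective f) {x w : P} (h : OnPath f a x)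
    (hw : IsSucc f x w) : prom f a c x = f w := by
  have hex : ∃ w, IsSucc f x w := ⟨w, hw⟩
  unfold prom
  rw [if_pos h, dif_pos hex, hex.choose_spec.unique hf hw]

theorem prom_max {x : P} (h : OnPath f a x) (hm : ∀ z, ¬ x < z) : prom f a c x = c := by
  have hex : ¬ ∃ w, IsSucc f x w := fun ⟨w, hw⟩ => hm w hw.1
  unfold prom
  rw [if_pos h, dif_neg hex]

/-- The three possibilities for the new label of `x`. -/
theorem prom_cases [Finite P] (hf : Function.Injective f) (a c : ℕ) (x : P) :
    (¬ OnPath f a x ∧ prom f a c x = f x) ∨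
    (∃ w, OnPath f a x ∧ IsSucc f x w ∧ prom f a c x = f w) ∨
    (OnPath f a x ∧ (∀ z, ¬ x < z) ∧ prom f a c x = c) := by
  by_cases h : OnPath f a x
  · by_cases hm : ∃ z, x < z
    · obtain ⟨z, hz⟩ := hm
      obtain ⟨w, hw⟩ := exists_isSucc f hz
      exact Or.inr (Or.inl ⟨w, h, hw, prom_succ hf h hw⟩)
    · have hm' : ∀ z, ¬ x < z := fun z hz => hm ⟨z, hz⟩
      exact Or.inr (Or.inr ⟨h, hm', prom_max h hm'⟩)
  · exact Or.inl ⟨h, prom_not h⟩

/-- Tokens other than the promoted one move down. -/
theorem prom_key_down (hf : Function.Injective f) {k : ℕ} (hk : k ≠ a) {p : P} (hp : f p = k) :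
    ∃ q, q ≤ p ∧ prom f a c q = k := by
  by_cases h : OnPath f a p
  · obtain ⟨v, hv, hr⟩ := h
    rcases Relation.ReflTransGen.cases_tail hr with h | ⟨q, hq, hqp⟩
    · exact absurd (hp.symm.trans (by rw [h, hv])) hk
    · exact ⟨q, hqp.1.le, by rw [prom_succ hf ⟨v, hv, hq⟩ hqp, hp]⟩
  · exact ⟨p, le_rfl, by rw [prom_not h, hp]⟩

/-- Where the token now at `q` came from. -/
theorem prom_key_up [Finite P] (hf : Function.Injective f) {k : ℕ} {q : P}
    (hq : prom f a c q = k) (hk : k ≠ c) :
    ∃ p, f p = k ∧ ((p = q ∧ ¬ OnPath f a q) ∨ (OnPath f a q ∧ IsSucc f q p)) := by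
  rcases prom_cases hf a c q with ⟨h, h'⟩ | ⟨w, h, hw, h'⟩ | ⟨h, hm, h'⟩
  · exact ⟨q, by rw [← hq, h'], Or.inl ⟨rfl, h⟩⟩
  · exact ⟨w, by rw [← hq, h'], Or.inr ⟨h, hw⟩⟩
  · exact absurd (hq.symm.trans h') hk

theorem prom_key_up_le [Finite P] (hf : Function.Injective f) {k : ℕ} {q : P}
    (hq : prom f a c q = k) (hk : k ≠ c) : ∃ p, q ≤ p ∧ f p = k := by
  obtain ⟨p, hp, h | h⟩ := prom_key_up hf hq hk
  · exact ⟨p, h.1.symm.le, hp⟩
  · exact ⟨p, h.2.1.le, hp⟩

theorem prom_injective [Finite P] (hf : Function.Injective f) (hc : ∀ x, f x ≠ c) :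
    Function.Injective (prom f a c) := by
  intro x y hxy
  rcases prom_cases hf a c x with ⟨h1, e1⟩ | ⟨w1, h1, hw1, e1⟩ | ⟨h1, m1, e1⟩ <;>
  rcases prom_cases hf a c y with ⟨h2, e2⟩ | ⟨w2, h2, hw2, e2⟩ | ⟨h2, m2, e2⟩ <;>
  rw [e1, e2] at hxy
  · exact hf hxy
  · exact absurd (by rw [hf hxy]; exact h2.next hw2) h1
  · exact absurd hxy (hc _)
  · exact absurd (by rw [← hf hxy]; exact h1.next hw1) h2
  · have hw : w1 = w2 := hf hxy
    subst hw
    by_contra hne
    rcases h1.total hf h2 with h | h
    · exact absurd (path_le (path_succ_le hf h hne hw1)) (not_le_of_gt hw2.1)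
    · exact absurd (path_le (path_succ_le hf h (Ne.symm hne) hw2)) (not_le_of_gt hw1.1)
  · exact absurd hxy (hc _)
  · exact absurd hxy.symm (hc _)
  · exact absurd hxy.symm (hc _)
  · rcases h1.total hf h2 with h | h
    · rcases (path_le h).eq_or_lt with h | h
      · exact h
      · exact absurd h (m1 _)
    · rcases (path_le h).eq_or_lt with h | h
      · exact h.symm
      · exact absurd h (m2 _)

/-- The start label disappears. -/
theorem prom_ne_start [Finite P] (hf : Function.Injective f) (hac : a ≠ c) (x : P) :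
    prom f a c x ≠ a := by
  intro h
  obtain ⟨p, hp, h | h⟩ := prom_key_up hf h hac
  · obtain ⟨h1, h2⟩ := h
    subst h1
    exact h2 (OnPath.start hp)
  · exact absurd (h.1.le_of_start hf hp) (not_le_of_gt h.2.1)

/-- Elements with label above `θ` are in order with everything above them. -/
def Sorted (θ : ℕ) (f : P → ℕ) : Prop := ∀ x z, x < z → θ < f x → f x < f z

theorem sorted_prom [Finite P] (hf : Function.Injective f) (hc : ∀ x, f x < c) {θ : ℕ}
    (hs : Sorted θ f) : Sorted θ (prom f a c) := by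
  intro x z hxz hx
  rcases prom_cases hf a c x with ⟨h1, e1⟩ | ⟨w1, h1, hw1, e1⟩ | ⟨h1, m1, e1⟩
  · rw [e1] at hx ⊢
    have hz := hs x z hxz hx
    rcases prom_cases hf a c z with ⟨h2, e2⟩ | ⟨w2, h2, hw2, e2⟩ | ⟨h2, m2, e2⟩ <;> rw [e2]
    · exact hz
    · exact hs x w2 (hxz.trans hw2.1) hx
    · exact hc x
  · rw [e1]
    rcases prom_cases hf a c z with ⟨h2, e2⟩ | ⟨w2, h2, hw2, e2⟩ | ⟨h2, m2, e2⟩ <;> rw [e2]
    · refine lt_of_le_of_ne (hw1.2 z hxz) fun h => h2 ?_
      rw [← hf h]
      exact h1.next hw1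
    · refine lt_of_le_of_ne (hw1.2 w2 (hxz.trans hw2.1)) fun h => ?_
      have h3 := h1.succ_le hf h2 hxz hw1
      rw [hf h] at h3
      exact absurd h3 (not_le_of_gt hw2.1)
    · exact hc _
  · exact absurd hxz (m1 _)

end basic

/-! ### States and runs -/

variable [Fintype P]

/-- The labels after `s` steps in key form: a bijection onto `{s+1, …, s+n}`. -/
def IsState (s : ℕ) (f : P → ℕ) : Prop :=
  Function.Injective f ∧ ∀ x, s < f x ∧ f x ≤ s + Fintype.card P

/-- Step number `s+1`, from time `s` to time `s+1`. -/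
noncomputable def stepAt (s : ℕ) (f : P → ℕ) : P → ℕ := prom f (s + 1) (s + 1 + Fintype.card P)

/-- `k` steps starting at time `s`. -/
noncomputable def run (s : ℕ) (f : P → ℕ) : ℕ → P → ℕ
  | 0 => f
  | k + 1 => stepAt (s + k) (run s f k)

variable {s : ℕ} {f : P → ℕ}

theorem IsState.step (h : IsState s f) : IsState (s + 1) (stepAt s f) := by
  have hc : ∀ x, f x ≠ s + 1 + Fintype.card P := fun x => by have := (h.2 x).2; omega
  refine ⟨prom_injective h.1 hc, fun x => ?_⟩
  have hne : stepAt s f x ≠ s + 1 := by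
    have : s + 1 ≠ s + 1 + Fintype.card P := by
      have := Fintype.card_pos_iff.2 ⟨x⟩
      omega
    exact prom_ne_start h.1 this x
  have : s < stepAt s f x ∧ stepAt s f x ≤ s + 1 + Fintype.card P := by
    unfold stepAt
    rcases prom_cases h.1 (s + 1) (s + 1 + Fintype.card P) x with ⟨h1, e1⟩ | ⟨w1, h1, hw1, e1⟩ | ⟨h1, m1, e1⟩ <;>
    rw [e1]
    · have := h.2 x; omega
    · have := h.2 w1; omega
    · omega
  omega

theorem IsState.run (h : IsState s f) (k : ℕ) : IsState (s + k) (run s f k) := by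
  induction k with
  | zero => exact h
  | succ k ih => exact ih.step

theorem run_add (s : ℕ) (f : P → ℕ) (j k : ℕ) : run s f (j + k) = run (s + j) (run s f j) k := by
  induction k with
  | zero => rfl
  | succ k ih =>
    have : run s f (j + (k + 1)) = stepAt (s + (j + k)) (run s f (j + k)) := rfl
    rw [this, ih, ← add_assoc]
    rfl

theorem IsState.exists_key (h : IsState s f) {k : ℕ} (h1 : s < k) (h2 : k ≤ s + Fintype.card P) :
    ∃ x, f x = k := by
  classical
  have hinj : (Finset.univ.image f).card = Fintype.card P := by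
    rw [Finset.card_image_of_injective _ h.1, Finset.card_univ]
  have hsub : Finset.univ.image f ⊆ Finset.Ioc s (s + Fintype.card P) := by
    intro y hy
    obtain ⟨x, _, rfl⟩ := Finset.mem_image.1 hy
    exact Finset.mem_Ioc.2 (h.2 x)
  have heq : Finset.univ.image f = Finset.Ioc s (s + Fintype.card P) :=
    Finset.eq_of_subset_of_card_le hsub (by rw [hinj, Nat.card_Ioc]; omega)
  have : k ∈ Finset.univ.image f := by rw [heq]; exact Finset.mem_Ioc.2 ⟨h1, h2⟩
  obtain ⟨x, _, hx⟩ := Finset.mem_image.1 this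
  exact ⟨x, hx⟩

theorem IsState.sorted_step (h : IsState s f) {θ : ℕ} (hs : Sorted θ f) :
    Sorted θ (stepAt s f) :=
  sorted_prom h.1 (fun x => by have := (h.2 x).2; omega) hs

theorem IsState.sorted_run (h : IsState s f) {θ : ℕ} (hs : Sorted θ f) (k : ℕ) :
    Sorted θ (Tang.run s f k) := by
  induction k with
  | zero => exact hs
  | succ k ih => exact (h.run k).sorted_step ih

/-- After `s` steps from a labeling, labels above `n` are in order. -/
theorem IsState.sorted_init (h : IsState s f) : Sorted (s + Fintype.card P) f := by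
  intro x z _ hx
  have := (h.2 x).2
  omega

/-- Tokens move down along a step. -/
theorem step_down (h : IsState s f) {k : ℕ} (hk : k ≠ s + 1) {p : P} (hp : f p = k) :
    ∃ q, q ≤ p ∧ stepAt s f q = k :=
  prom_key_down h.1 hk hp

theorem run_down (h : IsState s f) {k j : ℕ} (hk : s + j < k) {p : P} (hp : f p = k) :
    ∃ q, q ≤ p ∧ Tang.run s f j q = k := by
  induction j with
  | zero => exact ⟨p, le_rfl, hp⟩
  | succ j ih =>
    obtain ⟨q, hq, hq'⟩ := ih (by omega)
    obtain ⟨q2, h2, h2'⟩ := step_down (h.run j) (by omega : k ≠ s + j + 1) hq'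
    exact ⟨q2, h2.trans hq, h2'⟩

theorem run_up (h : IsState s f) {k j : ℕ} (hk : k ≤ s + Fintype.card P) {q : P}
    (hq : Tang.run s f j q = k) : ∃ p, q ≤ p ∧ f p = k := by
  induction j generalizing q with
  | zero => exact ⟨q, le_rfl, hq⟩
  | succ j ih =>
    obtain ⟨p, hp, hp'⟩ := prom_key_up_le (h.run j).1 hq (by omega)
    obtain ⟨p2, h2, h2'⟩ := ih hp'
    exact ⟨p2, hp.trans h2, h2'⟩

end Pool.Agent.W5h8.Tang
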