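import Pool.Agent.W5h8.TangA

/-!
Swapping two tokens with consecutive keys commutes with promotion as long as the comparison
of the two never matters.
-/

namespace Pool.Agent.W5h8.Tang

set_option linter.unusedSectionVars false

variable {P : Type*} [PartialOrder P]

/-- Exchange the keys `b` and `c`. -/
def swp (b c : ℕ) (f : P → ℕ) (x : P) : ℕ := Equiv.swap b c (f x)

theorem swp_injective {b c : ℕ} {f : P → ℕ} (hf : Function.Injective f) :
    Function.Injective (swp b c f) :=
  (Equiv.injective _).comp hf

theorem swp_swp (b c : ℕ) (f : P → ℕ) : swp b c (swp b c f) = f := by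
  funext x
  simp [swp]

theorem swp_of_ne {b c : ℕ} {f : P → ℕ} {x : P} (h1 : f x ≠ b) (h2 : f x ≠ c) :
    swp b c f x = f x := Equiv.swap_apply_of_ne_of_ne h1 h2

theorem swp_left {b c : ℕ} {f : P → ℕ} {x : P} (h : f x = b) : swp b c f x = c := by
  simp [swp, h]

theorem swp_right {b c : ℕ} {f : P → ℕ} {x : P} (h : f x = c) : swp b c f x = b := by
  simp [swp, h]

theorem swp_eq_iff {b c k : ℕ} {f : P → ℕ} {x : P} :
    swp b c f x = k ↔ f x = Equiv.swap b c k := by
  unfold swp
  constructor
  · intro h; rw [← h]; simp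
  · intro h; rw [h]; simp

theorem swap_mono {t m k : ℕ} (h : m ≤ k) (h' : ¬ (m = t ∧ k = t + 1)) :
    Equiv.swap t (t + 1) m ≤ Equiv.swap t (t + 1) k := by
  rw [Equiv.swap_apply_def, Equiv.swap_apply_def]
  split_ifs <;> omega

theorem isSucc_swp {t : ℕ} {f : P → ℕ} {v w : P} (h : IsSucc f v w)
    (hnm : f w = t → ∀ z, v < z → f z ≠ t + 1) : IsSucc (swp t (t + 1) f) v w :=
  ⟨h.1, fun z hz => swap_mono (h.2 z hz) fun hh => hnm hh.1 z hz hh.2⟩

theorem prom_swap_comm [Finite P] {f : P → ℕ} (hf : Function.Injective f) {a c t : ℕ}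
    (ha : a < t) (hc : t + 1 < c)
    (hnm : ∀ v w z, OnPath f a v → IsSucc f v w → f w = t → v < z → f z ≠ t + 1) :
    prom (swp t (t + 1) f) a c = swp t (t + 1) (prom f a c) := by
  have hs : ∀ v w, OnPath f a v → IsSucc f v w → IsSucc (swp t (t + 1) f) v w :=
    fun v w hv hw => isSucc_swp hw fun h z hz => hnm v w z hv hw h hz
  have hg := swp_injective (b := t) (c := t + 1) hf
  have hstart : ∀ v, swp t (t + 1) f v = a ↔ f v = a := by
    intro v
    rw [swp_eq_iff, Equiv.swap_apply_of_ne_of_ne (by omega) (by omega)]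
  have hpath : ∀ x, OnPath (swp t (t + 1) f) a x ↔ OnPath f a x := by
    intro x
    constructor
    · rintro ⟨v, hv, hr⟩
      rw [hstart] at hv
      induction hr with
      | refl => exact OnPath.start hv
      | tail _ h ih =>
        obtain ⟨w, hw⟩ := exists_isSucc f h.1
        rw [h.unique hg (hs _ _ ih hw)]
        exact ih.next hw
    · rintro ⟨v, hv, hr⟩
      have : OnPath f a x ∧ OnPath (swp t (t + 1) f) a x := by
        induction hr with
        | refl => exact ⟨OnPath.start hv, OnPath.start ((hstart v).2 hv)⟩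
        | tail _ h ih => exact ⟨ih.1.next h, ih.2.next (hs _ _ ih.1 h)⟩
      exact this.2
  funext x
  rcases prom_cases hf a c x with ⟨h, e⟩ | ⟨w, h, hw, e⟩ | ⟨h, hm, e⟩
  · rw [prom_not (mt (hpath x).1 h)]
    unfold swp
    rw [e]
  · rw [prom_succ hg ((hpath x).2 h) (hs _ _ h hw)]
    unfold swp
    rw [e]
  · rw [prom_max ((hpath x).2 h) hm]
    unfold swp
    rw [e, Equiv.swap_apply_of_ne_of_ne (by omega) (by omega)]

/-- `B` is a component below the upper set `K`. -/
structure Comp (K B : Set P) : Prop where
  up : ∀ z ∈ B, ∀ z', z < z' → z' ∈ B ∨ z' ∈ K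
  down : ∀ z ∈ B, ∀ z', z' < z → z' ∈ B
  below : ∀ z ∈ B, ∀ k ∈ K, z < k
  disj : ∀ z ∈ B, z ∉ K

variable [Fintype P]

theorem IsState.swp {s : ℕ} {f : P → ℕ} (h : IsState s f) {b c : ℕ} (hb : s < b)
    (hb' : b ≤ s + Fintype.card P) (hc : s < c) (hc' : c ≤ s + Fintype.card P) :
    IsState s (Tang.swp b c f) := by
  refine ⟨swp_injective h.1, fun x => ?_⟩
  have := h.2 x
  unfold Tang.swp
  rw [Equiv.swap_apply_def]
  split_ifs <;> omega

/-- Position of a token seen from its final position. -/
theorem mem_of_run {s : ℕ} {f : P → ℕ} (h : IsState s f) {K B : Set P} (hB : Comp K B)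
    {t j : ℕ} (hj : s + j < t) {x : P} (hx : x ∈ B) (hM : run s f j x = t) {q : P}
    (hq : f q = t) : q ∈ B ∨ q ∈ K := by
  obtain ⟨q', hq', hq''⟩ := run_down h hj hq
  have : q' = x := (h.run j).1 (hq''.trans hM.symm)
  subst this
  rcases hq'.eq_or_lt with h | h
  · exact Or.inl (h ▸ hx)
  · exact hB.up _ hx _ h

/-- If the tokens `t`, `t+1` end in different components and are not both in `K` at the start,
then swapping them commutes with the run. -/
theorem run_swap_comm {K B1 B2 : Set P} (hK : ∀ k ∈ K, ∀ z, k < z → z ∈ K)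
    (h1 : Comp K B1) (h2 : Comp K B2) (h12 : ∀ z ∈ B1, z ∉ B2) {s j t : ℕ} {f : P → ℕ}
    (hf : IsState s f) (hj : s + j < t) (htn : t + 1 ≤ s + Fintype.card P) {x x' : P}
    (hx : x ∈ B1) (hx' : x' ∈ B2)
    (hM : run s f j x = t) (hM' : run s f j x' = t + 1)
    (hnb : ∀ p p', f p = t → f p' = t + 1 → p ∈ K → p' ∉ K) :
    run s (swp t (t + 1) f) j = swp t (t + 1) (run s f j) := by
  have key : ∀ i, i ≤ j → run s (swp t (t + 1) f) i = swp t (t + 1) (run s f i) := by
    intro i hi
    induction i with
    | zero => rfl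
    | succ i ih =>
      have ih := ih (by omega)
      have hst := hf.run i
      -- positions at times `i` and `i+1`
      have hposT : ∀ i' ≤ j, ∀ q, run s f i' q = t → q ∈ B1 ∨ q ∈ K := by
        intro i' hi' q hq
        have e : run s f j = run (s + i') (run s f i') (j - i') := by
          rw [← run_add]; congr 1; omega
        rw [e] at hM
        exact mem_of_run (hf.run i') h1 (by omega) hx hM hq
      have hposT' : ∀ i' ≤ j, ∀ q, run s f i' q = t + 1 → q ∈ B2 ∨ q ∈ K := by
        intro i' hi' q hq
        have e : run s f j = run (s + i') (run s f i') (j - i') := by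
          rw [← run_add]; congr 1; omega
        rw [e] at hM'
        exact mem_of_run (hf.run i') h2 (by omega) hx' hM' hq
      have hnb' : ∀ p p', run s f i p = t → run s f i p' = t + 1 → p ∈ K → p' ∉ K := by
        intro p p' hp hp' hpK hpK'
        obtain ⟨q, hq, hq'⟩ := run_up hf (by omega) hp
        obtain ⟨r, hr, hr'⟩ := run_up hf (by omega) hp'
        refine hnb q r hq' hr' ?_ ?_
        · rcases hq.eq_or_lt with h | h
          · exact h ▸ hpK
          · exact hK _ hpK _ h
        · rcases hr.eq_or_lt with h | h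
          · exact h ▸ hpK'
          · exact hK _ hpK' _ h
      have hcomm : stepAt (s + i) (swp t (t + 1) (run s f i))
          = swp t (t + 1) (stepAt (s + i) (run s f i)) := by
        refine prom_swap_comm hst.1 (by omega) (by omega) ?_
        intro v w z hv hw hwt hvz hz
        -- the new label of `v` is `t`
        have hvt : run s f (i + 1) v = t := by
          change prom _ _ _ v = t
          rw [prom_succ hst.1 hv hw, hwt]
        have hvB : v ∈ B1 := by
          rcases hposT (i + 1) hi v hvt with h | h
          · exact h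
          · exact absurd (hK _ h _ hvz) (hnb' w z hwt hz (hK _ h _ hw.1))
        have hzK : z ∈ K := by
          rcases h1.up _ hvB _ hvz with h | h
          · rcases hposT' i (by omega) z hz with h' | h'
            · exact absurd h' (h12 _ h)
            · exact h'
          · exact h
        have hwB : w ∈ B1 := by
          rcases h1.up _ hvB _ hw.1 with h | h
          · exact h
          · exact absurd hzK (hnb' w z hwt hz h)
        have hwz : IsSucc (run s f i) w z := by
          refine ⟨h1.below _ hwB _ hzK, fun u hu => ?_⟩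
          have h3 := hw.2 u (hw.1.trans hu)
          have h4 : run s f i u ≠ run s f i w := fun h => absurd (hst.1 h) hu.ne'
          omega
        have : run s f (i + 1) w = t + 1 := by
          change prom _ _ _ w = t + 1
          rw [prom_succ hst.1 (hv.next hw) hwz, hz]
        rcases hposT' (i + 1) hi w this with h | h
        · exact h12 _ hwB h
        · exact h1.disj _ hwB h
      change stepAt (s + i) (run s (swp t (t + 1) f) i) = _
      rw [ih, hcomm]
      rfl
  exact key j le_rfl

end Pool.Agent.W5h8.Tang
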