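import Pool.Agent.W5h8.TangB

/-!
How one promotion step acts on the components below an upper set.
-/

namespace Pool.Agent.W5h8.Tang

set_option linter.unusedSectionVars false

variable {P : Type*} [PartialOrder P] [Finite P]

/-! ### Steps starting inside an upper set -/

section upper

variable {W : Set P} (hW : ∀ k ∈ W, ∀ z, k < z → z ∈ W) {f f' : P → ℕ} {a c : ℕ} {v : P}

include hW

theorem onPath_mem_upper (hf : Function.Injective f) (hv : f v = a) (hvW : v ∈ W) {x : P}
    (hx : OnPath f a x) : x ∈ W := by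
  rcases (hx.le_of_start hf hv).eq_or_lt with h | h
  · exact h ▸ hvW
  · exact hW _ hvW _ h

theorem prom_off_upper (hf : Function.Injective f) (hv : f v = a) (hvW : v ∈ W) {x : P}
    (hx : x ∉ W) : prom f a c x = f x :=
  prom_not fun h => hx (onPath_mem_upper hW hf hv hvW h)

theorem isSucc_congr_upper (h : ∀ z ∈ W, f z = f' z) {x w : P} (hx : x ∈ W)
    (hs : IsSucc f x w) : IsSucc f' x w :=
  ⟨hs.1, fun z hz => by rw [← h _ (hW _ hx _ hs.1), ← h _ (hW _ hx _ hz)]; exact hs.2 z hz⟩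

theorem rtg_congr_upper (h : ∀ z ∈ W, f z = f' z) {x w : P} (hx : x ∈ W)
    (hs : Relation.ReflTransGen (IsSucc f) x w) : Relation.ReflTransGen (IsSucc f') x w := by
  induction hs with
  | refl => exact .refl
  | tail h1 h2 ih =>
    refine ih.tail (isSucc_congr_upper hW h ?_ h2)
    rcases (path_le h1).eq_or_lt with h | h
    · exact h ▸ hx
    · exact hW _ hx _ h

/-- If the paths agree on `W` then the new labels agree on `W`. -/
theorem prom_congr_of_path (hf : Function.Injective f) (hf' : Function.Injective f')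
    (h : ∀ z ∈ W, f z = f' z) {a' : ℕ} {x : P} (hx : x ∈ W)
    (hp : OnPath f a x ↔ OnPath f' a' x) : prom f a c x = prom f' a' c x := by
  rcases prom_cases hf a c x with ⟨h1, e⟩ | ⟨w, h1, hw, e⟩ | ⟨h1, hm, e⟩
  · rw [e, prom_not (mt hp.2 h1), h x hx]
  · rw [e, prom_succ hf' (hp.1 h1) (isSucc_congr_upper hW h hx hw), h w (hW _ hx _ hw.1)]
  · rw [e, prom_max (hp.1 h1) hm]

theorem prom_congr_upper (hf : Function.Injective f) (hf' : Function.Injective f')
    (h : ∀ z ∈ W, f z = f' z) (hv : f v = a) (hvW : v ∈ W) {x : P} (hx : x ∈ W) :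
    prom f a c x = prom f' a c x := by
  have hv' : f' v = a := by rw [← h v hvW, hv]
  refine prom_congr_of_path hW hf hf' h hx ⟨fun hp => ?_, fun hp => ?_⟩
  · exact ⟨v, hv', rtg_congr_upper hW h hvW (hp.rtg hf hv)⟩
  · exact ⟨v, hv, rtg_congr_upper hW (fun z hz => (h z hz).symm) hvW (hp.rtg hf' hv')⟩

end upper

/-! ### Steps starting in a component -/

section comp

variable {K B : Set P} (hK : ∀ k ∈ K, ∀ z, k < z → z ∈ K) (hB : Comp K B) {f : P → ℕ}
  (hf : Function.Injective f) {a c : ℕ} {v p : P} (hv : f v = a) (hvB : v ∈ B) (hp : p ∈ K)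
  (hmin : ∀ k ∈ K, f p ≤ f k)

include hB hf hp hmin

theorem succ_of_comp {z w : P} (hz : z ∈ B) (hs : IsSucc f z w) : w ∈ B ∨ w = p := by
  rcases hB.up z hz w hs.1 with h | h
  · exact Or.inl h
  · exact Or.inr (hf (le_antisymm (hs.2 p (hB.below z hz p hp)) (hmin w h)))

include hv hvB in
theorem onPath_comp {x : P} (hx : OnPath f a x) :
    x ∈ B ∨ Relation.ReflTransGen (IsSucc f) p x := by
  have hr := hx.rtg hf hv
  clear hx
  induction hr with
  | refl => exact Or.inl hvB
  | tail _ h ih =>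
    rcases ih with ih | ih
    · rcases succ_of_comp hB hf hp hmin ih h with h' | h'
      · exact Or.inl h'
      · exact Or.inr (h' ▸ .refl)
    · exact Or.inr (ih.tail h)

include hv hvB in
/-- The path enters `K` at `p`. -/
theorem exists_entry : ∃ q ∈ B, OnPath f a q ∧ IsSucc f q p := by
  have hfin : {x : P | x ∈ B ∧ OnPath f a x}.Finite := Set.toFinite _
  obtain ⟨q, ⟨hqB, hq⟩, hmax⟩ := hfin.exists_maximal ⟨v, hvB, OnPath.start hv⟩
  obtain ⟨w, hw⟩ := exists_isSucc f (hB.below q hqB p hp)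
  rcases succ_of_comp hB hf hp hmin hqB hw with h | h
  · exact absurd (hmax ⟨h, hq.next hw⟩ hw.1.le) (not_le_of_gt hw.1)
  · exact ⟨q, hqB, hq, h ▸ hw⟩

include hK hv hvB in
theorem onPath_K {x : P} (hx : x ∈ K) :
    OnPath f a x ↔ Relation.ReflTransGen (IsSucc f) p x := by
  constructor
  · intro h
    rcases onPath_comp hB hf hv hvB hp hmin h with h | h
    · exact absurd hx (hB.disj _ h)
    · exact h
  · intro h
    obtain ⟨q, hq, hq', hqp⟩ := exists_entry hB hf hv hvB hp hmin
    obtain ⟨v', hv', hr⟩ := hq'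
    exact ⟨v', hv', (hr.tail hqp).trans h⟩

include hK hv hvB in
/-- Outside `B ∪ K` nothing changes. -/
theorem prom_off_comp {x : P} (hx : x ∉ B) (hx' : x ∉ K) : prom f a c x = f x := by
  refine prom_not fun h => ?_
  rcases onPath_comp hB hf hv hvB hp hmin h with h | h
  · exact hx h
  · rcases (path_le h).eq_or_lt with h | h
    · exact hx' (h ▸ hp)
    · exact hx' (hK _ hp _ h)

end comp

/-- Steps starting in components act in the same way on `K`. -/
theorem prom_congr_K {K B B' : Set P} (hK : ∀ k ∈ K, ∀ z, k < z → z ∈ K) (hB : Comp K B)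
    (hB' : Comp K B') {f f' : P → ℕ} (hf : Function.Injective f) (hf' : Function.Injective f')
    {a c : ℕ} {v v' p : P} (hv : f v = a) (hvB : v ∈ B) (hv' : f' v' = a) (hvB' : v' ∈ B')
    (hp : p ∈ K) (hmin : ∀ k ∈ K, f p ≤ f k) (h : ∀ z ∈ K, f z = f' z) {x : P} (hx : x ∈ K) :
    prom f a c x = prom f' a c x := by
  have hmin' : ∀ k ∈ K, f' p ≤ f' k := fun k hk => by
    rw [← h p hp, ← h k hk]; exact hmin k hk
  refine prom_congr_of_path hK hf hf' h hx ?_
  rw [onPath_K hK hB hf hv hvB hp hmin hx, onPath_K hK hB' hf' hv' hvB' hp hmin' hx]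
  exact ⟨rtg_congr_upper hK h hp, rtg_congr_upper hK (fun z hz => (h z hz).symm) hp⟩

/-- The action on the component itself depends only on the labels in the component and on the
comparison with the smallest label of `K`. -/
theorem prom_congr_B {K B : Set P} (hB : Comp K B) {f f' : P → ℕ} (hf : Function.Injective f)
    (hf' : Function.Injective f') {a a' c c' : ℕ} {v p p' : P} (hv : f v = a) (hv' : f' v = a')
    (hvB : v ∈ B) (hp : p ∈ K) (hmin : ∀ k ∈ K, f p ≤ f k) (hp' : p' ∈ K)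
    (hmin' : ∀ k ∈ K, f' p' ≤ f' k) (h : ∀ z ∈ B, z ≠ v → f z = f' z)
    (hcmp : ∀ z ∈ B, z ≠ v → (f z < f p ↔ f z < f' p')) {z : P} (hz : z ∈ B) :
    (∃ w ∈ B, w ≠ v ∧ prom f a c z = f w ∧ prom f' a' c' z = f w) ∨
    (prom f a c z = f p ∧ prom f' a' c' z = f' p') := by
  -- one direction of the path comparison, stated symmetrically
  have hsucc : ∀ (g g' : P → ℕ) (q q' : P), Function.Injective g →
      (∀ k ∈ K, g q ≤ g k) → (∀ k ∈ K, g' q' ≤ g' k) → q ∈ K → q' ∈ K →
      (∀ z ∈ B, z ≠ v → g z = g' z) →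
      (∀ z ∈ B, z ≠ v → (g z < g q ↔ g z < g' q')) → ∀ y w, y ∈ B → v ≤ y → IsSucc g y w →
      (w ∈ B → IsSucc g' y w) ∧ (w = q → IsSucc g' y q') := by
    intro g g' q q' hg hm hm' hq hq' he hc y w hy hvy hs
    constructor
    · intro hwB
      have hwv : w ≠ v := fun hh => absurd (hh ▸ hs.1) (not_lt_of_ge hvy)
      refine ⟨hs.1, fun u hu => ?_⟩
      have huv : u ≠ v := fun hh => absurd (hh ▸ hu) (not_lt_of_ge hvy)
      rcases hB.up y hy u hu with huB | huK
      · rw [← he w hwB hwv, ← he u huB huv]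
        exact hs.2 u hu
      · rw [← he w hwB hwv]
        have h1 : g w ≤ g q := hs.2 q (hB.below y hy q hq)
        have h2 : g w ≠ g q := fun hh => hB.disj w hwB (by rw [hg hh]; exact hq)
        have h3 := (hc w hwB hwv).1 (lt_of_le_of_ne h1 h2)
        exact h3.le.trans (hm' u huK)
    · intro hwq
      subst hwq
      refine ⟨hB.below y hy q' hq', fun u hu => ?_⟩
      have huv : u ≠ v := fun hh => absurd (hh ▸ hu) (not_lt_of_ge hvy)
      rcases hB.up y hy u hu with huB | huK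
      · rw [← he u huB huv]
        have h1 : ¬ g u < g w := not_lt_of_ge (hs.2 u hu)
        exact not_lt.1 (mt (hc u huB huv).2 h1)
      · exact hm' u huK
  have h1 := hsucc f f' p p' hf hmin hmin' hp hp' h hcmp
  have hpath : ∀ (g g' : P → ℕ) (b b' : ℕ) (q q' : P), Function.Injective g →
      (∀ k ∈ K, g q ≤ g k) → (∀ k ∈ K, g' q' ≤ g' k) → q ∈ K → q' ∈ K → g v = b → g' v = b' →
      (∀ z ∈ B, z ≠ v → g z = g' z) →
      (∀ z ∈ B, z ≠ v → (g z < g q ↔ g z < g' q')) → ∀ z ∈ B, OnPath g b z → OnPath g' b' z := by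
    intro g g' b b' q q' hg hm hm' hq hq' hb hb' he hc z hz hon
    have hr := hon.rtg hg hb
    clear hon
    induction hr with
    | refl => exact OnPath.start hb'
    | tail hr' hs ih =>
      rename_i y w
      have hyB : y ∈ B := hB.down _ hz _ hs.1
      exact (ih hyB).next ((hsucc g g' q q' hg hm hm' hq hq' he hc y w hyB (path_le hr') hs).1 hz)
  have hcmp' : ∀ z ∈ B, z ≠ v → (f' z < f' p' ↔ f' z < f p) := fun z hz hzv => by
    rw [← h z hz hzv]; exact (hcmp z hz hzv).symm
  have hiff : OnPath f a z ↔ OnPath f' a' z :=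
    ⟨hpath f f' a a' p p' hf hmin hmin' hp hp' hv hv' h hcmp z hz,
      hpath f' f a' a p' p hf' hmin' hmin hp' hp hv' hv (fun z hz hzv => (h z hz hzv).symm)
        hcmp' z hz⟩
  rcases prom_cases hf a c z with ⟨h2, e⟩ | ⟨w, h2, hw, e⟩ | ⟨h2, hm, e⟩
  · have hzv : z ≠ v := fun hh => h2 (OnPath.start (hh ▸ hv))
    refine Or.inl ⟨z, hz, hzv, e, ?_⟩
    rw [prom_not (mt hiff.2 h2), h z hz hzv]
  · have hvz : v ≤ z := h2.le_of_start hf hv
    have h3 := h1 z w hz hvz hw
    rcases succ_of_comp hB hf hp hmin hz hw with hwB | hwp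
    · have hwv : w ≠ v := fun hh => absurd (hh ▸ hw.1) (not_lt_of_ge hvz)
      refine Or.inl ⟨w, hwB, hwv, e, ?_⟩
      rw [prom_succ hf' (hiff.1 h2) (h3.1 hwB), h w hwB hwv]
    · refine Or.inr ⟨by rw [e, hwp], ?_⟩
      rw [prom_succ hf' (hiff.1 h2) (h3.2 hwp)]
  · exact absurd (hB.below z hz p hp) (hm p)

end Pool.Agent.W5h8.Tang
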