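import Pool.Agent.W5h8.TangC

/-!
The simulation: exchanging the two promotions that take the tokens `t` and `t+1` out of `K`.
-/

namespace Pool.Agent.W5h8.Tang

set_option linter.unusedSectionVars false

variable {P : Type*} [PartialOrder P] [Fintype P]

/-- Between times `s` and `s+1` the token `t` leaves `K`, and between times `s+e` and `s+e+1`
the token `t+1` leaves `K`. -/
structure Hist (K : Set P) (s e t : ℕ) (S : P → ℕ) : Prop where
  inK : ∃ p ∈ K, S p = t
  keep : ∀ i ≤ e, ∃ r ∈ K, run s S i r = t + 1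
  leave : ∀ q, run s S 1 q = t → q ∉ K
  leave' : ∀ q, run s S (e + 1) q = t + 1 → q ∉ K

theorem leave_K {τ k : ℕ} {f : P → ℕ} (hf : IsState τ f) (hk : k ≤ τ + Fintype.card P) {q r : P}
    (hr : f r = k) (hq : stepAt τ f q = k) (hne : q ≠ r) :
    OnPath f (τ + 1) q ∧ IsSucc f q r := by
  obtain ⟨p, hp, h | h⟩ := prom_key_up hf.1 hq (by omega)
  · exact absurd (hf.1 (by rw [hr, ← hp, h.1])) hne
  · have : p = r := hf.1 (hp.trans hr.symm)
    exact this ▸ h

theorem entry_token {K B : Set P} (hB : Comp K B) {τ : ℕ} {f : P → ℕ} (hf : IsState τ f)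
    {v r : P} (hv : f v = τ + 1) (hvB : v ∈ B) (hr : r ∈ K) (hmin : ∀ k ∈ K, f r ≤ f k) :
    ∃ q ∈ B, stepAt τ f q = f r := by
  obtain ⟨q, hq, hq', hs⟩ := exists_entry hB hf.1 hv hvB hr hmin
  exact ⟨q, hq, prom_succ hf.1 hq' hs⟩

section facts

variable {K B1 B2 : Set P} (hK : ∀ k ∈ K, ∀ z, k < z → z ∈ K) (h1 : Comp K B1)
  (h2 : Comp K B2) (h12 : ∀ z ∈ B1, z ∉ B2) {s e t : ℕ} {S : P → ℕ} (hS : IsState s S)

/-- The complement of the two components is an upper set. -/
theorem upperW (h1 : Comp K B1) (h2 : Comp K B2) :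
    ∀ k ∈ {z | z ∉ B1 ∧ z ∉ B2}, ∀ z, k < z → z ∈ {z | z ∉ B1 ∧ z ∉ B2} :=
  fun k hk z hz => ⟨fun h => hk.1 (h1.down z h k hz), fun h => hk.2 (h2.down z h k hz)⟩

include hK hS in
/-- The smallest label of `K` after the token `t` left. -/
theorem min_after (_hst : s + 1 < t) (htn : t + 1 ≤ s + Fintype.card P) {p : P}
    (hpt : S p = t) (hmin : ∀ k ∈ K, S p ≤ S k)
    (hl : ∀ q, run s S 1 q = t → q ∉ K) (i : ℕ) (hi : 1 ≤ i) :
    ∀ k ∈ K, t + 1 ≤ run s S i k := by
  induction i, hi using Nat.le_induction with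
  | base =>
    intro k hk
    have hne : run s S 1 k ≠ t := fun h => hl k h hk
    have hge : t ≤ run s S 1 k := by
      change t ≤ prom S (s + 0 + 1) (s + 0 + 1 + Fintype.card P) k
      rcases prom_cases hS.1 (s + 0 + 1) (s + 0 + 1 + Fintype.card P) k with
        ⟨_, e⟩ | ⟨w, _, hw, e⟩ | ⟨_, _, e⟩ <;> rw [e]
      · rw [← hpt]; exact hmin k hk
      · rw [← hpt]; exact hmin w (hK k hk w hw.1)
      · omega
    omega
  | succ i hi ih =>
    intro k hk
    change t + 1 ≤ prom (run s S i) (s + i + 1) (s + i + 1 + Fintype.card P) k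
    rcases prom_cases (hS.run i).1 (s + i + 1) (s + i + 1 + Fintype.card P) k with
      ⟨_, e⟩ | ⟨w, _, hw, e⟩ | ⟨_, _, e⟩ <;> rw [e]
    · exact ih k hk
    · exact ih w (hK k hk w hw.1)
    · omega

include hS in
/-- In the intermediate steps the promotion starts outside the components and `K`. -/
theorem start_mid (hmin : ∀ i, 1 ≤ i → ∀ k ∈ K, t + 1 ≤ run s S i k)
    (hkeep : ∀ i ≤ e, ∃ r ∈ K, run s S i r = t + 1) {i : ℕ} (hi : 1 ≤ i) (hie : i + 1 ≤ e)
    (hit : s + i + 1 < t) {v : P} (hv : run s S i v = s + i + 1) :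
    v ∉ K ∧ ∀ B, Comp K B → v ∉ B := by
  constructor
  · intro h
    have := hmin i hi v h
    omega
  · intro B hB hvB
    obtain ⟨r, hr, hr'⟩ := hkeep i (by omega)
    obtain ⟨q, hq, hq'⟩ := entry_token hB (hS.run i) hv hvB hr
      (fun k hk => by rw [hr']; exact hmin i hi k hk)
    obtain ⟨r', hr1, hr2⟩ := hkeep (i + 1) hie
    have : q = r' := (hS.run (i + 1)).1 (by
      rw [hr2]
      change stepAt (s + i) (run s S i) q = t + 1
      rw [hq', hr'])
    exact hB.disj q hq (this ▸ hr1)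

end facts

theorem sim {K B1 B2 : Set P} (hK : ∀ k ∈ K, ∀ z, k < z → z ∈ K) (h1 : Comp K B1)
    (h2 : Comp K B2) (h12 : ∀ z ∈ B1, z ∉ B2) {s e t g : ℕ} {S : P → ℕ} (hS : IsState s S)
    (he : 1 ≤ e) (hj : s + (e + 1 + g) < t) (htn : t + 1 ≤ s + Fintype.card P)
    (hH : Hist K s e t S) {x x' : P} (hx : x ∈ B1) (hx' : x' ∈ B2)
    (hM : run s S (e + 1 + g) x = t) (hM' : run s S (e + 1 + g) x' = t + 1) :
    Hist K s e t (swp (s + 1) (s + e + 1) S) ∧
    run s (swp (s + 1) (s + e + 1) S) (e + 1 + g) = swp t (t + 1) (run s S (e + 1 + g)) ∧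
    (∀ v, S v = s + 1 → v ∈ B1) ∧ (∀ v, S v = s + e + 1 → v ∈ B2) ∧
    (∀ v, s + 1 < S v → S v < s + e + 1 → v ∉ B1 ∧ v ∉ B2 ∧ v ∉ K) := by
  classical
  have hW := upperW h1 h2
  obtain ⟨p, hpK, hpt⟩ := hH.inK
  -- the token `t` leaves `K` in the first step
  obtain ⟨q, hqp, hq⟩ := step_down hS (k := t) (by omega) hpt
  have hq1 : run s S 1 q = t := hq
  have hqK : q ∉ K := hH.leave q hq1
  have hqne : q ≠ p := fun h => hqK (h ▸ hpK)
  obtain ⟨hqon, hqs⟩ := leave_K hS (by omega) hpt hq hqne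
  have hposT : ∀ i ≤ e + 1 + g, ∀ z, run s S i z = t → z ∈ B1 ∨ z ∈ K := by
    intro i hi z hz
    have e1 : run s S (e + 1 + g) = run (s + i) (run s S i) (e + 1 + g - i) := by
      rw [← run_add]; congr 1; omega
    rw [e1] at hM
    exact mem_of_run (hS.run i) h1 (by omega) hx hM hz
  have hposT' : ∀ i ≤ e + 1 + g, ∀ z, run s S i z = t + 1 → z ∈ B2 ∨ z ∈ K := by
    intro i hi z hz
    have e1 : run s S (e + 1 + g) = run (s + i) (run s S i) (e + 1 + g - i) := by
      rw [← run_add]; congr 1; omega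
    rw [e1] at hM'
    exact mem_of_run (hS.run i) h2 (by omega) hx' hM' hz
  have hqB : q ∈ B1 := (hposT 1 (by omega) q hq1).resolve_right hqK
  have hmin : ∀ k ∈ K, S p ≤ S k := fun k hk => hqs.2 k (h1.below q hqB k hk)
  obtain ⟨α, hα⟩ := hS.exists_key (k := s + 1) (by omega) (by omega)
  have hαB : α ∈ B1 := by
    rcases (hqon.le_of_start hS.1 hα).eq_or_lt with h | h
    · exact h ▸ hqB
    · exact h1.down q hqB α h
  have hminA := min_after hK hS (by omega) htn hpt hmin hH.leave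
  have hmid := fun i hi hie hit v hv =>
    start_mid hS hminA hH.keep (i := i) hi hie hit (v := v) hv
  -- the run `S` on the components
  have hF6 : ∀ i, 1 ≤ i → i ≤ e →
      (∀ z ∈ B1, run s S i z = run s S 1 z) ∧ (∀ z ∈ B2, run s S i z = S z) := by
    intro i hi
    induction i, hi using Nat.le_induction with
    | base =>
      intro _
      refine ⟨fun z _ => rfl, fun z hz => ?_⟩
      exact prom_off_comp hK h1 hS.1 hα hαB hpK hmin (fun h => h12 z h hz) (h2.disj z hz)
    | succ i hi ih =>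
      intro hie
      obtain ⟨ih1, ih2⟩ := ih (by omega)
      obtain ⟨v, hv⟩ := (hS.run i).exists_key (k := s + i + 1) (by omega) (by omega)
      obtain ⟨_, hvB⟩ := hmid i hi hie (by omega) v hv
      have hoff : ∀ z, ¬ (z ∉ B1 ∧ z ∉ B2) → run s S (i + 1) z = run s S i z := fun z hz =>
        prom_off_upper hW (hS.run i).1 hv ⟨hvB B1 h1, hvB B2 h2⟩ hz
      exact ⟨fun z hz => by rw [hoff z (fun h => h.1 hz), ih1 z hz],
        fun z hz => by rw [hoff z (fun h => h.2 hz), ih2 z hz]⟩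
  -- the token `t+1` leaves `K` in the step after time `s+e`
  obtain ⟨r, hrK, hrt⟩ := hH.keep e le_rfl
  obtain ⟨q', hq'r, hq'⟩ := step_down (hS.run e) (k := t + 1) (by omega) hrt
  have hq'K : q' ∉ K := hH.leave' q' hq'
  have hq'ne : q' ≠ r := fun h => hq'K (h ▸ hrK)
  obtain ⟨hq'on, hq's⟩ := leave_K (hS.run e) (by omega) hrt hq' hq'ne
  have hq'B : q' ∈ B2 := (hposT' (e + 1) (by omega) q' hq').resolve_right hq'K
  have hminr : ∀ k ∈ K, run s S e r ≤ run s S e k := fun k hk => by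
    rw [hrt]; exact hminA e he k hk
  obtain ⟨β, hβ⟩ := (hS.run e).exists_key (k := s + e + 1) (by omega) (by omega)
  have hβB : β ∈ B2 := by
    rcases (hq'on.le_of_start (hS.run e).1 hβ).eq_or_lt with h | h
    · exact h ▸ hq'B
    · exact h2.down q' hq'B β h
  have hSβ : S β = s + e + 1 := by rw [← (hF6 e he le_rfl).2 β hβB, hβ]
  -- the swapped state
  set S' := swp (s + 1) (s + e + 1) S with hS'def
  have hS' : IsState s S' := hS.swp (by omega) (by omega) (by omega) (by omega)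
  have hS'α : S' α = s + e + 1 := swp_left hα
  have hS'β : S' β = s + 1 := swp_right hSβ
  have hSS' : ∀ z, z ≠ α → z ≠ β → S z = S' z := fun z hzα hzβ =>
    (swp_of_ne (fun h => hzα (hS.1 (h.trans hα.symm))) (fun h => hzβ (hS.1 (h.trans hSβ.symm)))).symm
  have hSW : ∀ z, z ∉ B1 → z ∉ B2 → S z = S' z := fun z hz1 hz2 =>
    hSS' z (fun h => hz1 (h ▸ hαB)) (fun h => hz2 (h ▸ hβB))
  have hSK : ∀ z ∈ K, S z = S' z := fun z hz =>
    hSW z (fun h => h1.disj z h hz) (fun h => h2.disj z h hz)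
  have hmin' : ∀ k ∈ K, S' p ≤ S' k := fun k hk => by
    rw [← hSK p hpK, ← hSK k hk]; exact hmin k hk
  have hKW : ∀ z ∈ K, z ∉ B1 ∧ z ∉ B2 := fun z hz =>
    ⟨fun h => h1.disj z h hz, fun h => h2.disj z h hz⟩
  -- the run `S'`
  have hG : ∀ i, 1 ≤ i → i ≤ e →
      (∀ z, z ∉ B1 → z ∉ B2 → run s S i z = run s S' i z) ∧ (∀ z ∈ B1, run s S' i z = S' z) ∧
      (∀ z ∈ B2, run s S' i z = run s S' 1 z) := by
    intro i hi
    induction i, hi using Nat.le_induction with
    | base =>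
      intro _
      refine ⟨fun z hz1 hz2 => ?_, fun z hz => ?_, fun z _ => rfl⟩
      · by_cases hzK : z ∈ K
        · exact prom_congr_K hK h1 h2 hS.1 hS'.1 hα hαB hS'β hβB hpK hmin hSK hzK
        · have e1 : run s S 1 z = S z :=
            prom_off_comp hK h1 hS.1 hα hαB hpK hmin hz1 hzK
          have e2 : run s S' 1 z = S' z :=
            prom_off_comp hK h2 hS'.1 hS'β hβB hpK hmin' hz2 hzK
          rw [e1, e2, hSW z hz1 hz2]
      · exact prom_off_comp hK h2 hS'.1 hS'β hβB hpK hmin' (h12 z hz) (h1.disj z hz)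
    | succ i hi ih =>
      intro hie
      obtain ⟨ih1, ih2, ih3⟩ := ih (by omega)
      obtain ⟨v, hv⟩ := (hS.run i).exists_key (k := s + i + 1) (by omega) (by omega)
      obtain ⟨_, hvB⟩ := hmid i hi hie (by omega) v hv
      have hv' : run s S' i v = s + i + 1 := by rw [← ih1 v (hvB B1 h1) (hvB B2 h2), hv]
      have hoff : ∀ z, ¬ (z ∉ B1 ∧ z ∉ B2) → run s S' (i + 1) z = run s S' i z := fun z hz =>
        prom_off_upper hW (hS'.run i).1 hv' ⟨hvB B1 h1, hvB B2 h2⟩ hz
      refine ⟨fun z hz1 hz2 => ?_, fun z hz => ?_, fun z hz => ?_⟩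
      · exact prom_congr_upper hW (hS.run i).1 (hS'.run i).1 (fun z hz => ih1 z hz.1 hz.2) hv
          ⟨hvB B1 h1, hvB B2 h2⟩ ⟨hz1, hz2⟩
      · rw [hoff z (fun h => h.1 hz), ih2 z hz]
      · rw [hoff z (fun h => h.2 hz), ih3 z hz]
  obtain ⟨hGW, hG1, hG2⟩ := hG e he le_rfl
  have hrt' : run s S' e r = t + 1 := by rw [← hGW r (hKW r hrK).1 (hKW r hrK).2, hrt]
  have hminr' : ∀ k ∈ K, run s S' e r ≤ run s S' e k := fun k hk => by
    rw [← hGW r (hKW r hrK).1 (hKW r hrK).2, ← hGW k (hKW k hk).1 (hKW k hk).2]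
    exact hminr k hk
  have hα' : run s S' e α = s + e + 1 := by rw [hG1 α hαB, hS'α]
  have hfS := hS.run e
  have hfS' := hS'.run e
  -- positions of the two tokens at time `s+e+1`
  have hqe : run s S (e + 1) q = t := by
    have e1 : run s S (e + 1) q = run s S e q :=
      prom_off_comp hK h2 hfS.1 hβ hβB hrK hminr (h12 q hqB) hqK
    rw [e1, (hF6 e he le_rfl).1 q hqB, hq1]
  have hq'e : run s S (e + 1) q' = t + 1 := hq'
  have hneT : ∀ z, z ∉ B1 → run s S (e + 1) z ≠ t := fun z hz h =>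
    hz ((hS.run (e + 1)).1 (h.trans hqe.symm) ▸ hqB)
  have hneT' : ∀ z, z ∉ B2 → run s S (e + 1) z ≠ t + 1 := fun z hz h =>
    hz ((hS.run (e + 1)).1 (h.trans hq'e.symm) ▸ hq'B)
  -- the keys of the component positions in `S` are not `t`, `t+1`
  have hSneT : ∀ z, z ∉ K → S z ≠ t := fun z hz h => hz (hS.1 (h.trans hpt.symm) ▸ hpK)
  obtain ⟨p0, hp0K, hp0⟩ := hH.keep 0 (by omega)
  have hp0' : S p0 = t + 1 := hp0
  have hSneT' : ∀ z, z ∉ K → S z ≠ t + 1 := fun z hz h => hz (hS.1 (h.trans hp0'.symm) ▸ hp0K)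
  have hfinal : run s S' (e + 1) = swp t (t + 1) (run s S (e + 1)) := by
    funext z
    by_cases hz1 : z ∈ B1
    · have e1 : run s S (e + 1) z = run s S 1 z := by
        have e1 : run s S (e + 1) z = run s S e z :=
          prom_off_comp hK h2 hfS.1 hβ hβB hrK hminr (h12 z hz1) (h1.disj z hz1)
        rw [e1, (hF6 e he le_rfl).1 z hz1]
      have h3 := prom_congr_B (c := s + 0 + 1 + Fintype.card P)
        (c' := s + e + 1 + Fintype.card P) h1 hS.1 hfS'.1 hα hα' hαB hpK hmin hrK hminr'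
        (fun y hy hyα => by rw [hG1 y hy]; exact hSS' y hyα (fun h => h12 y hy (h ▸ hβB)))
        (fun y hy _ => by
          rw [hpt, hrt']
          have := hSneT y (h1.disj y hy)
          omega) hz1
      rcases h3 with ⟨w, hw, _, e2, e3⟩ | ⟨e2, e3⟩
      · have e4 : run s S' (e + 1) z = S w := e3
        have e5 : run s S 1 z = S w := e2
        rw [e4]
        unfold swp
        rw [e1, e5, Equiv.swap_apply_of_ne_of_ne (hSneT w (h1.disj w hw)) (hSneT' w (h1.disj w hw))]
      · have e4 : run s S' (e + 1) z = run s S' e r := e3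
        have e5 : run s S 1 z = S p := e2
        rw [e4, hrt', swp_left (by rw [e1, e5, hpt])]
    · by_cases hz2 : z ∈ B2
      · have e1 : run s S' (e + 1) z = run s S' 1 z := by
          have e1 : run s S' (e + 1) z = run s S' e z :=
            prom_off_comp hK h1 hfS'.1 hα' hαB hrK hminr' hz1 (h2.disj z hz2)
          rw [e1, hG2 z hz2]
        have h3 := prom_congr_B (c := s + 0 + 1 + Fintype.card P)
          (c' := s + e + 1 + Fintype.card P) h2 hS'.1 hfS.1 hS'β hβ hβB hpK hmin' hrK hminr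
          (fun y hy hyβ => by
            rw [(hF6 e he le_rfl).2 y hy]
            exact (hSS' y (fun h => h12 _ (h ▸ hαB) hy) hyβ).symm)
          (fun y hy hyβ => by
            rw [← hSS' y (fun h => h12 _ (h ▸ hαB) hy) hyβ, ← hSK p hpK, hpt, hrt]
            have := hSneT y (h2.disj y hy)
            omega) hz2
        rcases h3 with ⟨w, hw, hwβ, e2, e3⟩ | ⟨e2, e3⟩
        · have hSw : S' w = S w := (hSS' w (fun h => h12 _ (h ▸ hαB) hw) hwβ).symm
          have e4 : run s S (e + 1) z = S' w := e3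
          have e5 : run s S' 1 z = S' w := e2
          rw [e1, e5]
          unfold swp
          rw [e4, hSw, Equiv.swap_apply_of_ne_of_ne (hSneT w (h2.disj w hw))
            (hSneT' w (h2.disj w hw))]
        · have e4 : run s S (e + 1) z = run s S e r := e3
          have e5 : run s S' 1 z = S' p := e2
          rw [e1, e5, ← hSK p hpK, hpt, swp_right (by rw [e4, hrt])]
      · have e1 : run s S (e + 1) z = run s S' (e + 1) z := by
          by_cases hzK : z ∈ K
          · exact prom_congr_K hK h2 h1 hfS.1 hfS'.1 hβ hβB hα' hαB hrK hminr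
              (fun y hy => hGW y (hKW y hy).1 (hKW y hy).2) hzK
          · have e1 : run s S (e + 1) z = run s S e z :=
              prom_off_comp hK h2 hfS.1 hβ hβB hrK hminr hz2 hzK
            have e2 : run s S' (e + 1) z = run s S' e z :=
              prom_off_comp hK h1 hfS'.1 hα' hαB hrK hminr' hz1 hzK
            rw [e1, e2, hGW z hz1 hz2]
        rw [← e1]
        exact (swp_of_ne (hneT z hz1) (hneT' z hz2)).symm
  refine ⟨⟨⟨p, hpK, by rw [← hSK p hpK, hpt]⟩, ?_, ?_, ?_⟩, ?_, ?_, ?_, ?_⟩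
  · intro i hi
    rcases Nat.eq_zero_or_pos i with h0 | h0
    · subst h0
      exact ⟨p0, hp0K, by change S' p0 = t + 1; rw [← hSK p0 hp0K, hp0']⟩
    · obtain ⟨r', hr', hr''⟩ := hH.keep i hi
      exact ⟨r', hr', by rw [← (hG i h0 hi).1 r' (hKW r' hr').1 (hKW r' hr').2, hr'']⟩
  · intro z hz hzK
    obtain ⟨q2, hq2, hq2'⟩ := entry_token h2 hS' hS'β hβB hpK hmin'
    have : z = q2 := (hS'.run 1).1 (by
      rw [hz]
      change t = stepAt s S' q2
      rw [hq2', ← hSK p hpK, hpt])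
    exact h2.disj q2 hq2 (this ▸ hzK)
  · intro z hz hzK
    rw [hfinal, swp_eq_iff, Equiv.swap_apply_right] at hz
    exact hneT z (hKW z hzK).1 hz
  · have e1 : run s S (e + 1 + g) = run (s + (e + 1)) (run s S (e + 1)) g := run_add _ _ _ _
    have e2 : run s S' (e + 1 + g) = run (s + (e + 1)) (run s S' (e + 1)) g := run_add _ _ _ _
    rw [e1] at hM hM'
    rw [e2, hfinal, e1]
    refine run_swap_comm hK h1 h2 h12 (hS.run (e + 1)) (by omega) (by omega) hx hx' hM hM' ?_
    intro y y' _ hy' _ hyK'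
    exact hneT' y' (hKW y' hyK').2 hy'
  · intro v hv
    exact hS.1 (hv.trans hα.symm) ▸ hαB
  · intro v hv
    exact hS.1 (hv.trans hSβ.symm) ▸ hβB
  · intro v hv1 hv2
    obtain ⟨i, hi⟩ : ∃ i, S v = s + i + 1 := ⟨S v - s - 1, by omega⟩
    obtain ⟨z, hzv, hz⟩ := run_down hS (k := s + i + 1) (j := i) (by omega) hi
    obtain ⟨hzK, hzB⟩ := hmid i (by omega) (by omega) (by omega) z hz
    have hup : ∀ B, Comp K B → v ∉ B := fun B hB hvB => by
      rcases hzv.eq_or_lt with h | h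
      · exact hzB B hB (h ▸ hvB)
      · exact hzB B hB (hB.down v hvB z h)
    refine ⟨hup B1 h1, hup B2 h2, fun hvK => ?_⟩
    have := hmin v hvK
    omega

end Pool.Agent.W5h8.Tang
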