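import Mathlib

/-!
Definitions for the comparison of tangled and quasi-tangled labelings: labelings of a finite
poset, extended promotion, sorting time, inflated rooted trees with deflated leaves.
-/

namespace Pool.Agent.W5h8.Tang

universe u

section promotion

variable {P : Type*} [PartialOrder P]

/-- `w` is the `L`-successor of `v`: among all elements strictly greater than `v`, the element
`w` carries the smallest label. -/
def IsSucc (L : P → ℕ) (v w : P) : Prop := v < w ∧ ∀ z, v < z → L w ≤ L z

/-- `x` lies on the promotion path `v_1, v_2, …`: it starts at the element with label `a`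
and passes from each element to its `L`-successor. -/
def OnPath (L : P → ℕ) (a : ℕ) (x : P) : Prop :=
  ∃ v, L v = a ∧ Relation.ReflTransGen (IsSucc L) v x

variable [Fintype P]

/-- A labeling of the `n`-element poset `P`: a bijection from `P` onto `{1, …, n}`. -/
def IsLabeling (L : P → ℕ) : Prop := Set.BijOn L Set.univ (Set.Icc 1 (Fintype.card P))

open Classical in
/-- Extended promotion `∂`. With the path `v_1 = L⁻¹(1), v_2, …, v_m` of `L`-successors, ending
at a maximal element, `∂(L)(x) = L(x) - 1` off the path, `∂(L)(v_i) = L(v_{i+1}) - 1` for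
`i < m`, and `∂(L)(v_m) = n`. -/
noncomputable def promote (L : P → ℕ) (x : P) : ℕ :=
  if OnPath L 1 x then (if h : ∃ w, IsSucc L x w then L h.choose - 1 else Fintype.card P)
  else L x - 1

/-- Labels increase along the order. -/
def IsLinExt (L : P → ℕ) : Prop := ∀ x y, x < y → L x < L y

/-- `k` is the sorting time of `L`: the least `k` such that `∂^k(L)` is a linear extension. -/
def IsSortingTime (L : P → ℕ) (k : ℕ) : Prop := IsLeast {j : ℕ | IsLinExt (promote^[j] L)} k

/-- A tangled labeling: a labeling with sorting time `n - 1`. -/
def IsTangled (L : P → ℕ) : Prop :=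
  IsLabeling L ∧ ∃ k, k + 1 = Fintype.card P ∧ IsSortingTime L k

/-- A quasi-tangled labeling: a labeling with sorting time `n - 2`. -/
def IsQuasiTangled (L : P → ℕ) : Prop :=
  IsLabeling L ∧ ∃ k, k + 2 = Fintype.card P ∧ IsSortingTime L k

end promotion

/-- A rooted tree poset: there is exactly one maximal element `r`, and every other element is
covered by exactly one element. -/
def IsRootedTree (Q : Type u) [PartialOrder Q] : Prop :=
  ∃ r : Q, (∀ q, IsMax q ↔ q = r) ∧ ∀ q, q ≠ r → ∃! p, q ⋖ p

/-- `φ : P → Q` exhibits `P` as an inflation of `Q`: it is surjective, every fibre has exactly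
one minimal element, and elements of different fibres are ordered as their images. -/
def IsInflation {P Q : Type u} [PartialOrder P] [PartialOrder Q] (φ : P → Q) : Prop :=
  Function.Surjective φ ∧
  (∀ v : Q, ∃! x : P, φ x = v ∧ ∀ y : P, φ y = v → ¬ y < x) ∧
  ∀ x y : P, φ x ≠ φ y → (x < y ↔ φ x < φ y)

/-- `P` is an inflated rooted tree poset with deflated leaves: the fibres over the minimal
elements (leaves) of the tree have exactly one element. -/
def IsInflatedTreeDeflatedLeaves (P : Type u) [PartialOrder P] : Prop :=
  ∃ (Q : Type u) (_ : Fintype Q) (_ : PartialOrder Q) (φ : P → Q),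
    IsRootedTree Q ∧ IsInflation φ ∧ ∀ l : Q, IsMin l → (φ ⁻¹' {l}).ncard = 1

end Pool.Agent.W5h8.Tang
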