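import Pool.Agent.W5h8.TangD

/-!
The symmetry of the number of histories under exchanging two consecutive unprocessed tokens at
separated positions.
-/

namespace Pool.Agent.W5h8.Tang

set_option linter.unusedSectionVars false

variable {P : Type*} [PartialOrder P] [Fintype P]

open Classical in
/-- Number of initial labelings in `F` that reach the state `M` at time `T`. -/
noncomputable def cnt (F : Finset (P → ℕ)) (T : ℕ) (M : P → ℕ) : ℕ :=
  (F.filter fun L => run 0 L T = M).card

/-- A class of labelings closed under the adjacent exchanges below the top key. -/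
structure Closed (F : Finset (P → ℕ)) : Prop where
  st : ∀ L ∈ F, IsState 0 L
  cl : ∀ L ∈ F, ∀ k, 1 ≤ k → k + 1 < Fintype.card P → swp k (k + 1) L ∈ F

section forest

variable {Q : Type*} [PartialOrder Q] (φ : P → Q)

/-- Two elements are separated when their images are incomparable. -/
def Sep (x y : P) : Prop := ¬ φ x ≤ φ y ∧ ¬ φ y ≤ φ x

theorem Sep.symm {x y : P} (h : Sep φ x y) : Sep φ y x := ⟨h.2, h.1⟩

variable (hφ : ∀ x y, φ x ≠ φ y → (x < y ↔ φ x < φ y))
  (hQ : ∀ a b c : Q, a ≤ b → a ≤ c → b ≤ c ∨ c ≤ b)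

/-- common strict upper bounds -/
def Kset (x y : P) : Set P := {z | φ x < φ z ∧ φ y < φ z}

/-- the branch of `x` below the common upper bounds of `x` and `y` -/
def Bset (x y : P) : Set P :=
  {z | z ∉ Kset φ x y ∧ ∃ c, c ∉ Kset φ x y ∧ φ x ≤ φ c ∧ φ z ≤ φ c}

include hφ in
theorem map_le {x y : P} (h : x ≤ y) : φ x ≤ φ y := by
  rcases h.eq_or_lt with h | h
  · rw [h]
  · by_cases he : φ x = φ y
    · exact he.le
    · exact ((hφ x y he).1 h).le

include hφ in
theorem Kset_upper (x y : P) : ∀ k ∈ Kset φ x y, ∀ z, k < z → z ∈ Kset φ x y :=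
  fun _ hk _ hz => ⟨hk.1.trans_le (map_le φ hφ hz.le), hk.2.trans_le (map_le φ hφ hz.le)⟩

theorem Kset_comm (x y : P) : Kset φ x y = Kset φ y x := by
  ext z; exact and_comm

include hφ hQ in
theorem Bset_comp (x y : P) : Comp (Kset φ x y) (Bset φ x y) := by
  refine ⟨?_, ?_, ?_, fun z hz => hz.1⟩
  · intro z hz z' hzz'
    by_cases hK : z' ∈ Kset φ x y
    · exact Or.inr hK
    · refine Or.inl ⟨hK, ?_⟩
      obtain ⟨c, hc, hxc, hzc⟩ := hz.2
      rcases hQ (φ z) (φ c) (φ z') hzc (map_le φ hφ hzz'.le) with h | h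
      · exact ⟨z', hK, hxc.trans h, le_rfl⟩
      · exact ⟨c, hc, hxc, h⟩
  · intro z hz z' hzz'
    refine ⟨fun h => hz.1 (Kset_upper φ hφ x y z' h z hzz'), ?_⟩
    obtain ⟨c, hc, hxc, hzc⟩ := hz.2
    exact ⟨c, hc, hxc, (map_le φ hφ hzz'.le).trans hzc⟩
  · intro z hz k hk
    obtain ⟨c, hc, hxc, hzc⟩ := hz.2
    have hlt : φ z < φ k := by
      rcases hQ (φ x) (φ c) (φ k) hxc hk.1.le with h | h
      · rcases h.eq_or_lt with h | h
        · exact absurd ⟨h ▸ hk.1, h ▸ hk.2⟩ hc
        · exact hzc.trans_lt h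
      · exact absurd ⟨hk.1.trans_le h, hk.2.trans_le h⟩ hc
    exact (hφ z k hlt.ne).2 hlt

theorem mem_Bset {x y : P} : x ∈ Bset φ x y := by
  have : x ∉ Kset φ x y := fun h => lt_irrefl _ h.1
  exact ⟨this, x, this, le_rfl, le_rfl⟩

include hQ in
theorem Bset_sep {x y : P} (hs : Sep φ x y) {z w : P} (hz : z ∈ Bset φ x y)
    (hw : w ∈ Bset φ y x) : Sep φ z w := by
  obtain ⟨c, hc, hxc, hzc⟩ := hz.2
  obtain ⟨d, hd, hyd, hwd⟩ := hw.2
  rw [Kset_comm] at hd
  have hmem : ∀ u, φ x ≤ φ u → φ y ≤ φ u → u ∈ Kset φ x y := by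
    intro u h1 h2
    refine ⟨lt_of_le_of_ne h1 fun h => hs.2 (h ▸ h2), lt_of_le_of_ne h2 fun h => hs.1 (h ▸ h1)⟩
  constructor
  · intro h
    rcases hQ (φ z) (φ c) (φ d) hzc (h.trans hwd) with h' | h'
    · exact hd (hmem d (hxc.trans h') hyd)
    · exact hc (hmem c hxc (hyd.trans h'))
  · intro h
    rcases hQ (φ w) (φ c) (φ d) (h.trans hzc) hwd with h' | h'
    · exact hd (hmem d (hxc.trans h') hyd)
    · exact hc (hmem c hxc (hyd.trans h'))

include hQ in
theorem Bset_sep_rest {x y : P} {z w : P} (hz : z ∈ Bset φ x y)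
    (hw : w ∉ Bset φ x y) (hwK : w ∉ Kset φ x y) : Sep φ z w := by
  obtain ⟨c, hc, hxc, hzc⟩ := hz.2
  constructor
  · intro h
    rcases hQ (φ z) (φ c) (φ w) hzc h with h' | h'
    · exact hw ⟨hwK, w, hwK, hxc.trans h', le_rfl⟩
    · exact hw ⟨hwK, c, hc, hxc, h'⟩
  · intro h
    exact hw ⟨hwK, c, hc, hxc, h.trans hzc⟩

/-- the counting symmetry at time `T` -/
def SymAt (F : Finset (P → ℕ)) (T : ℕ) : Prop :=
  ∀ (M : P → ℕ) (t : ℕ) (x x' : P), Sep φ x x' → M x = t → M x' = t + 1 → T < t →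
    t + 1 < Fintype.card P → cnt F T M = cnt F T (swp t (t + 1) M)

theorem swp_conj {b c : ℕ} (hbc : b + 1 < c) (f : P → ℕ) :
    swp b (b + 1) (swp (b + 1) c (swp b (b + 1) f)) = swp b c f := by
  funext x
  simp only [swp, Equiv.swap_apply_def]
  split_ifs <;> omega

/-- Exchanging two non-consecutive tokens. -/
theorem sym_far {F : Finset (P → ℕ)} {s : ℕ} (hsym : SymAt φ F s) (m : ℕ) :
    ∀ (b : ℕ) (S : P → ℕ) (x y : P), IsState s S → s < b → b + m + 1 < Fintype.card P →
      Sep φ x y → S x = b → S y = b + m + 1 →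
      (∀ v, b < S v → S v < b + m + 1 → Sep φ x v ∧ Sep φ v y) →
      cnt F s S = cnt F s (swp b (b + m + 1) S) := by
  induction m with
  | zero =>
    intro b S x y hS hb hc hs hx hy _
    exact hsym S b x y hs hx hy hb (by omega)
  | succ m ih =>
    intro b S x y hS hb hc hs hx hy hmid
    obtain ⟨r, hr⟩ := hS.exists_key (k := b + 1) (by omega) (by omega)
    obtain ⟨hxr, hry⟩ := hmid r (by omega) (by omega)
    have e1 := hsym S b x r hxr hx hr hb (by omega)
    have hS1 : IsState s (swp b (b + 1) S) := hS.swp (by omega) (by omega) (by omega) (by omega)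
    have hx1 : swp b (b + 1) S x = b + 1 := swp_left hx
    have hy1 : swp b (b + 1) S y = b + 1 + m + 1 := by
      rw [swp_of_ne (by omega) (by omega), hy]; omega
    have e2 := ih (b + 1) (swp b (b + 1) S) x y hS1 (by omega) (by omega) hs hx1 hy1
      (fun v hv1 hv2 => by
        have h3 : swp b (b + 1) S v = S v := by
          unfold swp at hv1 ⊢
          rw [Equiv.swap_apply_def] at hv1 ⊢
          split_ifs at hv1 ⊢ <;> omega
        rw [h3] at hv1 hv2
        exact hmid v (by omega) (by omega))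
    have hr2 : swp (b + 1) (b + 1 + m + 1) (swp b (b + 1) S) r = b := by
      rw [swp_of_ne] <;> rw [swp_right hr] <;> omega
    have hy2 : swp (b + 1) (b + 1 + m + 1) (swp b (b + 1) S) y = b + 1 := swp_right hy1
    have e3 := hsym _ b r y hry hr2 hy2 hb (by omega)
    have e4 : b + (m + 1) + 1 = b + 1 + m + 1 := by omega
    rw [e1, e2, e3, swp_conj (by omega), e4]

/-- The set of all states at time `s`, as a finset. -/
theorem finite_states (s : ℕ) : {f : P → ℕ | IsState s f}.Finite := by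
  refine Set.Finite.subset (Set.Finite.pi' (t := fun _ => Set.Iic (s + Fintype.card P))
    fun _ => Set.finite_Iic _) ?_
  intro f hf x
  exact (hf.2 x).2

end forest

end Pool.Agent.W5h8.Tang
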