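import Pool.Agent.W5h8.TangE

/-!
The symmetry theorem.
-/

namespace Pool.Agent.W5h8.Tang

set_option linter.unusedSectionVars false

variable {P : Type*} [PartialOrder P] [Fintype P]
variable {Q : Type*} [PartialOrder Q] (φ : P → Q)
variable (hφ : ∀ x y, φ x ≠ φ y → (x < y ↔ φ x < φ y))
  (hQ : ∀ a b c : Q, a ≤ b → a ≤ c → b ≤ c ∨ c ≤ b)

theorem run_add0 (L : P → ℕ) (j k : ℕ) : run 0 L (j + k) = run j (run 0 L j) k := by
  have := run_add 0 L j k
  rwa [zero_add] at this

theorem IsState.run0 {L : P → ℕ} (h : IsState 0 L) (j : ℕ) : IsState j (Tang.run 0 L j) := by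
  have := h.run j
  rwa [zero_add] at this

theorem Bset_disj {φ : P → Q} (hQ : ∀ a b c : Q, a ≤ b → a ≤ c → b ≤ c ∨ c ≤ b) {x x' : P}
    (hs : Sep φ x x') : ∀ z ∈ Bset φ x x', z ∉ Bset φ x' x :=
  fun _ hz hz' => (Bset_sep φ hQ hs hz hz').1 le_rfl

/-- Histories that are not both in `K` at the start. -/
theorem nb_map {φ : P → Q} (hφ : ∀ x y, φ x ≠ φ y → (x < y ↔ φ x < φ y))
    (hQ : ∀ a b c : Q, a ≤ b → a ≤ c → b ≤ c ∨ c ≤ b) {F : Finset (P → ℕ)} (hF : Closed F)
    {T t : ℕ} {x x' : P} (hs : Sep φ x x') {M : P → ℕ} (hM : M x = t) (hM' : M x' = t + 1)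
    (hT : T < t) (ht : t + 1 < Fintype.card P) {L : P → ℕ} (hL : L ∈ F) (hr : run 0 L T = M)
    (hnb : ¬ ((∃ p ∈ Kset φ x x', L p = t) ∧ (∃ p ∈ Kset φ x x', L p = t + 1))) :
    swp t (t + 1) L ∈ F ∧ run 0 (swp t (t + 1) L) T = swp t (t + 1) M ∧
    ¬ ((∃ p ∈ Kset φ x x', swp t (t + 1) L p = t) ∧
      (∃ p ∈ Kset φ x x', swp t (t + 1) L p = t + 1)) := by
  have h2 := Bset_comp φ hφ hQ x' x
  rw [Kset_comm] at h2
  refine ⟨hF.cl L hL t (by omega) ht, ?_, ?_⟩
  · rw [← hr]
    rw [← hr] at hM hM'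
    refine run_swap_comm (Kset_upper φ hφ x x') (Bset_comp φ hφ hQ x x') h2 (Bset_disj hQ hs)
      (hF.st L hL) (by omega) (by omega) (mem_Bset φ) (mem_Bset φ) hM hM' ?_
    intro p p' hp hp' hpK hpK'
    exact hnb ⟨⟨p, hpK, hp⟩, ⟨p', hpK', hp'⟩⟩
  · rintro ⟨⟨p, hpK, hp⟩, ⟨p', hpK', hp'⟩⟩
    rw [swp_eq_iff, Equiv.swap_apply_left] at hp
    rw [swp_eq_iff, Equiv.swap_apply_right] at hp'
    exact hnb ⟨⟨p', hpK', hp'⟩, ⟨p, hpK, hp⟩⟩

/-- The exchange for histories with a given pattern. -/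
theorem hist_map {φ : P → Q} (hφ : ∀ x y, φ x ≠ φ y → (x < y ↔ φ x < φ y))
    (hQ : ∀ a b c : Q, a ≤ b → a ≤ c → b ≤ c ∨ c ≤ b) {F : Finset (P → ℕ)}
    {T t s e : ℕ} {x x' : P} (hs : Sep φ x x') {M : P → ℕ} (hM : M x = t) (hM' : M x' = t + 1)
    (hT : T < t) (ht : t + 1 < Fintype.card P) (he : 1 ≤ e) (hse : s + e + 1 ≤ T)
    (hsym : SymAt φ F s) {S : P → ℕ} (hS : IsState s S) (hH : Hist (Kset φ x x') s e t S)
    (hr : run s S (T - s) = M) :
    Hist (Kset φ x x') s e t (swp (s + 1) (s + e + 1) S) ∧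
    run s (swp (s + 1) (s + e + 1) S) (T - s) = swp t (t + 1) M ∧
    cnt F s S = cnt F s (swp (s + 1) (s + e + 1) S) := by
  have h1 := Bset_comp φ hφ hQ x x'
  have h2 := Bset_comp φ hφ hQ x' x
  rw [Kset_comm] at h2
  obtain ⟨g, hg⟩ : ∃ g, T - s = e + 1 + g := ⟨T - s - e - 1, by omega⟩
  rw [hg] at hr ⊢
  rw [← hr] at hM hM'
  obtain ⟨g1, g2, g3, g4, g5⟩ := sim (Kset_upper φ hφ x x') h1 h2 (Bset_disj hQ hs) hS he
    (by omega) (by omega) hH (mem_Bset φ) (mem_Bset φ) hM hM'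
  refine ⟨g1, by rw [g2, hr], ?_⟩
  obtain ⟨α, hα⟩ := hS.exists_key (k := s + 1) (by omega) (by omega)
  obtain ⟨β, hβ⟩ := hS.exists_key (k := s + e + 1) (by omega) (by omega)
  have e1 : s + 1 + (e - 1) + 1 = s + e + 1 := by omega
  have := sym_far φ hsym (e - 1) (s + 1) S α β hS (by omega) (by omega)
    (Bset_sep φ hQ hs (g3 α hα) (g4 β hβ)) hα (by rw [hβ]; omega) (fun v hv1 hv2 => by
      obtain ⟨k1, k2, k3⟩ := g5 v (by omega) (by omega)
      refine ⟨Bset_sep_rest φ hQ (g3 α hα) k1 k3, ?_⟩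
      exact (Bset_sep_rest φ hQ (g4 β hβ) k2 (by rw [Kset_comm]; exact k3)).symm)
  rwa [e1] at this

open Classical in
/-- The number of histories with a given pattern. -/
theorem pat_card {φ : P → Q} (hφ : ∀ x y, φ x ≠ φ y → (x < y ↔ φ x < φ y))
    (hQ : ∀ a b c : Q, a ≤ b → a ≤ c → b ≤ c ∨ c ≤ b) {F : Finset (P → ℕ)} (hF : Closed F)
    {T t s e : ℕ} {x x' : P} (hs : Sep φ x x') {M : P → ℕ} (hM : M x = t) (hM' : M x' = t + 1)
    (hT : T < t) (ht : t + 1 < Fintype.card P) (he : 1 ≤ e) (hse : s + e + 1 ≤ T)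
    (hsym : SymAt φ F s) :
    (F.filter fun L => run 0 L T = M ∧ Hist (Kset φ x x') s e t (run 0 L s)).card =
    (F.filter fun L => run 0 L T = swp t (t + 1) M ∧
      Hist (Kset φ x x') s e t (run 0 L s)).card := by
  have key : ∀ M' : P → ℕ, (F.filter fun L => run 0 L T = M' ∧
      Hist (Kset φ x x') s e t (run 0 L s)).card =
      ∑ S ∈ (finite_states (P := P) s).toFinset.filter
        (fun S => Hist (Kset φ x x') s e t S ∧ run s S (T - s) = M'), cnt F s S := by
    intro M'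
    rw [Finset.card_eq_sum_card_fiberwise (f := fun L => run 0 L s)
      (t := (finite_states (P := P) s).toFinset.filter
        (fun S => Hist (Kset φ x x') s e t S ∧ run s S (T - s) = M'))]
    · refine Finset.sum_congr rfl fun S hS => ?_
      rw [Finset.mem_filter] at hS
      unfold cnt
      congr 1
      ext L
      simp only [Finset.mem_filter]
      constructor
      · rintro ⟨⟨h1, _⟩, h2⟩
        exact ⟨h1, h2⟩
      · rintro ⟨h1, h2⟩
        refine ⟨⟨h1, ?_, by rw [h2]; exact hS.2.1⟩, h2⟩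
        have e1 : T = s + (T - s) := by omega
        rw [e1, run_add0, h2, hS.2.2]
    · intro L hL
      simp only [Finset.coe_filter, Set.mem_ofPred_eq] at hL
      simp only [Finset.coe_filter, Set.mem_ofPred_eq, Set.Finite.mem_toFinset]
      refine ⟨(hF.st L hL.1).run0 s, hL.2.2, ?_⟩
      have e1 : T = s + (T - s) := by omega
      rw [← hL.2.1]
      conv_rhs => rw [e1, run_add0]
  rw [key, key]
  have hM1 : swp t (t + 1) M x' = t := swp_right hM'
  have hM2 : swp t (t + 1) M x = t + 1 := swp_left hM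
  have hKc : Kset φ x' x = Kset φ x x' := Kset_comm φ x' x
  refine Finset.sum_nbij' (fun S => swp (s + 1) (s + e + 1) S)
    (fun S => swp (s + 1) (s + e + 1) S) ?_ ?_ ?_ ?_ ?_
  · intro S hS
    simp only [Finset.mem_filter, Set.Finite.mem_toFinset] at hS ⊢
    obtain ⟨g1, g2, _⟩ := hist_map hφ hQ hs hM hM' hT ht he hse hsym hS.1 hS.2.1 hS.2.2
    have hSs : IsState s S := hS.1
    exact ⟨hSs.swp (by omega) (by omega) (by omega) (by omega), g1, g2⟩
  · intro S hS
    simp only [Finset.mem_filter, Set.Finite.mem_toFinset] at hS ⊢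
    obtain ⟨g1, g2, _⟩ := hist_map hφ hQ hs.symm hM1 hM2 hT ht he hse hsym hS.1
      (by rw [hKc]; exact hS.2.1) hS.2.2
    rw [hKc] at g1
    rw [swp_swp] at g2
    have hSs : IsState s S := hS.1
    exact ⟨hSs.swp (by omega) (by omega) (by omega) (by omega), g1, g2⟩
  · intro S _; exact swp_swp _ _ _
  · intro S _; exact swp_swp _ _ _
  · intro S hS
    simp only [Finset.mem_filter, Set.Finite.mem_toFinset] at hS
    exact (hist_map hφ hQ hs hM hM' hT ht he hse hsym hS.1 hS.2.1 hS.2.2).2.2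

/-- The token `k` is in `K` at time `i`. -/
def InK (K : Set P) (L : P → ℕ) (k i : ℕ) : Prop := ∃ p ∈ K, run 0 L i p = k

theorem InK.anti {K : Set P} (hK : ∀ k ∈ K, ∀ z, k < z → z ∈ K) {L : P → ℕ}
    (hL : IsState 0 L) {k : ℕ} (hk : k ≤ Fintype.card P) {i j : ℕ} (hij : i ≤ j)
    (h : InK K L k j) : InK K L k i := by
  obtain ⟨p, hp, hp'⟩ := h
  have e1 : j = i + (j - i) := by omega
  rw [e1, run_add0] at hp'
  obtain ⟨q, hq, hq'⟩ := run_up (hL.run0 i) (by omega) hp'
  refine ⟨q, ?_, hq'⟩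
  rcases hq.eq_or_lt with h | h
  · exact h ▸ hp
  · exact hK _ hp _ h

theorem exists_leave {K : Set P} {L : P → ℕ} {k T : ℕ} (h0 : InK K L k 0)
    (hT : ¬ InK K L k T) : ∃ i < T, InK K L k i ∧ ¬ InK K L k (i + 1) := by
  classical
  by_contra hcon
  push Not at hcon
  have : ∀ i ≤ T, InK K L k i := by
    intro i hi
    induction i with
    | zero => exact h0
    | succ i ih => exact hcon i (by omega) (ih (by omega))
  exact hT (this T le_rfl)

/-- Patterns in terms of the times at which tokens leave `K`. -/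
theorem hist_iff {K : Set P} (hK : ∀ k ∈ K, ∀ z, k < z → z ∈ K) {L : P → ℕ}
    (hL : IsState 0 L) {s e t : ℕ} (ht : t + 1 ≤ Fintype.card P) :
    Hist K s e t (run 0 L s) ↔ InK K L t s ∧ ¬ InK K L t (s + 1) ∧ InK K L (t + 1) (s + e) ∧
      ¬ InK K L (t + 1) (s + e + 1) := by
  constructor
  · intro h
    refine ⟨h.inK, ?_, ?_, ?_⟩
    · rintro ⟨q, hq, hq'⟩
      rw [run_add0] at hq'
      exact h.leave q hq' hq
    · obtain ⟨r, hr, hr'⟩ := h.keep e le_rfl
      exact ⟨r, hr, by rw [run_add0]; exact hr'⟩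
    · rintro ⟨q, hq, hq'⟩
      rw [add_assoc, run_add0] at hq'
      exact h.leave' q hq' hq
  · rintro ⟨h1, h2, h3, h4⟩
    refine ⟨h1, fun i hi => ?_, fun q hq hqK => h2 ⟨q, hqK, by rw [run_add0]; exact hq⟩,
      fun q hq hqK => h4 ⟨q, hqK, by rw [add_assoc, run_add0]; exact hq⟩⟩
    obtain ⟨r, hr, hr'⟩ := InK.anti hK hL ht (by omega : s + i ≤ s + e) h3
    exact ⟨r, hr, by rw [run_add0] at hr'; exact hr'⟩

open Classical in
theorem symAt {φ : P → Q} (hφ : ∀ x y, φ x ≠ φ y → (x < y ↔ φ x < φ y))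
    (hQ : ∀ a b c : Q, a ≤ b → a ≤ c → b ≤ c ∨ c ≤ b) {F : Finset (P → ℕ)} (hF : Closed F)
    (T : ℕ) : SymAt φ F T := by
  induction T using Nat.strong_induction_on with
  | _ T IH =>
  intro M t x x' hs hM hM' hT ht
  have hM1 : swp t (t + 1) M x' = t := swp_right hM'
  have hM2 : swp t (t + 1) M x = t + 1 := swp_left hM
  have hKc : Kset φ x' x = Kset φ x x' := Kset_comm φ x' x
  have hK := Kset_upper φ hφ x x'
  have h1 := Bset_comp φ hφ hQ x x'
  have h2 := Bset_comp φ hφ hQ x' x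
  rw [hKc] at h2
  have h12 := Bset_disj hQ hs
  -- the histories that are not both in `K`
  have hnb : ((F.filter fun L => run 0 L T = M).filter fun L =>
      ¬ ((∃ p ∈ Kset φ x x', L p = t) ∧ (∃ p ∈ Kset φ x x', L p = t + 1))).card =
      ((F.filter fun L => run 0 L T = swp t (t + 1) M).filter fun L =>
      ¬ ((∃ p ∈ Kset φ x x', L p = t) ∧ (∃ p ∈ Kset φ x x', L p = t + 1))).card := by
    refine Finset.card_nbij' (fun L => swp t (t + 1) L) (fun L => swp t (t + 1) L) ?_ ?_ ?_ ?_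
    · intro L hL
      simp only [Finset.coe_filter, Finset.mem_filter, Set.mem_ofPred_eq] at hL ⊢
      obtain ⟨g1, g2, g3⟩ := nb_map hφ hQ hF hs hM hM' hT ht hL.1.1 hL.1.2 hL.2
      exact ⟨⟨g1, g2⟩, g3⟩
    · intro L hL
      simp only [Finset.coe_filter, Finset.mem_filter, Set.mem_ofPred_eq] at hL ⊢
      obtain ⟨g1, g2, g3⟩ := nb_map hφ hQ hF hs.symm hM1 hM2 hT ht hL.1.1 hL.1.2
        (by rw [hKc]; exact hL.2)
      rw [swp_swp] at g2
      rw [hKc] at g3
      exact ⟨⟨g1, g2⟩, g3⟩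
    · intro L _; exact swp_swp _ _ _
    · intro L _; exact swp_swp _ _ _
  -- the histories that are both in `K`
  have hb : ∀ (y y' : P) (N : P → ℕ), Sep φ y y' → N y = t → N y' = t + 1 →
      Kset φ y y' = Kset φ x x' →
      ((F.filter fun L => run 0 L T = N).filter fun L =>
      ((∃ p ∈ Kset φ x x', L p = t) ∧ (∃ p ∈ Kset φ x x', L p = t + 1))).card =
      ∑ pr ∈ (Finset.range T ×ˢ Finset.range T).filter
        (fun pr : ℕ × ℕ => 1 ≤ pr.2 ∧ pr.1 + pr.2 + 1 ≤ T),
        (F.filter fun L => run 0 L T = N ∧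
          Hist (Kset φ x x') pr.1 pr.2 t (run 0 L pr.1)).card := by
    intro y y' N hs' hN hN' hKe
    have h1' := Bset_comp φ hφ hQ y y'
    have h2' := Bset_comp φ hφ hQ y' y
    rw [Kset_comm, hKe] at h2'
    rw [hKe] at h1'
    rw [← Finset.card_biUnion]
    · congr 1
      ext L
      simp only [Finset.mem_filter, Finset.mem_biUnion, Finset.mem_product, Finset.mem_range]
      constructor
      · rintro ⟨⟨hL, hr⟩, ⟨p, hp, hpt⟩, ⟨p', hp', hpt'⟩⟩
        have hst := hF.st L hL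
        have hoT : ¬ InK (Kset φ x x') L t T := by
          rintro ⟨z, hz, hz'⟩
          rw [hr, ← hN] at hz'
          rw [← hr] at hz'
          have : z = y := (hst.run0 T).1 hz'
          exact h1'.disj y (mem_Bset φ) (this ▸ hz)
        have hoT' : ¬ InK (Kset φ x x') L (t + 1) T := by
          rintro ⟨z, hz, hz'⟩
          rw [hr, ← hN'] at hz'
          rw [← hr] at hz'
          have : z = y' := (hst.run0 T).1 hz'
          exact h2'.disj y' (mem_Bset φ) (this ▸ hz)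
        obtain ⟨s, hsT, hs1, hs2⟩ := exists_leave ⟨p, hp, hpt⟩ hoT
        obtain ⟨a, haT, ha1, ha2⟩ := exists_leave ⟨p', hp', hpt'⟩ hoT'
        have hsa : s + 1 ≤ a := by
          by_contra hlt
          -- at time `a ≤ s` the token `t+1` leaves `K` while `t ∈ K`
          obtain ⟨u, hu, hut⟩ := InK.anti hK hst (by omega) (by omega : a ≤ s) hs1
          obtain ⟨r, hr1, hrt⟩ := ha1
          obtain ⟨q, hqr, hq⟩ := step_down (hst.run0 a) (k := t + 1) (by omega) hrt
          have hq' : run 0 L (a + 1) q = t + 1 := by rw [run_add0]; exact hq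
          have hqK : q ∉ Kset φ x x' := fun h => ha2 ⟨q, h, hq'⟩
          have hne : q ≠ r := fun h => hqK (h ▸ hr1)
          obtain ⟨_, hsuc⟩ := leave_K (hst.run0 a) (by omega) hrt hq hne
          -- `q` lies in the branch of `y'`
          have hqB : q ∈ Bset φ y' y := by
            have e1 : T = (a + 1) + (T - (a + 1)) := by omega
            have hN2 : run (a + 1) (run 0 L (a + 1)) (T - (a + 1)) y' = t + 1 := by
              rw [← run_add0, ← e1, hr, hN']
            exact (mem_of_run (hst.run0 (a + 1)) h2' (by omega) (mem_Bset φ) hN2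
              hq').resolve_right hqK
          have := hsuc.2 u (h2'.below q hqB u hu)
          omega
        refine ⟨(s, a - s), ⟨⟨hsT, ?_⟩, ?_, ?_⟩, hL, hr, ?_⟩
        · change a - s < T; omega
        · change 1 ≤ a - s; omega
        · change s + (a - s) + 1 ≤ T; omega
        · rw [hist_iff hK hst (by omega)]
          have e1 : s + (a - s) = a := by omega
          rw [e1]
          exact ⟨hs1, hs2, ha1, ha2⟩
      · rintro ⟨⟨s, e⟩, _, ⟨hL, hr, hH⟩⟩
        have hst := hF.st L hL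
        rw [hist_iff hK hst (by omega)] at hH
        exact ⟨⟨hL, hr⟩, InK.anti hK hst (by omega) (Nat.zero_le _) hH.1,
          InK.anti hK hst (by omega) (Nat.zero_le _) hH.2.2.1⟩
    · rintro ⟨s, e⟩ _ ⟨s', e'⟩ _ hne
      rw [Function.onFun, Finset.disjoint_left]
      intro L hL hL'
      simp only [Finset.mem_filter] at hL hL'
      have hst := hF.st L hL.1
      have g1 := (hist_iff hK hst (by omega)).1 hL.2.2
      have g2 := (hist_iff hK hst (by omega)).1 hL'.2.2
      have hss : s = s' := by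
        by_contra h
        rcases lt_or_gt_of_ne h with h | h
        · exact g1.2.1 (InK.anti hK hst (by omega) h g2.1)
        · exact g2.2.1 (InK.anti hK hst (by omega) h g1.1)
      subst hss
      have hee : e = e' := by
        by_contra h
        rcases lt_or_gt_of_ne h with h | h
        · exact g1.2.2.2 (InK.anti hK hst (by omega) (by omega) g2.2.2.1)
        · exact g2.2.2.2 (InK.anti hK hst (by omega) (by omega) g1.2.2.1)
      exact hne (by rw [hee])
  unfold cnt
  rw [← Finset.card_filter_add_card_filter_not (s := F.filter fun L => run 0 L T = M)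
    (p := fun L => ((∃ p ∈ Kset φ x x', L p = t) ∧ (∃ p ∈ Kset φ x x', L p = t + 1))),
    ← Finset.card_filter_add_card_filter_not (s := F.filter fun L => run 0 L T = swp t (t + 1) M)
    (p := fun L => ((∃ p ∈ Kset φ x x', L p = t) ∧ (∃ p ∈ Kset φ x x', L p = t + 1))),
    hnb, hb x x' M hs hM hM' rfl, hb x' x _ hs.symm hM1 hM2 hKc]
  congr 1
  refine Finset.sum_congr rfl fun pr hpr => ?_
  simp only [Finset.mem_filter] at hpr
  exact pat_card hφ hQ hF hs hM hM' hT ht hpr.2.1 hpr.2.2 (IH pr.1 (by omega))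

end Pool.Agent.W5h8.Tang
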