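import Pool.Agent.W5h8.TangF

/-!
From the symmetry theorem to the comparison of tangled and quasi-tangled labelings.
-/

namespace Pool.Agent.W5h8.Tang

set_option linter.unusedSectionVars false

universe u

section

variable {P : Type*} [PartialOrder P] [Fintype P]

/-! ### Labels and keys -/

theorem isLabeling_iff (L : P → ℕ) : IsLabeling L ↔ IsState 0 L := by
  constructor
  · intro h
    refine ⟨fun x y hxy => h.injOn (Set.mem_univ x) (Set.mem_univ y) hxy, fun x => ?_⟩
    have := h.mapsTo (Set.mem_univ x)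
    rw [Set.mem_Icc] at this
    omega
  · intro h
    refine ⟨fun x _ => ?_, h.1.injOn, fun k hk => ?_⟩
    · have := h.2 x
      rw [Set.mem_Icc]
      omega
    · rw [Set.mem_Icc] at hk
      obtain ⟨x, hx⟩ := h.exists_key (k := k) (by omega) (by omega)
      exact ⟨x, Set.mem_univ x, hx⟩

theorem isSucc_shift {k : ℕ} {f : P → ℕ} (hf : ∀ x, k < f x) (v w : P) :
    IsSucc (fun x => f x - k) v w ↔ IsSucc f v w := by
  constructor
  · rintro ⟨h1, h2⟩
    refine ⟨h1, fun z hz => ?_⟩
    have h3 : f w - k ≤ f z - k := h2 z hz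
    have := hf w
    have := hf z
    omega
  · rintro ⟨h1, h2⟩
    refine ⟨h1, fun z hz => ?_⟩
    have h3 := h2 z hz
    change f w - k ≤ f z - k
    omega

theorem onPath_shift {k : ℕ} {f : P → ℕ} (hf : ∀ x, k < f x) (x : P) :
    OnPath (fun x => f x - k) 1 x ↔ OnPath f (k + 1) x := by
  have h1 : (IsSucc fun x => f x - k) = IsSucc f := by
    funext v w
    exact propext (isSucc_shift hf v w)
  unfold OnPath
  rw [h1]
  constructor
  · rintro ⟨v, hv, h⟩
    have hv' : f v - k = 1 := hv
    exact ⟨v, by omega, h⟩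
  · rintro ⟨v, hv, h⟩
    refine ⟨v, ?_, h⟩
    change f v - k = 1
    omega

theorem promote_shift {k : ℕ} {f : P → ℕ} (hf : IsState k f) :
    promote (fun x => f x - k) = fun x => stepAt k f x - (k + 1) := by
  have hpos : ∀ x, k < f x := fun x => (hf.2 x).1
  funext x
  unfold promote
  by_cases h : OnPath f (k + 1) x
  · rw [if_pos ((onPath_shift hpos x).2 h)]
    by_cases hz : ∃ z, x < z
    · obtain ⟨z, hz⟩ := hz
      obtain ⟨w, hw⟩ := exists_isSucc f hz
      have hex : ∃ w, IsSucc (fun x => f x - k) x w := ⟨w, (isSucc_shift hpos x w).2 hw⟩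
      rw [dif_pos hex]
      have hch : hex.choose = w :=
        ((isSucc_shift hpos x _).1 hex.choose_spec).unique hf.1 hw
      rw [hch]
      have e1 : stepAt k f x = f w := prom_succ hf.1 h hw
      rw [e1]
      change f w - k - 1 = f w - (k + 1)
      omega
    · have hm : ∀ z, ¬ x < z := fun z hz' => hz ⟨z, hz'⟩
      rw [dif_neg (fun ⟨w, hw⟩ => hm w hw.1)]
      have e1 : stepAt k f x = k + 1 + Fintype.card P := prom_max h hm
      rw [e1]
      omega
  · rw [if_neg (mt (onPath_shift hpos x).1 h)]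
    have e1 : stepAt k f x = f x := prom_not h
    rw [e1]
    change f x - k - 1 = f x - (k + 1)
    omega

theorem promote_iterate {L : P → ℕ} (hL : IsState 0 L) (k : ℕ) :
    promote^[k] L = fun x => run 0 L k x - k := by
  induction k with
  | zero => rfl
  | succ k ih =>
    rw [Function.iterate_succ_apply', ih, promote_shift (hL.run0 k)]
    funext x
    have : run 0 L (k + 1) = stepAt (0 + k) (run 0 L k) := rfl
    rw [this, zero_add]

theorem isLinExt_iff {L : P → ℕ} (hL : IsState 0 L) (k : ℕ) :
    IsLinExt (promote^[k] L) ↔ Sorted 0 (run 0 L k) := by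
  rw [promote_iterate hL k]
  have hst := hL.run0 k
  constructor
  · intro h x z hxz _
    have h1 : run 0 L k x - k < run 0 L k z - k := h x z hxz
    omega
  · intro h x z hxz
    have h1 := h x z hxz (by have := hst.2 x; omega)
    have := hst.2 x
    change run 0 L k x - k < run 0 L k z - k
    omega

theorem sorted_persist {L : P → ℕ} (hL : IsState 0 L) {i j : ℕ} (hij : i ≤ j)
    (h : Sorted 0 (run 0 L i)) : Sorted 0 (run 0 L j) := by
  have e : j = i + (j - i) := by omega
  rw [e, run_add0]
  exact (hL.run0 i).sorted_run h _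

theorem sorted_high {L : P → ℕ} (hL : IsState 0 L) (i : ℕ) :
    Sorted (Fintype.card P) (run 0 L i) := by
  have h := hL.sorted_init
  rw [zero_add] at h
  exact hL.sorted_run h i

/-! ### Structure of tangled labelings -/

theorem tangled_struct {L : P → ℕ} (hL : IsState 0 L) {N : ℕ} (hN : Fintype.card P = N + 2)
    (hns : ¬ Sorted 0 (run 0 L N)) :
    ∃ y z, IsMin y ∧ y < z ∧ L y = N + 2 ∧ run 0 L N y = N + 2 ∧ run 0 L N z = N + 1 := by
  have hst := hL.run0 N
  have hhigh := sorted_high hL N
  rw [hN] at hhigh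
  unfold Sorted at hns
  push Not at hns
  obtain ⟨y, z, hyz, _, hle⟩ := hns
  have hne : run 0 L N z ≠ run 0 L N y := fun h => absurd (hst.1 h) hyz.ne'
  have hy1 : run 0 L N y ≤ N + 2 := by
    by_contra h
    have := hhigh y z hyz (by omega)
    omega
  have h1 := (hst.2 z).1
  have hy : run 0 L N y = N + 2 := by omega
  have hz : run 0 L N z = N + 1 := by omega
  have hmin : IsMin y := by
    intro v hv
    rcases hv.eq_or_lt with h | h
    · exact h.symm.le
    · exfalso
      have hv1 : run 0 L N v ≠ N + 2 := fun h' => absurd (hst.1 (h'.trans hy.symm)) h.ne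
      have hv2 : run 0 L N v ≠ N + 1 := fun h' =>
        absurd (hst.1 (h'.trans hz.symm)) (h.trans hyz).ne
      have hv3 := (hst.2 v).1
      have := hhigh v y h (by omega)
      omega
  -- the token `N+2` never moved
  have hback : ∀ i ≤ N, run 0 L (N - i) y = N + 2 ∧ ∃ z', y < z' ∧ run 0 L (N - i) z' = N + 1 := by
    intro i hi
    induction i with
    | zero => exact ⟨hy, z, hyz, hz⟩
    | succ i ih =>
      obtain ⟨ih1, z', hz'1, hz'2⟩ := ih (by omega)
      have e1 : N - i = (N - (i + 1)) + 1 := by omega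
      have hst' := hL.run0 (N - (i + 1))
      rw [e1] at ih1 hz'2
      obtain ⟨z2, hz2, hz2'⟩ := prom_key_up_le (hL.run (N - (i + 1))).1 hz'2 (by omega)
      obtain ⟨p, hp, h | h⟩ := prom_key_up (hL.run (N - (i + 1))).1 ih1 (by omega)
      · exact ⟨by rw [← h.1, hp], z2, lt_of_lt_of_le hz'1 hz2, hz2'⟩
      · have := h.2.2 z2 (lt_of_lt_of_le hz'1 hz2)
        omega
  have hL0 := (hback N le_rfl).1
  rw [Nat.sub_self] at hL0
  exact ⟨y, z, hmin, hyz, hL0, hy, hz⟩

/-! ### Labelings with the top label at a minimal element -/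

theorem stay_min {L : P → ℕ} (hL : IsState 0 L) {y : P} (hy : IsMin y)
    (hLy : L y = Fintype.card P) {i : ℕ} (hi : i < Fintype.card P) :
    run 0 L i y = Fintype.card P := by
  induction i with
  | zero => exact hLy
  | succ i ih =>
    have ih := ih (by omega)
    have hst := hL.run i
    have hnot : ¬ OnPath (run 0 L i) (0 + i + 1) y := by
      rintro ⟨v, hv, hr⟩
      have : v = y := le_antisymm (path_le hr) (hy (path_le hr))
      subst this
      omega
    change prom (run 0 L i) (0 + i + 1) (0 + i + 1 + Fintype.card P) y = _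
    rw [prom_not hnot, ih]

theorem run_swap_top {L : P → ℕ} (hL : IsState 0 L) {y : P} (hy : IsMin y) {N : ℕ}
    (hN : Fintype.card P = N + 1) (hLy : L y = N + 1) {i : ℕ} (hi : i < N) :
    run 0 (swp N (N + 1) L) i = swp N (N + 1) (run 0 L i) := by
  induction i with
  | zero => rfl
  | succ i ih =>
    have ih := ih (by omega)
    change stepAt (0 + i) (run 0 (swp N (N + 1) L) i) = swp N (N + 1) (stepAt (0 + i) (run 0 L i))
    rw [ih]
    refine prom_swap_comm (hL.run i).1 (by omega) (by omega) ?_
    intro v w z _ _ _ hvz hz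
    have hyt := stay_min hL hy (by rw [hLy, hN]) (i := i) (by omega)
    have : z = y := (hL.run i).1 (by rw [hz, hyt, hN])
    subst this
    exact absurd (hy hvz.le) (not_le_of_gt hvz)

/-- The state condition satisfied by tangled labelings two steps before the end. -/
def R1 (y : P) (n : ℕ) (f : P → ℕ) : Prop :=
  ∃ u w, f u = n + 1 ∧ f w = n + 2 ∧ ((u < w ∧ y < u) ∨ (¬ u < w ∧ y < w))

/-- The state condition that produces quasi-tangled labelings. -/
def R2 (y : P) (n : ℕ) (f : P → ℕ) : Prop :=
  ∃ u w, f u = n + 1 ∧ f w = n + 2 ∧ (y < u ∨ w < u)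

theorem R1_of_tangled {L : P → ℕ} (hL : IsState 0 L) {n : ℕ} (hN : Fintype.card P = n + 3)
    (hns : ¬ Sorted 0 (run 0 L (n + 1))) :
    ∃ y, IsMin y ∧ L y = n + 3 ∧ R1 y n (run 0 L n) := by
  obtain ⟨y, z, hy, hyz, hLy, _, hz⟩ := tangled_struct hL (N := n + 1) (by omega) hns
  refine ⟨y, hy, hLy, ?_⟩
  have hst := hL.run0 n
  obtain ⟨u, hu⟩ := hst.exists_key (k := n + 1) (by omega) (by omega)
  obtain ⟨w, hw⟩ := hst.exists_key (k := n + 2) (by omega) (by omega)
  refine ⟨u, w, hu, hw, ?_⟩
  have hstep : run 0 L (n + 1) = stepAt n (run 0 L n) := by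
    have : run 0 L (n + 1) = stepAt (0 + n) (run 0 L n) := rfl
    rw [this, zero_add]
  have hinj := (hL.run0 (n + 1)).1
  by_cases huw : u < w
  · refine Or.inl ⟨huw, ?_⟩
    have hs : IsSucc (run 0 L n) u w := by
      refine ⟨huw, fun v hv => ?_⟩
      have h1 := (hst.2 v).1
      have h2 : run 0 L n v ≠ n + 1 := fun h => absurd (hst.1 (h.trans hu.symm)) hv.ne'
      omega
    have h3 : run 0 L (n + 1) u = n + 2 := by
      rw [hstep]
      change prom _ _ _ u = _
      rw [prom_succ hst.1 (OnPath.start hu) hs, hw]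
    have : z = u := hinj (hz.trans h3.symm)
    exact this ▸ hyz
  · refine Or.inr ⟨huw, ?_⟩
    have hnot : ¬ OnPath (run 0 L n) (n + 1) w := by
      intro h
      rcases (h.le_of_start hst.1 hu).eq_or_lt with h' | h'
      · subst h'
        omega
      · exact huw h'
    have h3 : run 0 L (n + 1) w = n + 2 := by
      rw [hstep]
      change prom _ _ _ w = _
      rw [prom_not hnot, hw]
    have : z = w := hinj (hz.trans h3.symm)
    exact this ▸ hyz

theorem quasi_of_R2 {L : P → ℕ} (hL : IsState 0 L) {n : ℕ} (hN : Fintype.card P = n + 3)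
    {y : P} (hy : IsMin y) (hLy : L y = n + 3) (hR : R2 y n (run 0 L n)) :
    IsQuasiTangled (swp (n + 2) (n + 3) L) := by
  have hL' : IsState 0 (swp (n + 2) (n + 3) L) :=
    hL.swp (by omega) (by omega) (by omega) (by omega)
  refine ⟨(isLabeling_iff _).2 hL', n + 1, by omega, ?_, ?_⟩
  · change IsLinExt (promote^[n + 1] (swp (n + 2) (n + 3) L))
    rw [isLinExt_iff hL']
    have hhigh := sorted_high hL' (n + 1)
    have hst := hL'.run0 (n + 1)
    have e1 := run_swap_top hL hy (N := n + 2) (by omega) hLy (i := n + 1) (by omega)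
    have hyt := stay_min hL hy (by rw [hLy, hN]) (i := n + 1) (by omega)
    have hy' : run 0 (swp (n + 2) (n + 3) L) (n + 1) y = n + 2 := by
      rw [e1]
      exact swp_right (by rw [hyt, hN])
    intro x z hxz _
    by_contra hlt
    have h1 := (hst.2 x).1
    have h2 := (hst.2 z).1
    have h3 : run 0 (swp (n + 2) (n + 3) L) (n + 1) x ≠
      run 0 (swp (n + 2) (n + 3) L) (n + 1) z := fun h => absurd (hst.1 h) hxz.ne
    have h4 : ¬ Fintype.card P < run 0 (swp (n + 2) (n + 3) L) (n + 1) x :=
      fun h => hlt (hhigh x z hxz h)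
    have h5 : run 0 (swp (n + 2) (n + 3) L) (n + 1) z = n + 2 := by omega
    have h6 : z = y := hst.1 (h5.trans hy'.symm)
    subst h6
    exact absurd (hy hxz.le) (not_le_of_gt hxz)
  · intro j hj
    by_contra hlt
    have hj' : IsLinExt (promote^[j] (swp (n + 2) (n + 3) L)) := hj
    rw [isLinExt_iff hL'] at hj'
    have hs := sorted_persist hL' (by omega : j ≤ n) hj'
    have e1 := run_swap_top hL hy (N := n + 2) (by omega) hLy (i := n) (by omega)
    have hyt := stay_min hL hy (by rw [hLy, hN]) (i := n) (by omega)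
    obtain ⟨u, w, hu, hw, h | h⟩ := hR
    · have h1 := hs y u h
      rw [e1, swp_right (by rw [hyt, hN]), swp_of_ne (by omega) (by omega), hu] at h1
      omega
    · have h1 := hs w u h
      rw [e1, swp_left hw, swp_of_ne (by omega) (by omega), hu] at h1
      omega

end

/-! ### The comparison for one minimal element -/

section compare

variable {P : Type u} [PartialOrder P] [Fintype P] {Q : Type u} [PartialOrder Q]

open Classical in
/-- Labelings with the largest label at `y`. -/
noncomputable def Fy (y : P) : Finset (P → ℕ) :=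
  (finite_states (P := P) 0).toFinset.filter fun L => L y = Fintype.card P

theorem mem_Fy {y : P} {L : P → ℕ} : L ∈ Fy y ↔ IsState 0 L ∧ L y = Fintype.card P := by
  classical
  unfold Fy
  rw [Finset.mem_filter, Set.Finite.mem_toFinset]
  rfl

theorem closed_Fy (y : P) : Closed (Fy y) := by
  refine ⟨fun L hL => (mem_Fy.1 hL).1, fun L hL k hk hk' => ?_⟩
  obtain ⟨h1, h2⟩ := mem_Fy.1 hL
  refine mem_Fy.2 ⟨h1.swp (by omega) (by omega) (by omega) (by omega), ?_⟩
  rw [swp_of_ne (by omega) (by omega), h2]

/-- The part of the conditions with separated positions. -/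
def Rs (φ : P → Q) (y : P) (n : ℕ) (b : Bool) (f : P → ℕ) : Prop :=
  ∃ u w, f u = n + 1 ∧ f w = n + 2 ∧ Sep φ u w ∧ (if b then y < w else y < u)

open Classical in
theorem card_sep {φ : P → Q} (hφ : ∀ x y, φ x ≠ φ y → (x < y ↔ φ x < φ y))
    (hQ : ∀ a b c : Q, a ≤ b → a ≤ c → b ≤ c ∨ c ≤ b) (y : P) {n : ℕ}
    (hN : Fintype.card P = n + 3) :
    ((Fy y).filter fun L => Rs φ y n true (run 0 L n)).card =
    ((Fy y).filter fun L => Rs φ y n false (run 0 L n)).card := by
  have hsym := symAt hφ hQ (closed_Fy y) n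
  have key : ∀ b, ((Fy y).filter fun L => Rs φ y n b (run 0 L n)).card =
      ∑ M ∈ (finite_states (P := P) n).toFinset.filter (fun M => Rs φ y n b M),
        cnt (Fy y) n M := by
    intro b
    rw [Finset.card_eq_sum_card_fiberwise (f := fun L => run 0 L n)
      (t := (finite_states (P := P) n).toFinset.filter (fun M => Rs φ y n b M))]
    · refine Finset.sum_congr rfl fun M hM => ?_
      rw [Finset.mem_filter] at hM
      unfold cnt
      congr 1
      ext L
      simp only [Finset.mem_filter]
      constructor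
      · rintro ⟨⟨h1, _⟩, h2⟩
        exact ⟨h1, h2⟩
      · rintro ⟨h1, h2⟩
        exact ⟨⟨h1, by rw [h2]; exact hM.2⟩, h2⟩
    · intro L hL
      simp only [Finset.coe_filter, Set.mem_ofPred_eq] at hL
      simp only [Finset.coe_filter, Set.mem_ofPred_eq, Set.Finite.mem_toFinset]
      exact ⟨(mem_Fy.1 hL.1).1.run0 n, hL.2⟩
  rw [key, key]
  have hmap : ∀ b, ∀ M ∈ (finite_states (P := P) n).toFinset.filter (fun M => Rs φ y n b M),
      swp (n + 1) (n + 1 + 1) M ∈
        (finite_states (P := P) n).toFinset.filter (fun M => Rs φ y n (!b) M) := by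
    intro b M hM
    simp only [Finset.mem_filter, Set.Finite.mem_toFinset] at hM ⊢
    have hMs : IsState n M := hM.1
    obtain ⟨u, w, hu, hw, hs, h⟩ := hM.2
    refine ⟨hMs.swp (by omega) (by omega) (by omega) (by omega), w, u, swp_right hw,
      swp_left hu, hs.symm, ?_⟩
    cases b
    · exact h
    · exact h
  refine Finset.sum_nbij' (fun M => swp (n + 1) (n + 1 + 1) M)
    (fun M => swp (n + 1) (n + 1 + 1) M) (hmap true) (hmap false) ?_ ?_ ?_
  · intro M _; exact swp_swp _ _ _
  · intro M _; exact swp_swp _ _ _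
  · intro M hM
    simp only [Finset.mem_filter] at hM
    obtain ⟨u, w, hu, hw, hs, _⟩ := hM.2
    exact hsym M (n + 1) u w hs hu hw (by omega) (by omega)

open Classical in
theorem card_R1_le {φ : P → Q} (hφ : ∀ x y, φ x ≠ φ y → (x < y ↔ φ x < φ y))
    (hQ : ∀ a b c : Q, a ≤ b → a ≤ c → b ≤ c ∨ c ≤ b) {y : P}
    (hleaf : ∀ x, φ x = φ y → x = y) {n : ℕ} (hN : Fintype.card P = n + 3) :
    ((Fy y).filter fun L => R1 y n (run 0 L n)).card ≤
    ((Fy y).filter fun L => R2 y n (run 0 L n)).card := by
  have hcard := card_sep hφ hQ y hN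
  have h1 : ((Fy y).filter fun L => R1 y n (run 0 L n)).card ≤
      ((Fy y).filter fun L => R1 y n (run 0 L n) ∧ ¬ Rs φ y n true (run 0 L n)).card +
      ((Fy y).filter fun L => Rs φ y n true (run 0 L n)).card := by
    rw [← Finset.card_union_of_disjoint]
    · refine Finset.card_le_card fun L hL => ?_
      rw [Finset.mem_filter] at hL
      rw [Finset.mem_union, Finset.mem_filter, Finset.mem_filter]
      by_cases h : Rs φ y n true (run 0 L n)
      · exact Or.inr ⟨hL.1, h⟩
      · exact Or.inl ⟨hL.1, hL.2, h⟩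
    · rw [Finset.disjoint_left]
      intro L hL hL'
      rw [Finset.mem_filter] at hL hL'
      exact hL.2.2 hL'.2
  have h2 : ((Fy y).filter fun L => R1 y n (run 0 L n) ∧ ¬ Rs φ y n true (run 0 L n)).card +
      ((Fy y).filter fun L => Rs φ y n false (run 0 L n)).card ≤
      ((Fy y).filter fun L => R2 y n (run 0 L n)).card := by
    rw [← Finset.card_union_of_disjoint]
    · refine Finset.card_le_card fun L hL => ?_
      rw [Finset.mem_union, Finset.mem_filter, Finset.mem_filter] at hL
      rw [Finset.mem_filter]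
      rcases hL with ⟨hL, ⟨u, w, hu, hw, h⟩, hns⟩ | ⟨hL, u, w, hu, hw, _, h⟩
      · refine ⟨hL, u, w, hu, hw, ?_⟩
        rcases h with h | ⟨h, h'⟩
        · exact Or.inl h.2
        · by_cases hwu : w < u
          · exact Or.inr hwu
          · left
            -- `u` and `w` are incomparable, hence in one fibre
            have hfib : φ u = φ w := by
              by_contra hne
              refine hns ⟨u, w, hu, hw, ⟨fun hle => ?_, fun hle => ?_⟩, ?_⟩
              · exact h ((hφ u w hne).2 (lt_of_le_of_ne hle hne))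
              · exact hwu ((hφ w u (Ne.symm hne)).2 (lt_of_le_of_ne hle (Ne.symm hne)))
              · exact h'
            have hyw : φ y ≠ φ w := fun hh => absurd (hleaf w hh.symm) h'.ne'
            have hlt := (hφ y w hyw).1 h'
            rw [← hfib] at hlt hyw
            exact (hφ y u hyw).2 hlt
      · exact ⟨hL, u, w, hu, hw, Or.inl h⟩
    · rw [Finset.disjoint_left]
      intro L hL hL'
      rw [Finset.mem_filter] at hL hL'
      obtain ⟨hLF, ⟨u, w, hu, hw, h⟩, hns⟩ := hL
      obtain ⟨_, u', w', hu', hw', hs, h'⟩ := hL'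
      have hinj := ((mem_Fy.1 hLF).1.run0 n).1
      have eu : u' = u := hinj (hu'.trans hu.symm)
      have ew : w' = w := hinj (hw'.trans hw.symm)
      subst eu
      subst ew
      rcases h with h | h
      · exact hs.1 (map_le φ hφ h.1.le)
      · exact hns ⟨u', w', hu, hw, hs, h.2⟩
  omega

end compare

/-! ### Rooted trees -/

theorem tree_chain {Q : Type u} [Fintype Q] [PartialOrder Q] (h : IsRootedTree Q) :
    ∀ a b c : Q, a ≤ b → a ≤ c → b ≤ c ∨ c ≤ b := by
  obtain ⟨r, hr, hcov⟩ := h
  intro a
  induction a using (wellFounded_gt (α := Q)).induction with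
  | _ a ih =>
  intro b c hab hac
  rcases hab.eq_or_lt with h | hab
  · exact Or.inl (h ▸ hac)
  rcases hac.eq_or_lt with h | hac
  · exact Or.inr (h ▸ hab.le)
  have har : a ≠ r := by
    intro h
    have : IsMax a := (hr a).2 h
    exact absurd (this hab.le) (not_le_of_gt hab)
  obtain ⟨p, _, hp⟩ := hcov a har
  obtain ⟨p1, hp1, hp1'⟩ := exists_covBy_le_of_lt hab
  obtain ⟨p2, hp2, hp2'⟩ := exists_covBy_le_of_lt hac
  have e1 := hp p1 hp1
  have e2 := hp p2 hp2
  subst e1
  subst e2
  exact ih p2 hp2.lt b c hp1' hp2'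

/-! ### The theorem -/

theorem tangled_le_quasi {P : Type u} [PartialOrder P] [Fintype P]
    (hP : IsInflatedTreeDeflatedLeaves P) (hn : 2 ≤ Fintype.card P) :
    {L : P → ℕ | IsTangled L}.ncard ≤ {L : P → ℕ | IsQuasiTangled L}.ncard := by
  classical
  obtain ⟨Q, _, _, φ, hT, ⟨hsurj, _, hφ⟩, hleaf⟩ := hP
  have hQ := tree_chain hT
  have hQfin : {L : P → ℕ | IsQuasiTangled L}.Finite :=
    (finite_states (P := P) 0).subset fun L hL => (isLabeling_iff L).1 hL.1
  have hTns : ∀ L : P → ℕ, IsTangled L → ∀ k, k + 2 = Fintype.card P →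
      IsState 0 L ∧ ¬ Sorted 0 (run 0 L k) := by
    intro L hL k hk
    obtain ⟨h1, m, hm, hleast⟩ := hL
    have hst := (isLabeling_iff L).1 h1
    refine ⟨hst, fun hs => ?_⟩
    have : k ∈ {j : ℕ | IsLinExt (promote^[j] L)} := (isLinExt_iff hst k).2 hs
    have := hleast.2 this
    omega
  obtain ⟨m, hm⟩ : ∃ m, Fintype.card P = m + 2 := ⟨Fintype.card P - 2, by omega⟩
  rcases Nat.eq_zero_or_pos m with h0 | h0
  · -- two elements
    subst h0
    refine Set.ncard_le_ncard_of_injOn (fun L => swp 1 2 L) ?_ ?_ hQfin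
    · intro L hL
      obtain ⟨hst, hns⟩ := hTns L hL 0 (by omega)
      obtain ⟨y, z, hy, hyz, hLy, _, hz⟩ := tangled_struct hst (N := 0) hm hns
      have hLz : L z = 1 := hz
      have hst' : IsState 0 (swp 1 2 L) := hst.swp (by omega) (by omega) (by omega) (by omega)
      refine ⟨(isLabeling_iff _).2 hst', 0, by omega, ?_, fun j _ => Nat.zero_le j⟩
      change IsLinExt (promote^[0] (swp 1 2 L))
      rw [isLinExt_iff hst']
      change Sorted 0 (swp 1 2 L)
      intro a b hab _
      have ha := hst.2 a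
      have hb := hst.2 b
      have hne : L a ≠ L b := fun h => absurd (hst.1 h) hab.ne
      by_cases h1 : L a = 2
      · rw [swp_right h1, swp_left (by omega)]
        omega
      · exfalso
        have h2 : L a = 1 := by omega
        have h3 : L b = 2 := by omega
        have e1 : a = z := hst.1 (h2.trans hLz.symm)
        have e2 : b = y := hst.1 (h3.trans hLy.symm)
        subst e1
        subst e2
        exact absurd (hab.trans hyz) (lt_irrefl _)
    · intro L _ L' _ h
      have h' : swp 1 2 L = swp 1 2 L' := h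
      rw [← swp_swp 1 2 L, h', swp_swp]
  · obtain ⟨n, rfl⟩ : ∃ n, m = n + 1 := ⟨m - 1, by omega⟩
    have hN : Fintype.card P = n + 3 := by omega
    set A : P → Finset (P → ℕ) := fun y => (Fy y).filter fun L => R1 y n (run 0 L n) with hA
    set B : P → Finset (P → ℕ) := fun y => (Fy y).filter fun L => R2 y n (run 0 L n) with hB
    set mins : Finset P := Finset.univ.filter fun y => IsMin y with hmins
    have hAB : ∀ y ∈ mins, (A y).card ≤ (B y).card := by
      intro y hy
      have hy' : IsMin y := (Finset.mem_filter.1 hy).2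
      refine card_R1_le hφ hQ ?_ hN
      have hmin : IsMin (φ y) := by
        intro q hq
        rcases hq.eq_or_lt with h | h
        · exact h.symm.le
        · obtain ⟨x, rfl⟩ := hsurj q
          have := (hφ x y h.ne).2 h
          exact absurd (hy' this.le) (not_le_of_gt this)
      have h1 := hleaf (φ y) hmin
      obtain ⟨a, ha⟩ := Set.ncard_eq_one.1 h1
      intro x hx
      have hx' : x ∈ φ ⁻¹' {φ y} := hx
      have hy'' : y ∈ φ ⁻¹' {φ y} := rfl
      rw [ha] at hx' hy''
      rw [Set.mem_singleton_iff] at hx' hy''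
      rw [hx', hy'']
    have hTA : {L : P → ℕ | IsTangled L} ⊆ ↑(mins.biUnion A) := by
      intro L hL
      obtain ⟨hst, hns⟩ := hTns L hL (n + 1) (by omega)
      obtain ⟨y, hy, hLy, hR⟩ := R1_of_tangled hst hN hns
      rw [Finset.coe_biUnion]
      simp only [Set.mem_iUnion]
      refine ⟨y, ?_, ?_⟩
      · rw [hmins]
        simp only [Finset.coe_filter, Finset.mem_univ, true_and, Set.mem_ofPred_eq]
        exact hy
      · rw [hA]
        simp only [Finset.coe_filter, Set.mem_ofPred_eq]
        exact ⟨mem_Fy.2 ⟨hst, by rw [hLy, hN]⟩, hR⟩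
    have hinj : Function.Injective fun L : P → ℕ => swp (n + 2) (n + 3) L := by
      intro L L' h
      have h' : swp (n + 2) (n + 3) L = swp (n + 2) (n + 3) L' := h
      rw [← swp_swp (n + 2) (n + 3) L, h', swp_swp]
    have hBQ : ↑((mins.biUnion B).image fun L => swp (n + 2) (n + 3) L) ⊆
        {L : P → ℕ | IsQuasiTangled L} := by
      intro L' hL'
      rw [Finset.mem_coe, Finset.mem_image] at hL'
      obtain ⟨L, hL, rfl⟩ := hL'
      rw [Finset.mem_biUnion] at hL
      obtain ⟨y, hy, hL⟩ := hL
      have hy' : IsMin y := (Finset.mem_filter.1 hy).2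
      rw [hB] at hL
      simp only [Finset.mem_filter] at hL
      obtain ⟨h1, h2⟩ := mem_Fy.1 hL.1
      exact quasi_of_R2 h1 hN hy' (by rw [h2, hN]) hL.2
    have hdisj : (mins : Set P).PairwiseDisjoint B := by
      intro y _ y' _ hne
      rw [Function.onFun, Finset.disjoint_left]
      intro L hL hL'
      rw [hB] at hL hL'
      simp only [Finset.mem_filter] at hL hL'
      obtain ⟨h1, h2⟩ := mem_Fy.1 hL.1
      obtain ⟨_, h3⟩ := mem_Fy.1 hL'.1
      exact hne (h1.1 (h2.trans h3.symm))
    calc {L : P → ℕ | IsTangled L}.ncard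
        ≤ (↑(mins.biUnion A) : Set (P → ℕ)).ncard := Set.ncard_le_ncard hTA (Finset.finite_toSet _)
      _ = (mins.biUnion A).card := Set.ncard_coe_finset _
      _ ≤ ∑ y ∈ mins, (A y).card := Finset.card_biUnion_le
      _ ≤ ∑ y ∈ mins, (B y).card := Finset.sum_le_sum hAB
      _ = (mins.biUnion B).card := (Finset.card_biUnion hdisj).symm
      _ = ((mins.biUnion B).image fun L => swp (n + 2) (n + 3) L).card :=
          (Finset.card_image_of_injective _ hinj).symm
      _ = (↑((mins.biUnion B).image fun L => swp (n + 2) (n + 3) L) : Set (P → ℕ)).ncard :=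
          (Set.ncard_coe_finset _).symm
      _ ≤ {L : P → ℕ | IsQuasiTangled L}.ncard := Set.ncard_le_ncard hBQ hQfin

end Pool.Agent.W5h8.Tang
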